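import Pool.Agent.PHB.Defs

/-!
# PHB-Acl: the algebraic closure operator
-/

namespace Pool.Agent.PHB

private theorem am {k k' : Subfield ℂ} (hk : k ≤ k') {z : ℂ} (hz : IsAlgebraic k z) :
    IsAlgebraic k' z :=
  hz.ringHom_of_comp_eq (Subfield.inclusion hk) (RingHom.id ℂ)
    (Subfield.inclusion hk).injective rfl

theorem mem_acl_iff {k : Subfield ℂ} {A : Set ℂ} {z : ℂ} :
    z ∈ acl k A ↔ IsAlgebraic (Subfield.closure ((k : Set ℂ) ∪ A)) z :=
  mem_algebraicClosure_iff

theorem le_acl (k : Subfield ℂ) (A : Set ℂ) : k ≤ acl k A := by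
  intro z hz
  rw [mem_acl_iff]
  exact isAlgebraic_algebraMap
    (⟨z, Subfield.subset_closure (Or.inl hz)⟩ : Subfield.closure ((k : Set ℂ) ∪ A))

theorem subset_acl (k : Subfield ℂ) (A : Set ℂ) : A ⊆ acl k A := by
  intro z hz
  show z ∈ acl k A
  rw [mem_acl_iff]
  exact isAlgebraic_algebraMap
    (⟨z, Subfield.subset_closure (Or.inr hz)⟩ : Subfield.closure ((k : Set ℂ) ∪ A))

private def toI (k : Subfield ℂ) (A : Set ℂ) :
    acl k A →+* algebraicClosure (Subfield.closure ((k : Set ℂ) ∪ A)) ℂ where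
  toFun x := ⟨x.1, x.2⟩
  map_one' := rfl
  map_mul' _ _ := rfl
  map_zero' := rfl
  map_add' _ _ := rfl

theorem acl_ac (k : Subfield ℂ) (A : Set ℂ) (z : ℂ) (hz : IsAlgebraic (acl k A) z) : z ∈ acl k A := by
  have h1 : IsAlgebraic (algebraicClosure (Subfield.closure ((k : Set ℂ) ∪ A)) ℂ) z :=
    hz.ringHom_of_comp_eq (toI k A) (RingHom.id ℂ)
      (fun x y h => Subtype.ext (congrArg Subtype.val h)) rfl
  rw [mem_acl_iff]
  exact h1.restrictScalars _

theorem acl_le {k M : Subfield ℂ} {A : Set ℂ} (hM : ∀ z : ℂ, IsAlgebraic M z → z ∈ M) (hk : k ≤ M)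
    (hA : A ⊆ M) : acl k A ≤ M := by
  intro z hz
  rw [mem_acl_iff] at hz
  exact hM z (am (Subfield.closure_le.2 (Set.union_subset hk hA)) hz)

theorem acl_mono {k k' : Subfield ℂ} {A A' : Set ℂ} (hk : k ≤ k') (hA : A ⊆ A') : acl k A ≤ acl k' A' := by
  intro z hz
  rw [mem_acl_iff] at hz ⊢
  exact am (Subfield.closure_mono (Set.union_subset_union hk hA)) hz

theorem acl_acl (k : Subfield ℂ) (A B : Set ℂ) : acl (acl k A) B = acl k (A ∪ B) := by
  refine le_antisymm ?_ ?_
  · exact acl_le (acl_ac _ _) (acl_mono le_rfl Set.subset_union_left)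
      (Set.subset_union_right.trans (subset_acl _ _))
  · exact acl_le (acl_ac _ _) ((le_acl k A).trans (le_acl _ _))
      (Set.union_subset ((subset_acl k A).trans (le_acl _ B)) (subset_acl _ _))

/-- elements algebraic over a smaller field are algebraic over a larger one -/
theorem alg_mono {k k' : Subfield ℂ} (hk : k ≤ k') {z : ℂ} (hz : IsAlgebraic k z) : IsAlgebraic k' z :=
  am hk hz

end Pool.Agent.PHB
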