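import Pool.Agent.PHB.TL

/-!
# PHB-AddG: adding generic numbers to a good position (imports TL)

PLAN.  `k₁ = acl k (range π)`.  Position: `pos_mono`, `acl_fld`, `le_acl`.  Good: let `(k', L')` be a position, `k₁ ≤ k'`, `L ≤ L'`,
`mu L' ≤ mu L + S0`.  If `rk k' ≥ rk k₁ + (dim L' - dim L)` we are done.  Otherwise `rk k' ≤ rk k₁ + S0 ≤ rk k + m + S0` (`finrank_add_im_le`,
`rk_acl_le`).  `pos_ineq` for `k₁ ≤ k'`: `dim L' + rk k₁ ≤ dim (L' ⊓ Nn k₁) + rk k'` and `Nn k₁ = Nn k` (`nn_gen`); `tl` with `ks = k'`, `Ls = L'`,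
`t = S0 + m`, `j = ρ = S0`: `L' ⊓ Nn k ≤ L`.  So `dim L' + rk k₁ ≤ dim L + rk k'`.
-/

namespace Pool.Agent.PHB

open Submodule

theorem add_gen {K : Subfield ℂ} {n : ℕ} {h : V n} (hh : Gn K h) {k : Subfield ℂ} {L : Submodule ℂ (V n)} {S : ℕ}
    (hp : Pos K h k L) (hg : Good K h k L S) {m : ℕ} {π : Fin m → ℂ} (hπ : Ind K (acl k (Set.range h)) π)
    {S0 : ℕ} (hS : (S0 + m) + S0 + 1 + (1 + (S0 + m)) * S0 ≤ S) :
    Pos K h (acl k (Set.range π)) L ∧ Good K h (acl k (Set.range π)) L S0 := by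
  have hk₁ : Fld K (acl k (Set.range π)) := acl_fld hp.fld (Set.finite_range π)
  have hkk₁ : k ≤ acl k (Set.range π) := le_acl _ _
  refine ⟨pos_mono hp hk₁ hkk₁, ?_⟩
  intro k' L' hp' hkk' hLL' hmu
  by_contra hcon
  obtain ⟨h1, h2⟩ := finrank_add_im_le hLL' hmu
  have h3 := rk_acl_le hp.fld π
  rw [Fintype.card_fin] at h3
  have h4 := pos_ineq hh hk₁ hp' hkk'
  rw [nn_gen hπ] at h4
  have h5 := tl hp hg hp'.fld (hkk₁.trans hkk') hp'.rat hLL' (S0 + m) S0 S0 (by omega) h1 h2 hS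
  have h6 := Submodule.finrank_mono h5
  omega

end Pool.Agent.PHB
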