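import Pool.Agent.PHB.DMem

/-!
# PHB-Bas: ranks and bases (imports DMem)

PLAN.  Linear algebra in `Om K`.  `rk_mono`: `Submodule.finrank_mono` (finite dimensional by `Fld.fin`).  `le_of_rk_le`:
`dK k = dK M` (`Submodule.eq_of_le_of_finrank_le`), `mem_of_dd`.  `rk_acl_le`: `dK_acl`, span of a range has dimension at most the
cardinality.  `rk_acl_ind`: `Ind` says that the sum is direct and the `dd (t i)` are independent.  `exists_basis`: choose a
basis of `dK M` modulo `dK k` among the elements `dd a`, `a ∈ A` (they span the quotient `dK M ⧸ dK k`, e.g. `exists_linearIndependent`,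
`Basis` from a spanning set, of cardinality `finrank = rk M - rk k`; work in the quotient `Om K ⧸ dK K k`), then
`M ≤ acl k (range t)` by `mem_of_dd` and `dK_acl`.
-/

namespace Pool.Agent.PHB

open Submodule

/-- the differentials of the `t i` modulo `dK K k` -/
private noncomputable def qf (K k : Subfield ℂ) {ι : Type} (t : ι → ℂ) : ι → Om K ⧸ dK K k :=
  fun i => (dK K k).mkQ (dd K (t i))

private theorem ind_iff {K k : Subfield ℂ} {ι : Type} [Fintype ι] {t : ι → ℂ} :
    Ind K k t ↔ LinearIndependent ℂ (qf K k t) := by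
  have e : ∀ c : ι → ℂ, ∑ i, c i • qf K k t i = (dK K k).mkQ (∑ i, c i • dd K (t i)) := by
    intro c
    rw [map_sum]
    refine Finset.sum_congr rfl fun i _ => ?_
    rw [map_smul]
    rfl
  rw [Fintype.linearIndependent_iff]
  constructor
  · intro h c hc
    rw [e c, Submodule.mkQ_apply, Submodule.Quotient.mk_eq_zero] at hc
    intro i
    rw [h c hc]
    rfl
  · intro h c hc
    funext i
    refine h c ?_ i
    rw [e c, Submodule.mkQ_apply, Submodule.Quotient.mk_eq_zero]
    exact hc

private theorem finrank_sup_eq {E : Type} [AddCommGroup E] [Module ℂ E] (D S : Submodule ℂ E)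
    [FiniteDimensional ℂ D] [FiniteDimensional ℂ S] :
    Module.finrank ℂ ↥(D ⊔ S) = Module.finrank ℂ D + Module.finrank ℂ (S.map D.mkQ) := by
  have h1 := LinearMap.finrank_range_add_finrank_ker (D.mkQ.domRestrict (D ⊔ S))
  have h2 : LinearMap.range (D.mkQ.domRestrict (D ⊔ S)) = S.map D.mkQ := by
    rw [LinearMap.range_domRestrict, Submodule.map_sup, Submodule.mkQ_map_self,
      bot_sup_eq]
  have h3 : LinearMap.ker (D.mkQ.domRestrict (D ⊔ S)) = D.comap (D ⊔ S).subtype := by
    ext x
    rw [LinearMap.mem_ker, LinearMap.domRestrict_apply, Submodule.mkQ_apply,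
      Submodule.Quotient.mk_eq_zero]
    rfl
  have h4 : Module.finrank ℂ (D.comap (D ⊔ S).subtype) = Module.finrank ℂ D :=
    LinearEquiv.finrank_eq (Submodule.comapSubtypeEquivOfLe le_sup_left)
  rw [h2, h3, h4] at h1
  omega

private theorem map_range {K k : Subfield ℂ} {ι : Type} (t : ι → ℂ) :
    (span ℂ (dd K '' Set.range t)).map (dK K k).mkQ = span ℂ (Set.range (qf K k t)) := by
  rw [Submodule.map_span, ← Set.range_comp, ← Set.range_comp]
  rfl

private theorem rk_acl {K k : Subfield ℂ} (hk : Fld K k) {ι : Type} [Fintype ι] (t : ι → ℂ) :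
    rk K (acl k (Set.range t)) = rk K k + (Set.range (qf K k t)).finrank ℂ := by
  have := hk.fin
  have : FiniteDimensional ℂ (span ℂ (dd K '' Set.range t)) :=
    FiniteDimensional.span_of_finite ℂ ((Set.finite_range t).image _)
  unfold rk
  rw [dK_acl, finrank_sup_eq, map_range]
  rfl

theorem rk_mono {K k M : Subfield ℂ} (hM : Fld K M) (hkM : k ≤ M) : rk K k ≤ rk K M := by
  have := hM.fin
  exact Submodule.finrank_mono (dK_mono hkM)

theorem le_of_rk_le {K k M : Subfield ℂ} (hk : Fld K k) (hM : Fld K M) (hkM : k ≤ M) (h : rk K M ≤ rk K k) :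
    M ≤ k := by
  have := hM.fin
  have h1 : dK K k = dK K M := Submodule.eq_of_le_of_finrank_le (dK_mono hkM) h
  intro z hz
  refine mem_of_dd hk ?_
  rw [h1]
  exact dd_mem hz

theorem rk_acl_le {K k : Subfield ℂ} (hk : Fld K k) {ι : Type} [Fintype ι] (t : ι → ℂ) :
    rk K (acl k (Set.range t)) ≤ rk K k + Fintype.card ι := by
  rw [rk_acl hk]
  exact Nat.add_le_add_left (finrank_range_le_card _) _

theorem rk_acl_ind {K k : Subfield ℂ} (hk : Fld K k) {ι : Type} [Fintype ι] {t : ι → ℂ} (ht : Ind K k t) :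
    rk K (acl k (Set.range t)) = rk K k + Fintype.card ι := by
  rw [rk_acl hk]
  congr 1
  exact finrank_span_eq_card (ind_iff.1 ht)

theorem ind_of_rk {K k : Subfield ℂ} (hk : Fld K k) {ι : Type} [Fintype ι] {t : ι → ℂ}
    (ht : rk K k + Fintype.card ι ≤ rk K (acl k (Set.range t))) : Ind K k t := by
  rw [rk_acl hk] at ht
  rw [ind_iff, linearIndependent_iff_card_le_finrank_span]
  omega

theorem exists_basis {K k M : Subfield ℂ} (hk : Fld K k) (hM : Fld K M) (hkM : k ≤ M) {A : Set ℂ}
    (hA : A ⊆ M) (hsp : dK K M ≤ dK K k ⊔ span ℂ (dd K '' A)) :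
    ∃ t : Fin (rk K M - rk K k) → ℂ, (∀ i, t i ∈ A) ∧ Ind K k t ∧ M ≤ acl k (Set.range t) := by
  have := hk.fin
  have := hM.fin
  have hkd : dK K k ≤ dK K M := dK_mono hkM
  have hmap : span ℂ ((fun z => (dK K k).mkQ (dd K z)) '' A) = (dK K M).map (dK K k).mkQ := by
    have e : (fun z => (dK K k).mkQ (dd K z)) '' A = (dK K k).mkQ '' (dd K '' A) := by
      rw [Set.image_image]
    rw [e, ← Submodule.map_span]
    refine le_antisymm (Submodule.map_mono (span_le.2 ?_)) ?_
    · rintro _ ⟨z, hz, rfl⟩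
      exact dd_mem (hA hz)
    · refine le_trans (Submodule.map_mono hsp) ?_
      rw [Submodule.map_sup, Submodule.mkQ_map_self, bot_sup_eq]
  have hfr : Module.finrank ℂ ((dK K M).map (dK K k).mkQ) = rk K M - rk K k := by
    have h1 := finrank_sup_eq (dK K k) (dK K M)
    rw [sup_eq_right.2 hkd] at h1
    unfold rk
    omega
  obtain ⟨b, hbA, hbs, hbi⟩ :=
    exists_linearIndependent ℂ ((fun z => (dK K k).mkQ (dd K z)) '' A)
  have : FiniteDimensional ℂ (span ℂ (Set.range (Subtype.val : b → Om K ⧸ dK K k))) := by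
    rw [Subtype.range_coe, hbs, hmap]
    infer_instance
  have hbf : b.Finite := by
    have h1 := (linearIndependent_span hbi)
    have : Finite b := h1.finite
    exact Set.toFinite b
  have : Fintype b := hbf.fintype
  have hcard : Fintype.card b = rk K M - rk K k := by
    have h1 := finrank_span_eq_card hbi
    rw [Subtype.range_coe, hbs, hmap, hfr] at h1
    exact h1.symm
  have e : Fin (rk K M - rk K k) ≃ b := (Fintype.equivFinOfCardEq hcard).symm
  choose t ht using fun i => hbA (e i).2
  have hq : qf K k t = fun i => ((e i : b) : Om K ⧸ dK K k) := by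
    funext i
    exact (ht i).2
  have hI : Ind K k t := by
    rw [ind_iff, hq]
    exact hbi.comp e e.injective
  refine ⟨t, fun i => (ht i).1, hI, ?_⟩
  refine le_of_rk_le (acl_fld hk (Set.finite_range t)) hM ?_ ?_
  · refine acl_le hM.ac hkM ?_
    rintro _ ⟨i, rfl⟩
    exact hA (ht i).1
  · rw [rk_acl_ind hk hI, Fintype.card_fin]
    omega

theorem ind_mono {K k k' : Subfield ℂ} (hkk : k ≤ k') {ι : Type} [Fintype ι] {t : ι → ℂ} (ht : Ind K k' t) :
    Ind K k t :=
  fun c hc => ht c (dK_mono hkk hc)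

end Pool.Agent.PHB
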