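import Pool.Agent.PHB.RatS

/-!
# PHB-Rk: column spaces and sizes
-/

namespace Pool.Agent.PHB

open Submodule

variable {n : ℕ}

/-- columns as a linear map -/
private def catL (T : Sb n) : V n →ₗ[ℂ] (Sb n → ℂ) where
  toFun l := cat l T
  map_add' _ _ := rfl
  map_smul' _ _ := rfl

theorem im_mono {L L' : Submodule ℂ (V n)} (h : L ≤ L') : Im L ≤ Im L' := by
  refine span_mono ?_
  rintro _ ⟨l, hl, T, rfl⟩
  exact ⟨l, h hl, T, rfl⟩

theorem im_sup (L L' : Submodule ℂ (V n)) : Im (L ⊔ L') = Im L ⊔ Im L' := by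
  apply le_antisymm
  · refine span_le.2 ?_
    rintro _ ⟨l, hl, T, rfl⟩
    have h1 : L ⊔ L' ≤ (Im L ⊔ Im L').comap (catL T) := by
      refine sup_le ?_ ?_
      · intro x hx
        exact mem_sup_left (subset_span ⟨x, hx, T, rfl⟩)
      · intro x hx
        exact mem_sup_right (subset_span ⟨x, hx, T, rfl⟩)
    exact h1 hl
  · exact sup_le (im_mono le_sup_left) (im_mono le_sup_right)

theorem im_span (X : Set (V n)) : Im (span ℂ X) = span ℂ {c | ∃ l ∈ X, ∃ T, c = cat l T} := by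
  apply le_antisymm
  · refine span_le.2 ?_
    rintro _ ⟨l, hl, T, rfl⟩
    have h1 : span ℂ X ≤ (span ℂ {c : Sb n → ℂ | ∃ l ∈ X, ∃ T, c = cat l T}).comap (catL T) := by
      refine span_le.2 ?_
      intro x hx
      exact subset_span ⟨x, hx, T, rfl⟩
    exact h1 hl
  · refine span_mono ?_
    rintro _ ⟨l, hl, T, rfl⟩
    exact ⟨l, subset_span hl, T, rfl⟩

theorem mu_mono {L L' : Submodule ℂ (V n)} (h : L ≤ L') : mu L ≤ mu L' := by
  exact Nat.add_le_add (Submodule.finrank_mono h) (Submodule.finrank_mono (im_mono h))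

theorem mu_sup (L L' : Submodule ℂ (V n)) : mu (L ⊔ L') ≤ mu L + mu L' := by
  have h1 := Submodule.finrank_add_le_finrank_add_finrank L L'
  have h2 := Submodule.finrank_add_le_finrank_add_finrank (Im L) (Im L')
  rw [← im_sup] at h2
  unfold mu
  omega

theorem mu_bot : mu (⊥ : Submodule ℂ (V n)) = 0 := by
  have h1 : Im (⊥ : Submodule ℂ (V n)) = ⊥ := by
    rw [eq_bot_iff]
    refine span_le.2 ?_
    rintro _ ⟨l, hl, T, rfl⟩
    rw [Submodule.mem_bot] at hl
    subst hl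
    exact (Submodule.mem_bot ℂ).2 rfl
  unfold mu
  rw [h1, finrank_bot, finrank_bot]

theorem finrank_add_im_le {L L' : Submodule ℂ (V n)} (h : L ≤ L') {S : ℕ} (hS : mu L' ≤ mu L + S) :
    Module.finrank ℂ L' ≤ Module.finrank ℂ L + S ∧ Module.finrank ℂ (Im L') ≤ Module.finrank ℂ (Im L) + S := by
  have h1 : Module.finrank ℂ L ≤ Module.finrank ℂ L' := Submodule.finrank_mono h
  have h2 : Module.finrank ℂ (Im L) ≤ Module.finrank ℂ (Im L') := Submodule.finrank_mono (im_mono h)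
  unfold mu at hS
  omega

theorem im_rat {k : Subfield ℂ} {L : Submodule ℂ (V n)} (hL : Rat k L) : Rat k (Im L) := by
  refine span_le.2 ?_
  rintro _ ⟨l, hl, T, rfl⟩
  have h1 : L ≤ (span ℂ {c : Sb n → ℂ | c ∈ Im L ∧ Rv k c}).comap (catL T) := by
    refine hL.trans (span_le.2 ?_)
    rintro x ⟨hx, hxk⟩
    exact subset_span ⟨subset_span ⟨x, hx, T, rfl⟩, fun S => hxk (mad S T)⟩
  exact h1 hl

end Pool.Agent.PHB
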