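import Pool.Agent.PHB.NIn
import Pool.Agent.PHB.Rk

/-!
# PHB-Cls: closures by pigeonhole on the integer valued potential `rk - finrank`
-/

namespace Pool.Agent.PHB

open Submodule

private theorem pig {K : Subfield ℂ} {n : ℕ} {h : V n} {k₀ : Subfield ℂ} {L₀ : Submodule ℂ (V n)}
    (q S' : ℕ) (b : ℤ)
    (hlow : ∀ (k' : Subfield ℂ) (L' : Submodule ℂ (V n)), Pos K h k' L' → k₀ ≤ k' → L₀ ≤ L' →
      mu L' ≤ mu L₀ + (q + 1) * S' → b ≤ (rk K k' : ℤ) - (Module.finrank ℂ L' : ℤ))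
    (hst : Pos K h k₀ L₀) (hs : (rk K k₀ : ℤ) - (Module.finrank ℂ L₀ : ℤ) ≤ b + q) :
    ∃ (k₁ : Subfield ℂ) (L₁ : Submodule ℂ (V n)), Pos K h k₁ L₁ ∧ k₀ ≤ k₁ ∧ L₀ ≤ L₁ ∧
      mu L₁ ≤ mu L₀ + q * S' ∧ Good K h k₁ L₁ S' ∧
      (rk K k₁ : ℤ) - (Module.finrank ℂ L₁ : ℤ) ≤ b + q := by
  by_contra hcon
  have key : ∀ j : ℕ, j ≤ q + 1 → ∃ (k' : Subfield ℂ) (L' : Submodule ℂ (V n)), Pos K h k' L' ∧
      k₀ ≤ k' ∧ L₀ ≤ L' ∧ mu L' ≤ mu L₀ + j * S' ∧
      (rk K k' : ℤ) - (Module.finrank ℂ L' : ℤ) ≤ b + q - j := by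
    intro j
    induction j with
    | zero =>
      intro _
      refine ⟨k₀, L₀, hst, le_refl _, le_refl _, ?_, ?_⟩
      · omega
      · push_cast
        linarith
    | succ j ih =>
      intro hj
      obtain ⟨k', L', hp, hk, hL, hmu, hd⟩ := ih (by omega)
      have hng : ¬ Good K h k' L' S' := by
        intro hg
        apply hcon
        refine ⟨k', L', hp, hk, hL, le_trans hmu ?_, hg, ?_⟩
        · exact Nat.add_le_add_left (Nat.mul_le_mul_right S' (by omega)) _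
        · have : (0 : ℤ) ≤ (j : ℤ) := Int.natCast_nonneg j
          linarith
      unfold Good at hng
      push Not at hng
      obtain ⟨k'', L'', hp', hk', hL', hmu', hlt⟩ := hng
      refine ⟨k'', L'', hp', le_trans hk hk', le_trans hL hL', ?_, ?_⟩
      · calc mu L'' ≤ mu L' + S' := hmu'
          _ ≤ mu L₀ + j * S' + S' := Nat.add_le_add_right hmu _
          _ = mu L₀ + (j + 1) * S' := by ring
      · push_cast
        have h1 : (rk K k'' : ℤ) + (Module.finrank ℂ L' : ℤ) < (rk K k' : ℤ) + (Module.finrank ℂ L'' : ℤ) := by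
          exact_mod_cast hlt
        linarith
  obtain ⟨k', L', hp, hk, hL, hmu, hd⟩ := key (q + 1) le_rfl
  have h1 := hlow k' L' hp hk hL hmu
  push_cast at hd
  linarith

theorem closure {K : Subfield ℂ} {n : ℕ} {h : V n} {k : Subfield ℂ} {L : Submodule ℂ (V n)} {S : ℕ}
    (hp : Pos K h k L) (hg : Good K h k L S) {q : ℕ} (v : Fin q → ℂ) {S' : ℕ} (hS : (q + 1) * S' ≤ S) :
    ∃ (k₁ : Subfield ℂ) (L₁ : Submodule ℂ (V n)), Pos K h k₁ L₁ ∧ k ≤ k₁ ∧ L ≤ L₁ ∧ (∀ i, v i ∈ k₁) ∧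
      mu L₁ ≤ mu L + q * S' ∧ Good K h k₁ L₁ S' ∧
      rk K k₁ + Module.finrank ℂ L ≤ rk K k + Module.finrank ℂ L₁ + q := by
  have hk0 : k ≤ acl k (Set.range v) := le_acl k _
  have hF : Fld K (acl k (Set.range v)) := acl_fld hp.fld (Set.finite_range v)
  have hst : Pos K h (acl k (Set.range v)) L := pos_mono hp hF hk0
  have hrk : rk K (acl k (Set.range v)) ≤ rk K k + q := by
    have := rk_acl_le hp.fld v
    rwa [Fintype.card_fin] at this
  obtain ⟨k₁, L₁, h1, h2, h3, h4, h5, h6⟩ := pig (K := K) (h := h) (k₀ := acl k (Set.range v))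
    (L₀ := L) q S' ((rk K k : ℤ) - (Module.finrank ℂ L : ℤ)) (by
      intro k' L' hp' hk' hL' hmu
      have h7 := hg k' L' hp' (le_trans hk0 hk') hL' (le_trans hmu (Nat.add_le_add_left hS _))
      have h8 : (rk K k : ℤ) + (Module.finrank ℂ L' : ℤ) ≤ (rk K k' : ℤ) + (Module.finrank ℂ L : ℤ) := by
        exact_mod_cast h7
      linarith) hst (by
      have h9 : (rk K (acl k (Set.range v)) : ℤ) ≤ (rk K k : ℤ) + (q : ℤ) := by exact_mod_cast hrk
      linarith)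
  refine ⟨k₁, L₁, h1, le_trans hk0 h2, h3, fun i => h2 (subset_acl k _ (Set.mem_range_self i)), h4, h5, ?_⟩
  have h10 : (rk K k₁ : ℤ) + (Module.finrank ℂ L : ℤ) ≤ (rk K k : ℤ) + (Module.finrank ℂ L₁ : ℤ) + (q : ℤ) := by
    linarith
  exact_mod_cast h10

private theorem rk_start (K : Subfield ℂ) {p : ℕ} (u : Fin p → ℂ) : rk K (acl K (Set.range u)) ≤ p := by
  have h0 : dK K K = ⊥ := by
    unfold dK
    rw [Submodule.span_eq_bot]
    rintro x ⟨z, hz, rfl⟩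
    exact dd_fix hz
  unfold rk
  rw [dK_acl, h0, bot_sup_eq]
  have e : dd K '' Set.range u = Set.range (fun i => dd K (u i)) := by
    rw [← Set.range_comp]
    rfl
  rw [e]
  have := finrank_range_le_card (R := ℂ) (fun i => dd K (u i))
  rw [Fintype.card_fin] at this
  exact this

theorem closure_start {K : Subfield ℂ} {n : ℕ} {h : V n} (hh : Gn K h) {p : ℕ} (u : Fin p → ℂ) (S' : ℕ) :
    ∃ (k₁ : Subfield ℂ) (L₁ : Submodule ℂ (V n)), Pos K h k₁ L₁ ∧ (∀ i, u i ∈ k₁) ∧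
      mu L₁ ≤ p * S' ∧ Good K h k₁ L₁ S' ∧ rk K k₁ ≤ Module.finrank ℂ L₁ + p := by
  have hst : Pos K h (acl K (Set.range u)) (⊥ : Submodule ℂ (V n)) := by
    refine ⟨acl_fld_bot K (Set.finite_range u), bot_le, ?_⟩
    intro l hl _
    rw [Submodule.mem_bot] at hl
    rw [hl, zero_dotProduct]
    exact zero_mem _
  obtain ⟨k₁, L₁, h1, h2, h3, h4, h5, h6⟩ := pig (K := K) (h := h) (k₀ := acl K (Set.range u))
    (L₀ := (⊥ : Submodule ℂ (V n))) p S' 0 (by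
      intro k' L' hp' _ _ _
      have h7 := delta_nonneg hh hp'
      have h8 : (Module.finrank ℂ L' : ℤ) ≤ (rk K k' : ℤ) := by exact_mod_cast h7
      linarith) hst (by
      have h9 : (rk K (acl K (Set.range u)) : ℤ) ≤ (p : ℤ) := by exact_mod_cast rk_start K u
      have h10 : (0 : ℤ) ≤ (Module.finrank ℂ (⊥ : Submodule ℂ (V n)) : ℤ) := Int.natCast_nonneg _
      linarith)
  refine ⟨k₁, L₁, h1, fun i => h2 (subset_acl K _ (Set.mem_range_self i)), ?_, h5, ?_⟩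
  · rwa [mu_bot, Nat.zero_add] at h4
  · have h11 : (rk K k₁ : ℤ) ≤ (Module.finrank ℂ L₁ : ℤ) + (p : ℤ) := by linarith
    exact_mod_cast h11

end Pool.Agent.PHB
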