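import Pool.Agent.PHB.Acl

/-!
# PHB-DAcl: differentials and the algebraic closure

`dd` is a derivation.  The elements whose differentials lie in a given subspace form a subfield, which contains the
elements algebraic over it (minimal polynomials, characteristic zero).
-/

namespace Pool.Agent.PHB

open Submodule

theorem dd_add (K : Subfield ℂ) (x y : ℂ) : dd K (x + y) = dd K x + dd K y :=
  map_add (KaehlerDifferential.D K ℂ) x y

theorem dd_sub (K : Subfield ℂ) (x y : ℂ) : dd K (x - y) = dd K x - dd K y :=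
  map_sub (KaehlerDifferential.D K ℂ) x y

theorem dd_mul (K : Subfield ℂ) (x y : ℂ) : dd K (x * y) = x • dd K y + y • dd K x :=
  (KaehlerDifferential.D K ℂ).leibniz x y

theorem dd_sum (K : Subfield ℂ) {ι : Type} (s : Finset ι) (f : ι → ℂ) :
    dd K (∑ i ∈ s, f i) = ∑ i ∈ s, dd K (f i) :=
  map_sum (KaehlerDifferential.D K ℂ) f s

theorem dd_fix {K : Subfield ℂ} {x : ℂ} (hx : x ∈ K) : dd K x = 0 :=
  (KaehlerDifferential.D K ℂ).map_algebraMap (⟨x, hx⟩ : K)

theorem dd_mem {K k : Subfield ℂ} {x : ℂ} (hx : x ∈ k) : dd K x ∈ dK K k :=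
  subset_span ⟨x, hx, rfl⟩

theorem dK_mono {K k k' : Subfield ℂ} (h : k ≤ k') : dK K k ≤ dK K k' :=
  span_mono (Set.image_mono h)

/-- the elements with differential in `W` -/
private noncomputable def inW (K : Subfield ℂ) (W : Submodule ℂ (Om K)) : Subfield ℂ where
  carrier := {x | dd K x ∈ W}
  mul_mem' := fun {x y} hx hy => by
    show dd K (x * y) ∈ W
    rw [dd_mul]
    exact W.add_mem (W.smul_mem x hy) (W.smul_mem y hx)
  one_mem' := by
    show dd K 1 ∈ W
    rw [dd_fix K.one_mem]
    exact W.zero_mem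
  add_mem' := fun {x y} hx hy => by
    show dd K (x + y) ∈ W
    rw [dd_add]
    exact W.add_mem hx hy
  zero_mem' := by
    show dd K 0 ∈ W
    rw [dd_fix K.zero_mem]
    exact W.zero_mem
  neg_mem' := fun {x} hx => by
    show dd K (-x) ∈ W
    have h : dd K (-x) = -dd K x := map_neg (KaehlerDifferential.D K ℂ) x
    rw [h]
    exact W.neg_mem hx
  inv_mem' := fun x hx => by
    show dd K x⁻¹ ∈ W
    have h : dd K x⁻¹ = -x⁻¹ ^ 2 • dd K x := (KaehlerDifferential.D K ℂ).leibniz_inv x
    rw [h]
    exact W.smul_mem _ hx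

private theorem dacl_poly (K F : Subfield ℂ) (W : Submodule ℂ (Om K)) (hF : ∀ x ∈ F, dd K x ∈ W) (z : ℂ)
    (P : Polynomial F) :
    dd K (Polynomial.aeval z P) - (Polynomial.aeval z (Polynomial.derivative P)) • dd K z ∈ W := by
  induction P using Polynomial.induction_on' with
  | add p q hp hq =>
    rw [map_add, map_add, map_add, dd_add, add_smul]
    have h : dd K (Polynomial.aeval z p) + dd K (Polynomial.aeval z q) -
        ((Polynomial.aeval z (Polynomial.derivative p)) • dd K z +
          (Polynomial.aeval z (Polynomial.derivative q)) • dd K z) =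
        (dd K (Polynomial.aeval z p) - (Polynomial.aeval z (Polynomial.derivative p)) • dd K z) +
        (dd K (Polynomial.aeval z q) - (Polynomial.aeval z (Polynomial.derivative q)) • dd K z) := by
      abel
    rw [h]
    exact W.add_mem hp hq
  | monomial n a =>
    rw [Polynomial.derivative_monomial, Polynomial.aeval_monomial, Polynomial.aeval_monomial, dd_mul]
    have h1 : dd K (z ^ n) = n • z ^ (n - 1) • dd K z := (KaehlerDifferential.D K ℂ).leibniz_pow z n
    have h2 : (algebraMap F ℂ a) • dd K (z ^ n) =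
        (algebraMap F ℂ (a * n) * z ^ (n - 1)) • dd K z := by
      rw [h1, map_mul, map_natCast, ← Nat.cast_smul_eq_nsmul ℂ, smul_smul, smul_smul, mul_assoc]
    rw [h2, add_sub_cancel_left]
    exact W.smul_mem _ (hF a.1 a.2)

private theorem dacl_alg (K F : Subfield ℂ) (W : Submodule ℂ (Om K)) (hF : ∀ x ∈ F, dd K x ∈ W) {z : ℂ}
    (hz : IsAlgebraic F z) : dd K z ∈ W := by
  have hint : IsIntegral F z := isAlgebraic_iff_isIntegral.1 hz
  have h1 := dacl_poly K F W hF z (minpoly F z)
  have hsep : (minpoly F z).Separable := (minpoly.irreducible hint).separable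
  have h2 := hsep.aeval_derivative_ne_zero (minpoly.aeval F z)
  rw [minpoly.aeval, dd_fix K.zero_mem, zero_sub, neg_mem_iff] at h1
  exact (W.smul_mem_iff h2).1 h1

theorem dK_acl (K : Subfield ℂ) (k : Subfield ℂ) (A : Set ℂ) :
    dK K (acl k A) = dK K k ⊔ span ℂ (dd K '' A) := by
  refine le_antisymm ?_ (sup_le (dK_mono (le_acl k A)) (span_le.2 ?_))
  · set W := dK K k ⊔ span ℂ (dd K '' A) with hW
    have h1 : Subfield.closure ((k : Set ℂ) ∪ A) ≤ inW K W := by
      rw [Subfield.closure_le]
      rintro x (hx | hx)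
      · exact mem_sup_left (dd_mem hx)
      · exact mem_sup_right (subset_span ⟨x, hx, rfl⟩)
    refine span_le.2 ?_
    rintro _ ⟨z, hz, rfl⟩
    exact dacl_alg K _ W (fun x hx => h1 hx) (mem_acl_iff.1 hz)
  · rintro _ ⟨x, hx, rfl⟩
    exact dd_mem (subset_acl k A hx)

theorem acl_fld {K k : Subfield ℂ} (hk : Fld K k) {A : Set ℂ} (hA : A.Finite) : Fld K (acl k A) := by
  refine ⟨hk.le.trans (le_acl k A), acl_ac k A, ?_⟩
  rw [dK_acl]
  have h1 : FiniteDimensional ℂ (dK K k) := hk.fin
  have h2 : FiniteDimensional ℂ (span ℂ (dd K '' A)) := FiniteDimensional.span_of_finite ℂ (hA.image _)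
  infer_instance

/-- the algebraic closure of `K` itself -/
theorem acl_fld_bot (K : Subfield ℂ) {A : Set ℂ} (hA : A.Finite) : Fld K (acl K A) := by
  refine ⟨le_acl K A, acl_ac K A, ?_⟩
  rw [dK_acl]
  have h0 : dK K K = ⊥ := by
    unfold dK
    rw [span_eq_bot]
    rintro _ ⟨x, hx, rfl⟩
    exact dd_fix hx
  rw [h0, bot_sup_eq]
  exact FiniteDimensional.span_of_finite ℂ (hA.image _)

end Pool.Agent.PHB
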