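import Pool.Agent.PHB.DAcl

/-!
# PHB-DMem: differentials detect algebraic dependence

For a transcendence basis `b` of `ℂ` over `k` there are derivations of `ℂ` over `k` dual to `b` (`exists_der`, as in
`Pool/Agent/VRJ/Dli.lean`).  For `K ≤ k` they give functionals on `Om K` which vanish on `dK K k` (`fun_of_der`).
`algInd_of_ind`: an element algebraic over `k` and other elements has its differential in the span of
the others modulo `dK K k` (`dK_acl`).
-/

namespace Pool.Agent.PHB

open Submodule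

open scoped IntermediateField.algebraAdjoinAdjoin in
private theorem etale (K : Subfield ℂ) {β : Type} (b : β → ℂ) (hb : IsTranscendenceBasis K b) :
    Algebra.FormallyEtale (Algebra.adjoin K (Set.range b)) ℂ := by
  have h1 : Algebra.FormallyEtale (Algebra.adjoin K (Set.range b))
      (IntermediateField.adjoin K (Set.range b)) :=
    Algebra.FormallyEtale.of_isLocalization (nonZeroDivisors (Algebra.adjoin K (Set.range b)))
  have h2 : Algebra.IsAlgebraic (IntermediateField.adjoin K (Set.range b)) ℂ := hb.isAlgebraic_field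
  have h3 : Algebra.FormallyEtale (IntermediateField.adjoin K (Set.range b)) ℂ :=
    Algebra.FormallyEtale.of_isSeparable _ _
  exact Algebra.FormallyEtale.comp _ (IntermediateField.adjoin K (Set.range b)) ℂ

/-- the partial derivative with respect to an element of a transcendence basis -/
private noncomputable def dS (K : Subfield ℂ) {β : Type} (b : β → ℂ)
    (hb : AlgebraicIndependent K b) (i : β) : Derivation K (Algebra.adjoin K (Set.range b)) ℂ :=
  Derivation.mk' ((MvPolynomial.aeval b).toLinearMap ∘ₗ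
    (MvPolynomial.pderiv i : Derivation K (MvPolynomial β K) _).toLinearMap ∘ₗ
      hb.repr.toLinearMap) (by
    intro x y
    have h : ∀ z : Algebra.adjoin K (Set.range b), MvPolynomial.aeval b (hb.repr z) = (z : ℂ) :=
      hb.aeval_repr
    show MvPolynomial.aeval b (MvPolynomial.pderiv i (hb.repr (x * y))) =
      x • MvPolynomial.aeval b (MvPolynomial.pderiv i (hb.repr y)) +
        y • MvPolynomial.aeval b (MvPolynomial.pderiv i (hb.repr x))
    rw [map_mul, Derivation.leibniz, map_add, smul_eq_mul, smul_eq_mul, map_mul, map_mul, h, h]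
    rfl)

private theorem dS_apply (K : Subfield ℂ) {β : Type} [DecidableEq β] (b : β → ℂ)
    (hb : AlgebraicIndependent K b) (i j : β) :
    dS K b hb i ⟨b j, Algebra.subset_adjoin ⟨j, rfl⟩⟩ = if j = i then 1 else 0 := by
  have h1 : hb.repr ⟨b j, Algebra.subset_adjoin ⟨j, rfl⟩⟩ = MvPolynomial.X j := by
    apply hb
    rw [hb.aeval_repr, MvPolynomial.aeval_X]
  show MvPolynomial.aeval b (MvPolynomial.pderiv i (hb.repr ⟨b j, _⟩)) = _
  rw [h1, MvPolynomial.pderiv_X]
  by_cases h : j = i
  · rw [if_pos h, h, Pi.single_eq_same, map_one]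
  · rw [if_neg h, Pi.single_eq_of_ne h, map_zero]

private theorem exists_der (K : Subfield ℂ) {β : Type} [DecidableEq β] (b : β → ℂ)
    (hb : IsTranscendenceBasis K b) (i : β) :
    ∃ D : Derivation K ℂ ℂ, ∀ j, D (b j) = if j = i then 1 else 0 := by
  have := etale K b hb
  have hbc := KaehlerDifferential.isBaseChange_of_formallyEtale K
    (Algebra.adjoin K (Set.range b)) ℂ
  refine ⟨(hbc.lift (dS K b hb.1 i).liftKaehlerDifferential).compDer
    (KaehlerDifferential.D K ℂ), fun j => ?_⟩
  rw [← dS_apply K b hb.1 i j]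
  have h1 : KaehlerDifferential.D K ℂ (b j) =
      KaehlerDifferential.map K K (Algebra.adjoin K (Set.range b)) ℂ
        (KaehlerDifferential.D K (Algebra.adjoin K (Set.range b))
          ⟨b j, Algebra.subset_adjoin ⟨j, rfl⟩⟩) := by
    rw [KaehlerDifferential.map_D]
    rfl
  show hbc.lift (dS K b hb.1 i).liftKaehlerDifferential (KaehlerDifferential.D K ℂ (b j)) = _
  rw [h1, hbc.lift_eq, Derivation.liftKaehlerDifferential_comp_D]

private theorem exists_der_ind {k : Subfield ℂ} {ι : Type} [DecidableEq ι] {a : ι → ℂ}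
    (h : AlgebraicIndependent k a) (i : ι) :
    ∃ D : Derivation k ℂ ℂ, ∀ j, D (a j) = if j = i then 1 else 0 := by
  classical
  obtain ⟨t, hst, ht⟩ := exists_isTranscendenceBasis_superset (R := k) (s := Set.range a)
    h.coe_range
  have hmem : ∀ j, a j ∈ t := fun j => hst ⟨j, rfl⟩
  obtain ⟨D, hD⟩ := exists_der k ((↑) : t → ℂ) ht ⟨a i, hmem i⟩
  refine ⟨D, fun j => ?_⟩
  have h1 := hD ⟨a j, hmem j⟩
  rw [show D (a j) = D ((⟨a j, hmem j⟩ : t) : ℂ) from rfl, h1]
  by_cases hj : j = i
  · rw [if_pos hj, if_pos (by rw [hj])]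
  · rw [if_neg hj, if_neg]
    intro h2
    exact hj (h.injective (congrArg Subtype.val h2))

/-- a derivation over a larger field as a derivation over a smaller field -/
private noncomputable def resK {K k : Subfield ℂ} (hk : K ≤ k) (D : Derivation k ℂ ℂ) :
    Derivation K ℂ ℂ :=
  Derivation.mk' { toFun := fun x => D x
                   map_add' := fun x y => map_add D x y
                   map_smul' := fun c x => D.map_smul (⟨c, hk c.2⟩ : k) x }
    (fun x y => D.leibniz x y)

private theorem fun_of_der {K k : Subfield ℂ} (hk : K ≤ k) (D : Derivation k ℂ ℂ) :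
    ∃ φ : Om K →ₗ[ℂ] ℂ, (∀ w ∈ dK K k, φ w = 0) ∧ ∀ x, φ (dd K x) = D x := by
  have hΦ : ∀ x, (resK hk D).liftKaehlerDifferential (dd K x) = D x := fun x =>
    Derivation.liftKaehlerDifferential_comp_D (resK hk D) x
  refine ⟨(resK hk D).liftKaehlerDifferential, ?_, hΦ⟩
  have hK : dK K k ≤ LinearMap.ker (resK hk D).liftKaehlerDifferential := by
    unfold dK
    rw [Submodule.span_le]
    rintro _ ⟨x, hx, rfl⟩
    show (resK hk D).liftKaehlerDifferential (dd K x) = 0
    rw [hΦ]
    exact D.map_algebraMap (⟨x, hx⟩ : k)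
  exact fun w hw => hK hw

theorem exists_functional {K k : Subfield ℂ} (hk : Fld K k) {z : ℂ} (hz : z ∉ k) :
    ∃ φ : Om K →ₗ[ℂ] ℂ, (∀ w ∈ dK K k, φ w = 0) ∧ φ (dd K z) = 1 := by
  have htr : AlgebraicIndependent k (fun _ : Unit => z) := by
    rw [algebraicIndependent_unique_type_iff]
    exact fun h => hz (hk.ac z h)
  obtain ⟨D, hD⟩ := exists_der_ind htr ()
  obtain ⟨φ, h1, h2⟩ := fun_of_der hk.le D
  refine ⟨φ, h1, ?_⟩
  rw [h2]
  have h3 := hD ()
  rw [if_pos rfl] at h3
  exact h3

theorem mem_of_dd {K k : Subfield ℂ} (hk : Fld K k) {z : ℂ} (hz : dd K z ∈ dK K k) : z ∈ k := by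
  by_contra h
  obtain ⟨φ, h1, h2⟩ := exists_functional hk h
  rw [h1 _ hz] at h2
  exact zero_ne_one h2

theorem ind_of_algInd {K k : Subfield ℂ} (hk : K ≤ k) {ι : Type} [Fintype ι] {a : ι → ℂ}
    (ha : AlgebraicIndependent k a) : Ind K k a := by
  classical
  intro c hc
  funext i
  obtain ⟨D, hD⟩ := exists_der_ind ha i
  obtain ⟨φ, h1, h2⟩ := fun_of_der hk D
  have h3 := h1 _ hc
  rw [map_sum] at h3
  simp only [map_smul, h2, hD, smul_eq_mul, mul_ite, mul_one, mul_zero] at h3
  rw [Finset.sum_ite_eq' Finset.univ i, if_pos (Finset.mem_univ i)] at h3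
  exact h3

private theorem alg_adj {k : Subfield ℂ} {S : Set ℂ} {z : ℂ}
    (h : IsAlgebraic (Algebra.adjoin k S) z) :
    IsAlgebraic (Subfield.closure ((k : Set ℂ) ∪ S)) z := by
  obtain ⟨P, hP, hP0⟩ := h
  have hmem : ∀ x : Algebra.adjoin k S, (Algebra.adjoin k S).val.toRingHom x ∈
      Subfield.closure ((k : Set ℂ) ∪ S) := by
    rintro ⟨x, hx⟩
    show x ∈ Subfield.closure ((k : Set ℂ) ∪ S)
    induction hx using Algebra.adjoin_induction with
    | mem x hx => exact Subfield.subset_closure (Or.inr hx)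
    | algebraMap r => exact Subfield.subset_closure (Or.inl r.2)
    | add x y _ _ hx hy => exact Subfield.add_mem _ hx hy
    | mul x y _ _ hx hy => exact Subfield.mul_mem _ hx hy
  have hinj : Function.Injective ((Algebra.adjoin k S).val.toRingHom.codRestrict
      (Subfield.closure ((k : Set ℂ) ∪ S)) hmem) := by
    intro x y hxy
    have h := congrArg (fun u : Subfield.closure ((k : Set ℂ) ∪ S) => (u : ℂ)) hxy
    exact Subtype.ext h
  refine ⟨P.map ((Algebra.adjoin k S).val.toRingHom.codRestrict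
    (Subfield.closure ((k : Set ℂ) ∪ S)) hmem), (Polynomial.map_ne_zero_iff hinj).2 hP, ?_⟩
  rw [Polynomial.aeval_def, Polynomial.eval₂_map]
  exact hP0

private theorem span_comb {K : Subfield ℂ} {ι : Type} [Fintype ι] (a : ι → ℂ) (t : Set ι)
    {s : Om K} (hs : s ∈ span ℂ (dd K '' (a '' t))) :
    ∃ c : ι → ℂ, (∀ j, j ∉ t → c j = 0) ∧ s = ∑ j, c j • dd K (a j) := by
  classical
  induction hs using Submodule.span_induction with
  | mem s hs =>
    obtain ⟨_, ⟨j, hj, rfl⟩, rfl⟩ := hs
    refine ⟨Pi.single j 1, fun i hi => Pi.single_eq_of_ne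
      (fun h : i = j => hi (by rw [h]; exact hj)) _, ?_⟩
    rw [Finset.sum_eq_single j]
    · rw [Pi.single_eq_same, one_smul]
    · intro i _ hi
      rw [Pi.single_eq_of_ne hi, zero_smul]
    · intro h
      exact absurd (Finset.mem_univ j) h
  | zero => exact ⟨0, fun _ _ => rfl, by simp⟩
  | add x y _ _ hx hy =>
    obtain ⟨c, h1, h2⟩ := hx
    obtain ⟨c', h3, h4⟩ := hy
    refine ⟨c + c', fun j hj => ?_, ?_⟩
    · rw [Pi.add_apply, h1 j hj, h3 j hj, add_zero]
    · rw [h2, h4, ← Finset.sum_add_distrib]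
      exact Finset.sum_congr rfl fun j _ => (add_smul _ _ _).symm
  | smul r x _ hx =>
    obtain ⟨c, h1, h2⟩ := hx
    refine ⟨r • c, fun j hj => ?_, ?_⟩
    · rw [Pi.smul_apply, h1 j hj, smul_zero]
    · rw [h2, Finset.smul_sum]
      exact Finset.sum_congr rfl fun j _ => by rw [Pi.smul_apply, smul_eq_mul, mul_smul]

theorem algInd_of_ind {K k : Subfield ℂ} {ι : Type} [Fintype ι] {a : ι → ℂ}
    (ha : Ind K k a) : AlgebraicIndependent k a := by
  classical
  refine algebraicIndependent_of_finite_type' (algebraMap k ℂ).injective fun t _ _ i hi h => ?_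
  have h1 : a i ∈ acl k (a '' t) := mem_acl_iff.2 (alg_adj h)
  have h2 : dd K (a i) ∈ dK K k ⊔ span ℂ (dd K '' (a '' t)) := by
    rw [← dK_acl]
    exact dd_mem h1
  obtain ⟨w, hw, s, hs, hws⟩ := Submodule.mem_sup.1 h2
  obtain ⟨c, hc, hcs⟩ := span_comb a t hs
  have h3 := ha (Pi.single i 1 - c) (by
    have e : ∑ j, (Pi.single i 1 - c : ι → ℂ) j • dd K (a j) = w := by
      have e1 : ∀ j, (Pi.single i 1 - c : ι → ℂ) j • dd K (a j) =
          (Pi.single i 1 : ι → ℂ) j • dd K (a j) - c j • dd K (a j) := fun j => by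
        rw [Pi.sub_apply, sub_smul]
      rw [Finset.sum_congr rfl fun j _ => e1 j, Finset.sum_sub_distrib, ← hcs,
        Finset.sum_eq_single i, Pi.single_eq_same, one_smul, ← hws, add_sub_cancel_right]
      · intro j _ hj
        rw [Pi.single_eq_of_ne hj, zero_smul]
      · intro h
        exact absurd (Finset.mem_univ i) h
    rw [e]
    exact hw)
  have h4 := congrFun h3 i
  rw [Pi.sub_apply, Pi.single_eq_same, hc i hi, sub_zero] at h4
  exact one_ne_zero h4

end Pool.Agent.PHB
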