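import Mathlib

/-!
# Project PHB (MP_50b9ba_lc): Boolean sums of a generic polynomial and the algebraic polynomial hierarchy

Architect helper48.  Definitions only.  Paper proof: team-store `phb_proof.md`.

`K` is a subfield of `ℂ`, `Om K` the complex vector space of Kaehler differentials of `ℂ` over `K`, `dd K z`
the differential of `z`, `dK K k` the span of the differentials of the elements of `k`.  The rank `rk K k` is
the dimension of `dK K k`; for fields `k` with `Fld K k` it is the transcendence degree over `K`.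
-/

namespace Pool.Agent.PHB

/-- Kaehler differentials of the complex numbers over `K` -/
abbrev Om (K : Subfield ℂ) : Type := KaehlerDifferential K ℂ

/-- the differential of a complex number -/
noncomputable def dd (K : Subfield ℂ) (z : ℂ) : Om K := KaehlerDifferential.D K ℂ z

/-- the span of the differentials of the elements of `k` -/
noncomputable def dK (K k : Subfield ℂ) : Submodule ℂ (Om K) := Submodule.span ℂ (dd K '' (k : Set ℂ))

/-- the rank of a field -/
noncomputable def rk (K k : Subfield ℂ) : ℕ := Module.finrank ℂ (dK K k)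

/-- `k` contains `K`, is algebraically closed in `ℂ` and has finite rank -/
structure Fld (K k : Subfield ℂ) : Prop where
  le : K ≤ k
  ac : ∀ z : ℂ, IsAlgebraic k z → z ∈ k
  fin : FiniteDimensional ℂ (dK K k)

/-- the algebraic closure of `k(A)` in `ℂ` -/
noncomputable def acl (k : Subfield ℂ) (A : Set ℂ) : Subfield ℂ :=
  (algebraicClosure (Subfield.closure ((k : Set ℂ) ∪ A)) ℂ).toSubfield

/-- the differentials of the `a i` are linearly independent modulo `dK K k` -/
def Ind (K k : Subfield ℂ) {ι : Type} [Fintype ι] (a : ι → ℂ) : Prop :=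
  ∀ c : ι → ℂ, ∑ i, c i • dd K (a i) ∈ dK K k → c = 0

/-- exponents of the monomials in `n` variables, of degree at most `2` in each variable -/
abbrev Mon (n : ℕ) : Type := Fin n → Fin 3

/-- coefficient vectors of polynomials, and functionals on them -/
abbrev V (n : ℕ) : Type := Mon n → ℂ

/-- subsets of the variables -/
abbrev Sb (n : ℕ) : Type := Fin n → Fin 2

/-- the sum of two exponents -/
def mad {n : ℕ} (S T : Sb n) : Mon n := fun i => ⟨S i + T i, by omega⟩

/-- column `T` of the catalecticant matrix of `l` -/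
def cat {n : ℕ} (l : V n) (T : Sb n) : Sb n → ℂ := fun S => l (mad S T)

/-- the span of the columns of the catalecticant matrices of the elements of `L` -/
def Im {n : ℕ} (L : Submodule ℂ (V n)) : Submodule ℂ (Sb n → ℂ) :=
  Submodule.span ℂ {c | ∃ l ∈ L, ∃ T, c = cat l T}

/-- the size of a space of functionals -/
noncomputable def mu {n : ℕ} (L : Submodule ℂ (V n)) : ℕ := Module.finrank ℂ L + Module.finrank ℂ (Im L)

/-- all coordinates lie in `k` -/
def Rv (k : Subfield ℂ) {ι : Type} (l : ι → ℂ) : Prop := ∀ a, l a ∈ k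

/-- `L` is spanned by vectors with coordinates in `k` -/
def Rat (k : Subfield ℂ) {ι : Type} (L : Submodule ℂ (ι → ℂ)) : Prop :=
  L ≤ Submodule.span ℂ {l | l ∈ L ∧ Rv k l}

/-- positions: `L` is a space of functionals, rational over `k`, with known values at `h` -/
structure Pos (K : Subfield ℂ) {n : ℕ} (h : V n) (k : Subfield ℂ) (L : Submodule ℂ (V n)) : Prop where
  fld : Fld K k
  rat : Rat k L
  kn : ∀ l ∈ L, Rv k l → l ⬝ᵥ h ∈ k

/-- `S`-good positions -/
def Good (K : Subfield ℂ) {n : ℕ} (h : V n) (k : Subfield ℂ) (L : Submodule ℂ (V n)) (S : ℕ) : Prop :=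
  ∀ (k' : Subfield ℂ) (L' : Submodule ℂ (V n)), Pos K h k' L' → k ≤ k' → L ≤ L' → mu L' ≤ mu L + S →
    rk K k + Module.finrank ℂ L' ≤ rk K k' + Module.finrank ℂ L

/-- `l ↦ ∑ l a • d (h a)` -/
noncomputable def Th (K : Subfield ℂ) {n : ℕ} (h : V n) : V n →ₗ[ℂ] Om K :=
  Fintype.linearCombination ℂ (fun a => dd K (h a))

/-- the functionals whose value at `h` is known to first order -/
noncomputable def Nn (K : Subfield ℂ) {n : ℕ} (h : V n) (k : Subfield ℂ) : Submodule ℂ (V n) :=
  (dK K k).comap (Th K h)

/-- the coordinates of `h` are generic over `K` -/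
def Gn (K : Subfield ℂ) {n : ℕ} (h : V n) : Prop := LinearIndependent ℂ (fun a => dd K (h a))

/-- the image of `L` under the automorphism `σ` -/
def sg (σ : ℂ ≃+* ℂ) {ι : Type} (L : Submodule ℂ (ι → ℂ)) : Submodule ℂ (ι → ℂ) where
  carrier := {v | (fun a => σ.symm (v a)) ∈ L}
  add_mem' := by
    intro v w hv hw
    have : (fun a => σ.symm ((v + w) a)) = (fun a => σ.symm (v a)) + fun a => σ.symm (w a) := by
      funext a; simp
    simp only [Set.mem_ofPred_eq] at *
    rw [this]
    exact L.add_mem hv hw
  zero_mem' := by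
    have : (fun a => σ.symm ((0 : ι → ℂ) a)) = (0 : ι → ℂ) := by
      funext a; simp
    simp only [Set.mem_ofPred_eq]
    rw [this]
    exact L.zero_mem
  smul_mem' := by
    intro c v hv
    have : (fun a => σ.symm ((c • v) a)) = σ.symm c • fun a => σ.symm (v a) := by
      funext a; simp
    simp only [Set.mem_ofPred_eq] at *
    rw [this]
    exact L.smul_mem _ hv

/-- isomorphisms of positions -/
structure Iso (K : Subfield ℂ) {n : ℕ} (h : V n) (σ : ℂ ≃+* ℂ) (k : Subfield ℂ) (L : Submodule ℂ (V n))
    (k' : Subfield ℂ) (L' : Submodule ℂ (V n)) : Prop where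
  fix : ∀ z ∈ K, σ z = z
  map : ∀ z, σ z ∈ k' ↔ z ∈ k
  sp : sg σ L = L'
  val : ∀ l ∈ L, Rv k l → σ (l ⬝ᵥ h) = (fun a => σ (l a)) ⬝ᵥ h

/-- `g` is generic over `k` among the vectors which agree with `h` on `L` -/
def Genr (K : Subfield ℂ) {n : ℕ} (h : V n) (k : Subfield ℂ) (L : Submodule ℂ (V n)) (g : V n) : Prop :=
  (∀ l ∈ L, l ⬝ᵥ g = l ⬝ᵥ h) ∧
    rk K (acl k (Set.range g)) + Module.finrank ℂ L = rk K k + Fintype.card (Mon n)

end Pool.Agent.PHB
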