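import Pool.Agent.PHB.Bas

/-!
# PHB-NIn: the dimension of the space of known functionals

`Th K h` is injective, so `Nn K h k` is isomorphic to its image in `dK K k`; dimension formula for sums and intersections.
`pos_le_nn`: Leibniz rule.  `nn_gen`: independence of the `dd (π i)` modulo `dK K (acl k (range h))`.
-/

namespace Pool.Agent.PHB

open Submodule

variable {K : Subfield ℂ} {n : ℕ} {h : V n}

theorem nn_mono {k k' : Subfield ℂ} (hk : k ≤ k') : Nn K h k ≤ Nn K h k' :=
  Submodule.comap_mono (dK_mono hk)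

private theorem nin_inj (hh : Gn K h) : Function.Injective (Th K h) :=
  linearIndependent_iff_injective_fintypeLinearCombination.1 hh

private theorem nin_map (hh : Gn K h) (M : Submodule ℂ (V n)) :
    Module.finrank ℂ (M.map (Th K h)) = Module.finrank ℂ M :=
  (LinearEquiv.finrank_eq (Submodule.equivMapOfInjective (Th K h) (nin_inj hh) M)).symm

theorem n_ineq (hh : Gn K h) {k k' : Subfield ℂ} (hk : Fld K k) (hk' : Fld K k') (hkk : k ≤ k') :
    Module.finrank ℂ (Nn K h k') + rk K k ≤ Module.finrank ℂ (Nn K h k) + rk K k' := by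
  have i1 : FiniteDimensional ℂ (dK K k) := hk.fin
  have i2 : FiniteDimensional ℂ (dK K k') := hk'.fin
  have h1 := Submodule.finrank_sup_add_finrank_inf_eq ((Nn K h k').map (Th K h)) (dK K k)
  have h2 : (Nn K h k').map (Th K h) ⊓ dK K k = (Nn K h k).map (Th K h) := by
    ext x
    constructor
    · rintro ⟨⟨v, hv, rfl⟩, hx⟩
      exact ⟨v, hx, rfl⟩
    · rintro ⟨v, hv, rfl⟩
      exact ⟨⟨v, dK_mono hkk hv, rfl⟩, hv⟩
  have h3 : Module.finrank ℂ ((Nn K h k').map (Th K h) ⊔ dK K k : Submodule ℂ (Om K)) ≤ rk K k' := by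
    refine Submodule.finrank_mono (sup_le ?_ (dK_mono hkk))
    rintro x ⟨v, hv, rfl⟩
    exact hv
  rw [h2, nin_map hh, nin_map hh] at h1
  have h4 : rk K k = Module.finrank ℂ (dK K k) := rfl
  omega

theorem nn_le (hh : Gn K h) {k : Subfield ℂ} (hk : Fld K k) : Module.finrank ℂ (Nn K h k) ≤ rk K k := by
  have i1 : FiniteDimensional ℂ (dK K k) := hk.fin
  rw [← nin_map hh]
  refine Submodule.finrank_mono ?_
  rintro x ⟨v, hv, rfl⟩
  exact hv

private theorem nin_Th (l : V n) : Th K h l = ∑ a, l a • dd K (h a) :=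
  Fintype.linearCombination_apply ℂ _ _

theorem pos_le_nn {k : Subfield ℂ} {L : Submodule ℂ (V n)} (hp : Pos K h k L) : L ≤ Nn K h k := by
  refine hp.rat.trans (Submodule.span_le.2 ?_)
  rintro l ⟨hl, hrv⟩
  show Th K h l ∈ dK K k
  have h1 : dd K (l ⬝ᵥ h) = ∑ a, (l a • dd K (h a) + h a • dd K (l a)) := by
    have h2 : l ⬝ᵥ h = ∑ a, l a * h a := rfl
    rw [h2, dd_sum]
    exact Finset.sum_congr rfl fun a _ => dd_mul K _ _
  rw [Finset.sum_add_distrib] at h1
  have h3 : Th K h l = dd K (l ⬝ᵥ h) - ∑ a, h a • dd K (l a) := by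
    rw [nin_Th, h1, add_sub_cancel_right]
  rw [h3]
  refine Submodule.sub_mem _ (dd_mem (hp.kn l hl hrv)) (Submodule.sum_mem _ fun a _ => ?_)
  exact Submodule.smul_mem _ _ (dd_mem (hrv a))

theorem pos_ineq (hh : Gn K h) {k k' : Subfield ℂ} {L' : Submodule ℂ (V n)} (hk : Fld K k)
    (hp' : Pos K h k' L') (hkk : k ≤ k') :
    Module.finrank ℂ L' + rk K k ≤ Module.finrank ℂ (L' ⊓ Nn K h k : Submodule ℂ (V n)) + rk K k' := by
  have h1 := Submodule.finrank_sup_add_finrank_inf_eq L' (Nn K h k)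
  have h2 : Module.finrank ℂ (L' ⊔ Nn K h k : Submodule ℂ (V n)) ≤ Module.finrank ℂ (Nn K h k') :=
    Submodule.finrank_mono (sup_le (pos_le_nn hp') (nn_mono hkk))
  have h3 := n_ineq hh hk hp'.fld hkk
  omega

theorem delta_nonneg (hh : Gn K h) {k : Subfield ℂ} {L : Submodule ℂ (V n)} (hp : Pos K h k L) :
    Module.finrank ℂ L ≤ rk K k :=
  (Submodule.finrank_mono (pos_le_nn hp)).trans (nn_le hh hp.fld)

theorem nn_gen {k : Subfield ℂ} {ι : Type} [Fintype ι] {π : ι → ℂ}
    (hπ : Ind K (acl k (Set.range h)) π) : Nn K h (acl k (Set.range π)) = Nn K h k := by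
  refine le_antisymm ?_ (nn_mono (le_acl k _))
  intro l hl
  have h1 : Th K h l ∈ dK K k ⊔ span ℂ (dd K '' Set.range π) := by
    rw [← dK_acl]
    exact hl
  obtain ⟨x, hx, y, hy, hxy⟩ := Submodule.mem_sup.1 h1
  rw [← Set.range_comp, Submodule.mem_span_range_iff_exists_fun] at hy
  obtain ⟨c, hc⟩ := hy
  have h2 : Th K h l ∈ dK K (acl k (Set.range h)) := by
    rw [nin_Th]
    exact Submodule.sum_mem _ fun a _ => Submodule.smul_mem _ _ (dd_mem (subset_acl k _ ⟨a, rfl⟩))
  have h3 : y ∈ dK K (acl k (Set.range h)) := by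
    have h4 : y = Th K h l - x := by rw [← hxy, add_sub_cancel_left]
    rw [h4]
    exact Submodule.sub_mem _ h2 (dK_mono (le_acl k _) hx)
  have h5 : c = 0 := hπ c (by
    have h6 : ∑ i, c i • dd K (π i) = y := hc
    rw [h6]
    exact h3)
  have h7 : y = 0 := by
    rw [← hc, h5]
    simp
  show Th K h l ∈ dK K k
  rw [← hxy, h7, add_zero]
  exact hx

end Pool.Agent.PHB
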