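import Pool.Agent.PHB.DMem

/-!
# PHB-RatC: rational coefficients of differentials (imports DMem)

`x` is algebraic over `E = closure (k ∪ range t)`; the elements of `E` have coefficients in `M` (closure induction), and the minimal
polynomial of `x` over `E` gives the coefficients of `x`.
-/

namespace Pool.Agent.PHB

open Submodule

private def RG (K k M : Subfield ℂ) {ι : Type} [Fintype ι] (t : ι → ℂ) (w : Om K) : Prop :=
  ∃ c : ι → ℂ, (∀ i, c i ∈ M) ∧ w - ∑ i, c i • dd K (t i) ∈ dK K k

private theorem rg_of_mem {K k M : Subfield ℂ} {ι : Type} [Fintype ι] {t : ι → ℂ} {w : Om K}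
    (h : w ∈ dK K k) : RG K k M t w := by
  refine ⟨0, fun _ => M.zero_mem, ?_⟩
  have e : w - ∑ i, (0 : ι → ℂ) i • dd K (t i) = w := by simp
  rw [e]
  exact h

private theorem rg_add {K k M : Subfield ℂ} {ι : Type} [Fintype ι] {t : ι → ℂ} {w w' : Om K}
    (h : RG K k M t w) (h' : RG K k M t w') : RG K k M t (w + w') := by
  obtain ⟨c, hc, h1⟩ := h
  obtain ⟨c', hc', h1'⟩ := h'
  refine ⟨fun i => c i + c' i, fun i => M.add_mem (hc i) (hc' i), ?_⟩
  have e : w + w' - ∑ i, (c i + c' i) • dd K (t i) =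
      (w - ∑ i, c i • dd K (t i)) + (w' - ∑ i, c' i • dd K (t i)) := by
    simp only [add_smul, Finset.sum_add_distrib]
    abel
  rw [e]
  exact (dK K k).add_mem h1 h1'

private theorem rg_smul {K k M : Subfield ℂ} {ι : Type} [Fintype ι] {t : ι → ℂ} {w : Om K} {a : ℂ}
    (ha : a ∈ M) (h : RG K k M t w) : RG K k M t (a • w) := by
  obtain ⟨c, hc, h1⟩ := h
  refine ⟨fun i => a * c i, fun i => M.mul_mem ha (hc i), ?_⟩
  have e : a • w - ∑ i, (a * c i) • dd K (t i) = a • (w - ∑ i, c i • dd K (t i)) := by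
    simp only [mul_smul, smul_sub, Finset.smul_sum]
  rw [e]
  exact (dK K k).smul_mem a h1

private theorem dd_inv' (K : Subfield ℂ) (y : ℂ) : dd K y⁻¹ = (-(y⁻¹ * y⁻¹)) • dd K y := by
  by_cases hy : y = 0
  · subst hy
    rw [inv_zero, dd_fix K.zero_mem, smul_zero]
  · have h1 := dd_mul K y⁻¹ y
    rw [inv_mul_cancel₀ hy, dd_fix K.one_mem] at h1
    have h2 : y • dd K y⁻¹ = -(y⁻¹ • dd K y) := eq_neg_of_add_eq_zero_right h1.symm
    calc dd K y⁻¹ = (y⁻¹ * y) • dd K y⁻¹ := by rw [inv_mul_cancel₀ hy, one_smul]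
      _ = y⁻¹ • (y • dd K y⁻¹) := by rw [mul_smul]
      _ = (-(y⁻¹ * y⁻¹)) • dd K y := by rw [h2, smul_neg, ← mul_smul, neg_smul]

private theorem rg_closure {K k M : Subfield ℂ} (hkM : k ≤ M) {ι : Type} [Fintype ι]
    {t : ι → ℂ} (ht : ∀ i, t i ∈ M) {y : ℂ}
    (hy : y ∈ Subfield.closure ((k : Set ℂ) ∪ Set.range t)) : y ∈ M ∧ RG K k M t (dd K y) := by
  classical
  induction hy using Subfield.closure_induction with
  | mem y hy =>
    rcases hy with hy | ⟨i, rfl⟩
    · exact ⟨hkM hy, rg_of_mem (dd_mem hy)⟩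
    · refine ⟨ht i, Pi.single i 1, fun j => ?_, ?_⟩
      · by_cases hij : j = i
        · subst hij
          rw [Pi.single_eq_same]
          exact M.one_mem
        · rw [Pi.single_eq_of_ne hij]
          exact M.zero_mem
      · have e : ∑ j, (Pi.single i 1 : ι → ℂ) j • dd K (t j) = dd K (t i) := by
          rw [Finset.sum_eq_single i]
          · rw [Pi.single_eq_same, one_smul]
          · intro j _ hj
            rw [Pi.single_eq_of_ne hj, zero_smul]
          · intro h
            exact absurd (Finset.mem_univ i) h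
        rw [e, sub_self]
        exact (dK K k).zero_mem
  | one => 
    refine ⟨M.one_mem, rg_of_mem ?_⟩
    rw [dd_fix K.one_mem]
    exact (dK K k).zero_mem
  | add x y _ _ hx hy =>
    refine ⟨M.add_mem hx.1 hy.1, ?_⟩
    rw [dd_add]
    exact rg_add hx.2 hy.2
  | neg x _ hx =>
    refine ⟨M.neg_mem hx.1, ?_⟩
    have e : dd K (-x) = (-1 : ℂ) • dd K x := by
      have h1 := dd_add K x (-x)
      rw [add_neg_cancel, dd_fix K.zero_mem] at h1
      rw [neg_one_smul]
      exact eq_neg_of_add_eq_zero_right h1.symm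
    rw [e]
    exact rg_smul (M.neg_mem M.one_mem) hx.2
  | inv x _ hx =>
    refine ⟨M.inv_mem hx.1, ?_⟩
    rw [dd_inv']
    exact rg_smul (M.neg_mem (M.mul_mem (M.inv_mem hx.1) (M.inv_mem hx.1))) hx.2
  | mul x y _ _ hx hy =>
    refine ⟨M.mul_mem hx.1 hy.1, ?_⟩
    rw [dd_mul]
    exact rg_add (rg_smul hx.1 hy.2) (rg_smul hy.1 hx.2)

private theorem dd_pow' (K : Subfield ℂ) (x : ℂ) (n : ℕ) :
    dd K (x ^ n) = ((n : ℂ) * x ^ (n - 1)) • dd K x := by
  unfold dd
  rw [Derivation.leibniz_pow, mul_smul, Nat.cast_smul_eq_nsmul]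

theorem rat_coeff {K k M : Subfield ℂ} (hk : Fld K k) (hM : Fld K M) (hkM : k ≤ M) {ι : Type} [Fintype ι]
    (t : ι → ℂ) (ht : ∀ i, t i ∈ M)
    (hsp : dK K M ≤ dK K k ⊔ span ℂ (Set.range fun i => dd K (t i))) {x : ℂ} (hx : x ∈ M) :
    ∃ c : ι → ℂ, (∀ i, c i ∈ M) ∧ dd K x - ∑ i, c i • dd K (t i) ∈ dK K k := by
  classical
  obtain ⟨E, hE⟩ : ∃ E, E = Subfield.closure ((k : Set ℂ) ∪ Set.range t) := ⟨_, rfl⟩
  have hEM : ∀ y ∈ E, y ∈ M ∧ RG K k M t (dd K y) := by
    intro y hy
    rw [hE] at hy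
    exact rg_closure hkM ht hy
  have hxa : x ∈ acl k (Set.range t) := by
    have hF : Fld K (acl k (Set.range t)) := acl_fld hk (Set.finite_range t)
    refine mem_of_dd hF ?_
    rw [dK_acl, ← Set.range_comp]
    exact hsp (dd_mem hx)
  rw [mem_acl_iff, ← hE] at hxa
  have hint : IsIntegral E x := hxa.isIntegral
  have hsep : (minpoly E x).Separable := (minpoly.irreducible hint).separable
  have hne := hsep.aeval_derivative_ne_zero (minpoly.aeval E x)
  have hmem : ∀ Q : Polynomial E, Polynomial.aeval x Q ∈ M := by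
    intro Q
    induction Q using Polynomial.induction_on' with
    | add p q hp hq =>
      rw [map_add]
      exact M.add_mem hp hq
    | monomial n a =>
      rw [Polynomial.aeval_monomial]
      exact M.mul_mem (hEM a a.2).1 (M.pow_mem hx n)
  have hpoly : ∀ Q : Polynomial E,
      RG K k M t (dd K (Polynomial.aeval x Q) -
        (Polynomial.aeval x (Polynomial.derivative Q)) • dd K x) := by
    intro Q
    induction Q using Polynomial.induction_on' with
    | add p q hp hq =>
      have e : dd K (Polynomial.aeval x (p + q)) -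
          (Polynomial.aeval x (Polynomial.derivative (p + q))) • dd K x =
          (dd K (Polynomial.aeval x p) - (Polynomial.aeval x (Polynomial.derivative p)) • dd K x) +
          (dd K (Polynomial.aeval x q) - (Polynomial.aeval x (Polynomial.derivative q)) • dd K x) := by
        rw [map_add, dd_add, Polynomial.derivative_add, map_add, add_smul]
        abel
      rw [e]
      exact rg_add hp hq
    | monomial n a =>
      have e : dd K (Polynomial.aeval x (Polynomial.monomial n a)) -
          (Polynomial.aeval x (Polynomial.derivative (Polynomial.monomial n a))) • dd K x =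
          x ^ n • dd K (a : ℂ) := by
        rw [Polynomial.derivative_monomial, Polynomial.aeval_monomial, Polynomial.aeval_monomial,
          dd_mul, dd_pow', map_mul, map_natCast, smul_smul]
        have e1 : (algebraMap E ℂ) a = (a : ℂ) := rfl
        rw [e1, ← mul_assoc, add_sub_cancel_left]
      rw [e]
      exact rg_smul (M.pow_mem hx n) (hEM a a.2).2
  have h1 := hpoly (minpoly E x)
  rw [minpoly.aeval, dd_fix K.zero_mem, zero_sub] at h1
  have h2 := rg_smul (a := -(Polynomial.aeval x (Polynomial.derivative (minpoly E x)))⁻¹)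
    (M.neg_mem (M.inv_mem (hmem _))) h1
  rw [neg_smul, smul_neg, neg_neg, smul_smul, inv_mul_cancel₀ hne, one_smul] at h2
  exact h2

end Pool.Agent.PHB
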