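import Pool.Agent.PHB.GnrE
import Pool.Agent.PHB.RatC
import Pool.Agent.PHB.NIn

/-!
# PHB-ECa: a generic vector over the larger position

The forms `ω_i(g') = dd (b i) - ∑_a g' a • dd (y i a)` are independent modulo `dK K k` for `g' = h`, so by a minor with
polynomial entries over `k₁` for the generic vector `g` too; dimension count in `Om K`.
-/

namespace Pool.Agent.PHB

open Submodule

private theorem ec_minor {j d : ℕ} (A : Matrix (Fin j) (Fin d) ℂ)
    (hA : ∀ v : Fin j → ℂ, (∀ c, ∑ a, v a * A a c = 0) → v = 0) :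
    ∃ f : Fin j → Fin d, (A.submatrix id f).det ≠ 0 := by
  classical
  have hspan : Submodule.span ℂ (Set.range (fun c : Fin d => (fun a : Fin j => A a c))) = ⊤ := by
    by_contra hne
    obtain ⟨φ, hφ0, hφ⟩ := Submodule.exists_le_ker_of_lt_top _ (lt_top_iff_ne_top.2 hne)
    apply hφ0
    have hv : (fun a : Fin j => φ (Pi.single a 1)) = 0 := by
      apply hA
      intro c
      have h1 : φ (fun a => A a c) = 0 :=
        LinearMap.mem_ker.1 (hφ (Submodule.subset_span ⟨c, rfl⟩))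
      have h2 : (fun a => A a c) = ∑ a, A a c • (Pi.single a (1 : ℂ) : Fin j → ℂ) := by
        ext b
        simp [Finset.sum_apply, Pi.single_apply]
      rw [h2, map_sum] at h1
      simp only [map_smul, smul_eq_mul] at h1
      rw [← h1]
      exact Finset.sum_congr rfl fun a _ => mul_comm _ _
    refine LinearMap.pi_ext' fun a => ?_
    refine LinearMap.ext_ring ?_
    exact congrFun hv a
  obtain ⟨b, hb, hbs, hbl⟩ := exists_linearIndependent ℂ
    (Set.range (fun c : Fin d => (fun a : Fin j => A a c)))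
  rw [hspan] at hbs
  have hfin : b.Finite := (Set.finite_range _).subset hb
  have : Fintype b := hfin.fintype
  let B : Module.Basis b ℂ (Fin j → ℂ) := Module.Basis.mk hbl (by rw [Subtype.range_coe, hbs])
  have hcard : Fintype.card (Fin j) = Fintype.card b := by
    have h1 := Module.finrank_eq_card_basis B
    rw [Module.finrank_fintype_fun_eq_card] at h1
    exact h1
  let e : Fin j ≃ b := Fintype.equivOfCardEq hcard
  have hch : ∀ i : Fin j, ∃ c : Fin d, (fun a => A a c) = ((e i : b) : Fin j → ℂ) := fun i => by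
    obtain ⟨c, hc⟩ := hb (e i).2
    exact ⟨c, hc⟩
  choose f hf using hch
  refine ⟨f, ?_⟩
  have hli : LinearIndependent ℂ (A.submatrix id f).col := by
    have h1 : (A.submatrix id f).col = (fun x : b => (x : Fin j → ℂ)) ∘ e := by
      funext i
      simp only [Function.comp_apply]
      rw [← hf i]
      rfl
    rw [h1]
    exact hbl.comp _ e.injective
  have h2 := Matrix.linearIndependent_cols_iff_isUnit.1 hli
  exact ((Matrix.isUnit_iff_isUnit_det _).1 h2).ne_zero

private theorem ec_of_minor {j d : ℕ} (A : Matrix (Fin j) (Fin d) ℂ) (f : Fin j → Fin d)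
    (hf : (A.submatrix id f).det ≠ 0) (v : Fin j → ℂ) (hv : ∀ c, ∑ a, v a * A a c = 0) : v = 0 := by
  refine Matrix.eq_zero_of_vecMul_eq_zero hf ?_
  funext c
  exact hv (f c)

private theorem ec_iso (K : Subfield ℂ) {n : ℕ} (h : V n) (k : Subfield ℂ) (L : Submodule ℂ (V n)) :
    Iso K h (RingEquiv.refl ℂ) k L k L where
  fix := fun z _ => rfl
  map := fun z => Iff.rfl
  sp := by
    ext v
    exact Iff.rfl
  val := fun l _ _ => rfl

private theorem ec_dd_dot (K : Subfield ℂ) {n : ℕ} (y g : V n) :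
    dd K (y ⬝ᵥ g) - ∑ a, g a • dd K (y a) = ∑ a, y a • dd K (g a) := by
  unfold dotProduct
  rw [dd_sum]
  simp only [dd_mul]
  rw [Finset.sum_add_distrib]
  abel

/-- the coordinates of a generic vector outside the pivots are algebraically independent, and a nonzero minor at `h` stays
nonzero at `g` -/
private theorem ec_minor_generic {K : Subfield ℂ} {n : ℕ} {h : V n} {k₁ : Subfield ℂ} {L₁ : Submodule ℂ (V n)}
    (hp₁ : Pos K h k₁ L₁) {g : V n} (hg : Genr K h k₁ L₁ g) {j : ℕ}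
    (β : Fin j → Fin j → ℂ) (η : Fin j → Mon n → Fin j → ℂ) (hβ : ∀ i m, β i m ∈ k₁) (hη : ∀ i a m, η i a m ∈ k₁)
    (hdet : (Matrix.of fun i m => β i m - ∑ a, h a * η i a m : Matrix (Fin j) (Fin j) ℂ).det ≠ 0) :
    (Matrix.of fun i m => β i m - ∑ a, g a * η i a m : Matrix (Fin j) (Fin j) ℂ).det ≠ 0 := by
  classical
  have hk₁ := hp₁.fld
  obtain ⟨J, A, c, hJ, hA, hc, hpar, _, _⟩ := param hp₁ (ec_iso K h k₁ L₁)
  have hgp := (hpar g).1 hg.1
  have hhp := (hpar h).1 (fun l _ => rfl)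
  have hfin : (Set.range fun b : J => g b).Finite := Set.finite_range _
  have hle : acl k₁ (Set.range g) ≤ acl k₁ (Set.range fun b : J => g b) := by
    refine acl_le (fun z hz => acl_ac _ _ z hz) (le_acl _ _) ?_
    rintro _ ⟨a, rfl⟩
    have h1 : ∀ z ∈ k₁, z ∈ acl k₁ (Set.range fun b : J => g b) := fun z hz => le_acl _ _ hz
    rw [hgp a]
    refine add_mem (sum_mem fun b _ => mul_mem (h1 _ (hA a b)) ?_) (h1 _ (hc a))
    exact subset_acl _ _ ⟨b, rfl⟩
  have hind : Ind K k₁ (fun b : J => g b) := by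
    refine ind_of_rk hk₁ ?_
    have h1 := rk_mono (acl_fld hk₁ hfin) hle
    have h2 := hg.2
    have h3 : Fintype.card J = J.card := Fintype.card_coe J
    omega
  have hai := algInd_of_ind hind
  -- the polynomial matrix
  let P : Matrix (Fin j) (Fin j) (MvPolynomial J k₁) := Matrix.of fun i m =>
    MvPolynomial.C ⟨β i m, hβ i m⟩ - ∑ a, (∑ b : J, MvPolynomial.C ⟨A a b, hA a b⟩ * MvPolynomial.X b +
      MvPolynomial.C ⟨c a, hc a⟩) * MvPolynomial.C ⟨η i a m, hη i a m⟩
  have hP : ∀ g' : V n, (∀ a, g' a = ∑ b : J, A a b * g' b + c a) →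
      (MvPolynomial.aeval fun b : J => g' b).mapMatrix P =
        (Matrix.of fun i m => β i m - ∑ a, g' a * η i a m : Matrix (Fin j) (Fin j) ℂ) := by
    intro g' hg'
    ext i m
    rw [AlgHom.mapMatrix_apply, Matrix.map_apply]
    simp only [P, Matrix.of_apply, map_sub, map_sum, map_mul, map_add, MvPolynomial.aeval_C, MvPolynomial.aeval_X]
    congr 1
    refine Finset.sum_congr rfl fun a _ => ?_
    congr 1
    rw [hg' a]
    rfl
  have hdP : P.det ≠ 0 := by
    intro h0
    apply hdet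
    rw [← hP h hhp, ← AlgHom.map_det, h0, map_zero]
  rw [← hP g hgp, ← AlgHom.map_det]
  intro h0
  exact hdP ((injective_iff_map_eq_zero _).1 hai _ h0)

theorem ec_generic {K : Subfield ℂ} {n : ℕ} {h : V n} {k k₁ : Subfield ℂ} {L L₁ : Submodule ℂ (V n)}
    (hp : Pos K h k L) (hp₁ : Pos K h k₁ L₁) (hk : k ≤ k₁) (hL : L ≤ L₁) (htl : L₁ ⊓ Nn K h k ≤ L)
    {g : V n} (hg : Genr K h k₁ L₁ g) {e : ℕ}
    (he : rk K k + Module.finrank ℂ L₁ + e = rk K k₁ + Module.finrank ℂ L) :
    Genr K h k L g ∧ ∃ t : Fin e → ℂ, (∀ i, t i ∈ k₁) ∧ Ind K (acl k (Set.range g)) t ∧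
      k₁ ≤ acl (acl k (Set.range g)) (Set.range t) := by
  classical
  have hkf := hp.fld
  have hk₁ := hp₁.fld
  have hA : FiniteDimensional ℂ (dK K k) := hkf.fin
  have hB : FiniteDimensional ℂ (dK K k₁) := hk₁.fin
  have hgfin : (Set.range g).Finite := Set.finite_range _
  -- a basis of `k₁` over `k`
  obtain ⟨s, hs1, hs2, hs3⟩ := exists_basis hkf hk₁ hk (A := (k₁ : Set ℂ)) subset_rfl le_sup_right
  have hsp : dK K k₁ ≤ dK K k ⊔ span ℂ (Set.range fun i => dd K (s i)) := by
    refine (dK_mono hs3).trans ?_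
    rw [dK_acl, ← Set.range_comp]
    exact le_rfl
  have hrc : ∀ x : ℂ, ∃ c : Fin (rk K k₁ - rk K k) → ℂ, x ∈ k₁ →
      (∀ i, c i ∈ k₁) ∧ dd K x - ∑ i, c i • dd K (s i) ∈ dK K k := by
    intro x
    by_cases hx : x ∈ k₁
    · obtain ⟨c, hc⟩ := rat_coeff hkf hk₁ hk s hs1 hsp hx
      exact ⟨c, fun _ => hc⟩
    · exact ⟨0, fun h => absurd h hx⟩
  choose cf hcf using hrc
  obtain ⟨x, p, y, hx1, hx2, hx3, hy1, hy2, hy3, hy4, hy5⟩ := exists_rel hk hp.rat hp₁.rat hL
  have hb : ∀ i, y i ⬝ᵥ h ∈ k₁ := fun i => hp₁.kn _ (hy1 i).1 (hy1 i).2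
  -- the forms and their coefficients
  let om : V n → Fin (Module.finrank ℂ L₁ - Module.finrank ℂ L) → Om K := fun g' i =>
    dd K (y i ⬝ᵥ h) - ∑ a, g' a • dd K (y i a)
  let Mt : V n → Matrix (Fin (Module.finrank ℂ L₁ - Module.finrank ℂ L)) (Fin (rk K k₁ - rk K k)) ℂ := fun g' =>
    Matrix.of fun i m => cf (y i ⬝ᵥ h) m - ∑ a, g' a * cf (y i a) m
  have hW : ∀ g' i, om g' i - ∑ m, Mt g' i m • dd K (s m) ∈ dK K k := by
    intro g' i
    have h1 : om g' i - ∑ m, Mt g' i m • dd K (s m) =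
        (dd K (y i ⬝ᵥ h) - ∑ m, cf (y i ⬝ᵥ h) m • dd K (s m)) -
          ∑ a, g' a • (dd K (y i a) - ∑ m, cf (y i a) m • dd K (s m)) := by
      have h2 : ∑ m, Mt g' i m • dd K (s m) = ∑ m, cf (y i ⬝ᵥ h) m • dd K (s m) -
          ∑ a, g' a • ∑ m, cf (y i a) m • dd K (s m) := by
        simp only [Mt, Matrix.of_apply, sub_smul, Finset.sum_sub_distrib, Finset.sum_smul, Finset.smul_sum,
          mul_smul]
        congr 1
        exact Finset.sum_comm
      rw [h2]
      simp only [om, smul_sub, Finset.sum_sub_distrib]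
      abel
    rw [h1]
    refine sub_mem (hcf _ (hb i)).2 (sum_mem fun a _ => Submodule.smul_mem _ _ (hcf _ ((hy1 i).2 a)).2)
  have hV : ∀ (g' : V n) (v : Fin (Module.finrank ℂ L₁ - Module.finrank ℂ L) → ℂ),
      (∑ i, v i • om g' i ∈ dK K k) ↔ ∀ m, ∑ i, v i * Mt g' i m = 0 := by
    intro g' v
    have h1 : ∑ i, v i • om g' i - ∑ m, (∑ i, v i * Mt g' i m) • dd K (s m) ∈ dK K k := by
      have h2 : ∑ i, v i • om g' i - ∑ m, (∑ i, v i * Mt g' i m) • dd K (s m) =
          ∑ i, v i • (om g' i - ∑ m, Mt g' i m • dd K (s m)) := by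
        simp only [smul_sub, Finset.sum_sub_distrib, Finset.sum_smul, Finset.smul_sum, mul_smul]
        congr 1
        exact Finset.sum_comm
      rw [h2]
      exact sum_mem fun i _ => Submodule.smul_mem _ _ (hW g' i)
    constructor
    · intro h3
      have h4 := sub_mem h3 h1
      rw [sub_sub_cancel] at h4
      have h5 := hs2 _ h4
      exact fun m => congrFun h5 m
    · intro h3
      simp only [h3, zero_smul, Finset.sum_const_zero, sub_zero] at h1
      exact h1
  have hom : ∀ g' : V n, (∀ i, y i ⬝ᵥ g' = y i ⬝ᵥ h) → ∀ i, om g' i = ∑ a, y i a • dd K (g' a) := by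
    intro g' hg' i
    rw [← ec_dd_dot K (y i) g', hg' i]
  -- step 1
  have hMh : ∀ v : Fin (Module.finrank ℂ L₁ - Module.finrank ℂ L) → ℂ,
      (∀ m, ∑ i, v i * Mt h i m = 0) → v = 0 := by
    intro v hv
    have h1 := (hV h v).2 hv
    have h2 : ∑ i, v i • om h i = Th K h (∑ i, v i • y i) := by
      rw [map_sum]
      refine Finset.sum_congr rfl fun i _ => ?_
      rw [hom h (fun _ => rfl) i, map_smul]
      rfl
    rw [h2] at h1
    exact hy4 v (htl ⟨sum_mem fun i _ => Submodule.smul_mem _ _ (hy1 i).1, h1⟩)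
  obtain ⟨f, hf⟩ := ec_minor (Mt h) hMh
  -- step 2
  have hMg : ((Mt g).submatrix id f).det ≠ 0 := by
    have h1 := ec_minor_generic hp₁ hg (fun i m => cf (y i ⬝ᵥ h) (f m)) (fun i a m => cf (y i a) (f m))
      (fun i m => (hcf _ (hb i)).1 _) (fun i a m => (hcf _ ((hy1 i).2 a)).1 _) hf
    exact h1
  have hygh : ∀ i, y i ⬝ᵥ g = y i ⬝ᵥ h := fun i => hg.1 _ (hy1 i).1
  have hindA : ∀ v : Fin (Module.finrank ℂ L₁ - Module.finrank ℂ L) → ℂ,
      ∑ i, v i • om g i ∈ dK K k → v = 0 := fun v hv =>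
    ec_of_minor (Mt g) f hMg v ((hV g v).1 hv)
  -- step 3
  have hF : Fld K (acl k (Set.range g)) := acl_fld hkf hgfin
  have hF₁ : Fld K (acl k₁ (Set.range g)) := acl_fld hk₁ hgfin
  have hG : FiniteDimensional ℂ (dK K (acl k (Set.range g))) := hF.fin
  have hspg : span ℂ (dd K '' Set.range g) ≤ dK K (acl k (Set.range g)) := by
    rw [dK_acl]
    exact le_sup_right
  have homB : ∀ i, om g i ∈ dK K k₁ ⊓ dK K (acl k (Set.range g)) := by
    intro i
    constructor
    · exact sub_mem (dd_mem (hb i)) (sum_mem fun a _ => Submodule.smul_mem _ _ (dd_mem ((hy1 i).2 a)))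
    · rw [hom g hygh i]
      exact sum_mem fun a _ => Submodule.smul_mem _ _ (hspg (subset_span ⟨g a, ⟨a, rfl⟩, rfl⟩))
  have hli : LinearIndependent ℂ (om g) := by
    rw [Fintype.linearIndependent_iff]
    intro v hv i
    have h1 := hindA v (by rw [hv]; exact zero_mem _)
    exact congrFun h1 i
  have hU : Module.finrank ℂ (span ℂ (Set.range (om g))) = Module.finrank ℂ L₁ - Module.finrank ℂ L := by
    rw [finrank_span_eq_card hli, Fintype.card_fin]
  have hUfin : FiniteDimensional ℂ (span ℂ (Set.range (om g))) := FiniteDimensional.span_of_finite ℂ (Set.finite_range _)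
  have hinf : dK K k ⊓ span ℂ (Set.range (om g)) = ⊥ := by
    rw [eq_bot_iff]
    rintro w ⟨hw1, hw2⟩
    obtain ⟨v, rfl⟩ := (Submodule.mem_span_range_iff_exists_fun ℂ).1 hw2
    rw [hindA v hw1]
    simp
  have hdim := Submodule.finrank_sup_add_finrank_inf_eq (dK K k) (span ℂ (Set.range (om g)))
  rw [hinf, finrank_bot, add_zero, hU] at hdim
  have hle1 : dK K k ⊔ span ℂ (Set.range (om g)) ≤ dK K k₁ ⊓ dK K (acl k (Set.range g)) := by
    refine sup_le (le_inf (dK_mono hk) (dK_mono (le_acl _ _))) (span_le.2 ?_)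
    rintro _ ⟨i, rfl⟩
    exact homB i
  have hBGfin : FiniteDimensional ℂ (dK K k₁ ⊓ dK K (acl k (Set.range g)) : Submodule ℂ (Om K)) :=
    Submodule.finiteDimensional_of_le inf_le_left
  have hle2 := Submodule.finrank_mono hle1
  have hdim2 := Submodule.finrank_sup_add_finrank_inf_eq (dK K k₁) (dK K (acl k (Set.range g)))
  have hsup : dK K k₁ ⊔ dK K (acl k (Set.range g)) = dK K (acl k₁ (Set.range g)) := by
    rw [dK_acl, dK_acl, ← sup_assoc, sup_eq_left.2 (dK_mono hk)]
  rw [hsup] at hdim2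
  have hgL : ∀ l ∈ L, l ⬝ᵥ g = l ⬝ᵥ h := fun l hl => hg.1 l (hL hl)
  have hle3 := genr_le hp hgL
  have hLL := Submodule.finrank_mono hL
  have hg2 := hg.2
  have hrkk := rk_mono hk₁ hk
  unfold rk at he hle3 hg2 hrkk
  have hGen : Genr K h k L g := by
    refine ⟨hgL, ?_⟩
    unfold rk
    omega
  refine ⟨hGen, ?_⟩
  -- step 4
  have hFF : acl k (Set.range g) ≤ acl k₁ (Set.range g) := acl_mono hk subset_rfl
  have hsp4 : dK K (acl k₁ (Set.range g)) ≤ dK K (acl k (Set.range g)) ⊔ span ℂ (dd K '' (k₁ : Set ℂ)) := by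
    rw [dK_acl K k₁]
    exact sup_le le_sup_right (hspg.trans le_sup_left)
  obtain ⟨t, ht1, ht2, ht3⟩ := exists_basis hF hF₁ hFF (A := (k₁ : Set ℂ)) (le_acl k₁ (Set.range g)) hsp4
  have hee : rk K (acl k₁ (Set.range g)) - rk K (acl k (Set.range g)) = e := by
    have h1 := hGen.2
    unfold rk at h1 ⊢
    omega
  subst hee
  exact ⟨t, ht1, ht2, (le_acl k₁ (Set.range g)).trans ht3⟩

end Pool.Agent.PHB
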