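import Pool.Agent.PHB.GnrE

/-!
# PHB-GnrT: generic vectors have the same type
-/

namespace Pool.Agent.PHB

open Submodule

private theorem acl_gens {k F : Subfield ℂ} (hk : k ≤ F) {n : ℕ} {J : Finset (Mon n)} {g : V n}
    {A : Mon n → J → ℂ} {c : Mon n → ℂ} (hA : ∀ a b, A a b ∈ k) (hc : ∀ a, c a ∈ k)
    (hg : ∀ a, g a = ∑ b : J, A a b * g b + c a) :
    acl F (Set.range g) = acl F (Set.range fun b : J => g b) := by
  apply le_antisymm
  · refine acl_le (acl_ac _ _) (le_acl _ _) ?_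
    rintro _ ⟨a, rfl⟩
    show g a ∈ acl F (Set.range fun b : J => g b)
    rw [hg a]
    exact add_mem (sum_mem fun b _ => mul_mem (le_acl _ _ (hk (hA a b))) (subset_acl _ _ ⟨b, rfl⟩))
      (le_acl _ _ (hk (hc a)))
  · refine acl_mono le_rfl ?_
    rintro _ ⟨b, rfl⟩
    exact ⟨b, rfl⟩

theorem genr_type {K : Subfield ℂ} {n : ℕ} {h : V n} {σ : ℂ ≃+* ℂ} {k k' : Subfield ℂ}
    {L L' : Submodule ℂ (V n)} (hp : Pos K h k L) (hp' : Pos K h k' L') (hi : Iso K h σ k L k' L')
    {g g'' : V n} {e : ℕ} {t π : Fin e → ℂ} (hg : Genr K h k L g) (ht : Ind K (acl k (Set.range g)) t)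
    (hπ : Ind K k' π) (hg'' : Genr K h (acl k' (Set.range π)) L' g'') :
    ∃ σ₂ : ℂ ≃+* ℂ, (∀ z ∈ k, σ₂ z = σ z) ∧ (∀ z ∈ K, σ₂ z = z) ∧ (∀ a, σ₂ (g a) = g'' a) ∧ ∀ i, σ₂ (t i) = π i := by
  obtain ⟨J, A, c, hcard, hA, hc, hpL, hpL', -⟩ := param hp hi
  have hg1 : ∀ a, g a = ∑ b : J, A a b * g b + c a := (hpL g).1 hg.1
  have hg2 : ∀ a, g'' a = ∑ b : J, σ (A a b) * g'' b + σ (c a) := (hpL' g'').1 hg''.1
  have hkk : ∀ z ∈ k, σ z ∈ k' := fun z hz => (hi.map z).2 hz
  have hfr : Module.finrank ℂ L' = Module.finrank ℂ L := hi.finrank_eq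
  have hJc : Fintype.card (J ⊕ Fin e) = J.card + e := by
    rw [Fintype.card_sum, Fintype.card_coe, Fintype.card_fin]
  -- the first family
  have hI1 : Ind K k (Sum.elim (fun b : J => g b) t) := by
    refine ind_of_rk hp.fld ?_
    have e1 : acl k (Set.range g) = acl k (Set.range fun b : J => g b) := acl_gens le_rfl hA hc hg1
    have e2 : acl k (Set.range (Sum.elim (fun b : J => g b) t)) = acl (acl k (Set.range g)) (Set.range t) := by
      rw [Set.Sum.elim_range, e1, acl_acl]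
    have e3 := rk_acl_ind (acl_fld hp.fld (Set.finite_range g)) ht
    have e4 := hg.2
    rw [Fintype.card_fin] at e3
    rw [e2, e3, hJc]
    omega
  -- the second family
  have hI2 : Ind K k' (Sum.elim (fun b : J => g'' b) π) := by
    refine ind_of_rk hp'.fld ?_
    have e1 : acl (acl k' (Set.range π)) (Set.range g'') =
        acl (acl k' (Set.range π)) (Set.range fun b : J => g'' b) :=
      acl_gens (le_acl k' _) (A := fun a b => σ (A a b)) (c := fun a => σ (c a)) (fun a b => hkk _ (hA a b))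
        (fun a => hkk _ (hc a)) hg2
    have e2 : acl k' (Set.range (Sum.elim (fun b : J => g'' b) π)) =
        acl (acl k' (Set.range π)) (Set.range g'') := by
      rw [Set.Sum.elim_range, e1, acl_acl, Set.union_comm]
    have e3 := rk_acl_ind hp'.fld hπ
    have e4 := hg''.2
    rw [Fintype.card_fin] at e3
    rw [e2, hJc]
    omega
  have hI1' : Ind K k' (fun i => σ (Sum.elim (fun b : J => g b) t i)) := by
    rw [hi.eq_im]
    exact ind_im hi.fix hI1
  obtain ⟨τ, hτ, hτ2⟩ := exists_aut_ind hp'.fld hI1' hI2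
  refine ⟨σ.trans τ, ?_, ?_, ?_, ?_⟩
  · intro z hz
    rw [RingEquiv.trans_apply]
    exact hτ _ (hkk z hz)
  · intro z hz
    rw [RingEquiv.trans_apply, hi.fix z hz]
    exact hτ z (hp'.fld.le hz)
  · intro a
    rw [RingEquiv.trans_apply, hg1 a, hg2 a, map_add, map_sum, map_add, map_sum, hτ _ (hkk _ (hc a))]
    congr 1
    refine Finset.sum_congr rfl fun b _ => ?_
    rw [map_mul, map_mul, hτ _ (hkk _ (hA a b))]
    congr 1
    exact hτ2 (Sum.inl b)
  · intro i
    rw [RingEquiv.trans_apply]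
    exact hτ2 (Sum.inr i)

end Pool.Agent.PHB
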