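import Pool.Agent.PHB.ECb
import Pool.Agent.PHB.ECa
import Pool.Agent.PHB.GnrT
import Pool.Agent.PHB.Cls

/-!
# PHB-EC: the extension theorem

`closure` gives `(k₁, L₁)`; a generic vector `g` over it is generic over `(k, L)` (`tl`, `ec_generic`) and has the same type over `k` as a generic
vector `g''` over `(F, L')`, where `F` is generated over `k'` by generic numbers (`genr_type`); the image of `(k₁, L₁)` is specialised to a position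
(`specialise`), which is good because `(F, L')` is good (`add_gen`).
-/

namespace Pool.Agent.PHB

open Submodule

private theorem ec_num {q S' S e : ℕ} (hS : 4 * ((q + 1) * (S' + 1)) ^ 2 ≤ S) (he : e ≤ q) :
    (q + 1) * S' ≤ S ∧ q * S' ≤ S ∧ (q * S' + q) + q * S' + 1 + (1 + (q * S' + q)) * (q * S') ≤ S ∧
      ((q + 1) * S' + e) + (q + 1) * S' + 1 + (1 + ((q + 1) * S' + e)) * ((q + 1) * S') ≤ S := by
  obtain ⟨X, hX⟩ : ∃ X, X = (q + 1) * (S' + 1) := ⟨_, rfl⟩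
  rw [← hX] at hS
  have h1 : X = (q + 1) * S' + q + 1 := by rw [hX]; ring
  have h2 : (q + 1) * S' = q * S' + S' := by ring
  have hX1 : 1 ≤ X := by omega
  have hXX : X ≤ X * X := Nat.le_mul_of_pos_left _ hX1
  have hS' : 4 * (X * X) ≤ S := by
    calc 4 * (X * X) = 4 * X ^ 2 := by ring
      _ ≤ S := hS
  have h3 : (1 + (q * S' + q)) * (q * S') ≤ X * X := Nat.mul_le_mul (by omega) (by omega)
  have h4 : (1 + ((q + 1) * S' + e)) * ((q + 1) * S') ≤ X * X := Nat.mul_le_mul (by omega) (by omega)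
  refine ⟨by omega, by omega, by omega, by omega⟩

private theorem map_dot {n : ℕ} (τ : ℂ ≃+* ℂ) {g g' : V n} (hg : ∀ a, τ (g a) = g' a) (l : V n) :
    τ (l ⬝ᵥ g) = (fun a => τ (l a)) ⬝ᵥ g' := by
  rw [dotProduct, dotProduct, map_sum]
  exact Finset.sum_congr rfl fun a _ => by rw [map_mul, hg]

theorem extension {K : Subfield ℂ} {n : ℕ} {h : V n} (hinf : ¬ FiniteDimensional ℂ (Om K)) (hh : Gn K h)
    {σ : ℂ ≃+* ℂ} {k k' : Subfield ℂ} {L L' : Submodule ℂ (V n)} {S : ℕ} (hp : Pos K h k L)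
    (hp' : Pos K h k' L') (hg : Good K h k L S) (hg' : Good K h k' L' S) (hi : Iso K h σ k L k' L')
    {q : ℕ} (v : Fin q → ℂ) {S' : ℕ} (hS : 4 * ((q + 1) * (S' + 1)) ^ 2 ≤ S) :
    ∃ (σ₁ : ℂ ≃+* ℂ) (k₁ k₁' : Subfield ℂ) (L₁ L₁' : Submodule ℂ (V n)),
      Pos K h k₁ L₁ ∧ Pos K h k₁' L₁' ∧ Good K h k₁ L₁ S' ∧ Good K h k₁' L₁' S' ∧
      Iso K h σ₁ k₁ L₁ k₁' L₁' ∧ k ≤ k₁ ∧ (∀ z ∈ k, σ₁ z = σ z) ∧ ∀ i, v i ∈ k₁ := by
  obtain ⟨hn1, hn2, hn3, -⟩ := ec_num hS (Nat.zero_le q)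
  -- step 1
  obtain ⟨k₁, L₁, hp₁, hk, hL, hv, hmu, hg₁, hrk⟩ := closure hp hg v hn1
  obtain ⟨hd1, hd2⟩ := finrank_add_im_le hL hmu
  have hlow := hg k₁ L₁ hp₁ hk hL (by omega)
  obtain ⟨e, he⟩ : ∃ e, rk K k + Module.finrank ℂ L₁ + e = rk K k₁ + Module.finrank ℂ L :=
    ⟨rk K k₁ + Module.finrank ℂ L - (rk K k + Module.finrank ℂ L₁), by omega⟩
  have heq : e ≤ q := by omega
  obtain ⟨-, -, -, hn4⟩ := ec_num hS heq
  -- step 2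
  have htl := tl hp hg hp₁.fld hk hp₁.rat hL (q * S' + q) (q * S') (q * S') (by omega) hd1 hd2 hn3
  -- step 3
  obtain ⟨g, hgen⟩ := genr_exists hinf hp₁
  obtain ⟨hgk, t, htk, hti, -⟩ := ec_generic hp hp₁ hk hL htl hgen he
  -- step 4
  obtain ⟨π, hπ⟩ := exists_ind hinf (acl_fld hp'.fld (Set.finite_range h)) e
  have hπ' : Ind K k' π := ind_mono (le_acl k' _) hπ
  obtain ⟨hpF, hgF⟩ := add_gen hh hp' hg' hπ (S0 := (q + 1) * S') hn4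
  obtain ⟨g'', hgen''⟩ := genr_exists hinf hpF
  obtain ⟨σ₂, hσ₂, hσ₂K, hσ₂g, hσ₂t⟩ := genr_type hp hp' hi hgk hti hπ' hgen''
  obtain ⟨F, hF⟩ : ∃ F, F = acl k' (Set.range π) := ⟨_, rfl⟩
  rw [← hF] at hpF hgF hgen''
  have hk'F : k' ≤ F := by rw [hF]; exact le_acl _ _
  -- step 5
  have hi₂ := hi.congr hp hσ₂
  have hM : Fld K (im σ₂ k₁) := fld_im hσ₂K hp₁.fld
  have hrkM : rk K (im σ₂ k₁) = rk K k₁ := rk_im hσ₂K hp₁.fld
  have hFM : F ≤ im σ₂ k₁ := by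
    rw [hF]
    refine acl_le hM.ac ?_ ?_
    · rw [hi₂.eq_im]
      exact im_mono' hk
    · rintro _ ⟨i, rfl⟩
      rw [← hσ₂t i]
      exact mem_im.2 (htk i)
  have hL'' : L' ≤ sg σ₂ L₁ := by
    rw [← hi₂.sp]
    exact sg_mono hL
  have hkn : ∀ l ∈ sg σ₂ L₁, Rv (im σ₂ k₁) l → l ⬝ᵥ g'' ∈ im σ₂ k₁ := by
    intro l hl hlr
    have hl0 : (fun a => σ₂.symm (l a)) ∈ L₁ := hl
    have hr0 : Rv k₁ (fun a => σ₂.symm (l a)) := fun a => mem_im'.1 (hlr a)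
    have h1 := map_dot σ₂ hσ₂g (fun a => σ₂.symm (l a))
    have h2 : (fun a => σ₂ ((fun a => σ₂.symm (l a)) a)) = l := by
      funext a
      exact σ₂.apply_symm_apply _
    rw [h2] at h1
    rw [← h1, mem_im, hgen.1 _ hl0]
    exact hp₁.kn _ hl0 hr0
  have hrF : rk K F = rk K k + e := by
    rw [hF, rk_acl_ind hp'.fld hπ', Fintype.card_fin, hi.rk_eq hp.fld]
  have hdL := hi.finrank_eq
  have hdL₁ : Module.finrank ℂ (sg σ₂ L₁) = Module.finrank ℂ L₁ := finrank_sg L₁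
  have hdI : Module.finrank ℂ (Im L') = Module.finrank ℂ (Im L) := by
    rw [← hi₂.sp, im_sg, finrank_sg]
  have hdI₁ : Module.finrank ℂ (Im (sg σ₂ L₁)) = Module.finrank ℂ (Im L₁) := by
    rw [im_sg, finrank_sg]
  have hrk' : rk K (im σ₂ k₁) + Module.finrank ℂ L' = rk K F + Module.finrank ℂ (sg σ₂ L₁) := by
    omega
  have htl' : ∀ (κ : Subfield ℂ) (Lb : Submodule ℂ (V n)), Pos K h κ Lb → F ≤ κ → L' ≤ Lb →
      rk K κ ≤ rk K (im σ₂ k₁) → Module.finrank ℂ Lb = Module.finrank ℂ (sg σ₂ L₁) →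
      Module.finrank ℂ (Im Lb) ≤ Module.finrank ℂ (Im (sg σ₂ L₁)) → Lb ⊓ Nn K h F ≤ L' := by
    intro κ Lb hpκ hFκ hLb hr hd hdi
    rw [hF, nn_gen hπ]
    have hrk2 := hi.rk_eq hp.fld
    exact tl hp' hg' hpκ.fld (hk'F.trans hFκ) hpκ.rat hLb (q * S' + q) (q * S') (q * S') (by omega)
      (by omega) (by omega) hn3
  obtain ⟨σ₃, hσ₃, hp₃, hval₃⟩ := specialise hh hpF hgen'' hM hFM (rat_sg hp₁.rat) hL'' hkn hrk' htl'
  have hσ₃K : ∀ z ∈ K, σ₃ z = z := fun z hz => hσ₃ z (hpF.fld.le hz)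
  -- step 7
  have hFk : F ≤ im σ₃ (im σ₂ k₁) := by
    intro z hz
    rw [← hσ₃ z hz]
    exact mem_im.2 (hFM hz)
  have hL₁' : L' ≤ sg σ₃ (sg σ₂ L₁) := by
    rw [← sg_fix hσ₃ hpF.rat]
    exact sg_mono hL''
  have hrk₃ : rk K (im σ₃ (im σ₂ k₁)) = rk K k₁ := by rw [rk_im hσ₃K hM, hrkM]
  have hd₃ : Module.finrank ℂ (sg σ₃ (sg σ₂ L₁)) = Module.finrank ℂ L₁ := by rw [finrank_sg, finrank_sg]
  have hmu₃ : mu (sg σ₃ (sg σ₂ L₁)) = mu L₁ := by rw [mu_sg, mu_sg]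
  have hmu' := hi.mu_eq
  have hgood : Good K h (im σ₃ (im σ₂ k₁)) (sg σ₃ (sg σ₂ L₁)) S' := by
    intro k'' L''' hp''' hk'' hL''' hmu'''
    have h1 : (q + 1) * S' = q * S' + S' := by ring
    have h2 := hgF k'' L''' hp''' (hFk.trans hk'') (hL₁'.trans hL''') (by omega)
    have h3 : rk K (im σ₃ (im σ₂ k₁)) + Module.finrank ℂ L''' ≤
        rk K k'' + Module.finrank ℂ (sg σ₃ (sg σ₂ L₁)) := by omega
    exact h3
  refine ⟨σ₂.trans σ₃, k₁, im σ₃ (im σ₂ k₁), L₁, sg σ₃ (sg σ₂ L₁), hp₁, hp₃, hg₁, hgood, ?_, hk, ?_, hv⟩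
  · -- step 6
    refine ⟨?_, ?_, ?_, ?_⟩
    · intro z hz
      show σ₃ (σ₂ z) = z
      rw [hσ₂K z hz, hσ₃K z hz]
    · intro z
      show σ₃ (σ₂ z) ∈ im σ₃ (im σ₂ k₁) ↔ z ∈ k₁
      rw [mem_im, mem_im]
    · ext v
      exact Iff.rfl
    · intro l hl hlr
      show σ₃ (σ₂ (l ⬝ᵥ h)) = (fun a => σ₃ (σ₂ (l a))) ⬝ᵥ h
      rw [← hgen.1 l hl, map_dot σ₂ hσ₂g l]
      exact hval₃ _ (mem_sg.2 hl) (fun a => mem_im.2 (hlr a))
  · intro z hz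
    show σ₃ (σ₂ z) = σ z
    rw [hσ₂ z hz]
    exact hσ₃ _ (hk'F ((hi.map z).2 hz))

end Pool.Agent.PHB
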