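import Pool.Agent.PHB.Bas

/-!
# PHB-ExtA: extension of embeddings to automorphisms of `ℂ`

`ea_eqv`: two algebraically closed fields containing `E` of the same transcendence degree over `E` are isomorphic over `E`.
`ea_tr`: for `F ⊆ E ⊆ Ω₁, Ω₂` with `trdeg F E` finite and `trdeg F Ω₁ = trdeg F Ω₂` also `trdeg E Ω₁ = trdeg E Ω₂`,
because `trdeg F E + trdeg E Ω = trdeg F Ω` for both.
`ea_fin`: a transcendence basis of `k` over `K` is finite, because the differentials of algebraically independent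
elements are linearly independent in `dK K k`, which is finite dimensional.
-/

namespace Pool.Agent.PHB

private theorem ea_eqv {E Ω₁ Ω₂ : Type} [Field E] [Field Ω₁] [Field Ω₂] [IsAlgClosed Ω₁] [IsAlgClosed Ω₂]
    [Algebra E Ω₁] [Algebra E Ω₂] (h : Algebra.trdeg E Ω₁ = Algebra.trdeg E Ω₂) :
    ∃ σ : Ω₁ ≃+* Ω₂, ∀ z : E, σ (algebraMap E Ω₁ z) = algebraMap E Ω₂ z := by
  obtain ⟨s, hs⟩ := exists_isTranscendenceBasis E Ω₁
  obtain ⟨t, ht⟩ := exists_isTranscendenceBasis E Ω₂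
  rw [← hs.cardinalMk_eq_trdeg, ← ht.cardinalMk_eq_trdeg] at h
  obtain ⟨e⟩ := Cardinal.eq.1 h
  have i1 := IsAlgClosed.isAlgClosure_of_transcendence_basis _ hs
  have i2 := IsAlgClosed.isAlgClosure_of_transcendence_basis _ ht
  let f : Algebra.adjoin E (Set.range ((↑) : s → Ω₁)) ≃ₐ[E] Algebra.adjoin E (Set.range ((↑) : t → Ω₂)) :=
    (hs.1.aevalEquiv.symm.trans (MvPolynomial.renameEquiv E e)).trans ht.1.aevalEquiv
  refine ⟨IsAlgClosure.equivOfEquiv Ω₁ Ω₂ f.toRingEquiv, fun z => ?_⟩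
  have h1 := IsAlgClosure.equivOfEquiv_algebraMap Ω₁ Ω₂ f.toRingEquiv (algebraMap E _ z)
  rw [IsScalarTower.algebraMap_apply E (Algebra.adjoin E (Set.range ((↑) : s → Ω₁))) Ω₁ z, h1]
  have h2 : f.toRingEquiv (algebraMap E _ z) = algebraMap E _ z := f.commutes z
  rw [h2, ← IsScalarTower.algebraMap_apply]

private theorem ea_tr {F E Ω₁ Ω₂ : Type} [Field F] [Field E] [Field Ω₁] [Field Ω₂] [Algebra F E]
    [Algebra E Ω₁] [Algebra E Ω₂] [Algebra F Ω₁] [Algebra F Ω₂] [IsScalarTower F E Ω₁] [IsScalarTower F E Ω₂]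
    (h : Algebra.trdeg F Ω₁ = Algebra.trdeg F Ω₂) (hfin : Algebra.trdeg F E < Cardinal.aleph0) :
    Algebra.trdeg E Ω₁ = Algebra.trdeg E Ω₂ := by
  have h1 := trdeg_add_eq F E (A := Ω₁)
  have h2 := trdeg_add_eq F E (A := Ω₂)
  rw [h, ← h2, add_comm _ (Algebra.trdeg E Ω₁), add_comm _ (Algebra.trdeg E Ω₂)] at h1
  exact (Cardinal.add_right_inj_of_lt_aleph0 hfin).1 h1

private theorem ea_fin {K k : Subfield ℂ} (hk : Fld K k) [Algebra K k] [IsScalarTower K k ℂ] :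
    Algebra.trdeg K k < Cardinal.aleph0 := by
  have hfin := hk.fin
  obtain ⟨s, hs⟩ := exists_isTranscendenceBasis K k
  rw [← hs.cardinalMk_eq_trdeg, Cardinal.mk_lt_aleph0_iff]
  by_contra hinf
  have hinf' : s.Infinite := hinf
  obtain ⟨t, hts, htc⟩ := hinf'.exists_subset_card_eq (rk K k + 1)
  have h1 : AlgebraicIndependent K (fun i : t => ((i : k) : ℂ)) := by
    have h2 := (hs.1.comp (fun i : t => (⟨(i : k), hts i.2⟩ : s)) (fun i j hij => by
      have := congrArg (fun z : s => (z : k)) hij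
      exact Subtype.ext this)).map' (f := IsScalarTower.toAlgHom K k ℂ) (by
        intro x y hxy
        exact Subtype.ext hxy)
    exact h2
  have h3 := ind_of_algInd le_rfl h1
  have h4 : LinearIndependent ℂ (fun i : t => (⟨dd K ((i : k) : ℂ),
      Submodule.subset_span ⟨_, (i : k).2, rfl⟩⟩ : dK K k)) := by
    refine LinearIndependent.of_comp (dK K k).subtype ?_
    rw [Fintype.linearIndependent_iff]
    intro c hc i
    have h5 : ∑ i, c i • dd K (((i : t) : k) : ℂ) ∈ dK K K := by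
      have h6 : ∑ i, c i • dd K (((i : t) : k) : ℂ) = 0 := hc
      rw [h6]
      exact Submodule.zero_mem _
    exact congrFun (h3 c h5) i
  have h7 := h4.fintype_card_le_finrank
  rw [Fintype.card_coe, htc] at h7
  unfold rk at h7
  omega

theorem exists_aut_of_hom {K k : Subfield ℂ} (hk : Fld K k) (ψ : k →+* ℂ)
    (hψ : ∀ z (hz : z ∈ K), ψ ⟨z, hk.le hz⟩ = z) :
    ∃ σ : ℂ ≃+* ℂ, (∀ z ∈ K, σ z = z) ∧ ∀ z : k, σ z = ψ z := by
  let a1 : Algebra K k := (Subfield.inclusion hk.le).toAlgebra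
  let a0 : Algebra k ℂ := inferInstance
  have t1 : IsScalarTower K k ℂ := IsScalarTower.of_algebraMap_eq fun z => rfl
  have hf := ea_fin hk
  let a2 : Algebra k ℂ := ψ.toAlgebra
  have t2 : @IsScalarTower K k ℂ _ a2.toSMul _ := @IsScalarTower.of_algebraMap_eq K k ℂ _ _ _ _ a2 _
    fun z => (hψ z z.2).symm
  have h1 := @ea_tr K k ℂ ℂ _ _ _ _ a1 a0 a2 _ _ t1 t2 rfl hf
  obtain ⟨σ, hσ⟩ := @ea_eqv k ℂ ℂ _ _ _ _ _ a0 a2 h1
  have h2 : ∀ z : k, σ z = ψ z := hσ
  exact ⟨σ, fun z hz => (h2 ⟨z, hk.le hz⟩).trans (hψ z hz), h2⟩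

end Pool.Agent.PHB
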