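import Pool.Agent.PHB.PlD
import Pool.Agent.PHB.ExtA

/-!
# PHB-PlC: places which do not lower the rank are trivial (imports PlD, ExtA)

PLAN.  `plc_poly`: for `P : MvPolynomial ι F` and `(a i, b i) ∈ Γ`: `(aeval a P, aeval b P) ∈ Γ` (induction; `(z, z) ∈ Γ` for `z ∈ F`).
`b` is algebraically independent over `F` (`algInd_of_ind`), hence so is `a`: `aeval a P = 0` gives `(0, aeval b P) ∈ Γ`, `aeval b P = 0`, `P = 0`.
So `Ind K F a` (`ind_of_algInd`), `rk F + m ≤ rk M` (`rk_acl_ind`, `acl F (range a) ≤ M`).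
Equality: `M ≤ acl F (range a)` (`le_of_rk_le`), so every `w ∈ M` is algebraic over `F(a)` (`mem_acl_iff`).  Claim: if `(w, 0) ∈ Γ`, `w ∈ M` then `w = 0`: otherwise,
clearing denominators and dividing by a power of `w`: `∑_{i ≤ r} P_i(a) w ^ i = 0` with `P_i ∈ F[X_1..X_m]` and `P_0 ≠ 0`; then
`(P_0(a), 0) ∈ Γ` (`P_0(a) = - w (...)`), but `(P_0(a), P_0(b)) ∈ Γ` so `P_0(b) = 0` (`uniq` applied to the difference `(0, P_0(b))`), contradicting independence of `b`.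
So for `x ∈ M`, `x ≠ 0`: `(x⁻¹, 0) ∉ Γ`, hence by `val` `(x, y) ∈ Γ` for some `y`, unique by `uniq`.  This defines a ring homomorphism `ψ : M →+* ℂ`,
the identity on `F ⊇ K`; `exists_aut_of_hom`.
-/

namespace Pool.Agent.PHB

private theorem plc_poly {F : Subfield ℂ} {Γ : Subring (ℂ × ℂ)} (hid : ∀ z ∈ F, (z, z) ∈ Γ) {m : ℕ}
    {a b : Fin m → ℂ} (hab : ∀ i, (a i, b i) ∈ Γ) (P : MvPolynomial (Fin m) F) :
    (MvPolynomial.aeval a P, MvPolynomial.aeval b P) ∈ Γ := by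
  induction P using MvPolynomial.induction_on with
  | C z =>
    rw [MvPolynomial.aeval_C, MvPolynomial.aeval_C]
    exact hid _ z.2
  | add p q hp hq =>
    rw [map_add, map_add]
    exact Γ.add_mem hp hq
  | mul_X p i hp =>
    rw [map_mul, map_mul, MvPolynomial.aeval_X, MvPolynomial.aeval_X]
    exact Γ.mul_mem hp (hab i)

private theorem plc_indep {K F : Subfield ℂ} {Γ : Subring (ℂ × ℂ)} (hΓ : Plc Γ)
    (hid : ∀ z ∈ F, (z, z) ∈ Γ) {m : ℕ} {a b : Fin m → ℂ}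
    (hab : ∀ i, (a i, b i) ∈ Γ) (hb : Ind K F b) (P : MvPolynomial (Fin m) F)
    (h : MvPolynomial.aeval a P = 0) : P = 0 := by
  have h1 := plc_poly hid hab P
  rw [h] at h1
  exact algebraicIndependent_iff.1 (algInd_of_ind hb) P (hΓ.uniq _ h1)

private theorem plc_acl {K F M : Subfield ℂ} {Γ : Subring (ℂ × ℂ)} (hΓ : Plc Γ) (hF : Fld K F)
    (hM : Fld K M) (hFM : F ≤ M) (hid : ∀ z ∈ F, (z, z) ∈ Γ) {m : ℕ} {a b : Fin m → ℂ}
    (ha : ∀ i, a i ∈ M) (hab : ∀ i, (a i, b i) ∈ Γ) (hb : Ind K F b) :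
    rk K (acl F (Set.range a)) = rk K F + m ∧ acl F (Set.range a) ≤ M := by
  have h1 : AlgebraicIndependent F a :=
    algebraicIndependent_iff.2 fun P hP => plc_indep hΓ hid hab hb P hP
  refine ⟨?_, acl_le hM.ac hFM ?_⟩
  · rw [rk_acl_ind hF (ind_of_algInd hF.le h1), Fintype.card_fin]
  · rintro _ ⟨i, rfl⟩
    exact ha i

theorem plc_rank {K F M : Subfield ℂ} {Γ : Subring (ℂ × ℂ)} (hΓ : Plc Γ) (hF : Fld K F) (hM : Fld K M)
    (hFM : F ≤ M) (hid : ∀ z ∈ F, (z, z) ∈ Γ) {m : ℕ} {a b : Fin m → ℂ} (ha : ∀ i, a i ∈ M)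
    (hab : ∀ i, (a i, b i) ∈ Γ) (hb : Ind K F b) : rk K F + m ≤ rk K M := by
  obtain ⟨h1, h2⟩ := plc_acl hΓ hF hM hFM hid ha hab hb
  rw [← h1]
  exact rk_mono hM h2

private theorem plc_kernel {K F M : Subfield ℂ} {Γ : Subring (ℂ × ℂ)} (hΓ : Plc Γ) (hF : Fld K F)
    (hM : Fld K M) (hFM : F ≤ M) (hid : ∀ z ∈ F, (z, z) ∈ Γ) {m : ℕ} {a b : Fin m → ℂ}
    (ha : ∀ i, a i ∈ M) (hab : ∀ i, (a i, b i) ∈ Γ) (hb : Ind K F b) (hrk : rk K M ≤ rk K F + m)
    {w : ℂ} (hw : w ∈ M) (hw0 : (w, (0 : ℂ)) ∈ Γ) : w = 0 := by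
  obtain ⟨h1, h2⟩ := plc_acl hΓ hF hM hFM hid ha hab hb
  rw [← h1] at hrk
  have h3 : M ≤ acl F (Set.range a) :=
    le_of_rk_le (acl_fld hF (Set.finite_range a)) hM h2 hrk
  have h4 := mem_acl_iff.1 (h3 hw)
  have h5 : Subfield.closure ((F : Set ℂ) ∪ Set.range a) ≤
      (IntermediateField.adjoin F (Set.range a)).toSubfield := by
    rw [Subfield.closure_le]
    rintro z (hz | hz)
    · exact (IntermediateField.adjoin F (Set.range a)).algebraMap_mem ⟨z, hz⟩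
    · exact IntermediateField.subset_adjoin F (Set.range a) hz
  have h6 : IsAlgebraic (IntermediateField.adjoin F (Set.range a)) w := alg_mono h5 h4
  have h7 : IsAlgebraic (Algebra.adjoin F (Set.range a)) w :=
    IntermediateField.isAlgebraic_adjoin_iff.1 h6
  by_contra hne
  obtain ⟨q, hq0, hq⟩ := h7.exists_nonzero_coeff_and_aeval_eq_zero (mem_nonZeroDivisors_of_ne_zero hne)
  have h8 : ∀ i, ∃ P : MvPolynomial (Fin m) F, MvPolynomial.aeval a P = (q.coeff i : ℂ) := by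
    intro i
    have h9 : ∀ z ∈ Algebra.adjoin F (Set.range a),
        ∃ P : MvPolynomial (Fin m) F, MvPolynomial.aeval a P = z := by
      intro z hz
      rw [Algebra.adjoin_range_eq_range_aeval] at hz
      exact hz
    exact h9 _ (q.coeff i).2
  choose P hP using h8
  apply hq0
  have hsum : ∑ i ∈ Finset.range (q.natDegree + 1),
      ((q.coeff i : ℂ), MvPolynomial.aeval b (P i)) * (w, (0 : ℂ)) ^ i ∈ Γ := by
    refine Γ.sum_mem fun i _ => Γ.mul_mem ?_ (Γ.pow_mem hw0 i)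
    rw [← hP i]
    exact plc_poly hid hab (P i)
  have hval : ∑ i ∈ Finset.range (q.natDegree + 1),
      ((q.coeff i : ℂ), MvPolynomial.aeval b (P i)) * (w, (0 : ℂ)) ^ i =
      ((0 : ℂ), MvPolynomial.aeval b (P 0)) := by
    refine Prod.ext ?_ ?_
    · rw [Prod.fst_sum]
      simp only [Prod.fst_mul, Prod.pow_fst]
      rw [Polynomial.aeval_eq_sum_range] at hq
      rw [← hq]
      refine Finset.sum_congr rfl fun i _ => ?_
      rfl
    · rw [Prod.snd_sum]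
      simp only [Prod.snd_mul, Prod.pow_snd]
      rw [Finset.sum_eq_single 0]
      · simp
      · intro i _ hi
        rw [zero_pow hi, mul_zero]
      · intro h
        exact absurd (Finset.mem_range.2 (Nat.succ_pos _)) h
  rw [hval] at hsum
  have h10 := hΓ.uniq _ hsum
  have h11 := algebraicIndependent_iff.1 (algInd_of_ind hb) (P 0) h10
  have h12 := hP 0
  rw [h11, map_zero] at h12
  exact Subtype.ext h12.symm

theorem plc_trivial {K F M : Subfield ℂ} {Γ : Subring (ℂ × ℂ)} (hΓ : Plc Γ) (hF : Fld K F) (hM : Fld K M)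
    (hFM : F ≤ M) (hid : ∀ z ∈ F, (z, z) ∈ Γ) {m : ℕ} {a b : Fin m → ℂ} (ha : ∀ i, a i ∈ M)
    (hab : ∀ i, (a i, b i) ∈ Γ) (hb : Ind K F b) (hrk : rk K M ≤ rk K F + m) :
    ∃ σ : ℂ ≃+* ℂ, (∀ z ∈ F, σ z = z) ∧ ∀ x ∈ M, (x, σ x) ∈ Γ := by
  have hex : ∀ x : M, ∃ y : ℂ, ((x : ℂ), y) ∈ Γ := by
    intro x
    rcases hΓ.val x with h | h
    · exact h
    · have h1 := plc_kernel hΓ hF hM hFM hid ha hab hb hrk (M.inv_mem x.2) h
      rw [inv_eq_zero] at h1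
      rw [h1]
      exact ⟨0, Γ.zero_mem⟩
  choose f hf using hex
  have huniq : ∀ (x : M) (y : ℂ), ((x : ℂ), y) ∈ Γ → f x = y := by
    intro x y hy
    have h1 := Γ.sub_mem (hf x) hy
    rw [Prod.mk_sub_mk, sub_self] at h1
    exact sub_eq_zero.1 (hΓ.uniq _ h1)
  let ψ : M →+* ℂ :=
    { toFun := f
      map_one' := huniq 1 1 Γ.one_mem
      map_zero' := huniq 0 0 Γ.zero_mem
      map_mul' := fun x y => huniq (x * y) (f x * f y) (Γ.mul_mem (hf x) (hf y))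
      map_add' := fun x y => huniq (x + y) (f x + f y) (Γ.add_mem (hf x) (hf y)) }
  have hψF : ∀ z (hz : z ∈ F), ψ ⟨z, hFM hz⟩ = z := fun z hz => huniq ⟨z, hFM hz⟩ z (hid z hz)
  obtain ⟨σ, -, hσ⟩ := exists_aut_of_hom hM ψ fun z hz => hψF z (hF.le hz)
  refine ⟨σ, fun z hz => ?_, fun x hx => ?_⟩
  · have h1 := hσ ⟨z, hFM hz⟩
    rw [hψF z hz] at h1
    exact h1
  · have h1 := hσ ⟨x, hx⟩
    have h2 := hf ⟨x, hx⟩
    have h3 : σ x = f ⟨x, hx⟩ := h1
    rw [h3]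
    exact h2

end Pool.Agent.PHB
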