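import Pool.Agent.PHB.PlD
import Pool.Agent.PHB.Rk

/-!
# PHB-Spc: specialisation of subspaces (imports PlD, Rk)

PLAN.  Let `r = finrank M`, `x : Fin r → ι → ℂ` a basis of `M` with coordinates in `F` (`exists_ech`).  For `p : Fin r → ι` let
`D p = det (x i (p j))_{ij} ∈ F`; some `D p ≠ 0`.  For nonzero complex numbers `u, v` one of `u / v`, `v / u` is finite, i.e. in `{z | ∃ y, (z, y) ∈ Γ}` (`Plc.val`), so
(finitely many `p`; finite is transitive: a total preorder) there is `p` with `D p ≠ 0` and `D p' / D p` finite for all `p'`.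
Let `y = (x i (p j))⁻¹ x`: a basis of `M` with coordinates in `F` and `y i (p j) = δ_ij`; by Cramer `y i a = D (p with p i replaced by a) / D p`
(`Matrix.cramer`, `det_updateCol`), finite: `(y i a, w i a) ∈ Γ`.  `w i (p j) = δ_ij` (`uniq`), so the `w i` are independent.  If `l ∈ M` is rational over `F`
and `(l a, v a) ∈ Γ` for all `a` then `l = ∑ l (p i) • y i` and `v = ∑ v (p i) • w i` (`uniq`).  So `spec Γ F M = span w` has dimension `r`.
`im_spec`: for `(l a, v a) ∈ Γ`: `cat v T` is the specialisation of `cat l T ∈ Im M`.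
`spec_ge`: if `l` is rational over `E`, `(z, z) ∈ Γ` for `z ∈ E`, `E ≤ F`, then `l ∈ spec`.
-/

namespace Pool.Agent.PHB

open Submodule

private theorem sp_uniq {Γ : Subring (ℂ × ℂ)} (hΓ : Plc Γ) {x y y' : ℂ} (h : (x, y) ∈ Γ)
    (h' : (x, y') ∈ Γ) : y = y' := by
  have h1 := Γ.sub_mem h h'
  rw [Prod.mk_sub_mk, sub_self] at h1
  exact sub_eq_zero.1 (hΓ.uniq _ h1)

private theorem sp_max {Γ : Subring (ℂ × ℂ)} (hΓ : Plc Γ) {κ : Type} [DecidableEq κ] (f : κ → ℂ)
    (s : Finset κ) (h : ∃ i ∈ s, f i ≠ 0) :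
    ∃ i ∈ s, f i ≠ 0 ∧ ∀ j ∈ s, ∃ y, (f j / f i, y) ∈ Γ := by
  induction s using Finset.induction with
  | empty =>
    obtain ⟨i, hi, _⟩ := h
    exact absurd hi (Finset.notMem_empty i)
  | insert a s ha ih =>
    have h1 : f a ≠ 0 → ∃ y, (f a / f a, y) ∈ Γ := fun h2 => by
      rw [div_self h2]
      exact ⟨1, Γ.one_mem⟩
    by_cases hs : ∃ i ∈ s, f i ≠ 0
    · obtain ⟨i, hi, hi0, hij⟩ := ih hs
      rcases hΓ.val (f a / f i) with h2 | h2
      · refine ⟨i, Finset.mem_insert_of_mem hi, hi0, fun j hj => ?_⟩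
        rcases Finset.mem_insert.1 hj with rfl | hj
        · exact h2
        · exact hij j hj
      · rw [inv_div] at h2
        by_cases ha0 : f a = 0
        · refine ⟨i, Finset.mem_insert_of_mem hi, hi0, fun j hj => ?_⟩
          rcases Finset.mem_insert.1 hj with rfl | hj
          · rw [ha0, zero_div]
            exact ⟨0, Γ.zero_mem⟩
          · exact hij j hj
        · refine ⟨a, Finset.mem_insert_self _ _, ha0, fun j hj => ?_⟩
          rcases Finset.mem_insert.1 hj with rfl | hj
          · exact h1 ha0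
          · obtain ⟨y, hy⟩ := hij j hj
            refine ⟨y * 0, ?_⟩
            have h3 := Γ.mul_mem hy h2
            rw [Prod.mk_mul_mk, div_mul_div_cancel₀ hi0] at h3
            exact h3
    · push Not at hs
      obtain ⟨i, hi, hi0⟩ := h
      have hia : i = a := by
        rcases Finset.mem_insert.1 hi with h2 | h2
        · exact h2
        · exact absurd (hs i h2) hi0
      subst hia
      refine ⟨i, Finset.mem_insert_self _ _, hi0, fun j hj => ?_⟩
      rcases Finset.mem_insert.1 hj with rfl | hj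
      · exact h1 hi0
      · rw [hs j hj, zero_div]
        exact ⟨0, Γ.zero_mem⟩

private theorem sp_det {F : Subfield ℂ} {r : ℕ} (A : Matrix (Fin r) (Fin r) ℂ)
    (h : ∀ i j, A i j ∈ F) : A.det ∈ F := by
  have h1 : A = F.subtype.mapMatrix (Matrix.of fun i j => (⟨A i j, h i j⟩ : F)) := by
    ext i j
    rfl
  rw [h1, ← RingHom.map_det]
  exact Subtype.property _

theorem finrank_spec {Γ : Subring (ℂ × ℂ)} (hΓ : Plc Γ) {F : Subfield ℂ} {ι : Type} [Fintype ι]
    {M : Submodule ℂ (ι → ℂ)} (hM : Rat F M) :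
    Module.finrank ℂ (spec Γ F M) = Module.finrank ℂ M := by
  classical
  obtain ⟨x, p0, hx, hxp, hspan⟩ := exists_ech hM
  have hp0 : (Matrix.of fun i j => x i (p0 j)).det ≠ 0 := by
    have h1 : (Matrix.of fun i j => x i (p0 j)) =
        (1 : Matrix (Fin (Module.finrank ℂ M)) (Fin (Module.finrank ℂ M)) ℂ) := by
      ext i j
      rw [Matrix.of_apply, hxp, Matrix.one_apply]
    rw [h1, Matrix.det_one]
    exact one_ne_zero
  obtain ⟨p, -, hp, hfin⟩ := sp_max hΓ
    (fun p : Fin (Module.finrank ℂ M) → ι => (Matrix.of fun i j => x i (p j)).det) Finset.univ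
    ⟨p0, Finset.mem_univ _, hp0⟩
  change (Matrix.of fun i j => x i (p j)).det ≠ 0 at hp
  set A : Matrix (Fin (Module.finrank ℂ M)) (Fin (Module.finrank ℂ M)) ℂ :=
    Matrix.of fun i j => x i (p j) with hA
  have hAp : ∀ i j, A i j = x i (p j) := fun i j => rfl
  let y : Fin (Module.finrank ℂ M) → ι → ℂ := fun i => A.det⁻¹ • ∑ k, A.adjugate i k • x k
  have hya : ∀ i a, y i a = (Matrix.of fun k j => x k (Function.update p i a j)).det / A.det := by
    intro i a
    have h1 : y i a = A.det⁻¹ * (A.adjugate.mulVec fun k => x k a) i := by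
      show (A.det⁻¹ • ∑ k, A.adjugate i k • x k) a = _
      rw [Pi.smul_apply, smul_eq_mul, Finset.sum_apply]
      rfl
    rw [h1, ← Matrix.cramer_eq_adjugate_mulVec, Matrix.cramer_apply, div_eq_inv_mul]
    congr 2
    ext k j
    rw [Matrix.updateCol_apply, Matrix.of_apply]
    by_cases hj : j = i
    · rw [if_pos hj, hj, Function.update_self]
    · rw [if_neg hj, Function.update_of_ne hj, hAp]
  have hyF : ∀ i, Rv F (y i) := fun i a => by
    rw [hya]
    exact F.div_mem (sp_det _ fun k j => (hx k).2 _) (sp_det _ fun k j => (hx k).2 _)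
  have hyM : ∀ i, y i ∈ M := fun i =>
    M.smul_mem _ (M.sum_mem fun k _ => M.smul_mem _ (hx k).1)
  have hyp : ∀ i j, y i (p j) = if i = j then 1 else 0 := by
    intro i j
    have h1 : y i (p j) = A.det⁻¹ * (A.adjugate * A) i j := by
      show (A.det⁻¹ • ∑ k, A.adjugate i k • x k) (p j) = _
      rw [Pi.smul_apply, smul_eq_mul, Finset.sum_apply]
      rfl
    rw [h1, Matrix.adjugate_mul, Matrix.smul_apply, Matrix.one_apply, smul_eq_mul, ← mul_assoc,
      inv_mul_cancel₀ hp, one_mul]
  have hexp : ∀ l ∈ M, l = ∑ i, l (p i) • y i := by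
    intro l hl
    rw [hspan] at hl
    induction hl using Submodule.span_induction with
    | mem l hl =>
      obtain ⟨k, rfl⟩ := hl
      have h1 : ∀ a, (∑ i, x k (p i) • y i) a = A.det⁻¹ * ((A * A.adjugate).mulVec fun k => x k a) k := by
        intro a
        rw [← Matrix.mulVec_mulVec, Finset.sum_apply]
        show ∑ i, x k (p i) * y i a = A.det⁻¹ * ∑ i, A k i * (A.adjugate.mulVec fun k => x k a) i
        rw [Finset.mul_sum]
        refine Finset.sum_congr rfl fun i _ => ?_
        have h2 : y i a = A.det⁻¹ * (A.adjugate.mulVec fun k => x k a) i := by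
          show (A.det⁻¹ • ∑ k, A.adjugate i k • x k) a = _
          rw [Pi.smul_apply, smul_eq_mul, Finset.sum_apply]
          rfl
        rw [h2, hAp]
        ring
      funext a
      rw [h1, Matrix.mul_adjugate, Matrix.smul_mulVec, Matrix.one_mulVec, Pi.smul_apply,
        smul_eq_mul, ← mul_assoc, inv_mul_cancel₀ hp, one_mul]
    | zero =>
      simp only [Pi.zero_apply, zero_smul, Finset.sum_const_zero]
    | add l l' _ _ h1 h2 =>
      conv_lhs => rw [h1, h2]
      rw [← Finset.sum_add_distrib]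
      exact Finset.sum_congr rfl fun i _ => by rw [Pi.add_apply, add_smul]
    | smul c l _ h1 =>
      conv_lhs => rw [h1]
      rw [Finset.smul_sum]
      exact Finset.sum_congr rfl fun i _ => by rw [Pi.smul_apply, smul_eq_mul, mul_smul]
  have hw : ∀ i a, ∃ w, (y i a, w) ∈ Γ := fun i a => by
    rw [hya]
    exact hfin _ (Finset.mem_univ _)
  choose w hw using hw
  have hwp : ∀ i j, w i (p j) = if i = j then 1 else 0 := by
    intro i j
    have h1 := hw i (p j)
    rw [hyp] at h1
    by_cases hij : i = j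
    · rw [if_pos hij] at h1 ⊢
      exact sp_uniq hΓ h1 Γ.one_mem
    · rw [if_neg hij] at h1 ⊢
      exact sp_uniq hΓ h1 Γ.zero_mem
  have hind : LinearIndependent ℂ w := by
    rw [Fintype.linearIndependent_iff]
    intro g hg j
    have h1 := congrFun hg (p j)
    rw [Finset.sum_apply] at h1
    simp only [Pi.smul_apply, smul_eq_mul, hwp, mul_ite, mul_one, mul_zero, Pi.zero_apply] at h1
    rw [Finset.sum_ite_eq' Finset.univ j, if_pos (Finset.mem_univ _)] at h1
    exact h1
  have hspec : spec Γ F M = span ℂ (Set.range w) := by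
    apply le_antisymm
    · refine span_le.2 ?_
      rintro v ⟨l, hl, hlF, hv⟩
      have h1 : v = ∑ i, v (p i) • w i := by
        funext a
        have h2 : (∑ i, (l (p i), v (p i)) * (y i a, w i a)) ∈ Γ :=
          Γ.sum_mem fun i _ => Γ.mul_mem (hv _) (hw i a)
        have h3 : (∑ i, ((l (p i), v (p i)) * (y i a, w i a) : ℂ × ℂ)) =
            (l a, ∑ i, v (p i) * w i a) := by
          refine Prod.ext ?_ ?_
          · rw [Prod.fst_sum]
            show ∑ i, l (p i) * y i a = l a
            conv_rhs => rw [hexp l hl]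
            rw [Finset.sum_apply]
            rfl
          · rw [Prod.snd_sum]
            rfl
        rw [h3] at h2
        have h4 := sp_uniq hΓ (hv a) h2
        rw [h4, Finset.sum_apply]
        rfl
      show v ∈ span ℂ (Set.range w)
      rw [h1]
      exact Submodule.sum_mem _ fun i _ => Submodule.smul_mem _ _ (subset_span ⟨i, rfl⟩)
    · refine span_le.2 ?_
      rintro _ ⟨i, rfl⟩
      exact subset_span ⟨y i, hyM i, hyF i, hw i⟩
  rw [hspec, finrank_span_eq_card hind, Fintype.card_fin]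

theorem im_spec {Γ : Subring (ℂ × ℂ)} {F : Subfield ℂ} {n : ℕ} {M : Submodule ℂ (V n)} :
    Im (spec Γ F M) ≤ spec Γ F (Im M) := by
  unfold spec
  rw [im_span]
  refine span_le.2 ?_
  rintro _ ⟨v, ⟨l, hl, hlF, hv⟩, T, rfl⟩
  exact subset_span ⟨cat l T, subset_span ⟨l, hl, T, rfl⟩, fun S => hlF _, fun S => hv _⟩

theorem finrank_im_spec {Γ : Subring (ℂ × ℂ)} (hΓ : Plc Γ) {F : Subfield ℂ} {n : ℕ} {M : Submodule ℂ (V n)}
    (hM : Rat F M) : Module.finrank ℂ (Im (spec Γ F M)) ≤ Module.finrank ℂ (Im M) := by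
  rw [← finrank_spec hΓ (im_rat hM)]
  exact Submodule.finrank_mono im_spec

theorem spec_ge {Γ : Subring (ℂ × ℂ)} {E F : Subfield ℂ} (hid : ∀ z ∈ E, (z, z) ∈ Γ) (hEF : E ≤ F) {ι : Type}
    {L M : Submodule ℂ (ι → ℂ)} (hL : Rat E L) (hLM : L ≤ M) : L ≤ spec Γ F M := by
  refine hL.trans (span_mono ?_)
  rintro l ⟨hl, hlE⟩
  exact ⟨l, hLM hl, fun a => hEF (hlE a), fun a => hid _ (hlE a)⟩

end Pool.Agent.PHB
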