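import Pool.Agent.PHB.PlG
import Pool.Agent.PHB.PlC
import Pool.Agent.PHB.Spc
import Pool.Agent.PHB.AddG

/-!
# PHB-ECb: specialisation of a position (imports PlG, PlC, Spc, AddG)

NOTATION.  `F` is a field, `(F, L')` a position, `g` generic over `F` among the vectors which agree with `h` on `L'`; `M ≥ F` a field, `L'' ≥ L'` rational
over `M`, with `l ⬝ᵥ g ∈ M` for rational `l ∈ L''`; `rk M = rk F + (dim L'' - dim L')`.
PLAN.  `exists_place`: `Γ`.  `Lb = spec Γ M L''`; `dim Lb = dim L''`, `dim Im Lb ≤ dim Im L''` (`Spc`), `L' ≤ Lb` (`spec_ge` with `E = F`; `L'` is rational over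
`F`).  Let `B = {y | ∃ x ∈ M, (x, y) ∈ Γ}`.  `Lb` is spanned by the set `X` of vectors `w` with `(l a, w a) ∈ Γ`, `l ∈ L''` rational over `M`; they have coordinates in `B`, and
`w ⬝ᵥ h ∈ B` because `(l ⬝ᵥ g, w ⬝ᵥ h) ∈ Γ` and `l ⬝ᵥ g ∈ M`.
Every independent (over `F`) tuple `b : Fin m → ℂ` in `B` has `rk F + m ≤ rk M` (`plc_rank`), so choose one with `m` maximal: `κ = acl F (range b)` satisfies
`Fld`, contains `B` (if `y ∈ B`, `y ∉ κ` then `Fin.snoc b y` is independent), `rk κ = rk F + m`.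
`(κ, Lb)` is a position (`rat_span`, `kn_of_span`).  `pos_ineq` for `F ≤ κ`: `dim Lb + rk F ≤ dim (Lb ⊓ Nn K h F) + rk κ`, and `Lb ⊓ Nn K h F ≤ L'` by
hypothesis `htl`, so `rk κ ≥ rk F + dim L'' - dim L' = rk M`, i.e. `rk M ≤ rk F + m`.
`plc_trivial`: `σ` with `(x, σ x) ∈ Γ` for `x ∈ M`.  Then `im σ M = κ`?  (not needed) and `sg σ L'' = Lb`: both are spanned by the `σ ∘ l`, `l ∈ L''` rational over `M`
(`(l a, w a) ∈ Γ` implies `w a = σ (l a)` by uniqueness).  For such `l`: `σ (l ⬝ᵥ g) = (σ ∘ l) ⬝ᵥ h` (`uniq`).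
`(im σ M, sg σ L'')` is a position (`fld_im`, `rat_sg`, `kn_of_span`).
-/

namespace Pool.Agent.PHB

open Submodule

private theorem ind_snoc {K F : Subfield ℂ} {m : ℕ} {b : Fin m → ℂ} {y : ℂ} (hib : Ind K F b)
    (hκ : Fld K (acl F (Set.range b))) (hy : y ∉ acl F (Set.range b)) :
    Ind K F (Fin.snoc (α := fun _ => ℂ) b y) := by
  intro c hc
  rw [Fin.sum_univ_castSucc] at hc
  simp only [Fin.snoc_castSucc, Fin.snoc_last] at hc
  have hlast : c (Fin.last m) = 0 := by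
    by_contra h0
    apply hy
    refine mem_of_dd hκ ?_
    have h1 : dd K y = (c (Fin.last m))⁻¹ • ((∑ i : Fin m, c i.castSucc • dd K (b i) + c (Fin.last m) • dd K y) -
        ∑ i : Fin m, c i.castSucc • dd K (b i)) := by
      rw [add_sub_cancel_left, smul_smul, inv_mul_cancel₀ h0, one_smul]
    rw [h1]
    refine Submodule.smul_mem _ _ (sub_mem (dK_mono (le_acl _ _) hc) ?_)
    exact sum_mem fun i _ => Submodule.smul_mem _ _ (dd_mem (subset_acl _ _ ⟨i, rfl⟩))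
  rw [hlast, zero_smul, add_zero] at hc
  have h2 := hib (fun i => c i.castSucc) hc
  funext i
  refine Fin.lastCases hlast (fun i => ?_) i
  exact congrFun h2 i

theorem specialise {K : Subfield ℂ} {n : ℕ} {h : V n} (hh : Gn K h) {F M : Subfield ℂ}
    {L' L'' : Submodule ℂ (V n)} (hp : Pos K h F L') {g : V n} (hg : Genr K h F L' g) (hM : Fld K M) (hFM : F ≤ M)
    (hL'' : Rat M L'') (hLL : L' ≤ L'') (hkn : ∀ l ∈ L'', Rv M l → l ⬝ᵥ g ∈ M)
    (hrk : rk K M + Module.finrank ℂ L' = rk K F + Module.finrank ℂ L'')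
    (htl : ∀ (κ : Subfield ℂ) (Lb : Submodule ℂ (V n)), Pos K h κ Lb → F ≤ κ → L' ≤ Lb → rk K κ ≤ rk K M →
      Module.finrank ℂ Lb = Module.finrank ℂ L'' → Module.finrank ℂ (Im Lb) ≤ Module.finrank ℂ (Im L'') →
      Lb ⊓ Nn K h F ≤ L') :
    ∃ σ : ℂ ≃+* ℂ, (∀ z ∈ F, σ z = z) ∧ Pos K h (im σ M) (sg σ L'') ∧
      (∀ l ∈ L'', Rv M l → σ (l ⬝ᵥ g) = (fun a => σ (l a)) ⬝ᵥ h) := by
  obtain ⟨Γ, hΓ, hid, hgh⟩ := exists_place hp hg
  have hbound : ∀ (m : ℕ) (b : Fin m → ℂ), (∀ i, ∃ x ∈ M, (x, b i) ∈ Γ) → Ind K F b →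
      rk K F + m ≤ rk K M := by
    intro m b hb hib
    choose a ha hab using hb
    exact plc_rank hΓ hp.fld hM hFM hid ha hab hib
  obtain ⟨m, b, hb, hib, hmax⟩ : ∃ (m : ℕ) (b : Fin m → ℂ), (∀ i, ∃ x ∈ M, (x, b i) ∈ Γ) ∧ Ind K F b ∧
      ∀ (b' : Fin (m + 1) → ℂ), (∀ i, ∃ x ∈ M, (x, b' i) ∈ Γ) → ¬ Ind K F b' := by
    by_contra hno
    push Not at hno
    have hall : ∀ m, ∃ b : Fin m → ℂ, (∀ i, ∃ x ∈ M, (x, b i) ∈ Γ) ∧ Ind K F b := by
      intro m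
      induction m with
      | zero => exact ⟨Fin.elim0, fun i => i.elim0, fun c _ => Subsingleton.elim _ _⟩
      | succ m ih =>
        obtain ⟨b, hb, hib⟩ := ih
        exact hno m b hb hib
    obtain ⟨b, hb, hib⟩ := hall (rk K M + 1)
    have := hbound _ b hb hib
    omega
  have hκ : Fld K (acl F (Set.range b)) := acl_fld hp.fld (Set.finite_range b)
  have hFκ : F ≤ acl F (Set.range b) := le_acl _ _
  have hBκ : ∀ y, (∃ x ∈ M, (x, y) ∈ Γ) → y ∈ acl F (Set.range b) := by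
    intro y hy
    by_contra hyκ
    refine hmax (Fin.snoc (α := fun _ => ℂ) b y) ?_ (ind_snoc hib hκ hyκ)
    intro i
    refine Fin.lastCases ?_ (fun i => ?_) i
    · rw [Fin.snoc_last]
      exact hy
    · rw [Fin.snoc_castSucc]
      exact hb i
  have hdot : ∀ l w : V n, (∀ a, (l a, w a) ∈ Γ) → (l ⬝ᵥ g, w ⬝ᵥ h) ∈ Γ := by
    intro l w hlw
    have h1 : (l ⬝ᵥ g, w ⬝ᵥ h) = ∑ a, (l a, w a) * (g a, h a) := by
      unfold dotProduct
      refine Prod.ext ?_ ?_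
      · rw [Prod.fst_sum]
        rfl
      · rw [Prod.snd_sum]
        rfl
    rw [h1]
    exact sum_mem fun a _ => mul_mem (hlw a) (hgh a)
  have hX : ∀ w ∈ {w : V n | ∃ l ∈ L'', Rv M l ∧ ∀ a, (l a, w a) ∈ Γ},
      Rv (acl F (Set.range b)) w ∧ w ⬝ᵥ h ∈ acl F (Set.range b) := by
    rintro w ⟨l, hl, hlM, hlw⟩
    exact ⟨fun a => hBκ _ ⟨l a, hlM a, hlw a⟩, hBκ _ ⟨l ⬝ᵥ g, hkn l hl hlM, hdot l w hlw⟩⟩
  have hpos : Pos K h (acl F (Set.range b)) (spec Γ M L'') :=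
    ⟨hκ, rat_span fun w hw => (hX w hw).1, fun l hl hlκ => kn_of_span hX hl hlκ⟩
  have hrκ : rk K (acl F (Set.range b)) = rk K F + m := by
    rw [rk_acl_ind hp.fld hib, Fintype.card_fin]
  have hbm := hbound m b hb hib
  have hle := htl _ _ hpos hFκ (spec_ge hid hFM hp.rat hLL) (by omega) (finrank_spec hΓ hL'')
    (finrank_im_spec hΓ hL'')
  have h5 : Module.finrank ℂ (spec Γ M L'') = Module.finrank ℂ L'' := finrank_spec hΓ hL''
  have hpi : Module.finrank ℂ L'' + rk K F ≤ Module.finrank ℂ L' + rk K (acl F (Set.range b)) := by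
    calc Module.finrank ℂ L'' + rk K F = Module.finrank ℂ (spec Γ M L'') + rk K F := by rw [h5]
      _ ≤ _ := pos_ineq hh hp.fld hpos hFκ
      _ ≤ _ := Nat.add_le_add_right (Submodule.finrank_mono hle) _
  have hrkM : rk K M ≤ rk K F + m := by omega
  choose a ha hab using hb
  obtain ⟨σ, hσF, hσM⟩ := plc_trivial hΓ hp.fld hM hFM hid ha hab hib hrkM
  have key : ∀ l ∈ L'', Rv M l → σ (l ⬝ᵥ g) = (fun a => σ (l a)) ⬝ᵥ h := by
    intro l hl hlM
    have h1 := hdot l (fun a => σ (l a)) fun a => hσM _ (hlM a)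
    have h2 := hσM _ (hkn l hl hlM)
    have h3 := Γ.sub_mem h2 h1
    rw [Prod.mk_sub_mk, sub_self] at h3
    exact sub_eq_zero.1 (hΓ.uniq _ h3)
  refine ⟨σ, hσF, ⟨fld_im (fun z hz => hσF z (hp.fld.le hz)) hM, rat_sg hL'', ?_⟩, key⟩
  intro l' hl' hlr
  have h1 : (fun a => σ.symm (l' a)) ∈ L'' := hl'
  have h2 : Rv M fun a => σ.symm (l' a) := fun a => mem_im'.1 (hlr a)
  have h3 := key _ h1 h2
  have h4 : (fun a => σ ((fun a => σ.symm (l' a)) a)) = l' := by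
    funext a
    exact σ.apply_symm_apply _
  rw [h4] at h3
  rw [← h3]
  exact mem_im.2 (hkn _ h1 h2)

end Pool.Agent.PHB
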