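import Pool.Agent.PHB.ODefs
import Pool.Agent.PHB.Rk
import Pool.Agent.VRJ.Jet

/-!
# PHB-JetF: the functionals of the queries (imports ODefs, Rk, VRJ.Jet)

PLAN.  `jet_poly`: `VRJ.jet_sum`, `VRJ.jet_C_mul`.  `jet_eval_coef`: `VRJ.jet_expand`: `jet F k z = ∑ coeff m F * jet (monomial m 1) k z`, and
`jet (monomial m 1) k z` is a polynomial with natural coefficients in the `z l i`: prove by induction on monomials (products, `VRJ.jet_mul`,
`VRJ.jet_X`, `VRJ.jet_C`) that it lies in every subfield containing the `z l i` and commutes with ring homomorphisms; or directly: `jet F k z` is the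
coefficient of `τ ^ k` of the evaluation, use `Polynomial.map`/`Subfield` arguments (`jet F k (σ ∘ z) = σ (jet (F) k z)` when `σ` fixes the coefficients).
`jf_mu`: it is enough that `dim Im (span {jf k z}) ≤ k + 1` (`mu_sup`; `dim span {φ} ≤ 1`): `cat (jf k z) T = (S ↦ [τ^k] (z^S z^T)(τ)) =
∑_{i ≤ k} [τ^{k-i}] z^T • ([τ^i] z^S)_S` (`∏ X_l ^ (S l + T l) = (∏ X_l ^ S l) (∏ X_l ^ T l)`, `VRJ.jet_mul`), a combination of the `k + 1` vectors
`S ↦ jet (∏ X_l ^ (S l)) i z`, `i ≤ k`.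
`ell_value`: `ell x ⬝ᵥ h = ∑ a, (∑ e, x^e e^a) h a = ∑ e, x^e poly h (e)`, and `eval` of `fam`.
-/

namespace Pool.Agent.PHB

open VRJ MvPolynomial Submodule

private theorem jetf_pow {L : ℕ} {P : MvPolynomial (Fin L) ℂ → Prop} (h1 : P 1)
    (hmul : ∀ F G, P F → P G → P (F * G)) {F : MvPolynomial (Fin L) ℂ} (hF : P F) (e : ℕ) :
    P (F ^ e) := by
  induction e with
  | zero => rw [pow_zero]; exact h1
  | succ e ih => rw [pow_succ]; exact hmul _ _ ih hF

private theorem jetf_prod {L : ℕ} {P : MvPolynomial (Fin L) ℂ → Prop} (h1 : P 1)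
    (hX : ∀ l, P (X l)) (hmul : ∀ F G, P F → P G → P (F * G)) (s : Finset (Fin L))
    (e : Fin L → ℕ) : P (∏ i ∈ s, X i ^ e i) :=
  Finset.prod_induction _ P hmul h1 fun i _ => jetf_pow h1 hmul (hX i) (e i)

private theorem jetf_monomial {L : ℕ} {P : MvPolynomial (Fin L) ℂ → Prop} (h1 : P 1)
    (hX : ∀ l, P (X l)) (hmul : ∀ F G, P F → P G → P (F * G)) (m : Fin L →₀ ℕ) :
    P (monomial m 1) := by
  rw [monomial_eq, C_1, one_mul]
  exact jetf_prod h1 hX hmul _ _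

private theorem jetf_one {L : ℕ} (k : ℕ) (z : Fin L → ℕ → ℂ) :
    jet (1 : MvPolynomial (Fin L) ℂ) k z = if k = 0 then 1 else 0 := by
  rw [← C_1, jet_C, map_one]

theorem jet_poly {n : ℕ} (h : V n) (k : ℕ) (z : Fin n → ℕ → ℂ) : jet (poly h) k z = jf k z ⬝ᵥ h := by
  unfold poly
  rw [jet_sum]
  unfold dotProduct
  refine Finset.sum_congr rfl fun a _ => ?_
  rw [jet_C_mul, smul_eq_mul, mul_comm]
  rfl

private theorem jetf_mem_P {L : ℕ} {k₀ : Subfield ℂ} {z : Fin L → ℕ → ℂ} (hz : ∀ l i, z l i ∈ k₀) :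
    (∀ k, jet (1 : MvPolynomial (Fin L) ℂ) k z ∈ k₀) ∧
      (∀ l, ∀ k, jet (X l : MvPolynomial (Fin L) ℂ) k z ∈ k₀) ∧
      ∀ F G : MvPolynomial (Fin L) ℂ, (∀ k, jet F k z ∈ k₀) → (∀ k, jet G k z ∈ k₀) →
        ∀ k, jet (F * G) k z ∈ k₀ := by
  refine ⟨fun k => ?_, fun l k => ?_, fun F G hF hG k => ?_⟩
  · rw [jetf_one]
    split_ifs
    · exact k₀.one_mem
    · exact k₀.zero_mem
  · rw [jet_X]
    exact hz l k
  · rw [jet_mul]
    exact k₀.sum_mem fun i _ => k₀.mul_mem (hF i) (hG (k - i))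

private theorem jetf_map_P {L : ℕ} (σ : ℂ ≃+* ℂ) (z : Fin L → ℕ → ℂ) :
    (∀ k, σ (jet (1 : MvPolynomial (Fin L) ℂ) k z) =
        jet (1 : MvPolynomial (Fin L) ℂ) k fun l i => σ (z l i)) ∧
      (∀ l, ∀ k, σ (jet (X l : MvPolynomial (Fin L) ℂ) k z) =
        jet (X l : MvPolynomial (Fin L) ℂ) k fun l i => σ (z l i)) ∧
      ∀ F G : MvPolynomial (Fin L) ℂ, (∀ k, σ (jet F k z) = jet F k fun l i => σ (z l i)) →
        (∀ k, σ (jet G k z) = jet G k fun l i => σ (z l i)) →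
        ∀ k, σ (jet (F * G) k z) = jet (F * G) k fun l i => σ (z l i) := by
  refine ⟨fun k => ?_, fun l k => ?_, fun F G hF hG k => ?_⟩
  · rw [jetf_one, jetf_one]
    split_ifs
    · exact map_one σ
    · exact map_zero σ
  · rw [jet_X, jet_X]
  · rw [jet_mul, jet_mul, map_sum]
    refine Finset.sum_congr rfl fun i _ => ?_
    rw [map_mul, hF, hG]

theorem jf_rat {n : ℕ} {k₀ : Subfield ℂ} {k : ℕ} {z : Fin n → ℕ → ℂ} (hz : ∀ l i, z l i ∈ k₀) :
    Rv k₀ (jf k z) := by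
  intro a
  obtain ⟨h1, h2, h3⟩ := jetf_mem_P (k₀ := k₀) hz
  exact jetf_prod (P := fun F => ∀ k, jet F k z ∈ k₀) h1 h2 h3 Finset.univ (fun i => (a i : ℕ)) k

theorem jf_map {n : ℕ} (σ : ℂ ≃+* ℂ) (k : ℕ) (z : Fin n → ℕ → ℂ) :
    (fun a => σ (jf k z a)) = jf k fun l i => σ (z l i) := by
  funext a
  obtain ⟨h1, h2, h3⟩ := jetf_map_P σ z
  exact jetf_prod (P := fun F => ∀ k, σ (jet F k z) = jet F k fun l i => σ (z l i)) h1 h2 h3
    Finset.univ (fun i => (a i : ℕ)) k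

theorem jf_mu {n : ℕ} (k : ℕ) (z : Fin n → ℕ → ℂ) (M : Submodule ℂ (V n)) :
    mu (M ⊔ span ℂ {jf k z}) ≤ mu M + (k + 2) := by
  refine (mu_sup _ _).trans (Nat.add_le_add_left ?_ _)
  have h1 : Module.finrank ℂ (span ℂ {jf k z}) ≤ 1 := by
    refine (finrank_span_le_card ({jf k z} : Set (V n))).trans ?_
    rw [Set.toFinset_singleton, Finset.card_singleton]
  have h2 : Module.finrank ℂ (Im (span ℂ {jf k z})) ≤ k + 1 := by
    let u : Fin (k + 1) → Sb n → ℂ := fun i S => jet (∏ l, X l ^ (S l : ℕ)) (i : ℕ) z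
    have h3 : Im (span ℂ {jf k z}) ≤ span ℂ (Set.range u) := by
      rw [im_span, span_le]
      rintro c ⟨l, hl, T, rfl⟩
      rw [Set.mem_singleton_iff.1 hl]
      have h4 : cat (jf k z) T = ∑ i : Fin (k + 1),
          jet (∏ l, X l ^ (T l : ℕ)) (k - (i : ℕ)) z • u i := by
        funext S
        rw [Finset.sum_apply]
        have h5 : (∏ l, X l ^ (mad S T l : ℕ) : MvPolynomial (Fin n) ℂ) =
            (∏ l, X l ^ (S l : ℕ)) * ∏ l, X l ^ (T l : ℕ) := by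
          rw [← Finset.prod_mul_distrib]
          refine Finset.prod_congr rfl fun l _ => ?_
          rw [← pow_add]
          rfl
        have h6 : cat (jf k z) T S = jet (∏ l, X l ^ (mad S T l : ℕ)) k z := rfl
        rw [h6, h5, jet_mul, Finset.sum_range]
        refine Finset.sum_congr rfl fun i _ => ?_
        rw [Pi.smul_apply, smul_eq_mul, mul_comm]
      rw [h4]
      exact sum_mem fun i _ => smul_mem _ _ (subset_span ⟨i, rfl⟩)
    refine (Submodule.finrank_mono h3).trans ?_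
    have h7 := finrank_range_le_card (R := ℂ) u
    rw [Fintype.card_fin] at h7
    exact h7
  unfold mu
  omega

theorem jet_mem {L : ℕ} {k₀ : Subfield ℂ} {F : MvPolynomial (Fin L) ℂ} (hF : ∀ m, coeff m F ∈ k₀) {k : ℕ}
    {z : Fin L → ℕ → ℂ} (hz : ∀ l i, z l i ∈ k₀) : jet F k z ∈ k₀ := by
  rw [jet_expand]
  obtain ⟨h1, h2, h3⟩ := jetf_mem_P (k₀ := k₀) hz
  exact k₀.sum_mem fun m _ => k₀.mul_mem (hF m)
    (jetf_monomial (P := fun F => ∀ k, jet F k z ∈ k₀) h1 h2 h3 m k)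

theorem jet_fix {L : ℕ} {σ : ℂ ≃+* ℂ} {F : MvPolynomial (Fin L) ℂ} (hF : ∀ m, σ (coeff m F) = coeff m F) (k : ℕ)
    (z : Fin L → ℕ → ℂ) : σ (jet F k z) = jet F k fun l i => σ (z l i) := by
  rw [jet_expand, jet_expand, map_sum]
  obtain ⟨h1, h2, h3⟩ := jetf_map_P σ z
  refine Finset.sum_congr rfl fun m _ => ?_
  rw [map_mul, hF m]
  rw [jetf_monomial (P := fun F => ∀ k, σ (jet F k z) = jet F k fun l i => σ (z l i)) h1 h2 h3 m k]

theorem ell_value {Φ : Orc} {n : ℕ} {h : V n} (hΦ : Φ n = poly h) (x : Fin n → ℂ) :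
    ell x ⬝ᵥ h = eval (fun v => if hv : v < n then x ⟨v, hv⟩ else 0) (fam Φ n) := by
  have h1 : ∀ e : Sb n, eval (fun i => ((e i : ℕ) : ℂ)) (Φ n) =
      ∑ a : Mon n, h a * ∏ i, ((e i : ℕ) : ℂ) ^ (a i : ℕ) := by
    intro e
    rw [hΦ]
    unfold poly
    rw [map_sum]
    refine Finset.sum_congr rfl fun a _ => ?_
    rw [map_mul, eval_C, map_prod]
    congr 1
    refine Finset.prod_congr rfl fun i _ => ?_
    rw [map_pow, eval_X]
  have h2 : eval (fun v => if hv : v < n then x ⟨v, hv⟩ else 0) (fam Φ n) =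
      ∑ e : Sb n, eval (fun i => ((e i : ℕ) : ℂ)) (Φ n) * mnl x e := by
    unfold fam
    rw [map_sum]
    refine Finset.sum_congr rfl fun e _ => ?_
    rw [map_mul, eval_C, map_prod]
    congr 1
    unfold mnl
    refine Finset.prod_congr rfl fun i _ => ?_
    rw [map_pow, eval_X, dif_pos i.2]
  rw [h2]
  unfold dotProduct ell ellD
  simp only [h1, Finset.sum_mul]
  rw [Finset.sum_comm]
  refine Finset.sum_congr rfl fun e _ => Finset.sum_congr rfl fun a _ => ?_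
  ring

end Pool.Agent.PHB
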