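import Pool.Agent.PHB.EC
import Pool.Agent.PHB.JetF

/-!
# PHB-EF: isomorphic good positions satisfy the same formulas (imports EC, JetF)

PLAN.  Induction on `θ` (all other data universally quantified).  `eq`: `σ (aeval w P) = aeval (σ ∘ w) P` (integer coefficients).  `neg`, `and`: clear.
`ask L' j P Q θ`, arguments `z l i = aeval w (P l i) / aeval w (Q l i) ∈ k`, `σ (z l i)` = the same for `σ ∘ w`.  If `L' ≠ n`: the answer `a` is in `k` (`jet_mem`, the
coefficients are in `K ≤ k`) and `σ a` is the other answer (`jet_fix`); induction hypothesis for `Fin.snoc w a` (same positions, monotonicity of `Good` in the scale).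
If `L' = n` (`subst`): `φ = jf j z`, `Rv k φ`, `a = φ ⬝ᵥ h` (`jet_poly`), the other answer is `(σ ∘ φ) ⬝ᵥ h` (`jf_map`).  If `φ ∈ L`: `a ∈ k` (`Pos.kn`) and `σ a = (σ ∘ φ) ⬝ᵥ h`
(`Iso.val`).  If `φ ∉ L`: `Iso.query` with `c = j + 2` (`jf_mu`), new scale `Asc s r + 2 c₀ - (j + 2) ≥ Asc s r + 2 (c₀ - (j + 1))`.
`ex q θ`, `r = r' + 1`, `c₀ ≥ q + cost θ`: given `v` with `Sat θ (append w v)`: `extension` with `S' = Asc s r' + 2 (c₀ - q)`
(`4 ((q+1)(S'+1))² ≤ Asc s (r'+1)` as `q ≤ s`, `c₀ - q ≤ s`): `σ₁`; induction hypothesis: `Sat θ (σ₁ ∘ append w v)`, and this is `append (σ ∘ w) (σ₁ ∘ v)`.  The converse direction: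
the same with `Iso.symm` (`σ.symm`, exchange of the two positions) for `σ ∘ w`.
-/

namespace Pool.Agent.PHB

open VRJ MvPolynomial Submodule

theorem good_mono {K : Subfield ℂ} {n : ℕ} {h : V n} {k : Subfield ℂ} {L : Submodule ℂ (V n)} {S S' : ℕ}
    (hg : Good K h k L S) (hS : S' ≤ S) : Good K h k L S' :=
  fun k' L' hp hk hL hmu => hg k' L' hp hk hL (hmu.trans (Nat.add_le_add_left hS _))

/-- automorphisms commute with the evaluation of polynomials with integer coefficients -/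
private theorem sig_aeval (σ : ℂ ≃+* ℂ) {m : ℕ} (w : Fin m → ℂ) (P : MvPolynomial (Fin m) ℤ) :
    σ (aeval w P) = aeval (fun i => σ (w i)) P := by
  induction P using MvPolynomial.induction_on with
  | C a => simp
  | add p q hp hq => simp only [map_add, hp, hq]
  | mul_X p i hp => simp only [map_mul, hp, aeval_X]

private theorem aeval_mem' {k : Subfield ℂ} {m : ℕ} {w : Fin m → ℂ} (hw : ∀ i, w i ∈ k)
    (P : MvPolynomial (Fin m) ℤ) : aeval w P ∈ k := by
  induction P using MvPolynomial.induction_on with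
  | C a => simp
  | add p q hp hq =>
    rw [map_add]
    exact k.add_mem hp hq
  | mul_X p i hp =>
    rw [map_mul, aeval_X]
    exact k.mul_mem hp (hw i)

private theorem snoc_comp (σ : ℂ → ℂ) {m : ℕ} (w : Fin m → ℂ) (a : ℂ) :
    (fun i => σ (Fin.snoc (α := fun _ => ℂ) w a i)) =
      Fin.snoc (α := fun _ => ℂ) (fun i => σ (w i)) (σ a) := by
  funext i
  refine Fin.lastCases ?_ (fun i => ?_) i
  · simp
  · simp

private theorem append_comp (σ : ℂ → ℂ) {m q : ℕ} (w : Fin m → ℂ) (v : Fin q → ℂ) :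
    (fun i => σ (Fin.append w v i)) = Fin.append (fun i => σ (w i)) fun i => σ (v i) := by
  funext i
  refine Fin.addCases (fun i => ?_) (fun i => ?_) i
  · simp
  · simp

private theorem asc_step (s r q c : ℕ) (hq : q ≤ c) (hc : c ≤ s) :
    4 * ((q + 1) * ((Asc s r + 2 * (c - q)) + 1)) ^ 2 ≤ Asc s (r + 1) + 2 * c := by
  have h1 : (q + 1) * ((Asc s r + 2 * (c - q)) + 1) ≤ (s + 1) * (Asc s r + 2 * s + 1) :=
    Nat.mul_le_mul (by omega) (by omega)
  have h2 : Asc s (r + 1) = 4 * ((s + 1) * (Asc s r + 2 * s + 1)) ^ 2 := rfl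
  rw [h2]
  have h3 := Nat.pow_le_pow_left h1 2
  omega

/-- one direction of the step for quantifiers -/
private theorem ex_step {K : Subfield ℂ} {n : ℕ} {h : V n} (hinf : ¬ FiniteDimensional ℂ (Om K))
    (hh : Gn K h) {Φ : Orc} {s : ℕ} {m q : ℕ} (θ : Fm (m + q)) {r c : ℕ} (hq : q ≤ c) (hc : c ≤ s)
    (ih : ∀ (σ : ℂ ≃+* ℂ) (k k' : Subfield ℂ) (L L' : Submodule ℂ (V n)) (w : Fin (m + q) → ℂ),
        Pos K h k L → Pos K h k' L' → Good K h k L (Asc s r + 2 * (c - q)) →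
        Good K h k' L' (Asc s r + 2 * (c - q)) →
        Iso K h σ k L k' L' → (∀ i, w i ∈ k) → (Sat Φ θ w ↔ Sat Φ θ fun i => σ (w i)))
    (σ : ℂ ≃+* ℂ) (k k' : Subfield ℂ) (L L' : Submodule ℂ (V n)) (w : Fin m → ℂ)
    (hp : Pos K h k L) (hp' : Pos K h k' L') (hg : Good K h k L (Asc s (r + 1) + 2 * c))
    (hg' : Good K h k' L' (Asc s (r + 1) + 2 * c)) (hi : Iso K h σ k L k' L')
    (hw : ∀ i, w i ∈ k) (hs : ∃ v : Fin q → ℂ, Sat Φ θ (Fin.append w v)) :
    ∃ v : Fin q → ℂ, Sat Φ θ (Fin.append (fun i => σ (w i)) v) := by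
  obtain ⟨v, hv⟩ := hs
  obtain ⟨σ₁, k₁, k₁', L₁, L₁', h1, h2, h3, h4, h5, h6, h7, h8⟩ :=
    extension hinf hh hp hp' hg hg' hi v (asc_step s r q c hq hc)
  refine ⟨fun i => σ₁ (v i), ?_⟩
  have h9 := (ih σ₁ k₁ k₁' L₁ L₁' (Fin.append w v) h1 h2 h3 h4 h5 (by
    intro i
    refine Fin.addCases (fun i => ?_) (fun i => ?_) i
    · rw [Fin.append_left]
      exact h6 (hw i)
    · rw [Fin.append_right]
      exact h8 i)).1 hv
  rw [append_comp] at h9
  have h10 : (fun i => σ₁ (w i)) = fun i => σ (w i) := funext fun i => h7 _ (hw i)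
  rwa [h10] at h9

theorem ef {K : Subfield ℂ} {n : ℕ} {h : V n} (hinf : ¬ FiniteDimensional ℂ (Om K)) (hh : Gn K h) {Φ : Orc}
    (hΦ : Φ n = poly h) (hK : ∀ L, L ≠ n → ∀ m, coeff m (Φ L) ∈ K) (s : ℕ) {m : ℕ} (θ : Fm m) :
    ∀ (r c : ℕ), θ.alt ≤ r → θ.cost ≤ c → c ≤ s →
      ∀ (σ : ℂ ≃+* ℂ) (k k' : Subfield ℂ) (L L' : Submodule ℂ (V n)) (w : Fin m → ℂ),
        Pos K h k L → Pos K h k' L' → Good K h k L (Asc s r + 2 * c) → Good K h k' L' (Asc s r + 2 * c) →
        Iso K h σ k L k' L' → (∀ i, w i ∈ k) → (Sat Φ θ w ↔ Sat Φ θ fun i => σ (w i)) := by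
  induction θ with
  | eq P =>
    intro r c _ _ _ σ k k' L L' w _ _ _ _ _ _
    show aeval w P = 0 ↔ aeval (fun i => σ (w i)) P = 0
    rw [← sig_aeval]
    exact (map_eq_zero_iff σ σ.injective).symm
  | neg θ ih =>
    intro r c hr hc hs σ k k' L L' w hp hp' hg hg' hi hw
    exact not_congr (ih r c hr hc hs σ k k' L L' w hp hp' hg hg' hi hw)
  | and θ ψ ih1 ih2 =>
    intro r c hr hc hs σ k k' L L' w hp hp' hg hg' hi hw
    have hr' : max θ.alt ψ.alt ≤ r := hr
    have hc' : max θ.cost ψ.cost ≤ c := hc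
    exact and_congr
      (ih1 r c ((le_max_left _ _).trans hr') ((le_max_left _ _).trans hc') hs σ k k' L L' w
        hp hp' hg hg' hi hw)
      (ih2 r c ((le_max_right _ _).trans hr') ((le_max_right _ _).trans hc') hs σ k k' L L' w
        hp hp' hg hg' hi hw)
  | @ask m L₀ j P Q θ ih =>
    intro r c hr hc hs σ k k' L L' w hp hp' hg hg' hi hw
    have hr' : θ.alt ≤ r := hr
    have hc' : j + 1 + θ.cost ≤ c := hc
    set z : Fin L₀ → ℕ → ℂ := fun l i => aeval w (P l i) / aeval w (Q l i) with hz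
    have hzk : ∀ l i, z l i ∈ k := fun l i =>
      k.div_mem (aeval_mem' hw _) (aeval_mem' hw _)
    have hzσ : (fun l i => aeval (fun i => σ (w i)) (P l i) / aeval (fun i => σ (w i)) (Q l i)) =
        fun l i => σ (z l i) := by
      funext l i
      rw [hz]
      simp only [map_div₀, sig_aeval]
    suffices hmain : ∃ (σ₁ : ℂ ≃+* ℂ) (k₁ k₁' : Subfield ℂ) (L₁ L₁' : Submodule ℂ (V n)),
        Pos K h k₁ L₁ ∧ Pos K h k₁' L₁' ∧ Good K h k₁ L₁ (Asc s r + 2 * (c - (j + 1))) ∧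
        Good K h k₁' L₁' (Asc s r + 2 * (c - (j + 1))) ∧
        Iso K h σ₁ k₁ L₁ k₁' L₁' ∧ k ≤ k₁ ∧ (∀ z ∈ k, σ₁ z = σ z) ∧ jet (Φ L₀) j z ∈ k₁ ∧
        σ₁ (jet (Φ L₀) j z) = jet (Φ L₀) j fun l i => σ (z l i) by
      obtain ⟨σ₁, k₁, k₁', L₁, L₁', h1, h2, h3, h4, h5, h6, h7, h8, h9⟩ := hmain
      have h10 := ih r (c - (j + 1)) hr' (by omega) (by omega) σ₁ k₁ k₁' L₁ L₁'
        (Fin.snoc (α := fun _ => ℂ) w (jet (Φ L₀) j z)) h1 h2 h3 h4 h5 (by
          intro i
          refine Fin.lastCases ?_ (fun i => ?_) i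
          · rw [Fin.snoc_last]
            exact h8
          · rw [Fin.snoc_castSucc]
            exact h6 (hw i))
      rw [snoc_comp, h9] at h10
      have h11 : (fun i => σ₁ (w i)) = fun i => σ (w i) := funext fun i => h7 _ (hw i)
      rw [h11] at h10
      show Sat Φ θ (Fin.snoc (α := fun _ => ℂ) w (jet (Φ L₀) j z)) ↔
        Sat Φ θ (Fin.snoc (α := fun _ => ℂ) (fun i => σ (w i)) (jet (Φ L₀) j
          fun l i => aeval (fun i => σ (w i)) (P l i) / aeval (fun i => σ (w i)) (Q l i)))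
      rw [hzσ]
      exact h10
    by_cases hL : L₀ = n
    · subst hL
      rw [hΦ, jet_poly, jet_poly, ← jf_map]
      have hφ : Rv k (jf j z) := jf_rat hzk
      by_cases hφL : jf j z ∈ L
      · exact ⟨σ, k, k', L, L', hp, hp', good_mono hg (by omega), good_mono hg' (by omega), hi,
          le_rfl, fun _ _ => rfl, hp.kn _ hφL hφ, hi.val _ hφL hφ⟩
      · obtain ⟨σ₁, k₁, k₁', L₁, L₁', h1, h2, h3, h4, h5, h6, h7, h8, h9⟩ :=
          hi.query (c := j + 2) hp hp' hg hg' hφ hφL (fun M => jf_mu j z M) (fun M => by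
            rw [jf_map]
            exact jf_mu j _ M) (by omega)
        exact ⟨σ₁, k₁, k₁', L₁, L₁', h1, h2, good_mono h3 (by omega), good_mono h4 (by omega), h5,
          h6, h7, h8, h9⟩
    · refine ⟨σ, k, k', L, L', hp, hp', good_mono hg (by omega), good_mono hg' (by omega), hi,
        le_rfl, fun _ _ => rfl, jet_mem (fun m => hp.fld.le (hK L₀ hL m)) hzk,
        jet_fix (fun m => hi.fix _ (hK L₀ hL m)) j z⟩
  | @ex m q θ ih =>
    intro r c hr hc hs σ k k' L L' w hp hp' hg hg' hi hw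
    have hr' : θ.alt + 1 ≤ r := hr
    have hc' : q + θ.cost ≤ c := hc
    obtain ⟨r, rfl⟩ : ∃ r', r = r' + 1 := ⟨r - 1, by omega⟩
    have ih' := ih r (c - q) (by omega) (by omega) (by omega)
    constructor
    · intro hx
      exact ex_step hinf hh θ (by omega) hs ih' σ k k' L L' w hp hp' hg hg' hi hw hx
    · intro hx
      have h1 := ex_step hinf hh θ (by omega) hs ih' σ.symm k' k L' L (fun i => σ (w i))
        hp' hp hg' hg hi.symm (fun i => (hi.map _).2 (hw i)) hx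
      simp only [RingEquiv.symm_apply_apply] at h1
      exact h1

end Pool.Agent.PHB
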