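import Pool.Agent.PHB.ODefs
import Pool.Agent.PHB.DMem

/-!
# PHB-EllM: generic minors of the matrix of monomials

The determinant over the polynomial ring has a monomial with coefficient `1` (the monomials of different permutations are
different), and generic points are algebraically independent.
-/

namespace Pool.Agent.PHB

/-- the monomial of a permutation -/
private noncomputable def emn {n m : ℕ} (e : Fin m → Sb n) (π : Equiv.Perm (Fin m)) : Fin m × Fin n →₀ ℕ :=
  Finsupp.equivFunOnFinite.symm fun p => ((e (π.symm p.1) p.2 : Fin 2) : ℕ)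

private theorem emn_inj {n m : ℕ} {e : Fin m → Sb n} (he : Function.Injective e) {π : Equiv.Perm (Fin m)}
    (h : emn e π = emn e 1) : π = 1 := by
  have h1 : ∀ a : Fin m, π.symm a = a := by
    intro a
    apply he
    funext l
    have h2 := DFunLike.congr_fun h (a, l)
    have h3 : ((e (π.symm a) l : Fin 2) : ℕ) = ((e a l : Fin 2) : ℕ) := h2
    exact Fin.ext h3
  ext a
  have h2 := h1 (π a)
  rw [Equiv.symm_apply_apply] at h2
  rw [← h2]
  rfl

private theorem emn_prod {F : Type} [Field F] {n m : ℕ} (e : Fin m → Sb n) (π : Equiv.Perm (Fin m)) :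
    ∏ i, (∏ l, (MvPolynomial.X (π i, l) : MvPolynomial (Fin m × Fin n) F) ^ ((e i l : Fin 2) : ℕ)) =
      MvPolynomial.monomial (emn e π) 1 := by
  rw [MvPolynomial.monomial_eq, map_one, one_mul, Finsupp.prod_fintype _ _ fun _ => pow_zero _,
    Fintype.prod_prod_type]
  refine Fintype.prod_equiv π _ _ fun i => ?_
  refine Finset.prod_congr rfl fun l _ => ?_
  show _ = MvPolynomial.X (π i, l) ^ ((e (π.symm (π i)) l : Fin 2) : ℕ)
  rw [Equiv.symm_apply_apply]

private theorem emn_det {F : Type} [Field F] {n m : ℕ} {e : Fin m → Sb n} (he : Function.Injective e) :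
    (Matrix.of fun i j => ∏ l, (MvPolynomial.X (i, l) : MvPolynomial (Fin m × Fin n) F) ^
      ((e j l : Fin 2) : ℕ)).det ≠ 0 := by
  intro h
  have h1 := congrArg (MvPolynomial.coeff (emn e 1)) h
  rw [Matrix.det_apply, MvPolynomial.coeff_sum, MvPolynomial.coeff_zero] at h1
  have h2 : ∀ π : Equiv.Perm (Fin m), MvPolynomial.coeff (emn e 1) (Equiv.Perm.sign π •
      ∏ i, (Matrix.of fun i j => ∏ l, (MvPolynomial.X (i, l) : MvPolynomial (Fin m × Fin n) F) ^
        ((e j l : Fin 2) : ℕ)) (π i) i) = if π = 1 then 1 else 0 := by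
    intro π
    simp only [Matrix.of_apply]
    rw [emn_prod, Units.smul_def, zsmul_eq_mul]
    have h3 : ((((Equiv.Perm.sign π : ℤˣ) : ℤ) : MvPolynomial (Fin m × Fin n) F)) =
        MvPolynomial.C (((Equiv.Perm.sign π : ℤˣ) : ℤ) : F) := by
      rw [map_intCast]
    rw [h3, MvPolynomial.coeff_C_mul, MvPolynomial.coeff_monomial]
    by_cases hπ : π = 1
    · subst hπ
      rw [if_pos rfl, if_pos rfl, Equiv.Perm.sign_one]
      simp
    · rw [if_neg fun h4 => hπ (emn_inj he h4), if_neg hπ, mul_zero]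
  rw [Finset.sum_congr rfl fun π _ => h2 π, Finset.sum_ite_eq' Finset.univ (1 : Equiv.Perm (Fin m)),
    if_pos (Finset.mem_univ _)] at h1
  exact one_ne_zero h1

theorem minor_ne {K k : Subfield ℂ} {n m : ℕ} {y : Fin m × Fin n → ℂ} (hy : Ind K k y)
    {e : Fin m → Sb n} (he : Function.Injective e) :
    (Matrix.of fun i j => mnl (fun l => y (i, l)) (e j)).det ≠ 0 := by
  have hai : AlgebraicIndependent k y := algInd_of_ind hy
  have h1 : (Matrix.of fun i j => mnl (fun l => y (i, l)) (e j)) =
      (MvPolynomial.aeval y : MvPolynomial (Fin m × Fin n) k →ₐ[k] ℂ).toRingHom.mapMatrix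
        (Matrix.of fun i j => ∏ l, (MvPolynomial.X (i, l) : MvPolynomial (Fin m × Fin n) k) ^
          ((e j l : Fin 2) : ℕ)) := by
    ext i j
    show ∏ l, y (i, l) ^ ((e j l : Fin 2) : ℕ) = MvPolynomial.aeval y
      (∏ l, (MvPolynomial.X (i, l) : MvPolynomial (Fin m × Fin n) k) ^ ((e j l : Fin 2) : ℕ))
    rw [map_prod]
    refine Finset.prod_congr rfl fun l _ => ?_
    rw [map_pow, MvPolynomial.aeval_X]
  rw [h1, ← RingHom.map_det]
  intro h2
  have h3 : (MvPolynomial.aeval y : MvPolynomial (Fin m × Fin n) k →ₐ[k] ℂ)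
      (Matrix.of fun i j => ∏ l, (MvPolynomial.X (i, l) : MvPolynomial (Fin m × Fin n) k) ^
          ((e j l : Fin 2) : ℕ)).det = 0 := h2
  exact emn_det he (hai.eq_zero_of_aeval_eq_zero _ h3)

/-- a nontrivial combination of the vectors of monomials of `m` generic points has less than `m` zeros -/
theorem few_zeros {K k : Subfield ℂ} {n m : ℕ} {y : Fin m × Fin n → ℂ} (hy : Ind K k y) {β : Fin m → ℂ}
    (hβ : β ≠ 0) :
    (Finset.univ.filter fun e : Sb n => ∑ i, β i * mnl (fun l => y (i, l)) e = 0).card < m := by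
  by_contra hcon
  rw [not_lt] at hcon
  obtain ⟨f⟩ : Nonempty (Fin m ↪ {x // x ∈ (Finset.univ.filter
      fun e : Sb n => ∑ i, β i * mnl (fun l => y (i, l)) e = 0)}) := by
    apply Function.Embedding.nonempty_of_card_le
    rw [Fintype.card_fin, Fintype.card_coe]
    exact hcon
  have he : Function.Injective fun j => (f j).1 := fun a b h => f.injective (Subtype.ext h)
  apply hβ
  refine Matrix.eq_zero_of_vecMul_eq_zero (minor_ne hy he) ?_
  funext j
  exact (Finset.mem_filter.1 (f j).2).2

end Pool.Agent.PHB
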