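import Pool.Agent.PHB.ODefs
import Pool.Agent.PHB.Rk

/-!
# PHB-EllR: the rank of a sum over the cube (imports ODefs, Rk)

PLAN.  `cat (ellD D) T = (S ↦ ∑_e D e [S ≤ e] [T ≤ e])` because `(e_i : ℂ) ^ (S_i + T_i) = [S_i ≤ e_i] [T_i ≤ e_i]` (`0 ^ 0 = 1`; `e_i, S_i, T_i ∈ {0, 1}`).
The vectors `u_e = (S ↦ [S ≤ e])`, `e ∈ {0,1}^n`, are linearly independent (the zeta matrix is invertible: unitriangular for the pointwise order; e.g. if
`∑ c_e u_e = 0` with `c ≠ 0` choose `e` with `c_e ≠ 0` maximal in the pointwise order and evaluate at `S = e`).  By Moebius inversion in `T`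
(`∑_{T ≤ f} ...`; or: the functionals `T ↦ [T ≤ e]` are independent too, so for each `e` there are `a_T` with `∑_T a_T [T ≤ e'] = δ_{e e'}`)
`D e • u_e = ∑_T a_T • cat (ellD D) T ∈ Im (span {ellD D})`.  So `Im` contains the independent vectors `u_e`, `D e ≠ 0`.
-/

namespace Pool.Agent.PHB

open Submodule

private noncomputable def zf {n : ℕ} (e S : Sb n) : ℂ := ∏ i, ((e i : ℕ) : ℂ) ^ (S i : ℕ)

private noncomputable def w2 (s e : Fin 2) : ℂ := if s = e then 1 else if s = 1 then -1 else 0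

private noncomputable def wf {n : ℕ} (S e : Sb n) : ℂ := ∏ i, w2 (S i) (e i)

private theorem w2_sum (e e' : Fin 2) :
    ∑ s : Fin 2, ((e : ℕ) : ℂ) ^ (s : ℕ) * w2 s e' = if e = e' then 1 else 0 := by
  fin_cases e <;> fin_cases e' <;> simp [w2, Fin.sum_univ_two]

private theorem zw_sum {n : ℕ} (e e' : Sb n) :
    ∑ S : Sb n, zf e S * wf S e' = if e = e' then 1 else 0 := by
  have h1 : ∑ S : Sb n, zf e S * wf S e' =
      ∏ i, ∑ s : Fin 2, ((e i : ℕ) : ℂ) ^ (s : ℕ) * w2 s (e' i) := by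
    rw [Finset.prod_univ_sum, Fintype.piFinset_univ]
    refine Finset.sum_congr rfl fun S _ => ?_
    unfold zf wf
    rw [← Finset.prod_mul_distrib]
  rw [h1]
  by_cases h : e = e'
  · subst h
    rw [if_pos rfl]
    refine Finset.prod_eq_one fun i _ => ?_
    rw [w2_sum, if_pos rfl]
  · rw [if_neg h]
    obtain ⟨i, hi⟩ : ∃ i, e i ≠ e' i := by
      by_contra hcon
      push Not at hcon
      exact h (funext hcon)
    refine Finset.prod_eq_zero (Finset.mem_univ i) ?_
    rw [w2_sum, if_neg hi]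

private theorem cat_ellD {n : ℕ} (D : Sb n → ℂ) (T S : Sb n) :
    cat (ellD D) T S = ∑ e : Sb n, D e * (zf e S * zf e T) := by
  unfold cat ellD
  refine Finset.sum_congr rfl fun e _ => ?_
  congr 1
  unfold zf
  rw [← Finset.prod_mul_distrib]
  refine Finset.prod_congr rfl fun i _ => ?_
  rw [← pow_add]
  rfl

private theorem ell_mem {n : ℕ} (D : Sb n → ℂ) {e : Sb n} (he : D e ≠ 0) :
    (fun S => zf e S) ∈ Im (span ℂ {ellD D}) := by
  have h1 : ∀ T : Sb n, cat (ellD D) T ∈ Im (span ℂ {ellD D}) := fun T =>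
    subset_span ⟨ellD D, subset_span rfl, T, rfl⟩
  have h2 : ∑ T : Sb n, wf T e • cat (ellD D) T ∈ Im (span ℂ {ellD D}) :=
    sum_mem fun T _ => smul_mem _ _ (h1 T)
  have h3 : ∑ T : Sb n, wf T e • cat (ellD D) T = D e • fun S => zf e S := by
    funext S
    rw [Finset.sum_apply]
    have h4 : ∀ T : Sb n, (wf T e • cat (ellD D) T) S =
        ∑ e' : Sb n, D e' * zf e' S * (zf e' T * wf T e) := by
      intro T
      rw [Pi.smul_apply, cat_ellD, smul_eq_mul, Finset.mul_sum]
      exact Finset.sum_congr rfl fun e' _ => by ring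
    rw [Finset.sum_congr rfl fun T _ => h4 T, Finset.sum_comm]
    have h5 : ∀ e' : Sb n, ∑ T : Sb n, D e' * zf e' S * (zf e' T * wf T e) =
        D e' * zf e' S * if e' = e then 1 else 0 := by
      intro e'
      rw [← Finset.mul_sum, zw_sum]
    rw [Finset.sum_congr rfl fun e' _ => h5 e', Finset.sum_eq_single e]
    · rw [if_pos rfl, mul_one, Pi.smul_apply, smul_eq_mul]
    · intro e' _ hne
      rw [if_neg hne, mul_zero]
    · intro h
      exact absurd (Finset.mem_univ e) h
  rw [h3] at h2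
  have h6 := smul_mem _ (D e)⁻¹ h2
  rwa [smul_smul, inv_mul_cancel₀ he, one_smul] at h6

private theorem zf_ind {n : ℕ} : LinearIndependent ℂ (fun (e : Sb n) (S : Sb n) => zf e S) := by
  rw [Fintype.linearIndependent_iff]
  intro c hc e
  have h1 : ∀ S : Sb n, ∑ e' : Sb n, c e' * zf e' S = 0 := by
    intro S
    have h := congrFun hc S
    rw [Finset.sum_apply] at h
    exact h
  have h2 : ∑ S : Sb n, (∑ e' : Sb n, c e' * zf e' S) * wf S e = c e := by
    have h3 : ∀ S : Sb n, (∑ e' : Sb n, c e' * zf e' S) * wf S e =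
        ∑ e' : Sb n, c e' * (zf e' S * wf S e) := by
      intro S
      rw [Finset.sum_mul]
      exact Finset.sum_congr rfl fun e' _ => by ring
    rw [Finset.sum_congr rfl fun S _ => h3 S, Finset.sum_comm]
    have h5 : ∀ e' : Sb n, ∑ S : Sb n, c e' * (zf e' S * wf S e) =
        c e' * if e' = e then 1 else 0 := by
      intro e'
      rw [← Finset.mul_sum, zw_sum]
    rw [Finset.sum_congr rfl fun e' _ => h5 e', Finset.sum_eq_single e]
    · rw [if_pos rfl, mul_one]
    · intro e' _ hne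
      rw [if_neg hne, mul_zero]
    · intro h
      exact absurd (Finset.mem_univ e) h
  rw [← h2]
  refine Finset.sum_eq_zero fun S _ => ?_
  rw [h1 S, zero_mul]

theorem ell_rank {n : ℕ} (D : Sb n → ℂ) :
    (Finset.univ.filter fun e : Sb n => D e ≠ 0).card ≤ Module.finrank ℂ (Im (span ℂ {ellD D})) := by
  classical
  have h1 : LinearIndependent ℂ (fun e : (Finset.univ.filter fun e : Sb n => D e ≠ 0) =>
      (⟨fun S => zf e.1 S, ell_mem D (Finset.mem_filter.1 e.2).2⟩ : Im (span ℂ {ellD D}))) := by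
    have h2 : LinearIndependent ℂ (fun e : (Finset.univ.filter fun e : Sb n => D e ≠ 0) =>
        (fun S : Sb n => zf e.1 S)) :=
      zf_ind.comp (fun e : (Finset.univ.filter fun e : Sb n => D e ≠ 0) => e.1)
        Subtype.val_injective
    exact LinearIndependent.of_comp (Im (span ℂ {ellD D})).subtype h2
  have h3 := h1.fintype_card_le_finrank
  rwa [Fintype.card_coe] at h3

theorem ellD_sum {n m : ℕ} (β : Fin m → ℂ) (x : Fin m → Fin n → ℂ) :
    ∑ i, β i • ell (x i) = ellD fun e => ∑ i, β i * mnl (x i) e := by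
  funext a
  rw [Finset.sum_apply]
  unfold ell ellD
  have h1 : ∀ i : Fin m, (β i • fun a : Mon n => ∑ e : Sb n, mnl (x i) e *
      ∏ j, ((e j : ℕ) : ℂ) ^ (a j : ℕ)) a =
      ∑ e : Sb n, β i * mnl (x i) e * ∏ j, ((e j : ℕ) : ℂ) ^ (a j : ℕ) := by
    intro i
    rw [Pi.smul_apply, smul_eq_mul, Finset.mul_sum]
    exact Finset.sum_congr rfl fun e _ => by ring
  rw [Finset.sum_congr rfl fun i _ => h1 i, Finset.sum_comm]
  refine Finset.sum_congr rfl fun e _ => ?_
  rw [Finset.sum_mul]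

end Pool.Agent.PHB
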