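import Pool.Agent.PHB.Bas

/-!
# PHB-ExtB: automorphisms of `ℂ` moving generic tuples (imports Bas)

The tuples are extended to transcendence bases of `ℂ` over `k` with index types `ι ⊕ X`, `ι ⊕ Y` of the same cardinality; the isomorphism of
the polynomial rings extends to the algebraic closures.
-/

namespace Pool.Agent.PHB

private theorem aut_of_bases {k : Subfield ℂ} {X : Type} {v w : X → ℂ}
    (hv : IsTranscendenceBasis k v) (hw : IsTranscendenceBasis k w) :
    ∃ τ : ℂ ≃+* ℂ, (∀ z ∈ k, τ z = z) ∧ ∀ i, τ (v i) = w i := by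
  let i1 := IsAlgClosed.isAlgClosure_of_transcendence_basis v hv
  let i2 := IsAlgClosed.isAlgClosure_of_transcendence_basis w hw
  let e : Algebra.adjoin k (Set.range v) ≃ₐ[k] Algebra.adjoin k (Set.range w) :=
    hv.1.aevalEquiv.symm.trans hw.1.aevalEquiv
  refine ⟨IsAlgClosure.equivOfEquiv ℂ ℂ e.toRingEquiv, ?_, ?_⟩
  · intro z hz
    have h1 : z = algebraMap (Algebra.adjoin k (Set.range v)) ℂ
        (algebraMap k (Algebra.adjoin k (Set.range v)) ⟨z, hz⟩) := rfl
    have h2 : e.toRingEquiv (algebraMap k (Algebra.adjoin k (Set.range v)) ⟨z, hz⟩) =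
        algebraMap k (Algebra.adjoin k (Set.range w)) ⟨z, hz⟩ := e.commutes _
    conv_lhs => rw [h1]
    rw [IsAlgClosure.equivOfEquiv_algebraMap, h2]
    rfl
  · intro i
    have h1 : v i = algebraMap (Algebra.adjoin k (Set.range v)) ℂ
        (hv.1.aevalEquiv (MvPolynomial.X i)) := by
      rw [hv.1.algebraMap_aevalEquiv, MvPolynomial.aeval_X]
    have h2 : e.toRingEquiv (hv.1.aevalEquiv (MvPolynomial.X i)) =
        hw.1.aevalEquiv (MvPolynomial.X i) := by
      show hw.1.aevalEquiv (hv.1.aevalEquiv.symm (hv.1.aevalEquiv (MvPolynomial.X i))) = _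
      rw [AlgEquiv.symm_apply_apply]
    rw [h1, IsAlgClosure.equivOfEquiv_algebraMap, h2, hw.1.algebraMap_aevalEquiv,
      MvPolynomial.aeval_X]

private theorem exists_ext {k : Subfield ℂ} {ι : Type} {a : ι → ℂ}
    (ha : AlgebraicIndependent k a) :
    ∃ s : Set ℂ, IsTranscendenceBasis k (Sum.elim a ((↑) : s → ℂ)) := by
  obtain ⟨t, ht1, ht2⟩ := exists_isTranscendenceBasis_superset ha.to_subtype_range
  refine ⟨t \ Set.range a, ?_⟩
  have hinj : Function.Injective (Sum.elim a ((↑) : ↥(t \ Set.range a) → ℂ)) := by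
    refine Function.Injective.sumElim ha.injective Subtype.val_injective ?_
    intro i j h
    exact j.2.2 ⟨i, h⟩
  rw [← isTranscendenceBasis_subtype_range hinj]
  have hr : Set.range (Sum.elim a ((↑) : ↥(t \ Set.range a) → ℂ)) = t := by
    rw [Set.Sum.elim_range, Subtype.range_coe, Set.union_sdiff_self, Set.union_eq_right.2 ht1]
  rw [hr]
  exact ht2

theorem exists_aut_ind {K k : Subfield ℂ} (hk : Fld K k) {ι : Type} [Fintype ι] {a b : ι → ℂ} (ha : Ind K k a)
    (hb : Ind K k b) : ∃ τ : ℂ ≃+* ℂ, (∀ z ∈ k, τ z = z) ∧ ∀ i, τ (a i) = b i := by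
  obtain ⟨s, hs⟩ := exists_ext (algInd_of_ind ha)
  obtain ⟨t, ht⟩ := exists_ext (algInd_of_ind hb)
  have h1 : Cardinal.mk (ι ⊕ s) = Cardinal.mk (ι ⊕ t) := hs.cardinalMk_eq ht
  rw [Cardinal.mk_sum, Cardinal.mk_sum] at h1
  simp only [Cardinal.lift_id] at h1
  have h2 := Cardinal.eq_of_add_eq_add_left h1 (Cardinal.lt_aleph0_of_finite ι)
  obtain ⟨e⟩ := Cardinal.eq.1 h2
  have ht' := IsTranscendenceBasis.comp_equiv (Equiv.sumCongr (Equiv.refl ι) e) ht
  obtain ⟨τ, hτ1, hτ2⟩ := aut_of_bases hs ht'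
  exact ⟨τ, hτ1, fun i => hτ2 (Sum.inl i)⟩

end Pool.Agent.PHB
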