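import Pool.Agent.PHB.Bas

/-!
# PHB-GenE: existence of generic tuples (imports Bas)

Induction on the length: the differentials of all complex numbers span an infinite dimensional space.
-/

namespace Pool.Agent.PHB

open Submodule

private theorem exists_dd {K k : Subfield ℂ} (hinf : ¬ FiniteDimensional ℂ (Om K)) (hk : Fld K k) :
    ∃ z : ℂ, dd K z ∉ dK K k := by
  by_contra hcon
  push Not at hcon
  have h1 : dK K k = ⊤ := by
    rw [eq_top_iff, ← KaehlerDifferential.span_range_derivation K ℂ, span_le]
    rintro _ ⟨z, rfl⟩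
    exact hcon z
  have h2 : FiniteDimensional ℂ (dK K k) := hk.fin
  rw [h1] at h2
  exact hinf (Module.Finite.equiv (Submodule.topEquiv (R := ℂ) (M := Om K)))

theorem exists_ind {K k : Subfield ℂ} (hinf : ¬ FiniteDimensional ℂ (Om K)) (hk : Fld K k) (e : ℕ) :
    ∃ π : Fin e → ℂ, Ind K k π := by
  induction e with
  | zero => exact ⟨Fin.elim0, fun c _ => Subsingleton.elim _ _⟩
  | succ e ih =>
    obtain ⟨π, hπ⟩ := ih
    obtain ⟨z, hz⟩ := exists_dd hinf (acl_fld hk (Set.finite_range π))
    refine ⟨Fin.snoc (α := fun _ => ℂ) π z, fun c hc => ?_⟩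
    rw [Fin.sum_univ_castSucc] at hc
    simp only [Fin.snoc_castSucc, Fin.snoc_last] at hc
    have hsum : ∑ i : Fin e, c i.castSucc • dd K (π i) ∈ dK K (acl k (Set.range π)) := by
      refine Submodule.sum_mem _ fun i _ => Submodule.smul_mem _ _ ?_
      exact dd_mem (subset_acl k _ ⟨i, rfl⟩)
    have hlast : c (Fin.last e) = 0 := by
      by_contra hne
      apply hz
      have h1 : c (Fin.last e) • dd K z ∈ dK K (acl k (Set.range π)) := by
        have h2 := Submodule.sub_mem _ (dK_mono (le_acl k (Set.range π)) hc) hsum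
        rwa [add_sub_cancel_left] at h2
      exact (Submodule.smul_mem_iff _ hne).1 h1
    rw [hlast, zero_smul, add_zero] at hc
    have h0 := hπ (fun i => c i.castSucc) hc
    funext i
    refine Fin.lastCases ?_ (fun i => ?_) i
    · exact hlast
    · exact congrFun h0 i

end Pool.Agent.PHB
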