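import Pool.Agent.PHB.Bas
import Pool.Agent.PHB.Rk

/-!
# PHB-SgF: automorphisms, fields and subspaces (imports Bas, Rk)

PLAN.  `mem_im`: `Subfield.mem_map` and injectivity.  An automorphism `σ` of `ℂ` fixing `K` acts on `Om K` by a `σ`-semilinear bijection `σ_*` with
`σ_* (dd z) = dd (σ z)`: construct it as `KaehlerDifferential.map`-like for the semilinear case, or avoid it: `z ↦ dd (σ z)` is a `K`-derivation of `ℂ`
into `Om K` with the module structure twisted by `σ` (`Module.compHom`); its lift is an additive map `Om K → Om K`, semilinear.  A convenient form is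
`exists_semi`: an additive map `s` with `s (c • w) = σ c • s w` and `s (dd z) = dd (σ z)`; its inverse comes from `σ.symm`.
Then `s` maps `dK K k` onto `dK K (k.map σ)` and preserves (in)dependence, so `ind_im`, `rk_im`, `fld_im`.
Alternatively (ranks without `Om`): `ind_im` by `algInd_of_ind`, transport of algebraic independence along `σ`, `ind_of_algInd`; `rk` by bases.
`sg`: `l ∈ sg σ L ↔ σ.symm ∘ l ∈ L`; `finrank_sg`: `sg σ` maps bases to bases (`σ`-semilinear bijection; e.g. linear independence of `x` iff of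
`σ ∘ x`, and spans).  `im_sg`: `cat (σ ∘ l) T = σ ∘ cat l T`.
-/

namespace Pool.Agent.PHB

open Submodule

/-- the image of a subfield -/
noncomputable def im (σ : ℂ ≃+* ℂ) (k : Subfield ℂ) : Subfield ℂ := k.map (σ : ℂ →+* ℂ)

theorem mem_im {σ : ℂ ≃+* ℂ} {k : Subfield ℂ} {z : ℂ} : σ z ∈ im σ k ↔ z ∈ k := by
  unfold im
  rw [Subfield.mem_map]
  constructor
  · rintro ⟨x, hx, h⟩
    have h1 : x = z := σ.injective h
    rw [← h1]
    exact hx
  · intro h
    exact ⟨z, h, rfl⟩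

theorem mem_im' {σ : ℂ ≃+* ℂ} {k : Subfield ℂ} {z : ℂ} : z ∈ im σ k ↔ σ.symm z ∈ k := by
  have h := mem_im (σ := σ) (k := k) (z := σ.symm z)
  rw [RingEquiv.apply_symm_apply] at h
  exact h

theorem im_mono' {σ : ℂ ≃+* ℂ} {k k' : Subfield ℂ} (h : k ≤ k') : im σ k ≤ im σ k' := by
  intro z hz
  rw [mem_im'] at hz ⊢
  exact h hz

/-- the module of differentials, with the action of `ℂ` through `σ` -/
private def Tw (K : Subfield ℂ) (_ : ℂ ≃+* ℂ) : Type := Om K

private noncomputable instance (K : Subfield ℂ) (σ : ℂ ≃+* ℂ) : AddCommGroup (Tw K σ) :=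
  inferInstanceAs (AddCommGroup (Om K))

private noncomputable instance (K : Subfield ℂ) (σ : ℂ ≃+* ℂ) : Module ℂ (Tw K σ) :=
  Module.compHom (Om K) (σ : ℂ →+* ℂ)

theorem exists_semi {K : Subfield ℂ} {σ : ℂ ≃+* ℂ} (hσ : ∀ z ∈ K, σ z = z) :
    ∃ s : Om K → Om K, (∀ v w, s (v + w) = s v + s w) ∧ (∀ (c : ℂ) w, s (c • w) = σ c • s w) ∧
      ∀ z, s (dd K z) = dd K (σ z) := by
  let D0 : ℂ →ₗ[K] Tw K σ :=
    { toFun := fun z => (dd K (σ z) : Om K)
      map_add' := by
        intro x y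
        change dd K (σ (x + y)) = dd K (σ x) + dd K (σ y)
        rw [map_add, dd_add]
      map_smul' := by
        intro c x
        change dd K (σ ((c : ℂ) * x)) = σ (c : ℂ) • dd K (σ x)
        rw [map_mul, hσ _ c.2, dd_mul, dd_fix c.2, smul_zero, add_zero] }
  let D1 : Derivation K ℂ (Tw K σ) := Derivation.mk' D0 (by
    intro a b
    change dd K (σ (a * b)) = σ a • dd K (σ b) + σ b • dd K (σ a)
    rw [map_mul, dd_mul])
  refine ⟨fun w => (D1.liftKaehlerDifferential w : Tw K σ), ?_, ?_, ?_⟩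
  · intro v w
    exact map_add D1.liftKaehlerDifferential v w
  · intro c w
    exact map_smul D1.liftKaehlerDifferential c w
  · intro z
    exact D1.liftKaehlerDifferential_comp_D z

private theorem semi_pair {K : Subfield ℂ} {σ : ℂ ≃+* ℂ} (hσ : ∀ z ∈ K, σ z = z) :
    ∃ s s' : Om K →+ Om K, (∀ (c : ℂ) w, s (c • w) = σ c • s w) ∧ (∀ z, s (dd K z) = dd K (σ z)) ∧
      (∀ (c : ℂ) w, s' (c • w) = σ.symm c • s' w) ∧ (∀ z, s' (dd K z) = dd K (σ.symm z)) ∧
      (∀ w, s' (s w) = w) ∧ ∀ w, s (s' w) = w := by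
  have hσ' : ∀ z ∈ K, σ.symm z = z := by
    intro z hz
    rw [RingEquiv.symm_apply_eq, hσ z hz]
  obtain ⟨s, h1, h2, h3⟩ := exists_semi hσ
  obtain ⟨s', h1', h2', h3'⟩ := exists_semi hσ'
  have hspan : ∀ w : Om K, w ∈ span ℂ (Set.range (KaehlerDifferential.D K ℂ)) := by
    intro w
    rw [KaehlerDifferential.span_range_derivation]
    exact mem_top
  have e0 : s 0 = 0 := by
    have := h1 0 0
    rw [add_zero] at this
    exact left_eq_add.1 this
  have e0' : s' 0 = 0 := by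
    have := h1' 0 0
    rw [add_zero] at this
    exact left_eq_add.1 this
  refine ⟨AddMonoidHom.mk' s h1, AddMonoidHom.mk' s' h1', h2, h3, h2', h3', ?_, ?_⟩
  · intro w
    change s' (s w) = w
    induction hspan w using Submodule.span_induction with
    | mem x hx =>
      obtain ⟨z, rfl⟩ := hx
      change s' (s (dd K z)) = dd K z
      rw [h3, h3', RingEquiv.symm_apply_apply]
    | zero => rw [e0, e0']
    | add x y _ _ hx hy => rw [h1, h1', hx, hy]
    | smul c x _ hx => rw [h2, h2', hx, RingEquiv.symm_apply_apply]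
  · intro w
    change s (s' w) = w
    induction hspan w using Submodule.span_induction with
    | mem x hx =>
      obtain ⟨z, rfl⟩ := hx
      change s (s' (dd K z)) = dd K z
      rw [h3', h3, RingEquiv.apply_symm_apply]
    | zero => rw [e0', e0]
    | add x y _ _ hx hy => rw [h1', h1, hx, hy]
    | smul c x _ hx => rw [h2', h2, hx, RingEquiv.apply_symm_apply]

private theorem semi_dK {K k k' : Subfield ℂ} {σ : ℂ ≃+* ℂ} (s : Om K →+ Om K)
    (h1 : ∀ (c : ℂ) w, s (c • w) = σ c • s w) (h2 : ∀ z, s (dd K z) = dd K (σ z))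
    (h3 : ∀ z ∈ k, σ z ∈ k') : ∀ w ∈ dK K k, s w ∈ dK K k' := by
  intro w hw
  unfold dK at hw
  induction hw using Submodule.span_induction with
  | mem x hx =>
    obtain ⟨z, hz, rfl⟩ := hx
    rw [h2]
    exact dd_mem (h3 z hz)
  | zero =>
    rw [map_zero]
    exact zero_mem _
  | add x y _ _ hx hy =>
    rw [map_add]
    exact add_mem hx hy
  | smul c x _ hx =>
    rw [h1]
    exact smul_mem _ _ hx

private theorem semi_equiv {K k : Subfield ℂ} {σ : ℂ ≃+* ℂ} (hσ : ∀ z ∈ K, σ z = z) :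
    ∃ j : dK K k ≃+ dK K (im σ k), ∀ (c : ℂ) w, j (c • w) = σ c • j w := by
  obtain ⟨s, s', h1, h2, h3, h4, h5, h6⟩ := semi_pair hσ
  have hs := semi_dK (k := k) (k' := im σ k) s h1 h2 (fun z hz => mem_im.2 hz)
  have hs' := semi_dK (k := im σ k) (k' := k) (σ := σ.symm) s' h3 h4 (fun z hz => mem_im'.1 hz)
  refine ⟨{ toFun := fun w => ⟨s w, hs w w.2⟩
            invFun := fun w => ⟨s' w, hs' w w.2⟩
            left_inv := fun w => Subtype.ext (h5 w)
            right_inv := fun w => Subtype.ext (h6 w)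
            map_add' := fun v w => Subtype.ext (map_add s (v : Om K) w) }, ?_⟩
  intro c w
  exact Subtype.ext (h1 c w)

private theorem semi_rank {K k : Subfield ℂ} {σ : ℂ ≃+* ℂ} (hσ : ∀ z ∈ K, σ z = z) :
    Module.rank ℂ (dK K k) = Module.rank ℂ (dK K (im σ k)) := by
  obtain ⟨j, hj⟩ := semi_equiv (k := k) hσ
  exact rank_eq_of_equiv_equiv (fun c => σ c) j σ.bijective hj

private theorem im_symm_im {k : Subfield ℂ} {σ : ℂ ≃+* ℂ} : im σ.symm (im σ k) = k := by
  ext z
  rw [mem_im', RingEquiv.symm_symm, mem_im]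

private theorem alg_im {k : Subfield ℂ} {σ : ℂ ≃+* ℂ} {z : ℂ} (h : IsAlgebraic k z) :
    IsAlgebraic (im σ k) (σ z) := by
  refine IsAlgebraic.ringHom_of_comp_eq
    ((σ : ℂ →+* ℂ).restrict k (im σ k) (fun x hx => mem_im.2 hx)) (σ : ℂ →+* ℂ) h ?_ ?_
  · intro x y hxy
    have h1 : σ (x : ℂ) = σ (y : ℂ) := congrArg Subtype.val hxy
    exact Subtype.ext (σ.injective h1)
  · ext x
    rfl

private theorem alg_im_iff {k : Subfield ℂ} {σ : ℂ ≃+* ℂ} {z : ℂ} :
    IsAlgebraic (im σ k) (σ z) ↔ IsAlgebraic k z := by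
  refine ⟨fun h => ?_, alg_im⟩
  have h1 := alg_im (σ := σ.symm) h
  rw [im_symm_im, RingEquiv.symm_apply_apply] at h1
  exact h1

theorem fld_im {K k : Subfield ℂ} {σ : ℂ ≃+* ℂ} (hσ : ∀ z ∈ K, σ z = z) (hk : Fld K k) : Fld K (im σ k) := by
  refine ⟨fun z hz => ?_, fun z hz => ?_, ?_⟩
  · have h1 : σ z ∈ im σ k := mem_im.2 (hk.le hz)
    rw [hσ z hz] at h1
    exact h1
  · rw [mem_im']
    apply hk.ac
    rw [← alg_im_iff (σ := σ), RingEquiv.apply_symm_apply]
    exact hz
  · have h1 := hk.fin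
    rw [FiniteDimensional, ← Module.rank_lt_aleph0_iff] at h1 ⊢
    rw [← semi_rank hσ]
    exact h1

theorem rk_im {K k : Subfield ℂ} {σ : ℂ ≃+* ℂ} (hσ : ∀ z ∈ K, σ z = z) (hk : Fld K k) :
    rk K (im σ k) = rk K k := by
  have _ := hk
  unfold rk Module.finrank
  rw [semi_rank (k := k) hσ]

theorem ind_im {K k : Subfield ℂ} {σ : ℂ ≃+* ℂ} (hσ : ∀ z ∈ K, σ z = z) {ι : Type} [Fintype ι]
    {a : ι → ℂ} (ha : Ind K k a) : Ind K (im σ k) (fun i => σ (a i)) := by
  obtain ⟨s, s', h1, h2, h3, h4, h5, h6⟩ := semi_pair hσ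
  have hs' := semi_dK (k := im σ k) (k' := k) (σ := σ.symm) s' h3 h4 (fun z hz => mem_im'.1 hz)
  intro c hc
  have h7 := hs' _ hc
  rw [map_sum] at h7
  have h8 : ∀ i, s' (c i • dd K (σ (a i))) = σ.symm (c i) • dd K (a i) := by
    intro i
    rw [h3, h4, RingEquiv.symm_apply_apply]
  simp only [h8] at h7
  have h9 := ha (fun i => σ.symm (c i)) h7
  funext i
  have h10 := congrFun h9 i
  have h11 : σ.symm (c i) = 0 := h10
  rw [RingEquiv.symm_apply_eq, map_zero] at h11
  exact h11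

theorem im_acl {σ : ℂ ≃+* ℂ} {k : Subfield ℂ} {A : Set ℂ} : im σ (acl k A) = acl (im σ k) (σ '' A) := by
  have h1 : Subfield.closure ((im σ k : Set ℂ) ∪ σ '' A) = im σ (Subfield.closure ((k : Set ℂ) ∪ A)) := by
    unfold im
    rw [RingHom.map_field_closure, Set.image_union, Subfield.coe_map]
    rfl
  ext z
  rw [mem_im', mem_acl_iff, mem_acl_iff, h1]
  have h2 := alg_im_iff (σ := σ) (k := Subfield.closure ((k : Set ℂ) ∪ A)) (z := σ.symm z)
  rw [RingEquiv.apply_symm_apply] at h2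
  exact h2.symm

theorem mem_sg {σ : ℂ ≃+* ℂ} {ι : Type} {L : Submodule ℂ (ι → ℂ)} {l : ι → ℂ} :
    (fun a => σ (l a)) ∈ sg σ L ↔ l ∈ L := by
  change (fun a => σ.symm (σ (l a))) ∈ L ↔ l ∈ L
  simp only [RingEquiv.symm_apply_apply]

private theorem mem_sg' {σ : ℂ ≃+* ℂ} {ι : Type} {L : Submodule ℂ (ι → ℂ)} {v : ι → ℂ} :
    v ∈ sg σ L ↔ ∃ l ∈ L, v = fun a => σ (l a) := by
  constructor
  · intro h
    refine ⟨fun a => σ.symm (v a), h, ?_⟩
    funext a
    rw [RingEquiv.apply_symm_apply]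
  · rintro ⟨l, hl, rfl⟩
    exact mem_sg.2 hl

theorem sg_span {σ : ℂ ≃+* ℂ} {ι : Type} (X : Set (ι → ℂ)) :
    sg σ (span ℂ X) = span ℂ {v | ∃ x ∈ X, v = fun a => σ (x a)} := by
  apply le_antisymm
  · intro v hv
    obtain ⟨l, hl, rfl⟩ := mem_sg'.1 hv
    clear hv
    induction hl using Submodule.span_induction with
    | mem x hx => exact subset_span ⟨x, hx, rfl⟩
    | zero =>
      have h : (fun a => σ ((0 : ι → ℂ) a)) = 0 := by
        funext a
        exact map_zero σ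
      rw [h]
      exact zero_mem _
    | add x y _ _ hx hy =>
      have h : (fun a => σ ((x + y) a)) = (fun a => σ (x a)) + fun a => σ (y a) := by
        funext a
        exact map_add σ _ _
      rw [h]
      exact add_mem hx hy
    | smul c x _ hx =>
      have h : (fun a => σ ((c • x) a)) = σ c • fun a => σ (x a) := by
        funext a
        exact map_mul σ _ _
      rw [h]
      exact smul_mem _ _ hx
  · rw [span_le]
    rintro v ⟨x, hx, rfl⟩
    exact mem_sg.2 (subset_span hx)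

theorem sg_mono {σ : ℂ ≃+* ℂ} {ι : Type} {L L' : Submodule ℂ (ι → ℂ)} (h : L ≤ L') : sg σ L ≤ sg σ L' :=
  fun _ hv => h hv

theorem sg_sup {σ : ℂ ≃+* ℂ} {ι : Type} (L L' : Submodule ℂ (ι → ℂ)) : sg σ (L ⊔ L') = sg σ L ⊔ sg σ L' := by
  apply le_antisymm
  · intro v hv
    obtain ⟨l, hl, rfl⟩ := mem_sg'.1 hv
    obtain ⟨x, hx, y, hy, rfl⟩ := mem_sup.1 hl
    refine mem_sup.2 ⟨fun a => σ (x a), mem_sg.2 hx, fun a => σ (y a), mem_sg.2 hy, ?_⟩
    funext a
    exact (map_add σ _ _).symm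
  · exact sup_le (sg_mono le_sup_left) (sg_mono le_sup_right)

theorem finrank_sg {σ : ℂ ≃+* ℂ} {ι : Type} [Fintype ι] (L : Submodule ℂ (ι → ℂ)) :
    Module.finrank ℂ (sg σ L) = Module.finrank ℂ L := by
  have j : ∃ j : L ≃+ sg σ L, ∀ (c : ℂ) w, j (c • w) = σ c • j w := by
    refine ⟨{ toFun := fun w => ⟨fun a => σ (w.1 a), mem_sg.2 w.2⟩
              invFun := fun w => ⟨fun a => σ.symm (w.1 a), w.2⟩
              left_inv := fun w => Subtype.ext (by
                funext a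
                exact RingEquiv.symm_apply_apply σ _)
              right_inv := fun w => Subtype.ext (by
                funext a
                exact RingEquiv.apply_symm_apply σ _)
              map_add' := fun v w => Subtype.ext (by
                funext a
                exact map_add σ _ _) }, ?_⟩
    intro c w
    refine Subtype.ext ?_
    funext a
    exact map_mul σ _ _
  obtain ⟨j, hj⟩ := j
  unfold Module.finrank
  rw [rank_eq_of_equiv_equiv (fun c => σ c) j σ.bijective hj]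

theorem im_sg {σ : ℂ ≃+* ℂ} {n : ℕ} (L : Submodule ℂ (V n)) : Im (sg σ L) = sg σ (Im L) := by
  unfold Im
  rw [sg_span]
  congr 1
  ext c
  constructor
  · rintro ⟨l, hl, T, rfl⟩
    obtain ⟨l0, hl0, rfl⟩ := mem_sg'.1 hl
    exact ⟨cat l0 T, ⟨l0, hl0, T, rfl⟩, rfl⟩
  · rintro ⟨x, ⟨l, hl, T, rfl⟩, rfl⟩
    exact ⟨fun a => σ (l a), mem_sg.2 hl, T, rfl⟩

theorem mu_sg {σ : ℂ ≃+* ℂ} {n : ℕ} (L : Submodule ℂ (V n)) : mu (sg σ L) = mu L := by
  unfold mu
  rw [im_sg, finrank_sg, finrank_sg]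

theorem rat_sg {σ : ℂ ≃+* ℂ} {ι : Type} {k : Subfield ℂ} {L : Submodule ℂ (ι → ℂ)} (hL : Rat k L) :
    Rat (im σ k) (sg σ L) := by
  refine (sg_mono hL).trans ?_
  rw [sg_span]
  apply span_mono
  rintro v ⟨x, ⟨hx, hxk⟩, rfl⟩
  exact ⟨mem_sg.2 hx, fun a => mem_im.2 (hxk a)⟩

/-- a rational subspace is preserved by automorphisms fixing the field -/
theorem sg_fix {σ : ℂ ≃+* ℂ} {ι : Type} {k : Subfield ℂ} (hσ : ∀ z ∈ k, σ z = z) {L : Submodule ℂ (ι → ℂ)}
    (hL : Rat k L) : sg σ L = L := by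
  have h1 : L = span ℂ {l | l ∈ L ∧ Rv k l} := by
    apply le_antisymm hL
    rw [span_le]
    exact fun l hl => hl.1
  have h2 : {v | ∃ x ∈ {l | l ∈ L ∧ Rv k l}, v = fun a => σ (x a)} = {l | l ∈ L ∧ Rv k l} := by
    ext v
    constructor
    · rintro ⟨x, hx, rfl⟩
      have h3 : (fun a => σ (x a)) = x := by
        funext a
        exact hσ _ (hx.2 a)
      rw [h3]
      exact hx
    · intro hv
      refine ⟨v, hv, ?_⟩
      funext a
      exact (hσ _ (hv.2 a)).symm
  conv_lhs => rw [h1]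
  rw [sg_span, h2]
  exact h1.symm

end Pool.Agent.PHB
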