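import Pool.Agent.PHB.EllM
import Pool.Agent.PHB.EllR
import Pool.Agent.PHB.ExtB
import Pool.Agent.PHB.SgF
import Pool.Agent.PHB.GenE
import Pool.Agent.PHB.NIn

/-!
# PHB-EllS: the hidden sum has large rank modulo the known functionals (imports EllM, EllR, ExtB, SgF, GenE, NIn)

PLAN.  `kh = acl k (range h)`, `Fld K kh`.  `sg_nn`: if `τ` fixes `kh` pointwise then `sg τ (Nn K h k) ≤ Nn K h k`: `exists_semi` for `τ` (it fixes `K ≤ k`): `s (Th K h l) =
Th K h (τ ∘ l)` (`τ (h a) = h a`) and `s` maps `dK K k` into itself (`s (dd z) = dd (τ z) = dd z` for `z ∈ k`).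
`ell_not_mem`: suppose `ell x ∈ Nn K h k ⊔ L`.  Choose `y : Fin ((κ+1) * n) → ℂ` independent over `kh` (`exists_ind`, reindex to `Fin (κ+1) × Fin n`).  For each
`i ≤ κ` the tuple `y i` is independent over `kh`, so there is `τ_i` fixing `kh` with `τ_i (x l) = y (i, l)` (`exists_aut_ind`); apply it:
`ell (y i) = ν_i + λ_i`, `ν_i ∈ Nn K h k`, `λ_i ∈ sg τ_i L`, `dim Im (sg τ_i L) ≤ r` (`im_sg`, `finrank_sg`).  As `dim Nn ≤ κ` the `κ + 1` vectors `ν_i` are dependent:
`∑ β_i • ν_i = 0`, `β ≠ 0`.  So `∑ β_i • ell (y i) = ∑ β_i • λ_i ∈ ⨆ sg τ_i L`, whose column space has dimension at most `(κ + 1) r` (`im_sup`, `im_mono`,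
`finrank` of finite sups).  By `ellD_sum`, `ell_rank` and `few_zeros` (`m = κ + 1`): `2 ^ n ≤ κ + (κ + 1) r`, contradiction (`card (Sb n) = 2 ^ n`).
-/

namespace Pool.Agent.PHB

open Submodule

theorem sg_nn {K : Subfield ℂ} {n : ℕ} {h : V n} {k : Subfield ℂ} (hK : K ≤ k) {τ : ℂ ≃+* ℂ}
    (hτ : ∀ z ∈ acl k (Set.range h), τ z = z) : sg τ (Nn K h k) ≤ Nn K h k := by
  intro v hv
  have hv' : Th K h (fun a => τ.symm (v a)) ∈ dK K k := hv
  have hk : ∀ z ∈ k, τ z = z := fun z hz => hτ z (le_acl k (Set.range h) hz)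
  obtain ⟨s, h1, h2, h3⟩ := exists_semi (K := K) (σ := τ) (fun z hz => hk z (hK hz))
  have h0 : s 0 = 0 := by
    have h4 := h1 0 0
    rw [add_zero] at h4
    exact (left_eq_add.1 h4)
  have hsum : ∀ (t : Finset (Mon n)) (f : Mon n → Om K), s (∑ a ∈ t, f a) = ∑ a ∈ t, s (f a) := by
    intro t f
    classical
    induction t using Finset.induction with
    | empty => simpa using h0
    | insert a t hat ih => rw [Finset.sum_insert hat, Finset.sum_insert hat, h1, ih]
  have h5 : s (Th K h (fun a => τ.symm (v a))) = Th K h v := by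
    rw [Th, Fintype.linearCombination_apply, Fintype.linearCombination_apply, hsum]
    refine Finset.sum_congr rfl fun a _ => ?_
    rw [h2, h3, RingEquiv.apply_symm_apply, hτ (h a) (subset_acl k (Set.range h) ⟨a, rfl⟩)]
  have h6 : ∀ w ∈ dK K k, s w ∈ dK K k := by
    intro w hw
    refine Submodule.span_induction (p := fun w _ => s w ∈ dK K k) ?_ ?_ ?_ ?_ hw
    · rintro _ ⟨z, hz, rfl⟩
      rw [h3, hk z hz]
      exact dd_mem hz
    · rw [h0]
      exact zero_mem _
    · intro x y _ _ hx hy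
      rw [h1]
      exact add_mem hx hy
    · intro c x _ hx
      rw [h2]
      exact (dK K k).smul_mem _ hx
  show Th K h v ∈ dK K k
  rw [← h5]
  exact h6 _ hv'

private theorem ind_equiv {K k : Subfield ℂ} {ι ι' : Type} [Fintype ι] [Fintype ι'] (e : ι' ≃ ι)
    {a : ι → ℂ} (ha : Ind K k a) : Ind K k (fun i => a (e i)) := by
  intro c hc
  have h1 : ∑ i, c (e.symm i) • dd K (a i) = ∑ i, c i • dd K (a (e i)) := by
    rw [← Equiv.sum_comp e]
    simp
  have h2 := ha (fun i => c (e.symm i)) (by rw [h1]; exact hc)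
  funext i
  have h3 := congrFun h2 (e i)
  simpa using h3

private theorem ind_row {K k : Subfield ℂ} {m n : ℕ} {y : Fin m × Fin n → ℂ} (hy : Ind K k y)
    (i : Fin m) : Ind K k (fun l => y (i, l)) := by
  intro c hc
  have h1 : ∑ p : Fin m × Fin n, (if p.1 = i then c p.2 else 0) • dd K (y p) =
      ∑ l, c l • dd K (y (i, l)) := by
    rw [Fintype.sum_prod_type, Finset.sum_eq_single i]
    · simp
    · intro j _ hj
      simp [hj]
    · intro h
      exact absurd (Finset.mem_univ i) h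
  have h2 := hy (fun p => if p.1 = i then c p.2 else 0) (by rw [h1]; exact hc)
  funext l
  have h3 := congrFun h2 (i, l)
  simpa using h3

private theorem ell_map {n : ℕ} (τ : ℂ ≃+* ℂ) (x y : Fin n → ℂ) (h : ∀ l, τ (x l) = y l) :
    (fun a => τ (ell x a)) = ell y := by
  funext a
  simp only [ell, ellD, mnl, map_sum, map_mul, map_prod, map_pow, map_natCast, h]

private theorem im_sup_le {n m : ℕ} (τ : Fin m → ℂ ≃+* ℂ) (L : Submodule ℂ (V n)) {r : ℕ}
    (hr : Module.finrank ℂ (Im L) ≤ r) (t : Finset (Fin m)) :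
    Module.finrank ℂ (Im (t.sup fun i => sg (τ i) L)) ≤ t.card * r := by
  classical
  induction t using Finset.induction with
  | empty =>
      have h := mu_bot (n := n)
      rw [mu] at h
      rw [Finset.sup_empty]
      omega
  | insert a t hat ih =>
      rw [Finset.sup_insert, im_sup, Finset.card_insert_of_notMem hat]
      have h1 := Submodule.finrank_add_le_finrank_add_finrank (Im (sg (τ a) L))
        (Im (t.sup fun i => sg (τ i) L))
      have h2 : Module.finrank ℂ (Im (sg (τ a) L)) ≤ r := by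
        rw [im_sg, finrank_sg]
        exact hr
      refine h1.trans ?_
      rw [Nat.add_mul, one_mul, add_comm]
      exact Nat.add_le_add ih h2

theorem ell_not_mem {K : Subfield ℂ} {n : ℕ} {h : V n} (hinf : ¬ FiniteDimensional ℂ (Om K)) {k : Subfield ℂ}
    (hk : Fld K k) {x : Fin n → ℂ} (hx : Ind K (acl k (Set.range h)) x) {L : Submodule ℂ (V n)} {κ r : ℕ}
    (hκ : Module.finrank ℂ (Nn K h k) ≤ κ) (hr : Module.finrank ℂ (Im L) ≤ r)
    (h2 : κ + (κ + 1) * r < 2 ^ n) : ell x ∉ Nn K h k ⊔ L := by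
  classical
  intro hmem
  obtain ⟨ν, hν, lam, hlam, hsum⟩ := Submodule.mem_sup.1 hmem
  have hkh : Fld K (acl k (Set.range h)) := acl_fld hk (Set.finite_range h)
  obtain ⟨y', hy'⟩ := exists_ind hinf hkh ((κ + 1) * n)
  obtain ⟨y, hy⟩ : ∃ y : Fin (κ + 1) × Fin n → ℂ, Ind K (acl k (Set.range h)) y :=
    ⟨_, ind_equiv finProdFinEquiv hy'⟩
  have hτ : ∀ i : Fin (κ + 1), ∃ τ : ℂ ≃+* ℂ, (∀ z ∈ acl k (Set.range h), τ z = z) ∧
      ∀ l, τ (x l) = y (i, l) := fun i => exists_aut_ind hkh hx (ind_row hy i)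
  choose τ hτ1 hτ2 using hτ
  have hνi : ∀ i, (fun a => τ i (ν a)) ∈ Nn K h k := fun i =>
    sg_nn hk.le (hτ1 i) (mem_sg.2 hν)
  have hli : ∀ i, (fun a => τ i (lam a)) ∈ sg (τ i) L := fun i => mem_sg.2 hlam
  have hell : ∀ i, ell (fun l => y (i, l)) = (fun a => τ i (ν a)) + fun a => τ i (lam a) := by
    intro i
    rw [← ell_map (τ i) x _ (hτ2 i), ← hsum]
    funext a
    simp
  have hdep : ¬ LinearIndependent ℂ (fun i : Fin (κ + 1) =>
      (⟨fun a => τ i (ν a), hνi i⟩ : Nn K h k)) := by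
    intro hli'
    have := hli'.fintype_card_le_finrank
    rw [Fintype.card_fin] at this
    omega
  obtain ⟨β, hβ1, i0, hβ2⟩ := Fintype.not_linearIndependent_iff.1 hdep
  have hβ3 : ∑ i, β i • (fun a => τ i (ν a)) = 0 := by
    have := congrArg Subtype.val hβ1
    simpa using this
  have hβ0 : β ≠ 0 := fun h0 => hβ2 (congrFun h0 i0)
  have hD : ellD (fun e => ∑ i, β i * mnl (fun l => y (i, l)) e) =
      ∑ i, β i • (fun a => τ i (lam a)) := by
    rw [← ellD_sum, Finset.sum_congr rfl fun i _ => by rw [hell i, smul_add],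
      Finset.sum_add_distrib, hβ3, zero_add]
  have hW : span ℂ {ellD (fun e => ∑ i, β i * mnl (fun l => y (i, l)) e)} ≤
      Finset.univ.sup fun i => sg (τ i) L := by
    rw [Submodule.span_singleton_le_iff_mem, hD]
    refine Submodule.sum_mem _ fun i _ => Submodule.smul_mem _ _ ?_
    exact (Finset.le_sup (f := fun i => sg (τ i) L) (Finset.mem_univ i)) (hli i)
  have h3 := ell_rank (fun e => ∑ i, β i * mnl (fun l => y (i, l)) e)
  have h4 := Submodule.finrank_mono (im_mono hW)
  have h5 := im_sup_le τ L hr Finset.univ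
  have h6 := few_zeros hy hβ0
  rw [Finset.card_univ, Fintype.card_fin] at h5
  have h7 := Finset.card_filter_add_card_filter_not (s := (Finset.univ : Finset (Sb n)))
    (fun e => ∑ i, β i * mnl (fun l => y (i, l)) e = 0)
  have h8 : (Finset.univ : Finset (Sb n)).card = 2 ^ n := by
    rw [Finset.card_univ, Fintype.card_fun, Fintype.card_fin, Fintype.card_fin]
  rw [h8] at h7
  have h9 := h3.trans (h4.trans h5)
  simp only [ne_eq] at h9
  omega

end Pool.Agent.PHB
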