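import Pool.Agent.VRJ.Defs

/-!
# Project PHB (MP_50b9ba_lc): formulas relative to a polynomial oracle (definitions)

Oracles `Φ : VRJ.Orc` are sequences of complex polynomials, `Φ L` has `L` variables; `VRJ.jet (Φ L) k z` is the coefficient of `τ ^ k` of `Φ L` at the
curve with coordinates `z l 0 + z l 1 * τ + .. + z l k * τ ^ k` (for `k = 0`: the value at a point).

`Fm m`: formulas with `m` free complex variables: polynomial equations with integer coefficients, negation, conjunction, oracle queries
(`ask`: a new variable is the answer to a query whose arguments are quotients of polynomials, with integer coefficients, in the present variables) and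
existential quantifiers over blocks of complex variables.
`cost`: the maximum, over all paths, of the number of quantified variables plus the sum of `k + 1` over the queries (`k` the order of the
Taylor coefficient).  `alt`: the maximal number of nested blocks of quantifiers.
-/

namespace Pool.Agent.PHB

open VRJ

/-- formulas with `m` free variables -/
inductive Fm : ℕ → Type
  /-- the equation `P = 0` -/
  | eq {m : ℕ} (P : MvPolynomial (Fin m) ℤ) : Fm m
  /-- not `θ` -/
  | neg {m : ℕ} (θ : Fm m) : Fm m
  /-- `θ` and `ψ` -/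
  | and {m : ℕ} (θ ψ : Fm m) : Fm m
  /-- `θ` with the answer of the oracle `Φ L` to a query of order `k` as the value of the last variable -/
  | ask {m : ℕ} (L k : ℕ) (P Q : Fin L → ℕ → MvPolynomial (Fin m) ℤ) (θ : Fm (m + 1)) : Fm m
  /-- there are values of the last `q` variables such that `θ` -/
  | ex {m : ℕ} (q : ℕ) (θ : Fm (m + q)) : Fm m

/-- the formula `θ` holds at `w`, relative to the oracle `Φ` (as usual `x / 0 = 0`) -/
def Sat (Φ : Orc) : {m : ℕ} → Fm m → (Fin m → ℂ) → Prop
  | _, .eq P, w => MvPolynomial.aeval w P = 0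
  | _, .neg θ, w => ¬ Sat Φ θ w
  | _, .and θ ψ, w => Sat Φ θ w ∧ Sat Φ ψ w
  | _, .ask L k P Q θ, w =>
      Sat Φ θ (Fin.snoc (α := fun _ => ℂ) w
        (jet (Φ L) k fun l i => MvPolynomial.aeval w (P l i) / MvPolynomial.aeval w (Q l i)))
  | _, .ex q θ, w => ∃ v : Fin q → ℂ, Sat Φ θ (Fin.append w v)

/-- the maximal number of quantified variables plus oracle costs along a path -/
def Fm.cost : {m : ℕ} → Fm m → ℕ
  | _, .eq _ => 0
  | _, .neg θ => θ.cost
  | _, .and θ ψ => max θ.cost ψ.cost
  | _, .ask _ k _ _ θ => k + 1 + θ.cost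
  | _, .ex q θ => q + θ.cost

/-- the maximal number of nested blocks of quantifiers -/
def Fm.alt : {m : ℕ} → Fm m → ℕ
  | _, .eq _ => 0
  | _, .neg θ => θ.alt
  | _, .and θ ψ => max θ.alt ψ.alt
  | _, .ask _ _ _ _ θ => θ.alt
  | _, .ex _ θ => θ.alt + 1

open MvPolynomial in
/-- `∑ (e ∈ {0,1}^n) Φ n (e) * X ^ e` -/
noncomputable def fam (Φ : Orc) (n : ℕ) : MvPolynomial ℕ ℂ :=
  ∑ e : Fin n → Fin 2, C (eval (fun i => ((e i : ℕ) : ℂ)) (Φ n)) * ∏ i : Fin n, X (i : ℕ) ^ (e i : ℕ)

end Pool.Agent.PHB
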