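import Pool.Agent.PHB.ODefs

/-!
# PHB-Num: the numerical conditions (imports ODefs)

PLAN.  `E r = Asc s r + 2 s ≤ (4 s) ^ (5 * 2 ^ r - 4)` by induction: `E 0 = 2 s`; `E (r+1) = 4 ((s+1)(E r + 1))² + 2 s ≤ 4 (2 s * 2 E r)² + 2 s ≤ 66 s² (E r)² ≤
(4 s) ^ 4 (E r)²` (`E r ≥ 2`).  With `S0 = E r`, `S1 = (S0 + (n+1)) + S0 + 1 + (1 + (S0 + (n+1))) S0 ≤ 9 S0²... ≤ (4 s)² S0²` (`n ≤ s ≤ S0`), `κ = s + s S1 ≤ 2 s S1`,
`ρ = s S1 + S0 ≤ 2 s S1`, `κ + (κ + 1) ρ ≤ 8 s² S1² ≤ (4 s)² S1² ≤ (4 s) ^ (20 * 2 ^ r - 10) ≤ (4 s) ^ (2 ^ (r + 5))`.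
(It may be convenient to prove `E r ≤ (4 s) ^ a` with `a + 4 = 5 * 2 ^ r`.)
-/

namespace Pool.Agent.PHB

private theorem asc_le {s : ℕ} (hs : 1 ≤ s) (r : ℕ) :
    ∃ a : ℕ, a + 4 = 5 * 2 ^ r ∧ Asc s r + 2 * s ≤ (4 * s) ^ a := by
  induction r with
  | zero =>
    refine ⟨1, by norm_num, ?_⟩
    have h0 : Asc s 0 = 0 := rfl
    rw [h0, pow_one]
    omega
  | succ r ih =>
    obtain ⟨a, ha, h⟩ := ih
    refine ⟨2 * a + 4, by rw [pow_succ]; omega, ?_⟩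
    have h1 : Asc s (r + 1) = 4 * ((s + 1) * (Asc s r + 2 * s + 1)) ^ 2 := rfl
    rw [h1]
    generalize hE : Asc s r + 2 * s = E at h ⊢
    have hE2 : 2 ≤ E := by omega
    have h2 : (s + 1) * (E + 1) ≤ (2 * s) * (2 * E) := Nat.mul_le_mul (by omega) (by omega)
    have h3 : ((s + 1) * (E + 1)) ^ 2 ≤ ((2 * s) * (2 * E)) ^ 2 := Nat.pow_le_pow_left h2 2
    have h4 : s ≤ s ^ 2 * E ^ 2 := by
      have h5 : 1 ≤ s * E ^ 2 := Nat.mul_pos (by omega) (Nat.pow_pos (by omega))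
      calc s = s * 1 := (mul_one s).symm
        _ ≤ s * (s * E ^ 2) := Nat.mul_le_mul_left s h5
        _ = s ^ 2 * E ^ 2 := by ring
    have h6 : s ^ 2 * E ^ 2 ≤ s ^ 4 * E ^ 2 :=
      Nat.mul_le_mul_right _ (Nat.pow_le_pow_right hs (by norm_num))
    have h7 : E ^ 2 ≤ ((4 * s) ^ a) ^ 2 := Nat.pow_le_pow_left h 2
    calc 4 * ((s + 1) * (E + 1)) ^ 2 + 2 * s ≤ 4 * ((2 * s) * (2 * E)) ^ 2 + 2 * s := by omega
      _ = 64 * (s ^ 2 * E ^ 2) + 2 * s := by ring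
      _ ≤ 256 * (s ^ 4 * E ^ 2) := by omega
      _ = (4 * s) ^ 4 * E ^ 2 := by ring
      _ ≤ (4 * s) ^ 4 * ((4 * s) ^ a) ^ 2 := Nat.mul_le_mul_left _ h7
      _ = (4 * s) ^ (2 * a + 4) := by ring

theorem num {s r n : ℕ} (hs : 1 ≤ s) (hn : n ≤ s) (h : (4 * s) ^ (2 ^ (r + 5)) < 2 ^ n) :
    ∃ S1 κ ρ : ℕ,
      (Asc s r + 2 * s + (n + 1)) + (Asc s r + 2 * s) + 1 +
        (1 + (Asc s r + 2 * s + (n + 1))) * (Asc s r + 2 * s) ≤ S1 ∧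
      s + s * S1 ≤ κ ∧ s * S1 + (Asc s r + 2 * s) ≤ ρ ∧ κ + (κ + 1) * ρ < 2 ^ n := by
  obtain ⟨a, ha, hE⟩ := asc_le hs r
  have hE2 : 2 * s ≤ Asc s r + 2 * s := by omega
  generalize Asc s r + 2 * s = E at hE hE2 ⊢
  have hE3 : 2 ≤ E := by omega
  -- the bound for `S1`
  have hEE : 2 * E ≤ E * E := Nat.mul_le_mul_right E hE3
  have hEE4 : 4 ≤ E * E := by omega
  have hS : (E + (n + 1)) + E + 1 + (1 + (E + (n + 1))) * E ≤ 5 * (E * E) := by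
    have h1 : (1 + (E + (n + 1))) * E ≤ (2 * E + 2) * E := Nat.mul_le_mul_right E (by omega)
    have h2 : (2 * E + 2) * E = 2 * (E * E) + 2 * E := by ring
    omega
  have hs0 : 0 < s := hs
  refine ⟨(E + (n + 1)) + E + 1 + (1 + (E + (n + 1))) * E, _, _, le_rfl, le_rfl, le_rfl, ?_⟩
  have hSE : E ≤ (E + (n + 1)) + E + 1 + (1 + (E + (n + 1))) * E := by omega
  have hS1 : 1 ≤ (E + (n + 1)) + E + 1 + (1 + (E + (n + 1))) * E := by omega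
  generalize (E + (n + 1)) + E + 1 + (1 + (E + (n + 1))) * E = S at hS hSE hS1 ⊢
  have hp : 1 ≤ s * S := Nat.mul_pos hs0 hS1
  have hp2 : S ≤ s * S := Nat.le_mul_of_pos_left S hs0
  have hp3 : s ≤ s * S := Nat.le_mul_of_pos_right s hS1
  have k1 : s + s * S ≤ 2 * (s * S) := by omega
  have k2 : s * S + E ≤ 2 * (s * S) := by omega
  have hPP : s * S ≤ (s * S) * (s * S) := Nat.le_mul_of_pos_right _ hp
  have k3 : (s + s * S) + (s + s * S + 1) * (s * S + E) ≤ 8 * ((s * S) * (s * S)) := by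
    have h1 : (s + s * S + 1) * (s * S + E) ≤ (2 * (s * S) + 1) * (2 * (s * S)) :=
      Nat.mul_le_mul (by omega) k2
    have h2 : (2 * (s * S) + 1) * (2 * (s * S)) = 4 * ((s * S) * (s * S)) + 2 * (s * S) := by ring
    omega
  have k4 : S ≤ 16 * s ^ 2 * (E * E) := by
    have h1 : 1 ≤ s ^ 2 := Nat.pow_pos hs0
    calc S ≤ 5 * (E * E) := hS
      _ ≤ 16 * s ^ 2 * (E * E) := Nat.mul_le_mul_right _ (by omega)
  have k5 : 8 * ((s * S) * (s * S)) ≤ (4 * s) ^ (6 + 4 * a) := by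
    calc 8 * ((s * S) * (s * S)) ≤ 16 * ((s * S) * (s * S)) := by omega
      _ = 16 * s ^ 2 * S ^ 2 := by ring
      _ ≤ 16 * s ^ 2 * (16 * s ^ 2 * (E * E)) ^ 2 :=
          Nat.mul_le_mul_left _ (Nat.pow_le_pow_left k4 2)
      _ = (4 * s) ^ 6 * E ^ 4 := by ring
      _ ≤ (4 * s) ^ 6 * ((4 * s) ^ a) ^ 4 := Nat.mul_le_mul_left _ (Nat.pow_le_pow_left hE 4)
      _ = (4 * s) ^ (6 + 4 * a) := by ring
  have k6 : 6 + 4 * a ≤ 2 ^ (r + 5) := by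
    have h1 : 2 ^ (r + 5) = 32 * 2 ^ r := by rw [pow_add]; ring
    omega
  calc (s + s * S) + (s + s * S + 1) * (s * S + E) ≤ 8 * ((s * S) * (s * S)) := k3
    _ ≤ (4 * s) ^ (6 + 4 * a) := k5
    _ ≤ (4 * s) ^ (2 ^ (r + 5)) := Nat.pow_le_pow_right (by omega) k6
    _ < 2 ^ n := h

end Pool.Agent.PHB
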