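import Pool.Agent.PHB.ODefs
import Pool.Agent.PHB.DMem
import Pool.Agent.VRJ.Indep

/-!
# PHB-OrE: a generic oracle

The coefficients of the polynomials `Φ n` form one algebraically independent family; for each `n` the
field `K` is generated by the coefficients of the `Φ L`, `L ≠ n`.
-/

namespace Pool.Agent.PHB

open VRJ MvPolynomial

theorem degreeOf_poly {n : ℕ} (h : V n) (i : Fin n) : degreeOf i (poly h) ≤ 2 := by
  classical
  unfold poly
  refine (degreeOf_sum_le i Finset.univ _).trans ?_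
  refine Finset.sup_le fun a _ => ?_
  refine (degreeOf_C_mul_le _ i (h a)).trans ?_
  refine (degreeOf_prod_le i Finset.univ _).trans ?_
  have h1 : ∀ j ∈ (Finset.univ : Finset (Fin n)),
      degreeOf i (X j ^ (a j : ℕ) : MvPolynomial (Fin n) ℂ) ≤ if i = j then (a j : ℕ) else 0 := by
    intro j _
    refine (degreeOf_pow_le i _ _).trans ?_
    rw [degreeOf_X]
    split_ifs <;> simp
  refine (Finset.sum_le_sum h1).trans ?_
  rw [Finset.sum_ite_eq]
  simp only [Finset.mem_univ, if_true]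
  omega

private theorem li_of_ind {K : Subfield ℂ} {ι : Type} [Fintype ι] {a : ι → ℂ}
    (ha : AlgebraicIndependent K a) : LinearIndependent ℂ (fun i => dd K (a i)) := by
  rw [Fintype.linearIndependent_iff]
  intro g hg i
  have h1 : Ind K K a := ind_of_algInd le_rfl ha
  have h2 : g = 0 := h1 g (by rw [hg]; exact Submodule.zero_mem _)
  rw [h2]
  rfl

theorem inf_of_countable {K : Subfield ℂ} (hK : (K : Set ℂ).Countable) : ¬ FiniteDimensional ℂ (Om K) := by
  intro hfin
  obtain ⟨a, ha⟩ := VRJ.exists_indep K hK (Fin (Module.finrank ℂ (Om K) + 1))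
  have h1 := (li_of_ind ha).fintype_card_le_finrank
  rw [Fintype.card_fin] at h1
  omega

private theorem exists_indep_ctb (K : Subfield ℂ) (hK : (K : Set ℂ).Countable) (ι : Type)
    [Countable ι] : ∃ a : ι → ℂ, AlgebraicIndependent K a := by
  obtain ⟨s, hs⟩ := exists_isTranscendenceBasis K ℂ
  have hKc : Cardinal.mk K ≤ Cardinal.aleph0 := Cardinal.le_aleph0_iff_set_countable.mpr hK
  have hinf : Infinite s := by
    by_contra hfin
    rw [not_infinite_iff_finite] at hfin
    have h1 : Algebra.IsAlgebraic (Algebra.adjoin K (Set.range (Subtype.val : s → ℂ))) ℂ :=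
      hs.isAlgebraic
    have h2 := Algebra.cardinalMk_adjoin_le K (Set.range (Subtype.val : s → ℂ))
    have h3 : Cardinal.mk (Set.range (Subtype.val : s → ℂ)) ≤ Cardinal.aleph0 :=
      Cardinal.le_aleph0_iff_set_countable.mpr (Set.countable_range _)
    have h4 : Cardinal.mk (Algebra.adjoin K (Set.range (Subtype.val : s → ℂ))) ≤
        Cardinal.aleph0 := h2.trans (max_le (max_le hKc h3) le_rfl)
    have h5 := Algebra.IsAlgebraic.cardinalMk_le_max
      (Algebra.adjoin K (Set.range (Subtype.val : s → ℂ))) ℂ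
    have h6 : Cardinal.mk ℂ ≤ Cardinal.aleph0 := h5.trans (max_le h4 le_rfl)
    rw [Cardinal.mk_complex] at h6
    exact absurd h6 (not_le.mpr Cardinal.aleph0_lt_continuum)
  obtain ⟨f, hf⟩ := exists_injective_nat ι
  exact ⟨fun i => ((Infinite.natEmbedding s (f i) : s) : ℂ),
    hs.1.comp (fun i => Infinite.natEmbedding s (f i))
      ((Infinite.natEmbedding s).injective.comp hf)⟩

private theorem coeff_poly_mem {n : ℕ} {K : Subfield ℂ} {h : V n} (hh : ∀ a, h a ∈ K)
    (m : Fin n →₀ ℕ) : coeff m (poly h) ∈ K := by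
  unfold poly
  rw [coeff_sum]
  refine K.sum_mem fun a _ => ?_
  rw [coeff_C_mul]
  refine K.mul_mem (hh a) ?_
  have e : (∏ i, X i ^ (a i : ℕ) : MvPolynomial (Fin n) ℂ) =
      map (Int.castRingHom ℂ) (∏ i, X i ^ (a i : ℕ)) := by
    simp
  rw [e, coeff_map]
  exact intCast_mem K _

private theorem ai_toSubfield {k : Subfield ℂ} (F : IntermediateField k ℂ) {ι : Type} {x : ι → ℂ}
    (h : AlgebraicIndependent F x) : AlgebraicIndependent F.toSubfield x := h

private theorem ctb_adjoin {k : Subfield ℂ} (hk : (k : Set ℂ).Countable) {S : Set ℂ}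
    (hS : S.Countable) : (((IntermediateField.adjoin k S).toSubfield : Subfield ℂ) : Set ℂ).Countable := by
  rw [IntermediateField.adjoin_toSubfield]
  have h5 := Subfield.cardinalMk_closure_le_max (Set.range (algebraMap k ℂ) ∪ S)
  refine Cardinal.le_aleph0_iff_set_countable.mp (h5.trans (max_le ?_ le_rfl))
  refine Cardinal.le_aleph0_iff_set_countable.mpr (Set.Countable.union ?_ hS)
  have : Countable k := hk.to_subtype
  exact Set.countable_range _

private theorem ai_split {k : Subfield ℂ} {c : (Σ n : ℕ, Mon n) → ℂ}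
    (hc : AlgebraicIndependent k c) (n : ℕ) :
    AlgebraicIndependent (IntermediateField.adjoin k (c '' {i | i.1 ≠ n}))
      (fun a : Mon n => c ⟨n, a⟩) := by
  have hst : Disjoint {i : Σ n : ℕ, Mon n | i.1 ≠ n} {i : Σ n : ℕ, Mon n | i.1 = n} := by
    rw [Set.disjoint_left]
    intro i hi hi'
    exact hi hi'
  rw [IntermediateField.algebraicIndependent_adjoin_iff]
  have h1 := hc.adjoin_of_disjoint hst
  have hinj : Function.Injective (fun a : Mon n =>
      (⟨⟨n, a⟩, rfl⟩ : {i : Σ n : ℕ, Mon n | i.1 = n})) := by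
    intro a b hab
    have h5 : (⟨n, a⟩ : Σ n : ℕ, Mon n) = ⟨n, b⟩ := congrArg Subtype.val hab
    exact eq_of_heq (Sigma.mk.inj h5).2
  exact h1.comp (fun a : Mon n => (⟨⟨n, a⟩, rfl⟩ : {i : Σ n : ℕ, Mon n | i.1 = n})) hinj

theorem exists_orc : ∃ Φ : Orc, ∀ n, ∃ (K : Subfield ℂ) (h : V n), Φ n = poly h ∧
    (∀ L, L ≠ n → ∀ m, coeff m (Φ L) ∈ K) ∧ Gn K h ∧ ¬ FiniteDimensional ℂ (Om K) := by
  have hbot : ((⊥ : Subfield ℂ) : Set ℂ).Countable := by
    rw [← Subfield.closure_empty]
    have h1 := Subfield.cardinalMk_closure_le_max (∅ : Set ℂ)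
    refine Cardinal.le_aleph0_iff_set_countable.mp (h1.trans (max_le ?_ le_rfl))
    simp
  obtain ⟨c, hc⟩ := exists_indep_ctb ⊥ hbot (Σ n : ℕ, Mon n)
  refine ⟨fun n => poly (fun a => c ⟨n, a⟩), fun n => ?_⟩
  refine ⟨(IntermediateField.adjoin (⊥ : Subfield ℂ) (c '' {i | i.1 ≠ n})).toSubfield,
    fun a => c ⟨n, a⟩, rfl, fun L hL m => ?_, li_of_ind (ai_toSubfield _ (ai_split hc n)),
    inf_of_countable (ctb_adjoin hbot ((Set.to_countable _).image c))⟩
  refine coeff_poly_mem (fun a => ?_) m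
  exact IntermediateField.subset_adjoin _ _ ⟨⟨L, a⟩, hL, rfl⟩

end Pool.Agent.PHB
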