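import Pool.Agent.PHB.Bas
import Pool.Agent.PHB.Rk

/-!
# PHB-Qry: a query of a good position (imports Bas, Rk)

PLAN.  `φ ∉ L`: `dim (L ⊔ span {φ}) = dim L + 1`.  If `φ ⬝ᵥ h ∈ k` then `(k, L ⊔ span {φ})` is a position (`pos_sup`) with `mu ≤ mu L + S`, so `Good`
gives `rk k + dim L + 1 ≤ rk k + dim L`, absurd.  `k₁ = acl k {φ ⬝ᵥ h}`: position by `pos_mono`, `pos_sup`; `rk k₁ = rk k + 1`: `≤` by `rk_acl_le` (`{z} = range (fun _ : Fin 1 => z)`),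
and `>` because otherwise `k₁ ≤ k` (`le_of_rk_le`).  `Good`: for `(k', L')` above, `mu L' ≤ mu (L ⊔ span {φ}) + (S - c) ≤ mu L + S`, so
`rk k + dim L' ≤ rk k' + dim L`, add `1` to both sides.
-/

namespace Pool.Agent.PHB

open Submodule

theorem query {K : Subfield ℂ} {n : ℕ} {h : V n} {k : Subfield ℂ} {L : Submodule ℂ (V n)} {S : ℕ}
    (hp : Pos K h k L) (hg : Good K h k L S) {φ : V n} (hφ : Rv k φ) (hφL : φ ∉ L) {c : ℕ}
    (hc : mu (L ⊔ span ℂ {φ}) ≤ mu L + c) (hcS : c ≤ S) :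
    φ ⬝ᵥ h ∉ k ∧ Pos K h (acl k {φ ⬝ᵥ h}) (L ⊔ span ℂ {φ}) ∧
      Good K h (acl k {φ ⬝ᵥ h}) (L ⊔ span ℂ {φ}) (S - c) := by
  have hdim : Module.finrank ℂ (L ⊔ span ℂ {φ} : Submodule ℂ (V n)) = Module.finrank ℂ L + 1 :=
    Submodule.finrank_sup_span_singleton hφL
  have hLe : L ≤ L ⊔ span ℂ {φ} := le_sup_left
  -- the value is not known
  have hnot : φ ⬝ᵥ h ∉ k := by
    intro hmem
    have hpos : Pos K h k (L ⊔ span ℂ {φ}) := by
      refine pos_sup hp fun x hx => ?_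
      rw [Set.mem_singleton_iff] at hx
      rw [hx]
      exact ⟨hφ, hmem⟩
    have h1 := hg k (L ⊔ span ℂ {φ}) hpos le_rfl hLe (by omega)
    omega
  have hfld : Fld K (acl k {φ ⬝ᵥ h}) := acl_fld hp.fld (Set.finite_singleton _)
  have hkk : k ≤ acl k {φ ⬝ᵥ h} := le_acl k _
  have hpos : Pos K h (acl k {φ ⬝ᵥ h}) (L ⊔ span ℂ {φ}) := by
    refine pos_sup (pos_mono hp hfld hkk) fun x hx => ?_
    rw [Set.mem_singleton_iff] at hx
    rw [hx]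
    exact ⟨fun a => hkk (hφ a), subset_acl k _ (Set.mem_singleton _)⟩
  have hrk : rk K (acl k {φ ⬝ᵥ h}) ≤ rk K k + 1 := by
    have h1 := rk_acl_le hp.fld (fun _ : Fin 1 => φ ⬝ᵥ h)
    rw [Set.range_const, Fintype.card_fin] at h1
    exact h1
  refine ⟨hnot, hpos, ?_⟩
  intro k' L' hp' hk' hL' hmu
  have h1 := hg k' L' hp' (hkk.trans hk') (hLe.trans hL') (by omega)
  omega

end Pool.Agent.PHB
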