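import Pool.Agent.PHB.SgF
import Pool.Agent.PHB.ExtB
import Pool.Agent.PHB.Qry

/-!
# PHB-IsoF: isomorphisms of positions (imports SgF, ExtB, Qry)

PLAN.  `eq_im`: `k' = im σ k` from `Iso.map` (surjectivity of `σ`).  `Iso.symm`: for `l' ∈ L'` rational over `k'` the vector `l = σ.symm ∘ l'` is in `L`
and rational over `k`, apply `σ.symm` to `Iso.val`.  `Iso.mono`: same `σ`, larger fields `M`, `im σ M`, `L` the same: for `l ∈ L` rational over `M`
write `l = ∑ c i • x i` with an echelon basis `x` over `k` (`exists_ech`), `c i = l (p i) ∈ M`; then both sides are `∑ σ (c i) * σ (x i ⬝ᵥ h)`.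
`Iso.sup`: add to `L` vectors `y ∈ Y` rational over `k` with `y ⬝ᵥ h ∈ k` and `σ (y ⬝ᵥ h) = (σ ∘ y) ⬝ᵥ h`: write `l ∈ L ⊔ span Y` rational over `k` as a
combination with coefficients in `k` of elements of `X = {l ∈ L | Rv k l} ∪ Y` (`rat_combo` for an independent spanning subset of `X`), both
sides are additive.  `iso_of_gens` is the common generalisation.
`Iso.congr`: `k' = im σ k = im σ' k`; `L = span {rational vectors}` and `sg_span`.
`Iso.query`: `z = φ ⬝ᵥ h ∉ k`, `z' = (σ ∘ φ) ⬝ᵥ h ∉ k'` (`query` on both sides; `σ ∘ φ ∉ L'`, `mu` by `mu_sg`, `sg_sup`, `sg_span`).  `σ z` and `z'` are both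
independent over `k'` (`Ind` for `Fin 1`, from `mem_of_dd`), so by `exists_aut_ind` there is `τ` fixing `k'` with `τ (σ z) = z'`; `σ₁ = σ.trans τ`.
Then `Iso σ₁ k L k' L'` (same on `k`), `Iso.mono` to `acl k {z}`, `im σ₁ (acl k {z}) = acl k' {z'}` (`im_acl`), `Iso.sup`.
-/

namespace Pool.Agent.PHB

open Submodule

variable {K : Subfield ℂ} {n : ℕ} {h : V n} {σ : ℂ ≃+* ℂ} {k k' : Subfield ℂ} {L L' : Submodule ℂ (V n)}

theorem Iso.eq_im (hi : Iso K h σ k L k' L') : k' = im σ k := by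
  ext z
  have h1 := hi.map (σ.symm z)
  rw [RingEquiv.apply_symm_apply] at h1
  rw [mem_im']
  exact h1

/-- the last condition can be tested on generators -/
theorem iso_of_gens (hfix : ∀ z ∈ K, σ z = z) {X : Set (V n)}
    (hX : ∀ x ∈ X, Rv k x ∧ x ⬝ᵥ h ∈ k ∧ σ (x ⬝ᵥ h) = (fun a => σ (x a)) ⬝ᵥ h) :
    Iso K h σ k (span ℂ X) (im σ k) (sg σ (span ℂ X)) := by
  refine ⟨hfix, fun z => mem_im, rfl, fun l hl _ => ?_⟩
  refine Submodule.span_induction (p := fun l _ => σ (l ⬝ᵥ h) = (fun a => σ (l a)) ⬝ᵥ h)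
    (fun x hx => (hX x hx).2.2) ?_ ?_ ?_ hl
  · have h1 : (fun a => σ ((0 : V n) a)) = 0 := by
      funext a
      show σ 0 = 0
      exact map_zero σ
    rw [h1, zero_dotProduct, map_zero]
  · intro x y _ _ hx hy
    have h1 : (fun a => σ ((x + y) a)) = (fun a => σ (x a)) + fun a => σ (y a) := by
      funext a
      show σ (x a + y a) = σ (x a) + σ (y a)
      exact map_add σ _ _
    rw [h1, add_dotProduct, add_dotProduct, map_add, hx, hy]
  · intro c x _ hx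
    have h1 : (fun a => σ ((c • x) a)) = σ c • fun a => σ (x a) := by
      funext a
      show σ (c * x a) = σ c * σ (x a)
      exact map_mul σ _ _
    rw [h1, smul_dotProduct, smul_dotProduct, smul_eq_mul, smul_eq_mul, map_mul, hx]

theorem Iso.symm (hi : Iso K h σ k L k' L') : Iso K h σ.symm k' L' k L := by
  refine ⟨fun z hz => ?_, fun z => ?_, ?_, fun l hl hlk => ?_⟩
  · rw [RingEquiv.symm_apply_eq]
    exact (hi.fix z hz).symm
  · have h1 := hi.map (σ.symm z)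
    rw [RingEquiv.apply_symm_apply] at h1
    exact h1.symm
  · rw [← hi.sp]
    ext l
    show (fun a => σ.symm (σ.symm.symm (l a))) ∈ L ↔ l ∈ L
    have h1 : (fun a => σ.symm (σ.symm.symm (l a))) = l := by
      funext a
      exact σ.symm_apply_apply (l a)
    rw [h1]
  · have h1 : (fun a => σ.symm (l a)) ∈ L := by
      rw [← hi.sp] at hl
      exact hl
    have h2 : Rv k (fun a => σ.symm (l a)) := by
      intro a
      rw [← hi.map, RingEquiv.apply_symm_apply]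
      exact hlk a
    have h3 := hi.val _ h1 h2
    have h4 : (fun a => σ ((fun a => σ.symm (l a)) a)) = l := by
      funext a
      exact σ.apply_symm_apply (l a)
    rw [h4] at h3
    rw [RingEquiv.symm_apply_eq]
    exact h3.symm

theorem Iso.rk_eq (hi : Iso K h σ k L k' L') (hk : Fld K k) : rk K k' = rk K k := by
  rw [hi.eq_im]
  exact rk_im hi.fix hk

theorem Iso.finrank_eq (hi : Iso K h σ k L k' L') : Module.finrank ℂ L' = Module.finrank ℂ L := by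
  rw [← hi.sp]
  exact finrank_sg L

theorem Iso.mu_eq (hi : Iso K h σ k L k' L') : mu L' = mu L := by
  rw [← hi.sp]
  exact mu_sg L

private theorem rat_eq {M : Submodule ℂ (V n)} (hM : Rat k M) : M = span ℂ {l | l ∈ M ∧ Rv k l} :=
  le_antisymm hM (span_le.2 fun _ hl => hl.1)

private theorem sg_congr {σ' : ℂ ≃+* ℂ} {M : Submodule ℂ (V n)} (hM : Rat k M) (hσ : ∀ z ∈ k, σ' z = σ z) :
    sg σ' M = sg σ M := by
  rw [rat_eq hM, sg_span, sg_span]
  congr 1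
  ext v
  constructor
  · rintro ⟨x, hx, rfl⟩
    exact ⟨x, hx, funext fun a => hσ _ (hx.2 a)⟩
  · rintro ⟨x, hx, rfl⟩
    exact ⟨x, hx, funext fun a => (hσ _ (hx.2 a)).symm⟩

/-- only the restriction of the automorphism to `k` matters -/
theorem Iso.congr {σ' : ℂ ≃+* ℂ} (hi : Iso K h σ k L k' L') (hp : Pos K h k L) (hσ : ∀ z ∈ k, σ' z = σ z) :
    Iso K h σ' k L k' L' := by
  refine ⟨fun z hz => ?_, fun z => ⟨fun hz => ?_, fun hz => ?_⟩, ?_, fun l hl hlk => ?_⟩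
  · rw [hσ z (hp.fld.le hz)]
    exact hi.fix z hz
  · have h1 : σ.symm (σ' z) ∈ k := by
      rw [← hi.map, RingEquiv.apply_symm_apply]
      exact hz
    have h2 := hσ _ h1
    rw [RingEquiv.apply_symm_apply] at h2
    rw [← σ'.injective h2]
    exact h1
  · rw [hσ z hz, hi.map]
    exact hz
  · rw [sg_congr hp.rat hσ]
    exact hi.sp
  · rw [hσ _ (hp.kn l hl hlk), hi.val l hl hlk]
    have h1 : (fun a => σ' (l a)) = fun a => σ (l a) := funext fun a => hσ _ (hlk a)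
    rw [h1]

private theorem ind_one {k : Subfield ℂ} (hk : Fld K k) {z : ℂ} (hz : z ∉ k) :
    Ind K k (fun _ : Fin 1 => z) := by
  intro c hc
  rw [Fin.sum_univ_one] at hc
  by_contra hne
  have hc0 : c 0 ≠ 0 := by
    intro h0
    apply hne
    funext i
    rw [Subsingleton.elim i 0]
    exact h0
  have h1 := (dK K k).smul_mem (c 0)⁻¹ hc
  rw [smul_smul, inv_mul_cancel₀ hc0, one_smul] at h1
  exact hz (mem_of_dd hk h1)

theorem Iso.query {S c : ℕ} (hi : Iso K h σ k L k' L') (hp : Pos K h k L) (hp' : Pos K h k' L')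
    (hg : Good K h k L S) (hg' : Good K h k' L' S) {φ : V n} (hφ : Rv k φ) (hφL : φ ∉ L)
    (hc : ∀ M : Submodule ℂ (V n), mu (M ⊔ span ℂ {φ}) ≤ mu M + c)
    (hc' : ∀ M : Submodule ℂ (V n), mu (M ⊔ span ℂ {fun a => σ (φ a)}) ≤ mu M + c) (hcS : c ≤ S) :
    ∃ (σ₁ : ℂ ≃+* ℂ) (k₁ k₁' : Subfield ℂ) (L₁ L₁' : Submodule ℂ (V n)),
      Pos K h k₁ L₁ ∧ Pos K h k₁' L₁' ∧ Good K h k₁ L₁ (S - c) ∧ Good K h k₁' L₁' (S - c) ∧
      Iso K h σ₁ k₁ L₁ k₁' L₁' ∧ k ≤ k₁ ∧ (∀ z ∈ k, σ₁ z = σ z) ∧ φ ⬝ᵥ h ∈ k₁ ∧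
      σ₁ (φ ⬝ᵥ h) = (fun a => σ (φ a)) ⬝ᵥ h := by
  have hφ' : Rv k' (fun a => σ (φ a)) := fun a => (hi.map _).2 (hφ a)
  have hφL' : (fun a => σ (φ a)) ∉ L' := by
    rw [← hi.sp, mem_sg]
    exact hφL
  obtain ⟨hz, hP, hG⟩ := Pool.Agent.PHB.query hp hg hφ hφL (hc L) hcS
  obtain ⟨hz', hP', hG'⟩ := Pool.Agent.PHB.query hp' hg' hφ' hφL' (hc' L') hcS
  have hσz : σ (φ ⬝ᵥ h) ∉ k' := fun h1 => hz ((hi.map _).1 h1)
  obtain ⟨τ, hτ, hτz⟩ := exists_aut_ind hp'.fld (ind_one hp'.fld hσz) (ind_one hp'.fld hz')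
  have hτz0 : τ (σ (φ ⬝ᵥ h)) = (fun a => σ (φ a)) ⬝ᵥ h := hτz 0
  have hσ₁ : ∀ z ∈ k, (σ.trans τ) z = σ z := fun z hzk => hτ _ ((hi.map _).2 hzk)
  have hi₁ : Iso K h (σ.trans τ) k L k' L' := hi.congr hp hσ₁
  have hφσ : (fun a => (σ.trans τ) (φ a)) = fun a => σ (φ a) := funext fun a => hσ₁ _ (hφ a)
  refine ⟨σ.trans τ, acl k {φ ⬝ᵥ h}, acl k' {(fun a => σ (φ a)) ⬝ᵥ h}, L ⊔ span ℂ {φ},
    L' ⊔ span ℂ {fun a => σ (φ a)}, hP, hP', hG, hG', ?_, le_acl _ _, hσ₁,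
    subset_acl _ _ (Set.mem_singleton _), hτz0⟩
  have hiso := iso_of_gens (K := K) (h := h) (σ := σ.trans τ) (k := acl k {φ ⬝ᵥ h}) hi₁.fix
    (X := {l | l ∈ L ∧ Rv k l} ∪ {φ}) (by
      rintro x (⟨hx, hxk⟩ | hx)
      · exact ⟨fun a => le_acl _ _ (hxk a), le_acl _ _ (hp.kn x hx hxk), hi₁.val x hx hxk⟩
      · rw [Set.mem_singleton_iff] at hx
        subst hx
        refine ⟨fun a => le_acl _ _ (hφ a), subset_acl _ _ (Set.mem_singleton _), ?_⟩
        rw [hφσ]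
        exact hτz0)
  have hspan : span ℂ ({l | l ∈ L ∧ Rv k l} ∪ {φ}) = L ⊔ span ℂ {φ} := by
    rw [span_union, ← rat_eq hp.rat]
  have him : im (σ.trans τ) (acl k {φ ⬝ᵥ h}) = acl k' {(fun a => σ (φ a)) ⬝ᵥ h} := by
    rw [im_acl, Set.image_singleton, ← hi₁.eq_im]
    show acl k' {τ (σ (φ ⬝ᵥ h))} = _
    rw [hτz0]
  have hsg : sg (σ.trans τ) (L ⊔ span ℂ {φ}) = L' ⊔ span ℂ {fun a => σ (φ a)} := by
    rw [sg_sup, hi₁.sp, sg_span]
    congr 2
    ext v
    constructor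
    · rintro ⟨x, hx, rfl⟩
      rw [Set.mem_singleton_iff] at hx
      subst hx
      rw [Set.mem_singleton_iff]
      exact hφσ
    · intro hv
      rw [Set.mem_singleton_iff] at hv
      subst hv
      exact ⟨φ, Set.mem_singleton _, hφσ.symm⟩
  rw [hspan, him, hsg] at hiso
  exact hiso

end Pool.Agent.PHB
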