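import Pool.Agent.PHB.StA
import Pool.Agent.PHB.Cls
import Pool.Agent.PHB.IsoF

/-!
# PHB-StB: the two initial positions (imports StA, Cls, IsoF)

PLAN.  `closure_start` with `S' = S1`: `k₁, L`, `mu L ≤ p S1`, `S1`-good, `rk k₁ ≤ dim L + p ≤ κ`, `dim Im L + S0 ≤ mu L + S0 ≤ r`.  Let
`E = acl (acl k₁ (range h)) C`, `Fld K E`, and `w : Fin (n + 1) → ℂ` independent over `E` (`exists_ind`), `x = Fin.init w`, `y = w (Fin.last n)`.
`x` is independent over `acl k₁ (range h)` (`ind_mono`, subfamilies of independent families), `w` over `acl k₁ (range h)` and over `acl K C`.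
`kx = acl k₁ (range x)`, `y₀ = ell x ⬝ᵥ h`.  `good_graph`: `y₀ ∉ kx`, `k = acl kx {y₀}`, position and good.
`k' = acl kx {y}`: equal to `acl k₁ (range w)` (`acl_acl`), `add_gen` with `m = n + 1`.
`τ` fixing `kx` with `τ y₀ = y` (`exists_aut_ind`, `ι = Fin 1`; independence from `mem_of_dd`, and `y ∉ kx`).  `Iso K h τ k L k' L`: `τ` maps `k` onto `k'` (`im_acl`), `sg τ L = L`
(`sg_fix`), values: `iso_of_gens` with `X = {l ∈ L | Rv k₁ l}` (`L = span X`): `τ` fixes `k₁`.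
-/

namespace Pool.Agent.PHB

open Submodule

private lemma ind_init {K k : Subfield ℂ} {n : ℕ} {w : Fin (n + 1) → ℂ} (hw : Ind K k w) :
    Ind K k (fun i : Fin n => w i.castSucc) := by
  intro c hc
  have h1 := hw (Fin.snoc (α := fun _ => ℂ) c 0) (by
    rw [Fin.sum_univ_castSucc]
    simp only [Fin.snoc_castSucc, Fin.snoc_last, zero_smul, add_zero]
    exact hc)
  funext i
  have h2 := congrFun h1 i.castSucc
  rw [Fin.snoc_castSucc] at h2
  exact h2

private lemma ind_one_of_not_mem {K k : Subfield ℂ} (hk : Fld K k) {z : ℂ} (hz : z ∉ k) :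
    Ind K k (fun _ : Fin 1 => z) := by
  intro c hc
  rw [Fin.sum_univ_one] at hc
  funext i
  have hi : i = 0 := Subsingleton.elim _ _
  rw [hi]
  by_contra hne
  apply hz
  apply mem_of_dd hk
  exact (Submodule.smul_mem_iff _ hne).mp hc

private lemma last_ind {K k : Subfield ℂ} {n : ℕ} {w : Fin (n + 1) → ℂ} (hw : Ind K k w) :
    Ind K (acl k (Set.range fun i : Fin n => w i.castSucc)) (fun _ : Fin 1 => w (Fin.last n)) := by
  intro c hc
  rw [Fin.sum_univ_one, dK_acl, Submodule.mem_sup] at hc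
  obtain ⟨a, ha, b, hb, hab⟩ := hc
  have hb2 : b ∈ span ℂ (Set.range fun i : Fin n => dd K (w i.castSucc)) := by
    rw [← Set.range_comp] at hb
    exact hb
  rw [Submodule.mem_span_range_iff_exists_fun] at hb2
  obtain ⟨d, hd⟩ := hb2
  have h1 := hw (Fin.snoc (α := fun _ => ℂ) (fun i => - d i) (c 0)) (by
    rw [Fin.sum_univ_castSucc]
    simp only [Fin.snoc_castSucc, Fin.snoc_last, neg_smul, Finset.sum_neg_distrib]
    rw [hd, ← hab]
    have h2 : -b + (a + b) = a := by abel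
    rw [h2]
    exact ha)
  funext i
  have hi : i = 0 := Subsingleton.elim _ _
  rw [hi]
  have h3 := congrFun h1 (Fin.last n)
  rw [Fin.snoc_last] at h3
  exact h3

private lemma im_fix {τ : ℂ ≃+* ℂ} {k : Subfield ℂ} (hτ : ∀ z ∈ k, τ z = z) : im τ k = k := by
  ext z
  rw [mem_im']
  constructor
  · intro hz
    have h1 := hτ _ hz
    rw [RingEquiv.apply_symm_apply] at h1
    rw [h1]
    exact hz
  · intro hz
    have h1 : τ.symm z = z := by
      rw [RingEquiv.symm_apply_eq]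
      exact (hτ z hz).symm
    rw [h1]
    exact hz

theorem start {K : Subfield ℂ} {n : ℕ} {h : V n} (hinf : ¬ FiniteDimensional ℂ (Om K)) (hh : Gn K h) {p : ℕ}
    (u : Fin p → ℂ) {C : Set ℂ} (hC : C.Finite) {S0 S1 κ r : ℕ}
    (hS : (S0 + (n + 1)) + S0 + 1 + (1 + (S0 + (n + 1))) * S0 ≤ S1) (hκ : p + p * S1 ≤ κ)
    (hr : p * S1 + S0 ≤ r) (h2 : κ + (κ + 1) * r < 2 ^ n) :
    ∃ (k k' : Subfield ℂ) (L : Submodule ℂ (V n)) (σ : ℂ ≃+* ℂ) (x : Fin n → ℂ) (y : ℂ),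
      Pos K h k L ∧ Pos K h k' L ∧ Good K h k L S0 ∧ Good K h k' L S0 ∧ Iso K h σ k L k' L ∧
      (∀ i, u i ∈ k ∧ σ (u i) = u i) ∧ (∀ i, x i ∈ k ∧ σ (x i) = x i) ∧ ell x ⬝ᵥ h ∈ k ∧
      σ (ell x ⬝ᵥ h) = y ∧ Ind K (acl K C) (Fin.snoc (α := fun _ => ℂ) x y) := by
  obtain ⟨k₁, L, hp, hu, hmu, hg, hrk⟩ := closure_start hh u S1
  have hfl : Module.finrank ℂ L ≤ mu L := Nat.le_add_right _ _
  have hfi : Module.finrank ℂ (Im L) ≤ mu L := Nat.le_add_left _ _
  have hκ' : rk K k₁ ≤ κ := by omega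
  have hr' : Module.finrank ℂ (Im L) + S0 ≤ r := by omega
  have hk₁ : Fld K k₁ := hp.fld
  have hkh : Fld K (acl k₁ (Set.range h)) := acl_fld hk₁ (Set.finite_range h)
  have hE : Fld K (acl (acl k₁ (Set.range h)) C) := acl_fld hkh hC
  obtain ⟨w, hw⟩ := exists_ind hinf hE (n + 1)
  have hwh : Ind K (acl k₁ (Set.range h)) w := ind_mono (le_acl _ _) hw
  have hwk : Ind K k₁ w := ind_mono (le_acl _ _) hwh
  have hwC : Ind K (acl K C) w :=
    ind_mono (acl_mono (le_trans hk₁.le (le_acl _ _)) subset_rfl) hw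
  obtain ⟨hy0, hpk, hgk⟩ := good_graph hinf hh hp hg (ind_init hwh) hS hκ' hr' h2
  set x : Fin n → ℂ := fun i => w i.castSucc with hxdef
  set y : ℂ := w (Fin.last n) with hydef
  have hkx : Fld K (acl k₁ (Set.range x)) := acl_fld hk₁ (Set.finite_range x)
  have hrange : Set.range x ∪ {y} = Set.range w := by
    ext z
    constructor
    · rintro (⟨i, rfl⟩ | hz)
      · exact ⟨i.castSucc, rfl⟩
      · rw [Set.mem_singleton_iff] at hz
        exact ⟨Fin.last n, hz.symm⟩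
    · rintro ⟨i, rfl⟩
      refine Fin.lastCases ?_ (fun j => ?_) i
      · exact Or.inr rfl
      · exact Or.inl ⟨j, rfl⟩
  have hk' : acl (acl k₁ (Set.range x)) {y} = acl k₁ (Set.range w) := by
    rw [acl_acl, hrange]
  obtain ⟨hpk', hgk'⟩ := add_gen hh hp hg hwh hS
  rw [← hk'] at hpk' hgk'
  obtain ⟨τ, hτ, hτy⟩ := exists_aut_ind hkx (ind_one_of_not_mem hkx hy0) (last_ind hwk)
  have hτy' : τ (ell x ⬝ᵥ h) = y := hτy 0
  have hk₁x : k₁ ≤ acl k₁ (Set.range x) := le_acl _ _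
  have hτ₁ : ∀ z ∈ k₁, τ z = z := fun z hz => hτ z (hk₁x hz)
  have hxk : acl k₁ (Set.range x) ≤ acl (acl k₁ (Set.range x)) {ell x ⬝ᵥ h} := le_acl _ _
  have hspan : span ℂ {l | l ∈ L ∧ Rv k₁ l} = L := by
    apply le_antisymm
    · rw [Submodule.span_le]
      exact fun l hl => hl.1
    · exact hp.rat
  have him : im τ (acl (acl k₁ (Set.range x)) {ell x ⬝ᵥ h}) = acl (acl k₁ (Set.range x)) {y} := by
    rw [im_acl, im_fix hτ, Set.image_singleton, hτy']
  have hiso := iso_of_gens (K := K) (h := h) (σ := τ)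
    (k := acl (acl k₁ (Set.range x)) {ell x ⬝ᵥ h}) (fun z hz => hτ₁ z (hk₁.le hz))
    (X := {l | l ∈ L ∧ Rv k₁ l}) (by
      rintro l ⟨hl, hlk⟩
      refine ⟨fun a => hxk (hk₁x (hlk a)), hxk (hk₁x (hp.kn l hl hlk)), ?_⟩
      rw [hτ₁ _ (hp.kn l hl hlk)]
      have h3 : (fun a => τ (l a)) = l := by
        funext a
        exact hτ₁ _ (hlk a)
      rw [h3])
  rw [hspan, him, sg_fix hτ₁ hp.rat] at hiso
  have hsnoc : (Fin.snoc (α := fun _ => ℂ) x y : Fin (n + 1) → ℂ) = w := by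
    funext i
    refine Fin.lastCases ?_ (fun j => ?_) i
    · rw [Fin.snoc_last]
    · rw [Fin.snoc_castSucc]
  refine ⟨_, _, L, τ, x, y, hpk, hpk', hgk, hgk', hiso, ?_, ?_, ?_, hτy', ?_⟩
  · intro i
    exact ⟨hxk (hk₁x (hu i)), hτ₁ _ (hu i)⟩
  · intro i
    have hxi : x i ∈ acl k₁ (Set.range x) := subset_acl _ _ ⟨i, rfl⟩
    exact ⟨hxk hxi, hτ _ hxi⟩
  · exact subset_acl _ _ (Set.mem_singleton _)
  · rw [hsnoc]
    exact hwC

end Pool.Agent.PHB
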