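import Pool.Agent.PHB.FDefs
import Pool.Agent.VRJ.Jet

/-!
# PHB-Vnp: the family is in VNP relative to the oracle (imports FDefs, VRJ.Jet)

PLAN.  Model: `Pool/Agent/VRJ/FamMem.lean` (helper90, landed).  `g n = rename (fun i => n + i) (Φ n) * ∏ i : Fin n, (1 + X (n + i) * (X i - 1))`, `a n = b n = n`.
`bind₁ (bits n n e)` maps `X i ↦ X i` (`i < n`) and `X (n + i) ↦ e i`, so `∑ e : Fin n → Bool` of the images is `fam Φ n` (reindex `Bool ≃ Fin 2`; `1 + e (X - 1) = X ^ e`).
`InVP Φ g`: total degree `≤ 2 n + 2 n`, variables `< 2 n`; circuit: gates for the variables `X v`, `v < 2 n`, one oracle gate (`L = n`, `k = 0`,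
`(n + 1) * 1 ≤ s`; `VRJ.jet_zero`: it computes `aeval (fun l => X (n + l)) (Φ n) = rename .. (Φ n)`), the constant `1`, and about `4 n` gates for the product: total
`≤ (n + 2) ^ 4` say.
-/

namespace Pool.Agent.PHB

open VRJ MvPolynomial

private theorem vnp_bit_le (x : Fin 2) : (x : ℕ) ≤ 1 := by
  have := x.isLt
  omega

theorem fam_deg (Φ : Orc) (n : ℕ) : (fam Φ n).totalDegree ≤ n ∧ ∀ v ∈ (fam Φ n).vars, v < n := by
  constructor
  · unfold fam
    refine (totalDegree_finsetSum _ _).trans ?_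
    refine Finset.sup_le fun e _ => ?_
    refine (totalDegree_mul _ _).trans ?_
    rw [totalDegree_C, zero_add]
    refine (totalDegree_finsetProd _ _).trans ?_
    calc (∑ i : Fin n, ((X (i : ℕ) : MvPolynomial ℕ ℂ) ^ (e i : ℕ)).totalDegree)
        ≤ ∑ _i : Fin n, 1 := by
          refine Finset.sum_le_sum fun i _ => ?_
          rw [totalDegree_X_pow]
          exact vnp_bit_le (e i)
      _ = n := by simp
  · intro v hv
    unfold fam at hv
    have h1 := vars_sum_subset _ _ hv
    rw [Finset.mem_biUnion] at h1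
    obtain ⟨e, -, he⟩ := h1
    have h2 := vars_mul _ _ he
    rw [Finset.mem_union] at h2
    rcases h2 with h2 | h2
    · rw [vars_C] at h2
      simp at h2
    · have h3 := vars_prod _ h2
      rw [Finset.mem_biUnion] at h3
      obtain ⟨i, -, hi⟩ := h3
      have h4 := vars_pow _ _ hi
      rw [vars_X, Finset.mem_singleton] at h4
      have := i.isLt
      omega

/-- one factor of the product -/
private noncomputable def vnpF (n j : ℕ) : MvPolynomial ℕ ℂ := 1 + X (n + j) * (X j - 1)

/-- the oracle polynomial in the variables `n, .., 2 n - 1` -/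
private noncomputable def vnpP (Φ : Orc) (n : ℕ) : MvPolynomial ℕ ℂ :=
  rename (fun v : Fin n => n + (v : ℕ)) (Φ n)

/-- the summand -/
private noncomputable def vnpG (Φ : Orc) (n : ℕ) : MvPolynomial ℕ ℂ :=
  vnpP Φ n * ∏ j ∈ Finset.range n, vnpF n j

/-- the gates -/
private noncomputable def vnpGate (Φ : Orc) (n i : ℕ) : MvPolynomial ℕ ℂ :=
  if i < 2 * n then X i else if i = 2 * n then C 1 else
    if (i - (2 * n + 1)) % 4 = 0 then vnpP Φ n * ∏ j ∈ Finset.range ((i - (2 * n + 1)) / 4), vnpF n j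
    else if (i - (2 * n + 1)) % 4 = 1 then X ((i - (2 * n + 1)) / 4) - C 1
    else if (i - (2 * n + 1)) % 4 = 2 then
      X (n + (i - (2 * n + 1)) / 4) * (X ((i - (2 * n + 1)) / 4) - C 1)
    else vnpF n ((i - (2 * n + 1)) / 4)

private theorem vnpGate_var (Φ : Orc) {n i : ℕ} (h : i < 2 * n) : vnpGate Φ n i = X i := by
  unfold vnpGate
  rw [if_pos h]

private theorem vnpGate_one (Φ : Orc) (n : ℕ) : vnpGate Φ n (2 * n) = C 1 := by
  unfold vnpGate
  rw [if_neg (by omega), if_pos rfl]

private theorem vnpGate_zero (Φ : Orc) (n j : ℕ) :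
    vnpGate Φ n (2 * n + 1 + 4 * j) = vnpP Φ n * ∏ j ∈ Finset.range j, vnpF n j := by
  unfold vnpGate
  have h1 : (2 * n + 1 + 4 * j - (2 * n + 1)) / 4 = j := by omega
  rw [if_neg (by omega), if_neg (by omega), if_pos (by omega), h1]

private theorem vnpGate_r1 (Φ : Orc) (n j : ℕ) :
    vnpGate Φ n (2 * n + 1 + 4 * j + 1) = X j - C 1 := by
  unfold vnpGate
  have h1 : (2 * n + 1 + 4 * j + 1 - (2 * n + 1)) / 4 = j := by omega
  rw [if_neg (by omega), if_neg (by omega), if_neg (by omega), if_pos (by omega), h1]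

private theorem vnpGate_r2 (Φ : Orc) (n j : ℕ) :
    vnpGate Φ n (2 * n + 1 + 4 * j + 2) = X (n + j) * (X j - C 1) := by
  unfold vnpGate
  have h1 : (2 * n + 1 + 4 * j + 2 - (2 * n + 1)) / 4 = j := by omega
  rw [if_neg (by omega), if_neg (by omega), if_neg (by omega), if_neg (by omega),
    if_pos (by omega), h1]

private theorem vnpGate_r3 (Φ : Orc) (n j : ℕ) :
    vnpGate Φ n (2 * n + 1 + 4 * j + 3) = vnpF n j := by
  unfold vnpGate
  have h1 : (2 * n + 1 + 4 * j + 3 - (2 * n + 1)) / 4 = j := by omega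
  rw [if_neg (by omega), if_neg (by omega), if_neg (by omega), if_neg (by omega),
    if_neg (by omega), h1]

/-- a circuit from a sequence of gates -/
private theorem vnp_comp_of (Φ : Orc) {s N : ℕ} (hN : N ≤ s) (G : ℕ → MvPolynomial ℕ ℂ) {t : ℕ}
    (ht : t < N)
    (hG : ∀ i < N, (∃ c : ℂ, G i = C c) ∨ (∃ v : ℕ, G i = X v) ∨
      (∃ j k, j < i ∧ k < i ∧ (G i = G j + G k ∨ G i = G j - G k ∨ G i = G j * G k)) ∨
      (∃ (L : ℕ) (w : Fin L → ℕ), L + 1 ≤ s ∧ (∀ l, w l < i) ∧
        G i = aeval (fun l => G (w l)) (Φ L))) : Comp Φ s (G t) := by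
  refine ⟨fun i => if (i : ℕ) < N then G i else C 0, ⟨⟨t, by omega⟩, by simp only [ht, if_true]⟩, ?_⟩
  intro i
  by_cases hi : (i : ℕ) < N
  · rcases hG i hi with ⟨c, hc⟩ | ⟨v, hv⟩ | ⟨j, k, hj, hk, h⟩ | ⟨L, w, hL, hw, h⟩
    · left
      exact ⟨c, by simp only [hi, if_true]; exact hc⟩
    · right; left
      exact ⟨v, by simp only [hi, if_true]; exact hv⟩
    · right; right; left
      have hi' := i.isLt
      have hj' : j < N := by omega
      have hk' : k < N := by omega
      refine ⟨⟨j, by omega⟩, ⟨k, by omega⟩, hj, hk, ?_⟩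
      simp only [hi, hj', hk', if_true]
      exact h
    · right; right; right
      have hi' := i.isLt
      refine ⟨L, 0, fun l _ => ⟨w l, by have := hw l; omega⟩, by omega, ?_, ?_⟩
      · intro l r _
        exact hw l
      · simp only [hi, if_true]
        rw [jet_zero, h]
        have h3 : (fun l : Fin L => if w l < N then G (w l) else C 0) = fun l => G (w l) := by
          funext l
          rw [if_pos (by have := hw l; omega)]
        rw [h3]
  · left
    exact ⟨0, by simp only [hi, if_false]⟩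

private theorem vnp_size (n : ℕ) : 6 * n + 2 ≤ (n + 2) ^ 3 := by
  nlinarith [sq_nonneg n, Nat.zero_le n, Nat.zero_le (n ^ 3)]

private theorem vnp_comp (Φ : Orc) (n : ℕ) : Comp Φ ((n + 2) ^ 3) (vnpG Φ n) := by
  have hs := vnp_size n
  have e : vnpG Φ n = vnpGate Φ n (2 * n + 1 + 4 * n) := by
    rw [vnpGate_zero]
    rfl
  rw [e]
  refine vnp_comp_of Φ hs (vnpGate Φ n) (by omega) ?_
  intro i hi
  by_cases h1 : i < 2 * n
  · right; left
    exact ⟨i, vnpGate_var Φ h1⟩
  by_cases h2 : i = 2 * n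
  · left
    rw [h2]
    exact ⟨1, vnpGate_one Φ n⟩
  obtain ⟨j, hj⟩ : ∃ j, j = (i - (2 * n + 1)) / 4 := ⟨_, rfl⟩
  have h3 : i = 2 * n + 1 + 4 * j ∨ i = 2 * n + 1 + 4 * j + 1 ∨ i = 2 * n + 1 + 4 * j + 2 ∨
      i = 2 * n + 1 + 4 * j + 3 := by omega
  rcases h3 with h3 | h3 | h3 | h3
  · rcases Nat.eq_zero_or_pos j with h4 | h4
    · right; right; right
      refine ⟨n, fun l => n + (l : ℕ), by omega, ?_, ?_⟩
      · intro l
        have := l.isLt
        show n + (l : ℕ) < i
        omega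
      · rw [h3, vnpGate_zero, h4, Finset.range_zero, Finset.prod_empty, mul_one]
        have h5 : (fun l : Fin n => vnpGate Φ n (n + (l : ℕ))) =
            fun l : Fin n => (X (n + (l : ℕ)) : MvPolynomial ℕ ℂ) := by
          funext l
          have := l.isLt
          rw [vnpGate_var Φ (by omega)]
        rw [h5]
        have h6 : (rename (fun v : Fin n => n + (v : ℕ)) :
            MvPolynomial (Fin n) ℂ →ₐ[ℂ] MvPolynomial ℕ ℂ) =
            aeval (fun l : Fin n => (X (n + (l : ℕ)) : MvPolynomial ℕ ℂ)) := by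
          ext l
          simp
        unfold vnpP
        rw [h6]
    · right; right; left
      obtain ⟨m, rfl⟩ : ∃ m, j = m + 1 := ⟨j - 1, by omega⟩
      refine ⟨2 * n + 1 + 4 * m, 2 * n + 1 + 4 * m + 3, by omega, by omega, ?_⟩
      right; right
      rw [h3, vnpGate_zero, vnpGate_zero, vnpGate_r3, Finset.prod_range_succ, mul_assoc]
  · right; right; left
    refine ⟨j, 2 * n, by omega, by omega, ?_⟩
    right; left
    rw [h3, vnpGate_r1, vnpGate_one, vnpGate_var Φ (by omega)]
  · right; right; left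
    refine ⟨n + j, 2 * n + 1 + 4 * j + 1, by omega, by omega, ?_⟩
    right; right
    rw [h3, vnpGate_r2, vnpGate_r1, vnpGate_var Φ (by omega)]
  · right; right; left
    refine ⟨2 * n, 2 * n + 1 + 4 * j + 2, by omega, by omega, ?_⟩
    left
    rw [h3, vnpGate_r3, vnpGate_r2, vnpGate_one]
    unfold vnpF
    rw [C_1]

private theorem vnp_deg_of {n : ℕ} {p : MvPolynomial (Fin n) ℂ} (h : ∀ i, degreeOf i p ≤ 2) :
    p.totalDegree ≤ 2 * n := by
  unfold MvPolynomial.totalDegree
  refine Finset.sup_le fun d hd => ?_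
  rw [Finsupp.sum_fintype _ _ (fun _ => rfl)]
  calc ∑ i : Fin n, d i ≤ ∑ _i : Fin n, 2 :=
        Finset.sum_le_sum fun i _ => (monomial_le_degreeOf i hd).trans (h i)
    _ = 2 * n := by simp [mul_comm]

private theorem vnp_F_deg (n j : ℕ) : (vnpF n j).totalDegree ≤ 2 := by
  unfold vnpF
  refine (totalDegree_add _ _).trans ?_
  refine max_le (by rw [totalDegree_one]; omega) ?_
  refine (totalDegree_mul _ _).trans ?_
  have h1 : ((X j - 1 : MvPolynomial ℕ ℂ)).totalDegree ≤ 1 := by
    refine (totalDegree_sub _ _).trans ?_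
    rw [totalDegree_X, totalDegree_one]
    omega
  rw [totalDegree_X]
  omega

private theorem vnp_G_deg {Φ : Orc} {n : ℕ} (h : ∀ i, degreeOf i (Φ n) ≤ 2) :
    (vnpG Φ n).totalDegree ≤ 4 * n := by
  unfold vnpG
  refine (totalDegree_mul _ _).trans ?_
  have h1 : (vnpP Φ n).totalDegree ≤ 2 * n := (totalDegree_rename_le _ _).trans (vnp_deg_of h)
  have h2 : (∏ j ∈ Finset.range n, vnpF n j).totalDegree ≤ 2 * n := by
    refine (totalDegree_finsetProd _ _).trans ?_
    calc ∑ j ∈ Finset.range n, (vnpF n j).totalDegree ≤ ∑ _j ∈ Finset.range n, 2 :=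
          Finset.sum_le_sum fun j _ => vnp_F_deg n j
      _ = 2 * n := by simp [mul_comm]
  omega

private theorem vnp_F_vars {n j v : ℕ} (hj : j < n) (hv : v ∈ (vnpF n j).vars) : v < 2 * n := by
  classical
  unfold vnpF at hv
  have h1 := vars_add_subset _ _ hv
  rw [Finset.mem_union] at h1
  rcases h1 with h1 | h1
  · rw [vars_one] at h1
    simp at h1
  · have h2 := vars_mul _ _ h1
    rw [Finset.mem_union, vars_X, Finset.mem_singleton] at h2
    rcases h2 with h2 | h2
    · omega
    · have h3 := vars_sub_subset (p := (X j : MvPolynomial ℕ ℂ)) (q := 1) h2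
      rw [Finset.mem_union, vars_X, Finset.mem_singleton, vars_one] at h3
      rcases h3 with h3 | h3
      · omega
      · simp at h3

private theorem vnp_G_vars {Φ : Orc} {n v : ℕ} (hv : v ∈ (vnpG Φ n).vars) : v < 2 * n := by
  classical
  unfold vnpG at hv
  have h1 := vars_mul _ _ hv
  rw [Finset.mem_union] at h1
  rcases h1 with h1 | h1
  · unfold vnpP at h1
    have h2 := vars_rename _ _ h1
    rw [Finset.mem_image] at h2
    obtain ⟨i, -, rfl⟩ := h2
    have := i.isLt
    omega
  · have h2 := vars_prod _ h1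
    rw [Finset.mem_biUnion] at h2
    obtain ⟨j, hj, hj'⟩ := h2
    exact vnp_F_vars (Finset.mem_range.1 hj) hj'

private theorem vnp_bits_low {n : ℕ} (e : Fin n → Bool) {j : ℕ} (hj : j < n) :
    bits n n e j = X j := by
  unfold bits
  rw [if_pos hj]

private theorem vnp_bits_high {n : ℕ} (e : Fin n → Bool) (j : Fin n) :
    bits n n e (n + (j : ℕ)) = C (if e j then 1 else 0) := by
  unfold bits
  rw [if_neg (by omega)]
  have h : n + (j : ℕ) - n < n := by
    have := j.isLt
    omega
  rw [dif_pos h]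
  have h2 : (⟨n + (j : ℕ) - n, h⟩ : Fin n) = j := by
    apply Fin.ext
    show n + (j : ℕ) - n = (j : ℕ)
    omega
  rw [h2]
  by_cases h3 : e j = true
  · rw [if_pos h3, if_pos h3, C_1]
  · rw [if_neg h3, if_neg h3, C_0]

private theorem vnp_bind_P (Φ : Orc) {n : ℕ} (e : Fin n → Bool) :
    bind₁ (bits n n e) (vnpP Φ n) = C (eval (fun i => if e i then (1 : ℂ) else 0) (Φ n)) := by
  unfold vnpP
  rw [bind₁_rename]
  have h1 : (bits n n e ∘ fun v : Fin n => n + (v : ℕ)) =
      fun v : Fin n => (C (if e v then 1 else 0) : MvPolynomial ℕ ℂ) := by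
    funext v
    exact vnp_bits_high e v
  rw [h1]
  show aeval (fun v : Fin n => (C (if e v then (1 : ℂ) else 0) : MvPolynomial ℕ ℂ)) (Φ n) = _
  exact aeval_algebraMap_apply (MvPolynomial ℕ ℂ) (fun v : Fin n => if e v then (1 : ℂ) else 0)
    (Φ n)

private theorem vnp_bind_prod {n : ℕ} (e : Fin n → Bool) :
    bind₁ (bits n n e) (∏ j ∈ Finset.range n, vnpF n j) =
      ∏ i : Fin n, (X (i : ℕ) : MvPolynomial ℕ ℂ) ^ (if e i then 1 else 0) := by
  rw [map_prod, Finset.prod_range]
  refine Finset.prod_congr rfl fun i _ => ?_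
  unfold vnpF
  rw [map_add, map_mul, map_sub, map_one, bind₁_X_right, bind₁_X_right, vnp_bits_high,
    vnp_bits_low e i.isLt]
  by_cases h : e i = true
  · rw [if_pos h, if_pos h, C_1]
    ring
  · rw [if_neg h, if_neg h, C_0]
    ring

private theorem vnp_two (x : Fin 2) : (if finTwoEquiv x then 1 else 0) = (x : ℕ) := by
  revert x
  decide

theorem fam_vnp {Φ : Orc} (hΦ : ∀ L i, degreeOf i (Φ L) ≤ 2) : InVNP Φ (fam Φ) := by
  classical
  refine ⟨⟨3, fun n => ⟨?_, ?_⟩⟩, vnpG Φ, fun n => n, fun n => n, ⟨⟨3, fun n => ⟨?_, ?_⟩⟩, ⟨3, fun n => ?_⟩⟩,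
    ⟨3, fun n => ?_⟩, fun n => ?_⟩
  · have hs := vnp_size n
    have := (fam_deg Φ n).1
    omega
  · intro v hv
    have hs := vnp_size n
    have := (fam_deg Φ n).2 v hv
    omega
  · have hs := vnp_size n
    have := vnp_G_deg (hΦ n)
    omega
  · intro v hv
    have hs := vnp_size n
    have := vnp_G_vars hv
    omega
  · exact vnp_comp Φ n
  · have hs := vnp_size n
    constructor <;> simp only <;> omega
  · unfold fam
    refine Fintype.sum_equiv (Equiv.piCongrRight fun _ => finTwoEquiv) _ _ fun e => ?_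
    unfold vnpG
    rw [map_mul, vnp_bind_P, vnp_bind_prod]
    have h1 : ∀ i, (Equiv.piCongrRight fun _ : Fin n => finTwoEquiv) e i = finTwoEquiv (e i) :=
      fun i => rfl
    have h2 : (fun i => if (Equiv.piCongrRight fun _ : Fin n => finTwoEquiv) e i then (1 : ℂ) else 0) =
        fun i => ((e i : ℕ) : ℂ) := by
      funext i
      rw [h1, ← vnp_two (e i)]
      split_ifs <;> simp
    rw [h2]
    refine congrArg₂ _ rfl (Finset.prod_congr rfl fun i _ => ?_)
    rw [h1, vnp_two (e i)]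

end Pool.Agent.PHB
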