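import Pool.Agent.PHB.EF
import Pool.Agent.PHB.StB
import Pool.Agent.PHB.OrE
import Pool.Agent.PHB.Num
import Pool.Agent.PHB.Vnp

/-!
# PHB-Final: assembly (imports EF, StB, OrE, Num, Vnp)

PLAN.  `exists_orc`.  Let `n, r, s, p, θ, u, F` be given, `K, h` for this `n`.  `num`: `S1, κ, ρ`.  `C` = the set of the coefficients of `F` (finite).  `start` with `S0 = Asc s r + 2 s`
(`p ≤ s`: `p + p S1 ≤ κ`, `p S1 + S0 ≤ ρ`): `k, k', L, σ, x, y`.  `w = Fin.append u (Fin.snoc x y₀)`, `y₀ = ell x ⬝ᵥ h`; `Sat θ w` by hypothesis (`ell_value`).  `ef` with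
`c = s`: `Sat θ (σ ∘ w)`, `σ ∘ w = Fin.append u (Fin.snoc x y)`.  `eval (Fin.snoc x y) F ≠ 0`: `Fin.snoc x y` is algebraically independent over `acl K C`
(`algInd_of_ind`) and `F` has coefficients in this field (`subset_acl`), `F ≠ 0`.
-/

namespace Pool.Agent.PHB

open VRJ MvPolynomial

private theorem nonzero {K : Subfield ℂ} {n : ℕ} {F : MvPolynomial (Fin (n + 1)) ℂ} {w : Fin (n + 1) → ℂ}
    (hind : Ind K (acl K ((fun m => coeff m F) '' (F.support : Set (Fin (n + 1) →₀ ℕ)))) w) (hF : F ≠ 0) :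
    eval w F ≠ 0 := by
  intro h0
  have hai := algInd_of_ind hind
  have hmem : ∀ m, coeff m F ∈ acl K ((fun m => coeff m F) '' (F.support : Set (Fin (n + 1) →₀ ℕ))) := by
    intro m
    by_cases hm : m ∈ F.support
    · exact subset_acl _ _ ⟨m, hm, rfl⟩
    · rw [notMem_support_iff.1 hm]
      exact zero_mem _
  have hF' : F = map (algebraMap (acl K ((fun m => coeff m F) '' (F.support : Set (Fin (n + 1) →₀ ℕ)))) ℂ)
      (∑ m ∈ F.support, monomial m
        (⟨coeff m F, hmem m⟩ : acl K ((fun m => coeff m F) '' (F.support : Set (Fin (n + 1) →₀ ℕ))))) := by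
    rw [map_sum]
    conv_lhs => rw [F.as_sum]
    refine Finset.sum_congr rfl fun m _ => ?_
    rw [map_monomial]
    rfl
  have h1 : aeval w (∑ m ∈ F.support, monomial m
      (⟨coeff m F, hmem m⟩ : acl K ((fun m => coeff m F) '' (F.support : Set (Fin (n + 1) →₀ ℕ))))) = 0 := by
    rw [← h0]
    conv_rhs => rw [hF']
    rw [eval_map, aeval_def]
  have h2 := (algebraicIndependent_iff_injective_aeval.1 hai) (h1.trans (map_zero _).symm)
  apply hF
  rw [hF', h2, map_zero]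

theorem final : ∃ Φ : Orc, (∀ L i, degreeOf i (Φ L) ≤ 2) ∧ InVNP Φ (fam Φ) ∧
    (∀ n, (fam Φ n).totalDegree ≤ n ∧ ∀ v ∈ (fam Φ n).vars, v < n) ∧
    ∀ (n r s p : ℕ) (θ : Fm (p + (n + 1))) (u : Fin p → ℂ), 1 ≤ s → n ≤ s → p ≤ s → θ.cost ≤ s →
      θ.alt ≤ r → (4 * s) ^ (2 ^ (r + 5)) < 2 ^ n →
      (∀ x : Fin n → ℂ, Sat Φ θ (Fin.append u (Fin.snoc (α := fun _ => ℂ) x
        (eval (fun v => if hv : v < n then x ⟨v, hv⟩ else 0) (fam Φ n))))) →
      ∀ F : MvPolynomial (Fin (n + 1)) ℂ, F ≠ 0 →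
        ∃ w : Fin (n + 1) → ℂ, eval w F ≠ 0 ∧ Sat Φ θ (Fin.append u w) := by
  obtain ⟨Φ, hΦ⟩ := exists_orc
  have hdeg : ∀ L i, degreeOf i (Φ L) ≤ 2 := by
    intro L i
    obtain ⟨K, h, h1, -⟩ := hΦ L
    rw [h1]
    exact degreeOf_poly h i
  refine ⟨Φ, hdeg, fam_vnp hdeg, fun n => fam_deg Φ n, ?_⟩
  intro n r s p θ u hs hn hp hcost halt hnum hgraph F hF
  obtain ⟨K, h, hh, hK, hgn, hinf⟩ := hΦ n
  obtain ⟨S1, κ, ρ, h1, h2, h3, h4⟩ := num hs hn hnum
  have hC : ((fun m => coeff m F) '' (F.support : Set (Fin (n + 1) →₀ ℕ))).Finite :=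
    (Finset.finite_toSet _).image _
  have hpS : p * S1 ≤ s * S1 := Nat.mul_le_mul_right _ hp
  obtain ⟨k, k', L, σ, x, y, hk, hk', hg, hg', hi, hu, hx, hy1, hy2, hind⟩ :=
    start (S0 := Asc s r + 2 * s) (S1 := S1) (κ := κ) (r := ρ) hinf hgn u hC h1 (by omega) (by omega) h4
  have hval := ell_value hh x
  have hsat := hgraph x
  rw [← hval] at hsat
  refine ⟨Fin.snoc (α := fun _ => ℂ) x y, nonzero hind hF, ?_⟩
  have hw : ∀ i, (Fin.append u (Fin.snoc (α := fun _ => ℂ) x (ell x ⬝ᵥ h)) : Fin (p + (n + 1)) → ℂ) i ∈ k := by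
    intro i
    refine Fin.addCases (fun i => ?_) (fun i => ?_) i
    · rw [Fin.append_left]
      exact (hu i).1
    · rw [Fin.append_right]
      refine Fin.lastCases ?_ (fun i => ?_) i
      · rw [Fin.snoc_last]
        exact hy1
      · rw [Fin.snoc_castSucc]
        exact (hx i).1
  have hef := (ef hinf hgn hh hK s θ r s halt hcost le_rfl σ k k' L L _ hk hk' hg hg' hi hw).1 hsat
  have hσ : (fun i => σ ((Fin.append u (Fin.snoc (α := fun _ => ℂ) x (ell x ⬝ᵥ h)) :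
      Fin (p + (n + 1)) → ℂ) i)) = Fin.append u (Fin.snoc (α := fun _ => ℂ) x y) := by
    funext i
    refine Fin.addCases (fun i => ?_) (fun i => ?_) i
    · rw [Fin.append_left, Fin.append_left]
      exact (hu i).2
    · rw [Fin.append_right, Fin.append_right]
      refine Fin.lastCases ?_ (fun i => ?_) i
      · rw [Fin.snoc_last, Fin.snoc_last]
        exact hy2
      · rw [Fin.snoc_castSucc, Fin.snoc_castSucc]
        exact (hx i).2
  rw [hσ] at hef
  exact hef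

end Pool.Agent.PHB
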