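import Pool.Agent.PHB.Par
import Pool.Agent.PHB.GenE

/-!
# PHB-GnrE: generic vectors which agree with `h` on `L` (imports Par, GenE)

PLAN.  `Iso.refl`-type input: `param` with `σ = RingEquiv.refl`, `k' = k`, `L' = L` (`Iso K h (RingEquiv.refl ℂ) k L k L` is immediate: `sg refl L = L`).
`genr_le`: if `g` agrees with `h` on `L` then `acl k (range g) ≤ acl k (range g|J)` (`param`), rank at most `rk k + card J`.
`genr_ind`: then `Genr` iff the family `g b`, `b ∈ J`, is independent over `k` (`rk_acl_ind`, `ind_of_rk`; both fields are equal).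
`genr_exists`: choose `π : J → ℂ` independent over `k` (`exists_ind`, reindexed by `J ≃ Fin (card J)`), `g a = ∑ A a b * π b + c a`; by the last clause of `param`
`g b = π b` for `b ∈ J`.
-/

namespace Pool.Agent.PHB

open Submodule

private theorem iso_refl (K : Subfield ℂ) {n : ℕ} (h : V n) (k : Subfield ℂ) (L : Submodule ℂ (V n)) :
    Iso K h (RingEquiv.refl ℂ) k L k L where
  fix := fun z _ => rfl
  map := fun z => Iff.rfl
  sp := by
    ext v
    exact Iff.rfl
  val := fun l _ _ => rfl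

theorem genr_le {K : Subfield ℂ} {n : ℕ} {h : V n} {k : Subfield ℂ} {L : Submodule ℂ (V n)} (hp : Pos K h k L)
    {g : V n} (hg : ∀ l ∈ L, l ⬝ᵥ g = l ⬝ᵥ h) :
    rk K (acl k (Set.range g)) + Module.finrank ℂ L ≤ rk K k + Fintype.card (Mon n) := by
  obtain ⟨J, A, c, hJ, hA, hc, h1, -, -⟩ := param hp (iso_refl K h k L)
  have hle : acl k (Set.range g) ≤ acl k (Set.range fun b : J => g b) := by
    refine acl_le (acl_ac _ _) (le_acl _ _) ?_
    rintro _ ⟨a, rfl⟩
    rw [(h1 g).1 hg a]
    refine add_mem (sum_mem fun b _ => mul_mem ?_ ?_) ?_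
    · exact le_acl _ _ (hA a b)
    · exact subset_acl _ _ ⟨b, rfl⟩
    · exact le_acl _ _ (hc a)
  have h2 := rk_mono (acl_fld hp.fld (Set.finite_range fun b : J => g b)) hle
  have h3 := rk_acl_le hp.fld (fun b : J => g b)
  rw [Fintype.card_coe] at h3
  omega

theorem genr_exists {K : Subfield ℂ} {n : ℕ} {h : V n} (hinf : ¬ FiniteDimensional ℂ (Om K)) {k : Subfield ℂ}
    {L : Submodule ℂ (V n)} (hp : Pos K h k L) : ∃ g, Genr K h k L g := by
  obtain ⟨J, A, c, hJ, hA, hc, h1, -, h4⟩ := param hp (iso_refl K h k L)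
  obtain ⟨π, hπ⟩ := exists_ind hinf hp.fld J.card
  have hy : Ind K k (fun b : J => π (J.equivFin b)) := by
    intro d hd
    have e1 : ∑ i, (fun i => d (J.equivFin.symm i)) i • dd K (π i) =
        ∑ b : J, d b • dd K (π (J.equivFin b)) := by
      refine (Fintype.sum_equiv J.equivFin _ _ fun b => ?_).symm
      simp only [Equiv.symm_apply_apply]
    have e2 := hπ (fun i => d (J.equivFin.symm i)) (by rw [e1]; exact hd)
    funext b
    have e3 := congrFun e2 (J.equivFin b)
    simp only [Equiv.symm_apply_apply] at e3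
    exact e3
  obtain ⟨g, hg⟩ : ∃ g : V n, g = fun a => ∑ b : J, A a b * π (J.equivFin b) + c a := ⟨_, rfl⟩
  have hgJ : ∀ b : J, g b = π (J.equivFin b) := by
    intro b
    rw [hg]
    exact h4 (fun b : J => π (J.equivFin b)) b
  have hgL : ∀ l ∈ L, l ⬝ᵥ g = l ⬝ᵥ h := by
    rw [h1 g]
    intro a
    have e4 : ∑ b : J, A a b * g b = ∑ b : J, A a b * π (J.equivFin b) :=
      Finset.sum_congr rfl fun b _ => by rw [hgJ b]
    rw [e4, hg]
  refine ⟨g, hgL, le_antisymm (genr_le hp hgL) ?_⟩
  have hle : acl k (Set.range fun b : J => π (J.equivFin b)) ≤ acl k (Set.range g) := by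
    refine acl_mono le_rfl ?_
    rintro _ ⟨b, rfl⟩
    exact ⟨b, hgJ b⟩
  have h2 := rk_mono (acl_fld hp.fld (Set.finite_range g)) hle
  have h3 := rk_acl_ind hp.fld hy
  rw [Fintype.card_coe] at h3
  omega

end Pool.Agent.PHB
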