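import Pool.Agent.PHB.Defs
import Pool.Agent.PHB.FDefs

/-!
# Project PHB: polynomials given by coefficient vectors, and the functionals of the queries (definitions)
-/

namespace Pool.Agent.PHB

open VRJ MvPolynomial

/-- the polynomial with coefficients `h` -/
noncomputable def poly {n : ℕ} (h : V n) : MvPolynomial (Fin n) ℂ :=
  ∑ a : Mon n, C (h a) * ∏ i, X i ^ (a i : ℕ)

/-- the functional of a query -/
noncomputable def jf {n : ℕ} (k : ℕ) (z : Fin n → ℕ → ℂ) : V n := fun a =>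
  jet (∏ i, X i ^ (a i : ℕ) : MvPolynomial (Fin n) ℂ) k z

/-- the monomial `y ^ e` -/
noncomputable def mnl {n : ℕ} (y : Fin n → ℂ) (e : Sb n) : ℂ := ∏ i, y i ^ (e i : ℕ)

/-- the functional `g ↦ ∑ e, D e * g(e)`, sum over the Boolean cube -/
noncomputable def ellD {n : ℕ} (D : Sb n → ℂ) : V n := fun a => ∑ e : Sb n, D e * ∏ i, ((e i : ℕ) : ℂ) ^ (a i : ℕ)

/-- the functional `g ↦ ∑ e, x ^ e * g(e)` -/
noncomputable def ell {n : ℕ} (x : Fin n → ℂ) : V n := ellD (mnl x)

/-- the scale needed for `r` blocks of quantifiers -/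
def Asc (s : ℕ) : ℕ → ℕ
  | 0 => 0
  | r + 1 => 4 * ((s + 1) * (Asc s r + 2 * s + 1)) ^ 2

end Pool.Agent.PHB
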