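import Pool.Agent.PHB.IsoF

/-!
# PHB-Par: the vectors which agree with `h` on `L` (imports IsoF)

PLAN.  Let `x, p` be an echelon basis of `L` over `k` (`exists_ech`), `J` = the complement of the set of pivots (`p` is injective, so
`card J + dim L = card (Mon n)`).  `g` agrees with `h` on `L` iff `x i ⬝ᵥ g = x i ⬝ᵥ h` for all `i`, i.e. `g (p i) = x i ⬝ᵥ h - ∑_{b ∈ J} x i b * g b` (the coordinates of
`x i` at the other pivots are `0`).  So `A a b = δ_ab`, `c a = 0` for `a ∈ J` and `A (p i) b = - x i b`, `c (p i) = x i ⬝ᵥ h ∈ k` (`Pos.kn`).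
The second part (`σ`): the same for `L'` with the echelon basis `σ ∘ x i`, `p` and `(σ ∘ x i) ⬝ᵥ h = σ (x i ⬝ᵥ h)` (`Iso.val`).
-/

namespace Pool.Agent.PHB

open Submodule

private theorem par_dot {n r : ℕ} {x : Fin r → V n} {p : Fin r → Mon n}
    (hx : ∀ i j, x i (p j) = if i = j then 1 else 0) {J : Finset (Mon n)}
    (hJ : ∀ a, a ∈ J ↔ ∀ i, p i ≠ a) (g : V n) (i : Fin r) :
    x i ⬝ᵥ g = g (p i) + ∑ b : J, x i b * g b := by
  classical
  have h1 : x i ⬝ᵥ g = ∑ a, x i a * g a := rfl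
  have h2 : ∑ b : J, x i b * g b = ∑ b ∈ J, x i b * g b := Finset.sum_coe_sort J (fun b => x i b * g b)
  have h3 : ∑ a ∈ Jᶜ, x i a * g a = g (p i) := by
    rw [Finset.sum_eq_single (p i)]
    · rw [hx, if_pos rfl, one_mul]
    · intro a ha hne
      rw [Finset.mem_compl, hJ] at ha
      push Not at ha
      obtain ⟨j, rfl⟩ := ha
      have hij : i ≠ j := by
        rintro rfl
        exact hne rfl
      rw [hx, if_neg hij, zero_mul]
    · intro ha
      exfalso
      apply ha
      rw [Finset.mem_compl, hJ]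
      intro h
      exact h i rfl
  rw [h1, h2, ← Finset.sum_add_sum_compl J, h3]
  ring

private theorem par_core {n r : ℕ} {h : V n} {L : Submodule ℂ (V n)} {x : Fin r → V n} {p : Fin r → Mon n}
    (hx : ∀ i j, x i (p j) = if i = j then 1 else 0) (hL : L = span ℂ (Set.range x))
    {J : Finset (Mon n)} (hJ : ∀ a, a ∈ J ↔ ∀ i, p i ≠ a) {A : Mon n → J → ℂ} {c : Mon n → ℂ}
    (hA1 : ∀ a ∈ J, ∀ b : J, A a b = if a = b then 1 else 0) (hA2 : ∀ i (b : J), A (p i) b = -x i b)
    (hc1 : ∀ a ∈ J, c a = 0) (hc2 : ∀ i, c (p i) = x i ⬝ᵥ h) (g : V n) :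
    (∀ l ∈ L, l ⬝ᵥ g = l ⬝ᵥ h) ↔ ∀ a, g a = ∑ b : J, A a b * g b + c a := by
  classical
  constructor
  · intro hg a
    by_cases ha : a ∈ J
    · rw [hc1 a ha, add_zero, Finset.sum_eq_single ⟨a, ha⟩]
      · rw [hA1 a ha, if_pos rfl, one_mul]
      · intro b _ hb
        rw [hA1 a ha, if_neg, zero_mul]
        intro h'
        exact hb (Subtype.ext h'.symm)
      · intro h'
        exact absurd (Finset.mem_univ _) h'
    · rw [hJ] at ha
      push Not at ha
      obtain ⟨i, rfl⟩ := ha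
      have h1 := hg (x i) (by rw [hL]; exact subset_span ⟨i, rfl⟩)
      rw [par_dot hx hJ g i] at h1
      rw [hc2, ← h1]
      have h2 : ∑ b : J, A (p i) b * g b = -∑ b : J, x i b * g b := by
        rw [← Finset.sum_neg_distrib]
        refine Finset.sum_congr rfl fun b _ => ?_
        rw [hA2, neg_mul]
      rw [h2]
      ring
  · intro hg l hl
    rw [hL] at hl
    induction hl using Submodule.span_induction with
    | mem l hl =>
      obtain ⟨i, rfl⟩ := hl
      rw [par_dot hx hJ g i, hg (p i), hc2]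
      have h2 : ∑ b : J, A (p i) b * g b = -∑ b : J, x i b * g b := by
        rw [← Finset.sum_neg_distrib]
        refine Finset.sum_congr rfl fun b _ => ?_
        rw [hA2, neg_mul]
      rw [h2]
      ring
    | zero => rw [zero_dotProduct, zero_dotProduct]
    | add u v _ _ hu hv => rw [add_dotProduct, add_dotProduct, hu, hv]
    | smul t u _ hu => rw [smul_dotProduct, smul_dotProduct, hu]

theorem param {K : Subfield ℂ} {n : ℕ} {h : V n} {σ : ℂ ≃+* ℂ} {k k' : Subfield ℂ} {L L' : Submodule ℂ (V n)}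
    (hp : Pos K h k L) (hi : Iso K h σ k L k' L') :
    ∃ (J : Finset (Mon n)) (A : Mon n → J → ℂ) (c : Mon n → ℂ),
      J.card + Module.finrank ℂ L = Fintype.card (Mon n) ∧ (∀ a b, A a b ∈ k) ∧ (∀ a, c a ∈ k) ∧
      (∀ g : V n, (∀ l ∈ L, l ⬝ᵥ g = l ⬝ᵥ h) ↔ ∀ a, g a = ∑ b : J, A a b * g b + c a) ∧
      (∀ g : V n, (∀ l ∈ L', l ⬝ᵥ g = l ⬝ᵥ h) ↔ ∀ a, g a = ∑ b : J, σ (A a b) * g b + σ (c a)) ∧
      ∀ y : J → ℂ, ∀ b : J, ∑ b' : J, A b b' * y b' + c b = y b := by
  classical
  obtain ⟨x, p, hxk, hx, hL⟩ := exists_ech hp.rat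
  have hinj : Function.Injective p := by
    intro i j hij
    by_contra hne
    have h1 := hx i j
    rw [if_neg hne, ← hij, hx, if_pos rfl] at h1
    exact one_ne_zero h1
  obtain ⟨J, hJdef⟩ : ∃ J : Finset (Mon n), J = (Finset.univ.image p)ᶜ := ⟨_, rfl⟩
  have hJ : ∀ a, a ∈ J ↔ ∀ i, p i ≠ a := by
    intro a
    rw [hJdef, Finset.mem_compl, Finset.mem_image]
    push Not
    constructor
    · intro h' i
      exact h' i (Finset.mem_univ _)
    · intro h' i _
      exact h' i
  have hA : ∃ A : Mon n → J → ℂ, (∀ a ∈ J, ∀ b : J, A a b = if a = b then 1 else 0) ∧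
      ∀ i (b : J), A (p i) b = -x i b := by
    refine ⟨fun a b => if ha : ∃ i, p i = a then -x ha.choose b else if a = b then 1 else 0, ?_, ?_⟩
    · intro a ha b
      have h1 : ¬ ∃ i, p i = a := by
        rintro ⟨i, hi'⟩
        exact (hJ a).1 ha i hi'
      exact dif_neg h1
    · intro i b
      have h1 : ∃ i', p i' = p i := ⟨i, rfl⟩
      have h2 : h1.choose = i := hinj h1.choose_spec
      show (if ha : ∃ i', p i' = p i then -x ha.choose b else _) = _
      rw [dif_pos h1, h2]
  have hc : ∃ c : Mon n → ℂ, (∀ a ∈ J, c a = 0) ∧ ∀ i, c (p i) = x i ⬝ᵥ h := by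
    refine ⟨fun a => if ha : ∃ i, p i = a then x ha.choose ⬝ᵥ h else 0, ?_, ?_⟩
    · intro a ha
      have h1 : ¬ ∃ i, p i = a := by
        rintro ⟨i, hi'⟩
        exact (hJ a).1 ha i hi'
      exact dif_neg h1
    · intro i
      have h1 : ∃ i', p i' = p i := ⟨i, rfl⟩
      have h2 : h1.choose = i := hinj h1.choose_spec
      show (if ha : ∃ i', p i' = p i then x ha.choose ⬝ᵥ h else _) = _
      rw [dif_pos h1, h2]
  obtain ⟨A, hA1, hA2⟩ := hA
  obtain ⟨c, hc1, hc2⟩ := hc
  have hcases : ∀ a, a ∈ J ∨ ∃ i, p i = a := by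
    intro a
    by_cases ha : a ∈ J
    · exact Or.inl ha
    · rw [hJ] at ha
      push Not at ha
      exact Or.inr ha
  refine ⟨J, A, c, ?_, ?_, ?_, ?_, ?_, ?_⟩
  · rw [hJdef, Finset.card_compl, Finset.card_image_of_injective _ hinj, Finset.card_univ, Fintype.card_fin]
    refine Nat.sub_add_cancel ?_
    have h2 := Fintype.card_le_of_injective p hinj
    rw [Fintype.card_fin] at h2
    exact h2
  · intro a b
    rcases hcases a with ha | ⟨i, rfl⟩
    · rw [hA1 a ha]
      split_ifs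
      · exact k.one_mem
      · exact k.zero_mem
    · rw [hA2]
      exact k.neg_mem ((hxk i).2 b)
  · intro a
    rcases hcases a with ha | ⟨i, rfl⟩
    · rw [hc1 a ha]
      exact k.zero_mem
    · rw [hc2]
      exact hp.kn _ (hxk i).1 (hxk i).2
  · exact par_core hx hL hJ hA1 hA2 hc1 hc2
  · have hL' : L' = span ℂ (Set.range fun i => fun a => σ (x i a)) := by
      have h1 : sg σ L = sg σ (span ℂ (Set.range x)) := by rw [← hL]
      rw [← hi.sp, h1, sg_span]
      congr 1
      ext v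
      constructor
      · rintro ⟨_, ⟨i, rfl⟩, rfl⟩
        exact ⟨i, rfl⟩
      · rintro ⟨i, rfl⟩
        exact ⟨x i, ⟨i, rfl⟩, rfl⟩
    refine par_core (x := fun i => fun a => σ (x i a)) (p := p) ?_ hL' hJ
      (A := fun a b => σ (A a b)) (c := fun a => σ (c a)) ?_ ?_ ?_ ?_
    · intro i j
      show σ (x i (p j)) = _
      rw [hx]
      split_ifs
      · exact map_one σ
      · exact map_zero σ
    · intro a ha b
      show σ (A a b) = _
      rw [hA1 a ha]
      split_ifs
      · exact map_one σ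
      · exact map_zero σ
    · intro i b
      show σ (A (p i) b) = -σ (x i b)
      rw [hA2, map_neg]
    · intro a ha
      show σ (c a) = 0
      rw [hc1 a ha, map_zero]
    · intro i
      show σ (c (p i)) = _
      rw [hc2]
      exact hi.val _ (hxk i).1 (hxk i).2
  · intro y b
    rw [hc1 b b.2, add_zero, Finset.sum_eq_single b]
    · rw [hA1 b b.2, if_pos rfl, one_mul]
    · intro b' _ hb
      rw [hA1 b b.2, if_neg, zero_mul]
      intro h'
      exact hb (Subtype.ext h'.symm)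
    · intro h'
      exact absurd (Finset.mem_univ _) h'

end Pool.Agent.PHB
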