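import Pool.Agent.PHB.PlD

/-!
# PHB-PlA: maximal graphs (imports PlD)

PLAN.  `exists_max`: Zorn (`zorn_le_nonempty₀` or similar) for the set of subrings `Γ ≥ Γ₀` of `ℂ × ℂ` with `(0, y) ∈ Γ → y = 0`; the union of a
nonempty chain of subrings is a subring (`Subring.mem_sSup_of_directedOn`) with the same property.
`max_unit`: let `(x, y) ∈ Γ`, `y ≠ 0`.  Then `x ≠ 0`.  `Γ' = {(a / x ^ m, b / y ^ m) | (a, b) ∈ Γ, m : ℕ}` is a subring (common denominators) containing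
`Γ`, and `a / x ^ m = 0` implies `a = 0`, `b = 0`.  So `Γ' = Γ`; it contains `(1 / x, 1 / y)`.
-/

namespace Pool.Agent.PHB

private theorem pla_pow {Γ : Subring (ℂ × ℂ)} {x y : ℂ} (hxy : (x, y) ∈ Γ) (n : ℕ) : (x ^ n, y ^ n) ∈ Γ := by
  have h := Γ.pow_mem hxy n
  rwa [Prod.pow_mk] at h

/-- the localisation at `(x, y)` -/
private def plaL (Γ : Subring (ℂ × ℂ)) {x y : ℂ} (hxy : (x, y) ∈ Γ) : Subring (ℂ × ℂ) where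
  carrier := {q | ∃ m : ℕ, (q.1 * x ^ m, q.2 * y ^ m) ∈ Γ}
  mul_mem' := by
    rintro q r ⟨m, hm⟩ ⟨n, hn⟩
    refine ⟨m + n, ?_⟩
    have h := Γ.mul_mem hm hn
    have e : ((q.1 * x ^ m, q.2 * y ^ m) * (r.1 * x ^ n, r.2 * y ^ n) : ℂ × ℂ) =
        ((q * r).1 * x ^ (m + n), (q * r).2 * y ^ (m + n)) := by
      refine Prod.ext ?_ ?_
      · show q.1 * x ^ m * (r.1 * x ^ n) = q.1 * r.1 * x ^ (m + n)
        ring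
      · show q.2 * y ^ m * (r.2 * y ^ n) = q.2 * r.2 * y ^ (m + n)
        ring
    rwa [e] at h
  one_mem' := by
    refine ⟨0, ?_⟩
    have e : (((1 : ℂ × ℂ).1 * x ^ 0, (1 : ℂ × ℂ).2 * y ^ 0) : ℂ × ℂ) = 1 := by
      refine Prod.ext ?_ ?_
      · show (1 : ℂ) * x ^ 0 = 1
        ring
      · show (1 : ℂ) * y ^ 0 = 1
        ring
    rw [e]
    exact Γ.one_mem
  add_mem' := by
    rintro q r ⟨m, hm⟩ ⟨n, hn⟩
    refine ⟨m + n, ?_⟩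
    have h := Γ.add_mem (Γ.mul_mem hm (pla_pow hxy n)) (Γ.mul_mem hn (pla_pow hxy m))
    have e : ((q.1 * x ^ m, q.2 * y ^ m) * (x ^ n, y ^ n) + (r.1 * x ^ n, r.2 * y ^ n) * (x ^ m, y ^ m) :
        ℂ × ℂ) = ((q + r).1 * x ^ (m + n), (q + r).2 * y ^ (m + n)) := by
      refine Prod.ext ?_ ?_
      · show q.1 * x ^ m * x ^ n + r.1 * x ^ n * x ^ m = (q.1 + r.1) * x ^ (m + n)
        ring
      · show q.2 * y ^ m * y ^ n + r.2 * y ^ n * y ^ m = (q.2 + r.2) * y ^ (m + n)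
        ring
    rwa [e] at h
  zero_mem' := by
    refine ⟨0, ?_⟩
    have e : (((0 : ℂ × ℂ).1 * x ^ 0, (0 : ℂ × ℂ).2 * y ^ 0) : ℂ × ℂ) = 0 := by
      refine Prod.ext ?_ ?_
      · show (0 : ℂ) * x ^ 0 = 0
        ring
      · show (0 : ℂ) * y ^ 0 = 0
        ring
    rw [e]
    exact Γ.zero_mem
  neg_mem' := by
    rintro q ⟨m, hm⟩
    refine ⟨m, ?_⟩
    have h := Γ.neg_mem hm
    have e : (-(q.1 * x ^ m, q.2 * y ^ m) : ℂ × ℂ) = ((-q).1 * x ^ m, (-q).2 * y ^ m) := by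
      refine Prod.ext ?_ ?_
      · show -(q.1 * x ^ m) = -q.1 * x ^ m
        ring
      · show -(q.2 * y ^ m) = -q.2 * y ^ m
        ring
    rwa [e] at h

theorem exists_max {Γ₀ : Subring (ℂ × ℂ)} (h₀ : ∀ y : ℂ, ((0 : ℂ), y) ∈ Γ₀ → y = 0) :
    ∃ Γ : Subring (ℂ × ℂ), Γ₀ ≤ Γ ∧ (∀ y : ℂ, ((0 : ℂ), y) ∈ Γ → y = 0) ∧
      ∀ Γ' : Subring (ℂ × ℂ), Γ ≤ Γ' → (∀ y : ℂ, ((0 : ℂ), y) ∈ Γ' → y = 0) → Γ' ≤ Γ := by
  obtain ⟨m, hm1, hm2⟩ := zorn_le_nonempty₀ {Γ : Subring (ℂ × ℂ) | ∀ y : ℂ, ((0 : ℂ), y) ∈ Γ → y = 0}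
    (fun c hc hch y hy => by
      refine ⟨sSup c, fun z hz => ?_, fun z hz => le_sSup hz⟩
      obtain ⟨Γ, hΓ, hz'⟩ := (Subring.mem_sSup_of_directedOn ⟨y, hy⟩ hch.directedOn).1 hz
      exact hc hΓ z hz') Γ₀ h₀
  exact ⟨m, hm1, hm2.1, fun Γ' h1 h2 => hm2.2 h2 h1⟩

theorem max_unit {Γ : Subring (ℂ × ℂ)} (h₀ : ∀ y : ℂ, ((0 : ℂ), y) ∈ Γ → y = 0)
    (hmax : ∀ Γ' : Subring (ℂ × ℂ), Γ ≤ Γ' → (∀ y : ℂ, ((0 : ℂ), y) ∈ Γ' → y = 0) → Γ' ≤ Γ)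
    {x y : ℂ} (hxy : (x, y) ∈ Γ) (hy : y ≠ 0) : (x⁻¹, y⁻¹) ∈ Γ := by
  have hx : x ≠ 0 := by
    rintro rfl
    exact hy (h₀ y hxy)
  refine hmax (plaL Γ hxy) ?_ ?_ ?_
  · rintro q hq
    refine ⟨0, ?_⟩
    have e : ((q.1 * x ^ 0, q.2 * y ^ 0) : ℂ × ℂ) = q := by
      refine Prod.ext ?_ ?_
      · show q.1 * x ^ 0 = q.1
        ring
      · show q.2 * y ^ 0 = q.2
        ring
    rw [e]
    exact hq
  · rintro z ⟨m, hm⟩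
    have h1 : ((0 : ℂ) * x ^ m, z * y ^ m) ∈ Γ := hm
    rw [zero_mul] at h1
    exact (mul_eq_zero.1 (h₀ _ h1)).resolve_right (pow_ne_zero m hy)
  · refine ⟨1, ?_⟩
    have e : ((x⁻¹ * x ^ 1, y⁻¹ * y ^ 1) : ℂ × ℂ) = 1 := by
      refine Prod.ext ?_ ?_
      · show x⁻¹ * x ^ 1 = 1
        rw [pow_one, inv_mul_cancel₀ hx]
      · show y⁻¹ * y ^ 1 = 1
        rw [pow_one, inv_mul_cancel₀ hy]
    show ((x⁻¹ * x ^ 1, y⁻¹ * y ^ 1) : ℂ × ℂ) ∈ Γ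
    rw [e]
    exact Γ.one_mem

end Pool.Agent.PHB
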