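import Pool.Agent.PHB.PlA

/-!
# PHB-PlB: places exist (imports PlA)

PLAN.  Take `Γ` from `exists_max`; `unit` is `max_unit`.  Let `O = {a | ∃ b, (a, b) ∈ Γ}` (a subring of `ℂ`), `f : O →+* ℂ` the homomorphism with graph `Γ`,
`κ = f(O)`, a subfield of `ℂ` (by `unit`), `m = {a | (a, 0) ∈ Γ}`.
Claim 1: if `x ∈ ℂ` and there is no relation `1 = ∑_{i ≤ r} m_i x ^ i` with `m_i ∈ m`, then `(x, y) ∈ Γ` for some `y`.  Proof: the set `I` of the
polynomials `f(P) ∈ κ[X]`, `P ∈ O[X]`, `P(x) = 0`, is an ideal of `κ[X]` (`κ` is a field, `f : O → κ` surjective).  `1 ∉ I`: if `f(P) = 1`, `P(x) = 0`, then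
`P = 1 + ∑ m_i X ^ i` with `m_i ∈ m`, so `1 = -∑ m_i x ^ i`.  So `I` is generated by some non-unit (`κ[X]` is principal), which has a root `y ∈ ℂ` (any
`y` if the generator is `0`): every element of `I` vanishes at `y`.  The set `Γ' = {(P(x), f(P)(y)) | P ∈ O[X]}` is a subring containing `Γ` and
`(x, y)`, and `P(x) = 0` implies `f(P)(y) = 0`; so `Γ' ≤ Γ` by maximality.  (Working with pairs: polynomials over the ring `Γ` itself, evaluated at `(x, y)` in
`ℂ × ℂ`, avoids `O` and `f`: `Γ' = {P(x, y) | P ∈ Γ[X]}` = `Subring.closure (Γ ∪ {(x, y)})`.)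
Claim 2: for `x ≠ 0` there cannot be both relations `1 = ∑_{i ≤ r} m_i x ^ i` and `1 = ∑_{j ≤ s} n_j x⁻¹ ^ j` with `m_i, n_j ∈ m`: take `r`, `s` minimal, say `r ≥ s`;
`1 - n_0` is a unit of `O` (`unit`), so `1 = ∑_{j = 1}^{s} n'_j x^{-j}` with `n'_j ∈ m`, multiply by `m_r x ^ r` and substitute: a relation of the first kind of
degree `< r`; the case `r < s` symmetric; `r = s = 0` means `1 ∈ m`, i.e. `(1, 0) ∈ Γ`, so `(0, 1) ∈ Γ`, contradiction.
`val`: for `x = 0` trivial.  If `x` has no relation of the first kind: Claim 1.  Otherwise `x⁻¹` has none: `(x⁻¹, y) ∈ Γ`; if `y = 0` fine, else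
`(x, y⁻¹) ∈ Γ` by `unit`.
-/

namespace Pool.Agent.PHB

open Polynomial in
private theorem no_both {Γ : Subring (ℂ × ℂ)} (hU : ∀ y : ℂ, ((0 : ℂ), y) ∈ Γ → y = 0)
    (hunit : ∀ x y : ℂ, (x, y) ∈ Γ → y ≠ 0 → (x⁻¹, y⁻¹) ∈ Γ) (N : ℕ) :
    ∀ (P Q : ℂ[X]) (x : ℂ), P.natDegree + Q.natDegree ≤ N → x ≠ 0 →
      (∀ i, (P.coeff i, (0 : ℂ)) ∈ Γ) → (∀ i, (Q.coeff i, (0 : ℂ)) ∈ Γ) →
      P.eval x = 1 → Q.eval x⁻¹ = 1 → False := by
  induction N with
  | zero =>
    intro P Q x hN hx hP hQ h1 h2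
    have h0 : P.natDegree = 0 := by omega
    have h3 : P = C (P.coeff 0) := eq_C_of_natDegree_eq_zero h0
    rw [h3, eval_C] at h1
    have h4 := hP 0
    rw [h1] at h4
    have h5 := Γ.sub_mem Γ.one_mem h4
    have h6 : (1 : ℂ × ℂ) - (1, 0) = (0, 1) := by
      ext <;> simp
    rw [h6] at h5
    exact one_ne_zero (hU 1 h5)
  | succ N ih =>
    -- the reduction step
    have key : ∀ (P Q : ℂ[X]) (x : ℂ), P.natDegree + Q.natDegree ≤ N + 1 → x ≠ 0 →
        Q.natDegree ≤ P.natDegree →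
        (∀ i, (P.coeff i, (0 : ℂ)) ∈ Γ) → (∀ i, (Q.coeff i, (0 : ℂ)) ∈ Γ) →
        P.eval x = 1 → Q.eval x⁻¹ = 1 → False := by
      intro P Q x hN hx hle hP hQ h1 h2
      rcases Nat.eq_zero_or_pos P.natDegree with h0 | hpos
      · have hq0 : Q.natDegree = 0 := by omega
        exact ih P Q x (by omega) hx hP hQ h1 h2
      · have hn0 : ((1 : ℂ) - Q.coeff 0, (1 : ℂ)) ∈ Γ := by
          have h5 := Γ.sub_mem Γ.one_mem (hQ 0)
          have h6 : (1 : ℂ × ℂ) - (Q.coeff 0, 0) = (1 - Q.coeff 0, 1) := by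
            ext <;> simp
          rwa [h6] at h5
        have hne : (1 : ℂ) - Q.coeff 0 ≠ 0 := by
          intro h
          rw [h] at hn0
          exact one_ne_zero (hU 1 hn0)
        have hinv : (((1 : ℂ) - Q.coeff 0)⁻¹, (1 : ℂ)) ∈ Γ := by
          have := hunit _ _ hn0 one_ne_zero
          rwa [inv_one] at this
        have hsum : (1 : ℂ) - Q.coeff 0 =
            ∑ i ∈ Finset.range Q.natDegree, Q.coeff (i + 1) * x⁻¹ ^ (i + 1) := by
          rw [eval_eq_sum_range, Finset.sum_range_succ'] at h2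
          rw [← h2]
          simp
        let P' : ℂ[X] := P.eraseLead + ∑ i ∈ Finset.range Q.natDegree,
          C (P.leadingCoeff * Q.coeff (i + 1) * (1 - Q.coeff 0)⁻¹) * X ^ (P.natDegree - (i + 1))
        have hdeg : P'.natDegree ≤ P.natDegree - 1 := by
          refine natDegree_add_le_of_degree_le (eraseLead_natDegree_le P) ?_
          refine natDegree_sum_le_of_forall_le _ _ fun i _ => ?_
          refine (natDegree_C_mul_X_pow_le _ _).trans ?_
          omega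
        refine ih P' Q x (by omega) hx ?_ hQ ?_ h2
        · intro k
          have e1 : (P.eraseLead.coeff k, (0 : ℂ)) ∈ Γ := by
            rw [eraseLead_coeff]
            split_ifs
            · exact Γ.zero_mem
            · exact hP k
          have e2 : ∀ i ∈ Finset.range Q.natDegree,
              ((C (P.leadingCoeff * Q.coeff (i + 1) * (1 - Q.coeff 0)⁻¹) *
                X ^ (P.natDegree - (i + 1)) : ℂ[X]).coeff k, (0 : ℂ)) ∈ Γ := by
            intro i _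
            rw [coeff_C_mul_X_pow]
            split_ifs
            · have := Γ.mul_mem (Γ.mul_mem (hP P.natDegree) (hQ (i + 1))) hinv
              have e : ((P.coeff P.natDegree, (0 : ℂ)) * (Q.coeff (i + 1), (0 : ℂ)) *
                  ((1 - Q.coeff 0)⁻¹, (1 : ℂ)) : ℂ × ℂ) =
                  (P.leadingCoeff * Q.coeff (i + 1) * (1 - Q.coeff 0)⁻¹, 0) := by
                ext
                · rfl
                · simp
              rwa [e] at this
            · exact Γ.zero_mem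
          have e3 := Γ.add_mem e1 (Γ.sum_mem e2)
          have e4 : ((P.eraseLead.coeff k, (0 : ℂ)) + ∑ i ∈ Finset.range Q.natDegree,
              ((C (P.leadingCoeff * Q.coeff (i + 1) * (1 - Q.coeff 0)⁻¹) *
                X ^ (P.natDegree - (i + 1)) : ℂ[X]).coeff k, (0 : ℂ)) : ℂ × ℂ) =
              (P'.coeff k, 0) := by
            ext
            · simp only [P', Prod.fst_add, Prod.fst_sum, coeff_add, finsetSum_coeff]
            · simp only [Prod.snd_add, Prod.snd_sum, Finset.sum_const_zero, add_zero]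
          rwa [e4] at e3
        · have hP1 : P.eraseLead.eval x + P.leadingCoeff * x ^ P.natDegree = 1 := by
            have h6 := congrArg (eval x) (eraseLead_add_C_mul_X_pow P)
            rw [eval_add, eval_mul, eval_C, eval_pow, eval_X] at h6
            rw [h6, h1]
          have hS : ∑ i ∈ Finset.range Q.natDegree,
              (P.leadingCoeff * Q.coeff (i + 1) * (1 - Q.coeff 0)⁻¹) *
                x ^ (P.natDegree - (i + 1)) = P.leadingCoeff * x ^ P.natDegree := by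
            have e : ∀ i ∈ Finset.range Q.natDegree,
                (P.leadingCoeff * Q.coeff (i + 1) * (1 - Q.coeff 0)⁻¹) *
                x ^ (P.natDegree - (i + 1)) = (P.leadingCoeff * x ^ P.natDegree *
                (1 - Q.coeff 0)⁻¹) * (Q.coeff (i + 1) * x⁻¹ ^ (i + 1)) := by
              intro i hi
              have hi' : i + 1 ≤ P.natDegree := by
                have := Finset.mem_range.1 hi
                omega
              rw [pow_sub₀ x hx hi', inv_pow]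
              ring
            rw [Finset.sum_congr rfl e, ← Finset.mul_sum, ← hsum]
            field_simp
          simp only [P', eval_add, eval_finsetSum, eval_mul, eval_C, eval_pow, eval_X]
          rw [hS, hP1]
    intro P Q x hN hx hP hQ h1 h2
    rcases le_total Q.natDegree P.natDegree with h | h
    · exact key P Q x hN hx h hP hQ h1 h2
    · exact key Q P x⁻¹ (by omega) (inv_ne_zero hx) h hQ hP h2 (by rwa [inv_inv])

/-- the image field -/
private noncomputable def kap (Γ : Subring (ℂ × ℂ))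
    (hunit : ∀ x y : ℂ, (x, y) ∈ Γ → y ≠ 0 → (x⁻¹, y⁻¹) ∈ Γ) : Subfield ℂ where
  carrier := {y | ∃ x, (x, y) ∈ Γ}
  mul_mem' := by
    rintro a b ⟨x, hx⟩ ⟨y, hy⟩
    exact ⟨x * y, Γ.mul_mem hx hy⟩
  one_mem' := ⟨1, Γ.one_mem⟩
  add_mem' := by
    rintro a b ⟨x, hx⟩ ⟨y, hy⟩
    exact ⟨x + y, Γ.add_mem hx hy⟩
  zero_mem' := ⟨0, Γ.zero_mem⟩
  neg_mem' := by
    rintro a ⟨x, hx⟩
    exact ⟨-x, Γ.neg_mem hx⟩
  inv_mem' := by
    rintro a ⟨x, hx⟩
    by_cases ha : a = 0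
    · subst ha
      rw [inv_zero]
      exact ⟨0, Γ.zero_mem⟩
    · exact ⟨x⁻¹, hunit _ _ hx ha⟩

open Polynomial in
private theorem claim1 {Γ : Subring (ℂ × ℂ)} (hU : ∀ y : ℂ, ((0 : ℂ), y) ∈ Γ → y = 0)
    (hmax : ∀ Γ' : Subring (ℂ × ℂ), Γ ≤ Γ' → (∀ y : ℂ, ((0 : ℂ), y) ∈ Γ' → y = 0) → Γ' ≤ Γ)
    (hunit : ∀ x y : ℂ, (x, y) ∈ Γ → y ≠ 0 → (x⁻¹, y⁻¹) ∈ Γ) (x : ℂ)
    (hx : ¬ ∃ P : ℂ[X], (∀ i, (P.coeff i, (0 : ℂ)) ∈ Γ) ∧ P.eval x = 1) :
    ∃ y, (x, y) ∈ Γ := by
  classical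
  let κ := kap Γ hunit
  let f : Γ →+* κ :=
    { toFun := fun p => ⟨p.1.2, p.1.1, p.2⟩
      map_one' := rfl
      map_mul' := fun _ _ => rfl
      map_zero' := rfl
      map_add' := fun _ _ => rfl }
  have hf : Function.Surjective f := by
    rintro ⟨y, a, ha⟩
    exact ⟨⟨(a, y), ha⟩, rfl⟩
  let g : Γ →+* ℂ := (RingHom.fst ℂ ℂ).comp Γ.subtype
  let e1 : Γ[X] →+* ℂ := eval₂RingHom g x
  let I : Ideal κ[X] := Ideal.map (mapRingHom f) (RingHom.ker e1)
  have hsurj : Function.Surjective (mapRingHom f) := map_surjective f hf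
  have hmemI : ∀ q, q ∈ I ↔ ∃ p : Γ[X], e1 p = 0 ∧ p.map f = q := by
    intro q
    rw [Ideal.mem_map_iff_of_surjective _ hsurj]
    constructor
    · rintro ⟨p, hp, hpq⟩
      exact ⟨p, hp, hpq⟩
    · rintro ⟨p, hp, hpq⟩
      exact ⟨p, hp, hpq⟩
  have hI : I ≠ ⊤ := by
    intro hI
    have h1 : (1 : κ[X]) ∈ I := by rw [hI]; trivial
    obtain ⟨p, hp, hpq⟩ := (hmemI 1).1 h1
    apply hx
    refine ⟨((1 : Γ[X]) - p).map g, ?_, ?_⟩
    · intro i
      rw [coeff_map]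
      have h2 : f (((1 : Γ[X]) - p).coeff i) = 0 := by
        rw [← coeff_map, Polynomial.map_sub, hpq, Polynomial.map_one, sub_self, coeff_zero]
      have h3 : ((((1 : Γ[X]) - p).coeff i : Γ) : ℂ × ℂ) = (g (((1 : Γ[X]) - p).coeff i), 0) := by
        ext
        · rfl
        · exact congrArg Subtype.val h2
      rw [← h3]
      exact (((1 : Γ[X]) - p).coeff i).2
    · rw [eval_map]
      have h2 : eval₂ g x ((1 : Γ[X]) - p) = e1 (1 - p) := rfl
      rw [h2, map_sub, hp, map_one, sub_zero]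
  obtain ⟨q, hq⟩ := (IsPrincipalIdealRing.principal I).principal
  have hqdeg : q.degree ≠ 0 := by
    intro h
    apply hI
    rw [hq]
    exact Ideal.span_singleton_eq_top.2 (isUnit_iff_degree_eq_zero.2 h)
  obtain ⟨y, hy⟩ := IsAlgClosed.exists_aeval_eq_zero ℂ q hqdeg
  have hroot : ∀ h ∈ I, aeval y h = 0 := by
    intro h hh
    rw [hq] at hh
    obtain ⟨c, rfl⟩ := Ideal.mem_span_singleton.1 hh
    rw [map_mul, hy, zero_mul]
  let ψ : Γ[X] →+* ℂ × ℂ := eval₂RingHom Γ.subtype (x, y)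
  have hψ1 : ∀ p, (ψ p).1 = e1 p := by
    intro p
    have := hom_eval₂ p Γ.subtype (RingHom.fst ℂ ℂ) (x, y)
    exact this
  have hψ2 : ∀ p, (ψ p).2 = aeval y (p.map f) := by
    intro p
    have h1 := hom_eval₂ p Γ.subtype (RingHom.snd ℂ ℂ) (x, y)
    rw [aeval_def, eval₂_map]
    exact h1
  have hle : ψ.range ≤ Γ := by
    apply hmax
    · intro a ha
      refine ⟨C ⟨a, ha⟩, ?_⟩
      change eval₂ Γ.subtype (x, y) (C ⟨a, ha⟩) = a
      rw [eval₂_C]
      rfl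
    · rintro z ⟨p, hp⟩
      have h1 : e1 p = 0 := by rw [← hψ1, hp]
      have h2 : z = aeval y (p.map f) := by rw [← hψ2, hp]
      rw [h2]
      exact hroot _ ((hmemI _).2 ⟨p, h1, rfl⟩)
  refine ⟨y, hle ⟨X, ?_⟩⟩
  change eval₂ Γ.subtype (x, y) X = (x, y)
  rw [eval₂_X]

theorem exists_plc {Γ₀ : Subring (ℂ × ℂ)} (h₀ : ∀ y : ℂ, ((0 : ℂ), y) ∈ Γ₀ → y = 0) :
    ∃ Γ : Subring (ℂ × ℂ), Γ₀ ≤ Γ ∧ Plc Γ := by
  obtain ⟨Γ, hle, hU, hmax⟩ := exists_max h₀
  have hunit : ∀ x y : ℂ, (x, y) ∈ Γ → y ≠ 0 → (x⁻¹, y⁻¹) ∈ Γ := fun x y hxy hy =>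
    max_unit hU hmax hxy hy
  refine ⟨Γ, hle, hU, ?_, hunit⟩
  intro x
  by_cases hx0 : x = 0
  · subst hx0
    exact Or.inl ⟨0, Γ.zero_mem⟩
  by_cases hR : ∃ P : Polynomial ℂ, (∀ i, (P.coeff i, (0 : ℂ)) ∈ Γ) ∧ P.eval x = 1
  · have hR' : ¬ ∃ P : Polynomial ℂ, (∀ i, (P.coeff i, (0 : ℂ)) ∈ Γ) ∧ P.eval x⁻¹ = 1 := by
      rintro ⟨Q, hQ, hQ1⟩
      obtain ⟨P, hP, hP1⟩ := hR
      exact no_both hU hunit _ P Q x le_rfl hx0 hP hQ hP1 hQ1
    obtain ⟨y, hy⟩ := claim1 hU hmax hunit x⁻¹ hR'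
    by_cases hy0 : y = 0
    · subst hy0
      exact Or.inr hy
    · refine Or.inl ⟨y⁻¹, ?_⟩
      have := hunit _ _ hy hy0
      rwa [inv_inv] at this
  · exact Or.inl (claim1 hU hmax hunit x hR)

end Pool.Agent.PHB
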