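import Pool.Agent.PHB.Defs

/-!
# Project PHB: places (definitions)
-/

namespace Pool.Agent.PHB

/-- the graph of a place of `ℂ` with values in `ℂ`: a ring homomorphism, defined on a valuation ring, whose kernel consists of the
non-units -/
structure Plc (Γ : Subring (ℂ × ℂ)) : Prop where
  uniq : ∀ y : ℂ, ((0 : ℂ), y) ∈ Γ → y = 0
  val : ∀ x : ℂ, (∃ y : ℂ, (x, y) ∈ Γ) ∨ (x⁻¹, (0 : ℂ)) ∈ Γ
  unit : ∀ x y : ℂ, (x, y) ∈ Γ → y ≠ 0 → (x⁻¹, y⁻¹) ∈ Γ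

/-- the specialisation of the subspace `M` (rational over `F`) -/
def spec (Γ : Subring (ℂ × ℂ)) (F : Subfield ℂ) {ι : Type} (M : Submodule ℂ (ι → ℂ)) : Submodule ℂ (ι → ℂ) :=
  Submodule.span ℂ {w | ∃ l ∈ M, Rv F l ∧ ∀ a, (l a, w a) ∈ Γ}

end Pool.Agent.PHB
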