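import Pool.Agent.PHB.PlB
import Pool.Agent.PHB.GnrE

/-!
# PHB-PlG: a place which maps a generic vector to `h` (imports PlB, GnrE)

PLAN.  `param` (with `σ = refl`) for the position `(F, L)`: `J, A, c` with coefficients in `F`; the family `g b`, `b ∈ J`, is algebraically independent over `F`
(`Genr`, `ind_of_rk`, `algInd_of_ind`, as in `GnrE`).  `Γ₀ = {(P(g|J), P(h|J)) | P ∈ F[X_b, b ∈ J]}` (the range of a ring homomorphism
`MvPolynomial J F →+* ℂ × ℂ`); `P(g|J) = 0` implies `P = 0`.  `exists_plc`.  It contains `(z, z)`, `z ∈ F`, and `(g b, h b)`, `b ∈ J`, hence `(g a, h a)` for all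
`a` by `param` (`g` and `h` both agree with `h` on `L`).
-/

namespace Pool.Agent.PHB

private theorem iso_refl {K : Subfield ℂ} {n : ℕ} {h : V n} {F : Subfield ℂ} {L : Submodule ℂ (V n)} :
    Iso K h (RingEquiv.refl ℂ) F L F L where
  fix := fun _ _ => rfl
  map := fun _ => Iff.rfl
  sp := rfl
  val := fun _ _ _ => rfl

/-- the pairs of values of the polynomials over `F` at `g` and at `h` -/
private noncomputable def ph (F : Subfield ℂ) {J : Type} (g h : J → ℂ) :
    MvPolynomial J F →+* ℂ × ℂ :=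
  RingHom.prod (MvPolynomial.aeval g : MvPolynomial J F →ₐ[F] ℂ).toRingHom
    (MvPolynomial.aeval h : MvPolynomial J F →ₐ[F] ℂ).toRingHom

private theorem ph_apply (F : Subfield ℂ) {J : Type} (g h : J → ℂ) (P : MvPolynomial J F) :
    ph F g h P = (MvPolynomial.aeval g P, MvPolynomial.aeval h P) := rfl

private theorem ph_zero {F : Subfield ℂ} {J : Type} {g h : J → ℂ} (hg : AlgebraicIndependent F g)
    (y : ℂ) (hy : ((0 : ℂ), y) ∈ (ph F g h).range) : y = 0 := by
  obtain ⟨P, hP⟩ := hy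
  rw [ph_apply, Prod.mk.injEq] at hP
  have h1 : P = 0 := hg (by rw [hP.1, map_zero])
  rw [← hP.2, h1, map_zero]

private theorem algInd_J {K : Subfield ℂ} {n : ℕ} {h : V n} {F : Subfield ℂ}
    {L : Submodule ℂ (V n)} (hp : Pos K h F L) {g : V n} (hg : Genr K h F L g)
    {J : Finset (Mon n)} {A : Mon n → J → ℂ} {c : Mon n → ℂ}
    (hJ : J.card + Module.finrank ℂ L = Fintype.card (Mon n)) (hA : ∀ a b, A a b ∈ F)
    (hc : ∀ a, c a ∈ F) (h1 : ∀ a, g a = ∑ b : J, A a b * g b + c a) :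
    AlgebraicIndependent F (fun b : J => g b) := by
  refine algInd_of_ind (K := K) (ind_of_rk hp.fld ?_)
  have hf : Fld K (acl F (Set.range fun b : J => g b)) := acl_fld hp.fld (Set.finite_range _)
  have h2 : acl F (Set.range g) ≤ acl F (Set.range fun b : J => g b) := by
    refine acl_le hf.ac (le_acl _ _) ?_
    rintro _ ⟨a, rfl⟩
    rw [SetLike.mem_coe, h1 a]
    refine Subfield.add_mem _ (Subfield.sum_mem _ fun b _ => ?_) (le_acl _ _ (hc a))
    exact Subfield.mul_mem _ (le_acl _ _ (hA a b)) (subset_acl _ _ ⟨b, rfl⟩)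
  have h3 := rk_mono hf h2
  have h4 := hg.2
  rw [Fintype.card_coe]
  omega

theorem exists_place {K : Subfield ℂ} {n : ℕ} {h : V n} {F : Subfield ℂ} {L : Submodule ℂ (V n)}
    (hp : Pos K h F L) {g : V n} (hg : Genr K h F L g) :
    ∃ Γ : Subring (ℂ × ℂ), Plc Γ ∧ (∀ z ∈ F, (z, z) ∈ Γ) ∧ ∀ a, (g a, h a) ∈ Γ := by
  obtain ⟨J, A, c, hJ, hA, hc, hgF, -, -⟩ := param hp (iso_refl (K := K) (h := h))
  have hga := (hgF g).1 hg.1
  have hha := (hgF h).1 fun _ _ => rfl
  have hind := algInd_J hp hg hJ hA hc hga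
  obtain ⟨Γ, hΓ, hPl⟩ := exists_plc (ph_zero (h := fun b : J => h b) hind)
  have hz : ∀ z ∈ F, (z, z) ∈ Γ := by
    intro z hz
    refine hΓ ⟨MvPolynomial.C ⟨z, hz⟩, ?_⟩
    rw [ph_apply, MvPolynomial.aeval_C, MvPolynomial.aeval_C]
    rfl
  have hb : ∀ b : J, (g b, h b) ∈ Γ := by
    intro b
    refine hΓ ⟨MvPolynomial.X b, ?_⟩
    rw [ph_apply, MvPolynomial.aeval_X, MvPolynomial.aeval_X]
  refine ⟨Γ, hPl, hz, fun a => ?_⟩
  have e : (g a, h a) = ∑ b : J, (A a b, A a b) * (g b, h b) + (c a, c a) := by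
    ext
    · rw [Prod.fst_add, Prod.fst_sum]
      exact hga a
    · rw [Prod.snd_add, Prod.snd_sum]
      exact hha a
  rw [e]
  exact Subring.add_mem _ (Subring.sum_mem _ fun b _ => Subring.mul_mem _ (hz _ (hA a b)) (hb b))
    (hz _ (hc a))

end Pool.Agent.PHB
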