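import Pool.Agent.PHB.DAcl

/-!
# PHB-RatS: rational subspaces

Rational subspaces of `ℂ^n`, echelon bases (`exists_ech`, relative version `exists_rel`), rational
combinations (a `k`-linear retraction `ℂ → k` shows that rational vectors are combinations with
coefficients in `k`) and the first operations on positions.
-/

namespace Pool.Agent.PHB

open Submodule

variable {ι : Type} [Fintype ι]

theorem rat_mono {k k' : Subfield ℂ} (hk : k ≤ k') {L : Submodule ℂ (ι → ℂ)} (hL : Rat k L) : Rat k' L := by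
  refine hL.trans (span_mono ?_)
  rintro l ⟨hl, hr⟩
  exact ⟨hl, fun a => hk (hr a)⟩

theorem rat_sup {k : Subfield ℂ} {L L' : Submodule ℂ (ι → ℂ)} (hL : Rat k L) (hL' : Rat k L') : Rat k (L ⊔ L') := by
  refine sup_le (hL.trans (span_mono ?_)) (hL'.trans (span_mono ?_))
  · rintro l ⟨hl, hr⟩
    exact ⟨mem_sup_left hl, hr⟩
  · rintro l ⟨hl, hr⟩
    exact ⟨mem_sup_right hl, hr⟩

theorem rat_span {k : Subfield ℂ} {X : Set (ι → ℂ)} (hX : ∀ x ∈ X, Rv k x) : Rat k (span ℂ X) :=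
  span_le.2 (fun x hx => subset_span ⟨subset_span hx, hX x hx⟩)

/-- the reduction modulo a family with pivots -/
private noncomputable def red {n : ℕ} (x : Fin n → ι → ℂ) (p : Fin n → ι) :
    (ι → ℂ) →ₗ[ℂ] (ι → ℂ) :=
  LinearMap.id - ∑ i, (LinearMap.proj (p i) : (ι → ℂ) →ₗ[ℂ] ℂ).smulRight (x i)

private theorem red_apply {n : ℕ} (x : Fin n → ι → ℂ) (p : Fin n → ι) (v : ι → ℂ) :
    red x p v = v - ∑ i, v (p i) • x i := by
  simp [red, LinearMap.sub_apply, LinearMap.sum_apply]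

private theorem rv_red {k : Subfield ℂ} {n : ℕ} {x : Fin n → ι → ℂ} {p : Fin n → ι}
    (hx : ∀ i, Rv k (x i)) {v : ι → ℂ} (hv : Rv k v) : Rv k (red x p v) := by
  intro a
  rw [red_apply, Pi.sub_apply, Finset.sum_apply]
  exact k.sub_mem (hv a) (k.sum_mem fun i _ => k.mul_mem (hv _) (hx i a))

private theorem red_piv {n : ℕ} {x : Fin n → ι → ℂ} {p : Fin n → ι}
    (hxp : ∀ i j, x i (p j) = if i = j then 1 else 0) (v : ι → ℂ) (j : Fin n) :
    red x p v (p j) = 0 := by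
  rw [red_apply, Pi.sub_apply, Finset.sum_apply]
  simp [hxp]

private theorem red_self {n : ℕ} {x : Fin n → ι → ℂ} {p : Fin n → ι} {v : ι → ℂ}
    (hv : ∀ j, v (p j) = 0) : red x p v = v := by
  rw [red_apply]
  simp [hv]

private theorem red_mem {n : ℕ} {x : Fin n → ι → ℂ} {p : Fin n → ι} {L : Submodule ℂ (ι → ℂ)}
    (hx : ∀ i, x i ∈ L) {v : ι → ℂ} (hv : v ∈ L) : red x p v ∈ L := by
  rw [red_apply]
  exact L.sub_mem hv (L.sum_mem fun i _ => L.smul_mem _ (hx i))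

/-- the elements of `L` which vanish at the pivots -/
private def kerP {n : ℕ} (p : Fin n → ι) (L : Submodule ℂ (ι → ℂ)) : Submodule ℂ (ι → ℂ) where
  carrier := {l | l ∈ L ∧ ∀ j, l (p j) = 0}
  add_mem' := by
    rintro v w ⟨hv, hv'⟩ ⟨hw, hw'⟩
    exact ⟨L.add_mem hv hw, fun j => by rw [Pi.add_apply, hv', hw', add_zero]⟩
  zero_mem' := ⟨L.zero_mem, fun j => rfl⟩
  smul_mem' := by
    rintro c v ⟨hv, hv'⟩
    exact ⟨L.smul_mem c hv, fun j => by rw [Pi.smul_apply, hv', smul_zero]⟩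

private theorem mem_kerP {n : ℕ} {p : Fin n → ι} {L : Submodule ℂ (ι → ℂ)} {l : ι → ℂ} :
    l ∈ kerP p L ↔ l ∈ L ∧ ∀ j, l (p j) = 0 := Iff.rfl

private theorem rat_kerP {k : Subfield ℂ} {n : ℕ} {x : Fin n → ι → ℂ} {p : Fin n → ι}
    {L : Submodule ℂ (ι → ℂ)} (hL : Rat k L) (hx : ∀ i, x i ∈ L ∧ Rv k (x i))
    (hxp : ∀ i j, x i (p j) = if i = j then 1 else 0) : Rat k (kerP p L) := by
  intro l hl
  obtain ⟨hl1, hl2⟩ := mem_kerP.1 hl
  have h1 : red x p l ∈ (span ℂ {l | l ∈ L ∧ Rv k l}).map (red x p) :=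
    mem_map_of_mem (hL hl1)
  rw [red_self hl2, map_span] at h1
  refine span_mono ?_ h1
  rintro _ ⟨v, ⟨hv, hvr⟩, rfl⟩
  exact ⟨mem_kerP.2 ⟨red_mem (fun i => (hx i).1) hv, fun j => red_piv hxp v j⟩,
    rv_red (fun i => (hx i).2) hvr⟩

private theorem coef_piv {n : ℕ} {x : Fin n → ι → ℂ} {p : Fin n → ι}
    (hxp : ∀ i j, x i (p j) = if i = j then 1 else 0) (c : Fin n → ℂ) (j : Fin n) :
    (∑ i, c i • x i) (p j) = c j := by
  rw [Finset.sum_apply]
  simp [hxp]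

private theorem li_piv {n : ℕ} {x : Fin n → ι → ℂ} {p : Fin n → ι}
    (hxp : ∀ i j, x i (p j) = if i = j then 1 else 0) : LinearIndependent ℂ x := by
  rw [Fintype.linearIndependent_iff]
  intro c hc j
  have h1 := coef_piv hxp c j
  rw [hc] at h1
  exact h1.symm

private theorem sup_kerP {n : ℕ} {x : Fin n → ι → ℂ} {p : Fin n → ι}
    {L₁ : Submodule ℂ (ι → ℂ)} (hx : ∀ i, x i ∈ L₁)
    (hxp : ∀ i j, x i (p j) = if i = j then 1 else 0) :
    L₁ = span ℂ (Set.range x) ⊔ kerP p L₁ := by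
  apply le_antisymm
  · intro l hl
    have h1 : l = (∑ i, l (p i) • x i) + red x p l := by
      rw [red_apply]; abel
    rw [h1]
    exact add_mem_sup (sum_mem fun i _ => smul_mem _ _ (subset_span ⟨i, rfl⟩))
      (mem_kerP.2 ⟨red_mem hx hl, fun j => red_piv hxp l j⟩)
  · refine sup_le (span_le.2 ?_) (fun l hl => (mem_kerP.1 hl).1)
    rintro _ ⟨i, rfl⟩
    exact hx i

private theorem inf_kerP {n : ℕ} {x : Fin n → ι → ℂ} {p : Fin n → ι}
    {L₁ : Submodule ℂ (ι → ℂ)} (hxp : ∀ i j, x i (p j) = if i = j then 1 else 0) :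
    span ℂ (Set.range x) ⊓ kerP p L₁ = ⊥ := by
  rw [eq_bot_iff]
  rintro l ⟨hl1, hl2⟩
  obtain ⟨c, hc⟩ := (Submodule.mem_span_range_iff_exists_fun ℂ).1 hl1
  have h2 : c = 0 := by
    funext j
    have h3 := coef_piv hxp c j
    rw [hc, (mem_kerP.1 hl2).2 j] at h3
    exact h3.symm
  rw [mem_bot, ← hc, h2]
  simp

private theorem finrank_kerP {n : ℕ} {x : Fin n → ι → ℂ} {p : Fin n → ι}
    {L₁ : Submodule ℂ (ι → ℂ)} (hx : ∀ i, x i ∈ L₁)
    (hxp : ∀ i j, x i (p j) = if i = j then 1 else 0) :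
    Module.finrank ℂ L₁ = n + Module.finrank ℂ (kerP p L₁) := by
  have h1 := finrank_sup_add_finrank_inf_eq (span ℂ (Set.range x)) (kerP p L₁)
  rw [inf_kerP hxp, finrank_bot, add_zero, ← sup_kerP hx hxp,
    finrank_span_eq_card (li_piv hxp), Fintype.card_fin] at h1
  exact h1

private theorem exists_ech_aux {k : Subfield ℂ} (n : ℕ) : ∀ {L : Submodule ℂ (ι → ℂ)},
    Rat k L → Module.finrank ℂ L = n →
    ∃ (x : Fin n → ι → ℂ) (p : Fin n → ι),
      (∀ i, x i ∈ L ∧ Rv k (x i)) ∧ (∀ i j, x i (p j) = if i = j then 1 else 0) ∧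
      L = span ℂ (Set.range x) := by
  induction n with
  | zero =>
    intro L _ hn
    refine ⟨Fin.elim0, Fin.elim0, fun i => i.elim0, fun i => i.elim0, ?_⟩
    rw [Submodule.finrank_eq_zero.1 hn]
    simp
  | succ n ih =>
    intro L hL hn
    -- a rational vector with a coordinate `1`
    obtain ⟨x0, a, hx0, hx0r, hx0a⟩ : ∃ (x0 : ι → ℂ) (a : ι), x0 ∈ L ∧ Rv k x0 ∧ x0 a = 1 := by
      by_contra hcon
      push Not at hcon
      have h1 : L = ⊥ := by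
        rw [eq_bot_iff]
        refine hL.trans (span_le.2 ?_)
        rintro l ⟨hl, hlr⟩
        by_contra hl0
        have h2 : ∃ a, l a ≠ 0 := by
          by_contra h3
          push Not at h3
          exact hl0 (funext h3)
        obtain ⟨a, ha⟩ := h2
        refine hcon ((l a)⁻¹ • l) a (L.smul_mem _ hl) (fun b => ?_) ?_
        · exact k.mul_mem (k.inv_mem (hlr a)) (hlr b)
        · exact inv_mul_cancel₀ ha
      rw [h1, finrank_bot] at hn
      omega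
    have hx1 : ∀ i : Fin 1, (fun _ : Fin 1 => x0) i ∈ L ∧ Rv k ((fun _ : Fin 1 => x0) i) :=
      fun _ => ⟨hx0, hx0r⟩
    have hxp1 : ∀ i j : Fin 1, (fun _ : Fin 1 => x0) i ((fun _ : Fin 1 => a) j) =
        if i = j then 1 else 0 := by
      intro i j
      rw [if_pos (Subsingleton.elim i j)]
      exact hx0a
    have hfr := finrank_kerP (fun i => (hx1 i).1) hxp1
    obtain ⟨x, p, hx, hxp, hspan⟩ := ih (rat_kerP hL hx1 hxp1) (by omega)
    have hxa : ∀ i, x i a = 0 := fun i => (mem_kerP.1 (hx i).1).2 0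
    obtain ⟨x0', hx0'⟩ : ∃ x0' : ι → ℂ, x0' = red x p x0 := ⟨_, rfl⟩
    have hx0'L : x0' ∈ L := by
      rw [hx0']; exact red_mem (fun i => (mem_kerP.1 (hx i).1).1) hx0
    have hx0'r : Rv k x0' := by
      rw [hx0']; exact rv_red (fun i => (hx i).2) hx0r
    have hx0'p : ∀ j, x0' (p j) = 0 := by
      intro j; rw [hx0']; exact red_piv hxp x0 j
    have hx0'a : x0' a = 1 := by
      rw [hx0', red_apply, Pi.sub_apply, Finset.sum_apply, hx0a]
      simp [hxa]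
    refine ⟨Fin.cons x0' x, Fin.cons a p, ?_, ?_, ?_⟩
    · intro i
      refine Fin.cases ?_ (fun i => ?_) i
      · exact ⟨hx0'L, hx0'r⟩
      · exact ⟨(mem_kerP.1 (hx i).1).1, (hx i).2⟩
    · intro i j
      refine Fin.cases ?_ (fun i => ?_) i
      · refine Fin.cases ?_ (fun j => ?_) j
        · simpa using hx0'a
        · rw [Fin.cons_zero, Fin.cons_succ, hx0'p, if_neg (Fin.succ_ne_zero j).symm]
      · refine Fin.cases ?_ (fun j => ?_) j
        · rw [Fin.cons_zero, Fin.cons_succ, hxa, if_neg (Fin.succ_ne_zero i)]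
        · rw [Fin.cons_succ, Fin.cons_succ, hxp]
          simp only [Fin.succ_inj]
    · have hx1' : ∀ i : Fin 1, (fun _ : Fin 1 => x0') i ∈ L := fun _ => hx0'L
      have hxp1' : ∀ i j : Fin 1, (fun _ : Fin 1 => x0') i ((fun _ : Fin 1 => a) j) =
          if i = j then 1 else 0 := by
        intro i j
        rw [if_pos (Subsingleton.elim i j)]
        exact hx0'a
      have h1 := sup_kerP hx1' hxp1'
      rw [hspan] at h1
      rw [Fin.range_cons, ← Set.singleton_union, span_union]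
      rw [Set.range_const] at h1
      exact h1

theorem exists_ech {k : Subfield ℂ} {L : Submodule ℂ (ι → ℂ)} (hL : Rat k L) :
    ∃ (x : Fin (Module.finrank ℂ L) → ι → ℂ) (p : Fin (Module.finrank ℂ L) → ι),
      (∀ i, x i ∈ L ∧ Rv k (x i)) ∧ (∀ i j, x i (p j) = if i = j then 1 else 0) ∧
      L = span ℂ (Set.range x) :=
  exists_ech_aux _ hL rfl

theorem exists_rel {k k₁ : Subfield ℂ} (hk : k ≤ k₁) {L L₁ : Submodule ℂ (ι → ℂ)} (hL : Rat k L) (hL₁ : Rat k₁ L₁)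
    (hLL : L ≤ L₁) :
    ∃ (x : Fin (Module.finrank ℂ L) → ι → ℂ) (p : Fin (Module.finrank ℂ L) → ι)
      (y : Fin (Module.finrank ℂ L₁ - Module.finrank ℂ L) → ι → ℂ),
      (∀ i, x i ∈ L ∧ Rv k (x i)) ∧ (∀ i j, x i (p j) = if i = j then 1 else 0) ∧ L = span ℂ (Set.range x) ∧
      (∀ i, y i ∈ L₁ ∧ Rv k₁ (y i)) ∧ (∀ i j, y i (p j) = 0) ∧ L₁ = L ⊔ span ℂ (Set.range y) ∧
      (∀ c : Fin (Module.finrank ℂ L₁ - Module.finrank ℂ L) → ℂ, ∑ i, c i • y i ∈ L → c = 0) ∧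
      (∀ l ∈ L₁, (∀ j, l (p j) = 0) → l ∈ span ℂ (Set.range y)) := by
  obtain ⟨x, p, hx, hxp, hspan⟩ := exists_ech hL
  have hx1 : ∀ i, x i ∈ L₁ ∧ Rv k₁ (x i) := fun i => ⟨hLL (hx i).1, fun a => hk ((hx i).2 a)⟩
  have hfr := finrank_kerP (fun i => (hx1 i).1) hxp
  obtain ⟨y, q, hy, hyq, hyspan⟩ := exists_ech_aux
    (Module.finrank ℂ L₁ - Module.finrank ℂ L) (rat_kerP hL₁ hx1 hxp) (by omega)
  refine ⟨x, p, y, hx, hxp, hspan, fun i => ⟨(mem_kerP.1 (hy i).1).1, (hy i).2⟩,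
    fun i j => (mem_kerP.1 (hy i).1).2 j, ?_, ?_, ?_⟩
  · have h1 := sup_kerP (fun i => (hx1 i).1) hxp
    rw [← hyspan, ← hspan] at *
    exact h1
  · intro c hc
    have h2 : ∑ i, c i • y i ∈ span ℂ (Set.range x) ⊓ kerP p L₁ := by
      exact ⟨hspan.le hc, sum_mem fun i _ => smul_mem _ _ (hy i).1⟩
    rw [inf_kerP hxp, mem_bot] at h2
    funext j
    have h3 := coef_piv hyq c j
    rw [h2] at h3
    exact h3.symm
  · intro l hl hlp
    rw [← hyspan]
    exact mem_kerP.2 ⟨hl, hlp⟩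

/-- a `k`-linear retraction of `ℂ` onto `k` -/
private theorem exists_retr (k : Subfield ℂ) : ∃ π : ℂ → ℂ, (∀ z, π z ∈ k) ∧
    (∀ z ∈ k, π z = z) ∧ (∀ z w, π (z + w) = π z + π w) ∧ (π 0 = 0) ∧
    ∀ a ∈ k, ∀ z, π (z * a) = π z * a := by
  obtain ⟨g, hg⟩ := LinearMap.exists_leftInverse_of_injective (Algebra.linearMap k ℂ)
    (LinearMap.ker_eq_bot.2 (algebraMap k ℂ).injective)
  have hg' : ∀ z : k, g (z : ℂ) = z := fun z => LinearMap.congr_fun hg z
  refine ⟨fun z => (g z : ℂ), fun z => (g z).2, ?_, ?_, ?_, ?_⟩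
  · intro z hz
    show ((g z : k) : ℂ) = z
    rw [hg' ⟨z, hz⟩]
  · intro z w
    show ((g (z + w) : k) : ℂ) = _
    rw [map_add]; rfl
  · show ((g 0 : k) : ℂ) = 0
    rw [map_zero]; rfl
  · intro a ha z
    have h1 : z * a = (⟨a, ha⟩ : k) • z := by
      rw [mul_comm]; rfl
    show ((g (z * a) : k) : ℂ) = (g z : ℂ) * a
    rw [h1, map_smul, mul_comm]; rfl

private theorem retr_sum {π : ℂ → ℂ} (hadd : ∀ z w, π (z + w) = π z + π w) (h0 : π 0 = 0)
    {κ : Type} (s : Finset κ) (f : κ → ℂ) : π (∑ i ∈ s, f i) = ∑ i ∈ s, π (f i) := by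
  classical
  induction s using Finset.induction_on with
  | empty => simpa using h0
  | insert i s hi ih => rw [Finset.sum_insert hi, Finset.sum_insert hi, hadd, ih]

omit [Fintype ι] in
private theorem combo_retr {k : Subfield ℂ} {π : ℂ → ℂ} (hid : ∀ z ∈ k, π z = z)
    (hadd : ∀ z w, π (z + w) = π z + π w) (h0 : π 0 = 0)
    (hmul : ∀ a ∈ k, ∀ z, π (z * a) = π z * a) {κ : Type} [Fintype κ] {x : κ → ι → ℂ}
    (hx : ∀ i, Rv k (x i)) {c : κ → ℂ} (hl : Rv k (∑ i, c i • x i)) :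
    ∑ i, c i • x i = ∑ i, π (c i) • x i := by
  funext a
  rw [← hid _ (hl a), Finset.sum_apply, Finset.sum_apply, retr_sum hadd h0]
  refine Finset.sum_congr rfl fun i _ => ?_
  exact hmul _ (hx i a) _

theorem rat_combo {k : Subfield ℂ} {κ : Type} [Fintype κ] {x : κ → ι → ℂ} (hx : ∀ i, Rv k (x i))
    (hi : LinearIndependent ℂ x) {c : κ → ℂ} (hl : Rv k (∑ i, c i • x i)) (i : κ) : c i ∈ k := by
  obtain ⟨π, hπ, hid, hadd, h0, hmul⟩ := exists_retr k
  have h1 := combo_retr hid hadd h0 hmul hx hl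
  have h2 : ∑ i, (c i - π (c i)) • x i = 0 := by
    simp only [sub_smul, Finset.sum_sub_distrib]
    rw [← h1, sub_self]
  have h3 := Fintype.linearIndependent_iff.1 hi _ h2 i
  rw [sub_eq_zero.1 h3]
  exact hπ _

theorem kn_of_span {k : Subfield ℂ} {X : Set (ι → ℂ)} {h : ι → ℂ} (hX : ∀ x ∈ X, Rv k x ∧ x ⬝ᵥ h ∈ k)
    {l : ι → ℂ} (hl : l ∈ span ℂ X) (hlk : Rv k l) : l ⬝ᵥ h ∈ k := by
  obtain ⟨π, hπ, hid, hadd, h0, hmul⟩ := exists_retr k
  obtain ⟨n, c, g, rfl⟩ := Submodule.mem_span_set'.1 hl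
  rw [combo_retr hid hadd h0 hmul (fun i => (hX _ (g i).2).1) hlk, sum_dotProduct]
  refine k.sum_mem fun i _ => ?_
  rw [smul_dotProduct]
  exact k.mul_mem (hπ _) (hX _ (g i).2).2

theorem pos_mono {K k k' : Subfield ℂ} {n : ℕ} {h : V n} {L : Submodule ℂ (V n)} (hp : Pos K h k L)
    (hk' : Fld K k') (hkk : k ≤ k') : Pos K h k' L := by
  refine ⟨hk', rat_mono hkk hp.rat, fun l hl hlr => ?_⟩
  refine kn_of_span (X := {l | l ∈ L ∧ Rv k l}) ?_ (hp.rat hl) hlr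
  rintro x ⟨hx, hxr⟩
  exact ⟨fun a => hkk (hxr a), hkk (hp.kn x hx hxr)⟩

theorem pos_sup {K k : Subfield ℂ} {n : ℕ} {h : V n} {L : Submodule ℂ (V n)} (hp : Pos K h k L)
    {X : Set (V n)} (hX : ∀ x ∈ X, Rv k x ∧ x ⬝ᵥ h ∈ k) : Pos K h k (L ⊔ span ℂ X) := by
  refine ⟨hp.fld, rat_sup hp.rat (rat_span fun x hx => (hX x hx).1), fun l hl hlr => ?_⟩
  refine kn_of_span (X := {l | l ∈ L ∧ Rv k l} ∪ X) ?_ ?_ hlr
  · rintro x (⟨hx, hxr⟩ | hx)
    · exact ⟨hxr, hp.kn x hx hxr⟩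
    · exact hX x hx
  · rw [span_union]
    exact sup_le_sup_right hp.rat _ hl

end Pool.Agent.PHB
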