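import Pool.Agent.PHB.EllS
import Pool.Agent.PHB.AddG

/-!
# PHB-StA: the value of the hidden sum does not spoil a good position (imports EllS, AddG)

NOTATION.  `kx = acl k (range x)`, `y = ell x ⬝ᵥ h`, `ky = acl kx {y}`.
PLAN.  `Nn K h kx = Nn K h k` (`nn_gen`); `dim Nn K h k ≤ rk k ≤ κ` (`nn_le`).  `dd y ≡ Th K h (ell x)` modulo `dK kx` (`dd_mul`, `dd_sum`; the coordinates of `ell x` are
integer polynomials in the `x i`, so lie in `kx`), so `dK ky = dK kx ⊔ span {Th K h (ell x)}`.  If `y ∈ kx` then `ell x ∈ Nn K h kx = Nn K h k`, contradicting `ell_not_mem`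
with `L = ⊥` (`r = 0`).
`Nn K h ky = Nn K h k ⊔ span {ell x}` (`≤` is enough): `Th l ∈ dK kx ⊔ span {Th (ell x)}` gives `Th (l - c • ell x) ∈ dK kx`.
Good: let `(k', L')` be a position, `ky ≤ k'`, `L ≤ L'`, `mu L' ≤ mu L + S0`.  If `rk k' ≥ rk ky + (dim L' - dim L)` done.  Otherwise `rk k' ≤ rk k + (n + 1) + S0`
(`rk_acl_le` twice).  `pos_ineq` for `ky ≤ k'`: `dim L' + rk ky ≤ dim (L' ⊓ Nn ky) + rk k'`.  `L' ⊓ Nn ky ≤ L`: let `l ∈ L'`, `l = ν + c • ell x`; `c ≠ 0` gives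
`ell x ∈ Nn K h k ⊔ L'`, contradicting `ell_not_mem` (`dim Im L' ≤ dim Im L + S0 ≤ r`, `finrank_add_im_le`); so `l ∈ L' ⊓ Nn K h k ≤ L` by `tl` with `ks = k'`, `Ls = L'`,
`t = S0 + (n + 1)`, `j = ρ = S0`.
-/

namespace Pool.Agent.PHB

open Submodule

private theorem ell_mem {n : ℕ} (k : Subfield ℂ) (x : Fin n → ℂ) (a : Mon n) :
    ell x a ∈ acl k (Set.range x) := by
  unfold ell ellD mnl
  refine sum_mem fun e _ => mul_mem (prod_mem fun i _ => pow_mem ?_ _) (prod_mem fun i _ => pow_mem ?_ _)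
  · exact subset_acl _ _ ⟨i, rfl⟩
  · exact natCast_mem _ _

private theorem dd_val {K k : Subfield ℂ} {n : ℕ} {h l : V n} (hl : ∀ a, l a ∈ k) :
    dd K (l ⬝ᵥ h) - Th K h l ∈ dK K k := by
  have h1 : dd K (l ⬝ᵥ h) - Th K h l = ∑ a, h a • dd K (l a) := by
    unfold dotProduct Th
    rw [dd_sum, Fintype.linearCombination_apply, ← Finset.sum_sub_distrib]
    refine Finset.sum_congr rfl fun a _ => ?_
    rw [dd_mul, add_sub_cancel_left]
  rw [h1]
  exact sum_mem fun a _ => Submodule.smul_mem _ _ (dd_mem (hl a))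

theorem good_graph {K : Subfield ℂ} {n : ℕ} {h : V n} (hinf : ¬ FiniteDimensional ℂ (Om K)) (hh : Gn K h)
    {k : Subfield ℂ} {L : Submodule ℂ (V n)} {S0 S1 κ r : ℕ} (hp : Pos K h k L) (hg : Good K h k L S1)
    {x : Fin n → ℂ} (hx : Ind K (acl k (Set.range h)) x)
    (hS : (S0 + (n + 1)) + S0 + 1 + (1 + (S0 + (n + 1))) * S0 ≤ S1) (hκ : rk K k ≤ κ)
    (hr : Module.finrank ℂ (Im L) + S0 ≤ r) (h2 : κ + (κ + 1) * r < 2 ^ n) :
    ell x ⬝ᵥ h ∉ acl k (Set.range x) ∧ Pos K h (acl (acl k (Set.range x)) {ell x ⬝ᵥ h}) L ∧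
      Good K h (acl (acl k (Set.range x)) {ell x ⬝ᵥ h}) L S0 := by
  have hkx : Fld K (acl k (Set.range x)) := acl_fld hp.fld (Set.finite_range x)
  have hky : Fld K (acl (acl k (Set.range x)) {ell x ⬝ᵥ h}) := acl_fld hkx (Set.finite_singleton _)
  have hN : Nn K h (acl k (Set.range x)) = Nn K h k := nn_gen hx
  have hdim : Module.finrank ℂ (Nn K h k) ≤ κ := (nn_le hh hp.fld).trans hκ
  have hdy := dd_val (K := K) (h := h) (ell_mem k x)
  have hkk : k ≤ acl (acl k (Set.range x)) {ell x ⬝ᵥ h} := (le_acl k _).trans (le_acl _ _)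
  refine ⟨?_, pos_mono hp hky hkk, ?_⟩
  · intro hy
    have h1 : ell x ∈ Nn K h (acl k (Set.range x)) := by
      have h3 : Th K h (ell x) = dd K (ell x ⬝ᵥ h) - (dd K (ell x ⬝ᵥ h) - Th K h (ell x)) := by abel
      change Th K h (ell x) ∈ dK K (acl k (Set.range x))
      rw [h3]
      exact sub_mem (dd_mem hy) hdy
    rw [hN] at h1
    exact ell_not_mem hinf hp.fld hx hdim (by omega : Module.finrank ℂ (Im L) ≤ r) h2
      (Submodule.mem_sup_left h1)
  · have hNy : ∀ l ∈ Nn K h (acl (acl k (Set.range x)) {ell x ⬝ᵥ h}),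
        ∃ ν ∈ Nn K h k, ∃ c : ℂ, ν + c • ell x = l := by
      intro l hl
      have hl' : Th K h l ∈ dK K (acl (acl k (Set.range x)) {ell x ⬝ᵥ h}) := hl
      rw [dK_acl, Set.image_singleton] at hl'
      obtain ⟨w, hw, z, hz, hwz⟩ := Submodule.mem_sup.1 hl'
      obtain ⟨c, rfl⟩ := Submodule.mem_span_singleton.1 hz
      refine ⟨l - c • ell x, ?_, c, by abel⟩
      rw [← hN]
      change Th K h (l - c • ell x) ∈ dK K (acl k (Set.range x))
      have h3 : Th K h (l - c • ell x) = w + c • (dd K (ell x ⬝ᵥ h) - Th K h (ell x)) := by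
        rw [map_sub, map_smul, ← hwz, smul_sub]
        abel
      rw [h3]
      exact add_mem hw (Submodule.smul_mem _ _ hdy)
    intro k' L' hp' hk' hL' hmu
    by_contra hcon
    obtain ⟨hd1, hd2⟩ := finrank_add_im_le hL' hmu
    have hr1 : rk K (acl (acl k (Set.range x)) {ell x ⬝ᵥ h}) ≤ rk K (acl k (Set.range x)) + 1 := by
      have h3 := rk_acl_le hkx (fun _ : Fin 1 => ell x ⬝ᵥ h)
      rw [Set.range_const, Fintype.card_fin] at h3
      exact h3
    have hr2 : rk K (acl k (Set.range x)) ≤ rk K k + n := by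
      have h3 := rk_acl_le hp.fld x
      rw [Fintype.card_fin] at h3
      exact h3
    have hpi := pos_ineq hh hky hp' hk'
    have hle : L' ⊓ Nn K h (acl (acl k (Set.range x)) {ell x ⬝ᵥ h}) ≤ L := by
      rintro l ⟨hl1, hl2⟩
      obtain ⟨ν, hν, c, hc⟩ := hNy l hl2
      by_cases hc0 : c = 0
      · rw [hc0, zero_smul, add_zero] at hc
        have htl := tl hp hg hp'.fld (hkk.trans hk') hp'.rat hL' (S0 + (n + 1)) S0 S0 (by omega) hd1 hd2 hS
        exact htl ⟨hl1, hc ▸ hν⟩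
      · exfalso
        refine ell_not_mem hinf hp.fld hx hdim (by omega : Module.finrank ℂ (Im L') ≤ r) h2 ?_
        have h3 : ell x = c⁻¹ • (-ν + l) := by
          rw [← hc, neg_add_cancel_left, smul_smul, inv_mul_cancel₀ hc0, one_smul]
        rw [h3]
        exact Submodule.smul_mem _ _ (add_mem (Submodule.mem_sup_left (neg_mem hν))
          (Submodule.mem_sup_right hl1))
    have hfin := Submodule.finrank_mono hle
    omega

end Pool.Agent.PHB
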