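import Pool.Agent.PHB.Rk
import Pool.Agent.PHB.RatC
import Pool.Agent.PHB.Bas

/-!
# PHB-TLr: the columns of a derivative (imports Rk, RatC, Bas)

PLAN.  By `im_rat` and `exists_rel` (for `ι = Sb n`, `k ≤ k₁`, `Im L ≤ Im L₁`) there are: a basis `u_1, .., u_r` (coordinates in `k`, `r = dim Im L`) of
`Im L` and vectors `v_1, .., v_ρ` (coordinates in `k₁`, `ρ = dim Im L₁ - dim Im L`) with `Im L₁ = Im L ⊔ span v`; together a basis
`U` of `Im L₁`.  By `exists_basis` (`A = k₁`) choose `t : Fin m → ℂ` in `k₁`, `m = rk k₁ - rk k`, `dK k₁ ≤ dK k ⊔ span dd t`, and by `rat_coeff` write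
`dd (v_s(S)) ≡ ∑_j w_{s,j}(S) • dd t_j` modulo `dK k`.  Let `U' = Im L₁ ⊔ span {w_{s,j} | s ≤ ρ, j < m}`:
`dim U' ≤ dim Im L₁ + m ρ`.
Let `l ∈ L₁`.  The matrix `C = (l (mad S T))_{S,T}` is symmetric and all its columns (hence rows) lie in `Im L₁`, so
`l (mad S T) = ∑_{a,b} U_a(S) c_{ab} U_b(T)` with complex numbers `c_{ab}` (choose coefficients of the columns w.r.t. the basis: `C = U B`, `B` a matrix
whose rows are combinations of rows of `C` (as `U` has a left inverse), so lie in `Im L₁` too).
Let `φ` vanish on `dK k`, `D = φ ∘ dd K` is a derivation of `ℂ` over `k`.  `D (l (mad S T)) = ∑ D(U_a(S)) c_{ab} U_b(T) + U_a(S) D(c_{ab}) U_b(T)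
+ U_a(S) c_{ab} D(U_b(T))`; as a function of `S` the second and third sums are in `Im L₁` and the first is a combination of the vectors `D(U_a(·))`,
which are `0` for `a` in the first group (`D` vanishes on `k`) and `D (v_s(S)) = ∑_j φ(dd t_j) w_{s,j}(S)` for the second.
-/

namespace Pool.Agent.PHB

open Submodule

theorem cols_derivative {K k k₁ : Subfield ℂ} {n : ℕ} {L L₁ : Submodule ℂ (V n)} (hk : Fld K k) (hk₁ : Fld K k₁)
    (hkk : k ≤ k₁) (hL : Rat k L) (hL₁ : Rat k₁ L₁) (hLL : L ≤ L₁) :
    ∃ U : Submodule ℂ (Sb n → ℂ), Im L₁ ≤ U ∧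
      Module.finrank ℂ U ≤ Module.finrank ℂ (Im L₁) +
        (rk K k₁ - rk K k) * (Module.finrank ℂ (Im L₁) - Module.finrank ℂ (Im L)) ∧
      ∀ l ∈ L₁, ∀ φ : Om K →ₗ[ℂ] ℂ, (∀ w ∈ dK K k, φ w = 0) →
        ∀ T, cat (fun a => φ (dd K (l a))) T ∈ U := by
  obtain ⟨x, p, y, hx, -, hIx, hy, -, hI1, -, -⟩ :=
    exists_rel hkk (im_rat hL) (im_rat hL₁) (im_mono hLL)
  obtain ⟨t, htk, -, htg⟩ := exists_basis hk hk₁ hkk (A := (k₁ : Set ℂ)) (le_refl _) le_sup_right
  have hsp : dK K k₁ ≤ dK K k ⊔ span ℂ (Set.range fun i => dd K (t i)) := by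
    have h1 := dK_mono (K := K) htg
    rw [dK_acl, ← Set.range_comp] at h1
    exact h1
  have hc : ∀ s S, ∃ c : Fin (rk K k₁ - rk K k) → ℂ, (∀ i, c i ∈ k₁) ∧
      dd K (y s S) - ∑ i, c i • dd K (t i) ∈ dK K k := fun s S =>
    rat_coeff hk hk₁ hkk t htk hsp ((hy s).2 S)
  choose c hck hc using hc
  let w : Fin (rk K k₁ - rk K k) × Fin (Module.finrank ℂ (Im L₁) - Module.finrank ℂ (Im L)) →
    Sb n → ℂ := fun q S => c q.2 S q.1
  refine ⟨Im L₁ ⊔ span ℂ (Set.range w), le_sup_left, ?_, ?_⟩
  · have h1 := Submodule.finrank_add_le_finrank_add_finrank (Im L₁) (span ℂ (Set.range w))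
    have h2 := finrank_range_le_card (R := ℂ) w
    rw [Fintype.card_prod, Fintype.card_fin, Fintype.card_fin] at h2
    exact h1.trans (Nat.add_le_add_left h2 _)
  · intro l hl φ hφ T
    have key : ∀ v ∈ span ℂ (Set.range x ∪ Set.range y),
        (fun S => φ (dd K (v S))) ∈ Im L₁ ⊔ span ℂ (Set.range w) := by
      intro v hv
      have hspan : span ℂ (Set.range x ∪ Set.range y) = Im L₁ := by
        rw [span_union, ← hIx, ← hI1]
      induction hv using span_induction with
      | mem v hv =>
        rcases hv with ⟨i, rfl⟩ | ⟨s, rfl⟩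
        · have h0 : (fun S => φ (dd K (x i S))) = 0 := by
            funext S
            exact hφ _ (dd_mem ((hx i).2 S))
          rw [h0]
          exact zero_mem _
        · have h0 : (fun S => φ (dd K (y s S))) = ∑ j, φ (dd K (t j)) • w (j, s) := by
            funext S
            have h1 := hφ _ (hc s S)
            rw [map_sub, map_sum, sub_eq_zero] at h1
            rw [h1, Finset.sum_apply]
            refine Finset.sum_congr rfl fun j _ => ?_
            rw [map_smul, Pi.smul_apply, smul_eq_mul, smul_eq_mul, mul_comm]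
          rw [h0]
          refine mem_sup_right (sum_mem fun j _ => smul_mem _ _ (subset_span ⟨(j, s), rfl⟩))
      | zero =>
        have h0 : (fun S => φ (dd K ((0 : Sb n → ℂ) S))) = 0 := by
          funext S
          simp only [Pi.zero_apply]
          have h1 : dd K 0 = 0 := dd_fix K.zero_mem
          rw [h1, map_zero]
        rw [h0]
        exact zero_mem _
      | add u v _ _ hu hv =>
        have h0 : (fun S => φ (dd K ((u + v) S))) =
            (fun S => φ (dd K (u S))) + fun S => φ (dd K (v S)) := by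
          funext S
          simp only [Pi.add_apply]
          rw [dd_add, map_add]
        rw [h0]
        exact add_mem hu hv
      | smul a v hv ih =>
        have h0 : (fun S => φ (dd K ((a • v) S))) =
            a • (fun S => φ (dd K (v S))) + φ (dd K a) • v := by
          funext S
          simp only [Pi.add_apply, Pi.smul_apply, smul_eq_mul]
          rw [dd_mul, map_add, map_smul, map_smul, smul_eq_mul, smul_eq_mul, mul_comm (v S)]
        rw [h0]
        rw [hspan] at hv
        exact add_mem (smul_mem _ _ ih) (smul_mem _ _ (mem_sup_left hv))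
    have h1 : cat l T ∈ span ℂ (Set.range x ∪ Set.range y) := by
      rw [span_union, ← hIx, ← hI1]
      exact subset_span ⟨l, hl, T, rfl⟩
    exact key _ h1

end Pool.Agent.PHB
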