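import Pool.Agent.PHB.TLa
import Pool.Agent.PHB.TLr

/-!
# PHB-TL: transversality

A functional in `Ls ⊓ Nn K h k` outside of `L` can be prolonged (`prolong`); the prolongation is small because of
`exists_rel` and `cols_derivative`, which contradicts `Good`.
-/

namespace Pool.Agent.PHB

open Submodule

theorem tl {K : Subfield ℂ} {n : ℕ} {h : V n} {k ks : Subfield ℂ} {L Ls : Submodule ℂ (V n)} {S : ℕ}
    (hp : Pos K h k L) (hg : Good K h k L S) (hks : Fld K ks) (hk : k ≤ ks) (hLs : Rat ks Ls) (hL : L ≤ Ls)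
    (t j ρ : ℕ) (ht : rk K ks ≤ rk K k + t) (hj : Module.finrank ℂ Ls ≤ Module.finrank ℂ L + j)
    (hρ : Module.finrank ℂ (Im Ls) ≤ Module.finrank ℂ (Im L) + ρ) (hS : t + j + 1 + (1 + t) * ρ ≤ S) :
    Ls ⊓ Nn K h k ≤ L := by
  rintro l ⟨hl1, hl2⟩
  by_contra hlL
  obtain ⟨x, p, y, hx, hxp, hxL, hy, hyp, hLsy, hyind, hlast⟩ := exists_rel hk hp.rat hLs hL
  obtain ⟨l', Lp, hl', hlp, hpos, hLLp, hdim, hLp⟩ := prolong hp x p hx hxp hxL hl2 hlL
  have hl'Ls : l' ∈ Ls := by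
    have h1 : L ⊔ span ℂ {l} ≤ Ls :=
      sup_le hL (span_le.2 (Set.singleton_subset_iff.2 hl1))
    exact h1 hl'
  obtain ⟨β, hβ⟩ := (Submodule.mem_span_range_iff_exists_fun ℂ).1 (hlast l' hl'Ls hlp)
  have hF : Fld K (acl ks (Set.range β)) := acl_fld hks (Set.finite_range β)
  have hM : acl k (Set.range l') ≤ acl ks (Set.range β) := by
    refine acl_le (acl_ac ks (Set.range β)) (hk.trans (le_acl ks _)) ?_
    rintro _ ⟨a, rfl⟩
    rw [← hβ, Finset.sum_apply]
    refine Subfield.sum_mem _ fun i _ => ?_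
    rw [Pi.smul_apply, smul_eq_mul]
    exact Subfield.mul_mem _ (subset_acl ks _ (Set.mem_range_self i)) (le_acl ks _ ((hy i).2 a))
  have h1 : rk K (acl k (Set.range l')) ≤ rk K k + t + j := by
    have h2 := rk_mono hF hM
    have h3 : rk K (acl ks (Set.range β)) ≤
        rk K ks + (Module.finrank ℂ Ls - Module.finrank ℂ L) := by
      have h := rk_acl_le hks β
      rw [Fintype.card_fin] at h
      exact h
    omega
  obtain ⟨U, hU1, hU2, hU3⟩ := cols_derivative hp.fld hks hk hp.rat hLs hL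
  have hIm : Im Lp ≤ U := by
    refine (im_mono hLp).trans ?_
    rw [im_sup, im_sup, im_span {w | ∃ φ : Om K →ₗ[ℂ] ℂ, (∀ w ∈ dK K k, φ w = 0) ∧
      w = fun a => φ (dd K (l' a))}]
    refine sup_le (sup_le ((im_mono hL).trans hU1) ?_) ?_
    · exact (im_mono (span_le.2 (Set.singleton_subset_iff.2 hl'Ls))).trans hU1
    · refine span_le.2 ?_
      rintro _ ⟨w, ⟨φ, hφ, rfl⟩, T, rfl⟩
      exact hU3 l' hl'Ls φ hφ T
  have h4 : Module.finrank ℂ (Im Lp) ≤ Module.finrank ℂ U := Submodule.finrank_mono hIm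
  have h5 : (rk K ks - rk K k) * (Module.finrank ℂ (Im Ls) - Module.finrank ℂ (Im L)) ≤ t * ρ :=
    Nat.mul_le_mul (by omega) (by omega)
  have h6 : (1 + t) * ρ = ρ + t * ρ := by ring
  have hmu : mu Lp ≤ mu L + S := by
    unfold mu
    omega
  have h7 := hg (acl k (Set.range l')) Lp hpos (le_acl k _) hLLp hmu
  omega

end Pool.Agent.PHB
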