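import Pool.Agent.PHB.NIn
import Pool.Agent.PHB.RatC
import Pool.Agent.PHB.RatS

/-!
# PHB-TLa: the prolongation of a known functional (imports NIn, RatC, RatS)

PLAN.  `x, p` is the given echelon basis of `L`.  Replace `l` by `l - ∑ l (p i) • x i` and scale: we get
`l'` with `l' (p i) = 0`, `l' a₀ = 1` for some `a₀`, `l' ∈ L ⊔ span {l}`, `l ∈ L ⊔ span {l'}`; `l' ∈ Nn K h k` because `L ≤ Nn K h k` (`pos_le_nn`).
`M = acl k (range l')`, `m = rk M - rk k`, `t : Fin m → ℂ` in `M` with `Ind K k t`, `dK M ≤ dK k ⊔ span dd t` (`exists_basis`, take `A = M`, and `M ≤ acl k (range t)`,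
`dK_acl`).  `rat_coeff`: `dd (l' a) ≡ ∑_j w_j a • dd t_j` modulo `dK k` with `w_j : V n`, `Rv M (w_j)`.
`ν = l' ⬝ᵥ h`: `dd ν = ∑ l' a • dd (h a) + ∑ h a • dd (l' a) ≡ ∑ h a • dd (l' a)` modulo `dK k` (`l' ∈ Nn`), so `dd ν ∈ dK M`, `ν ∈ M` (`mem_of_dd`), and
by `rat_coeff` `dd ν ≡ ∑ ν_j • dd t_j`, `ν_j ∈ M`; comparing coefficients (`Ind K k t`): `w_j ⬝ᵥ h = ν_j ∈ M`.
`L⁺ = L ⊔ span ({l'} ∪ {w_j})` is a position over `M` (`pos_mono`, `pos_sup`).  Dimension: the vectors `w_j` vanish at the pivots `p i` and at `a₀`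
(`dd 0 = dd 1 = 0` and `Ind`), and are linearly independent: if `∑ c_j w_j = 0` with `c ≠ 0`, choose a functional `φ` vanishing on `dK k` with
`φ (dd t_j) = c_j` (`Ind`); then `φ (dd (l' a)) = ∑ c_j w_j a = 0` for all `a`, so the derivation `φ ∘ dd` kills `k` and all `l' a`, hence `dK M`, but some
`c_j ≠ 0`.  So `x, l', w` are independent: `dim L⁺ = dim L + 1 + m`.
Every `φ` vanishing on `dK k` satisfies `φ (dd (l' a)) = ∑_j φ (dd t_j) w_j a`; in the last clause choose `φ` with `φ (dd t_i) = δ_ij` to get `w_j`.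
-/

namespace Pool.Agent.PHB

open Submodule

private theorem tla_fun {K k : Subfield ℂ} {m : ℕ} {t : Fin m → ℂ} (ht : Ind K k t) (c : Fin m → ℂ) :
    ∃ φ : Om K →ₗ[ℂ] ℂ, (∀ w ∈ dK K k, φ w = 0) ∧ ∀ j, φ (dd K (t j)) = c j := by
  classical
  let F : (Fin m → ℂ) →ₗ[ℂ] (Om K ⧸ dK K k) :=
    Fintype.linearCombination ℂ fun j => (dK K k).mkQ (dd K (t j))
  have hF : LinearMap.ker F = ⊥ := by
    rw [LinearMap.ker_eq_bot']
    intro g hg
    apply ht g
    have h1 : F g = (dK K k).mkQ (∑ i, g i • dd K (t i)) := by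
      show Fintype.linearCombination ℂ (fun j => (dK K k).mkQ (dd K (t j))) g = _
      rw [Fintype.linearCombination_apply, map_sum]
      exact Finset.sum_congr rfl fun i _ => ((dK K k).mkQ.map_smul _ _).symm
    rw [h1] at hg
    exact (Submodule.Quotient.mk_eq_zero _).1 hg
  obtain ⟨G, hG⟩ := LinearMap.exists_leftInverse_of_injective F hF
  refine ⟨(Fintype.linearCombination ℂ c).comp (G.comp (dK K k).mkQ), fun w hw => ?_, fun j => ?_⟩
  · have h1 : (dK K k).mkQ w = 0 := (Submodule.Quotient.mk_eq_zero _).2 hw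
    show Fintype.linearCombination ℂ c (G ((dK K k).mkQ w)) = 0
    rw [h1, map_zero, map_zero]
  · have h2 : F (Pi.single j 1) = (dK K k).mkQ (dd K (t j)) := by
      show Fintype.linearCombination ℂ (fun j => (dK K k).mkQ (dd K (t j))) (Pi.single j 1) = _
      rw [Fintype.linearCombination_apply_single, one_smul]
    have h3 : G (F (Pi.single j 1)) = Pi.single j 1 := by
      have h4 := LinearMap.congr_fun hG (Pi.single j (1 : ℂ))
      exact h4
    show Fintype.linearCombination ℂ c (G ((dK K k).mkQ (dd K (t j)))) = c j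
    rw [← h2, h3, Fintype.linearCombination_apply_single, one_smul]

theorem prolong {K : Subfield ℂ} {n : ℕ} {h : V n} {k : Subfield ℂ} {L : Submodule ℂ (V n)}
    (hp : Pos K h k L) (x : Fin (Module.finrank ℂ L) → V n) (p : Fin (Module.finrank ℂ L) → Mon n)
    (hx : ∀ i, x i ∈ L ∧ Rv k (x i)) (hxp : ∀ i j, x i (p j) = if i = j then 1 else 0)
    (hxL : L = span ℂ (Set.range x)) {l : V n} (hl : l ∈ Nn K h k) (hlL : l ∉ L) :
    ∃ (l' : V n) (Lp : Submodule ℂ (V n)), l' ∈ L ⊔ span ℂ {l} ∧ (∀ j, l' (p j) = 0) ∧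
      Pos K h (acl k (Set.range l')) Lp ∧ L ≤ Lp ∧
      Module.finrank ℂ Lp + rk K k = Module.finrank ℂ L + 1 + rk K (acl k (Set.range l')) ∧
      Lp ≤ L ⊔ span ℂ {l'} ⊔ span ℂ {w | ∃ φ : Om K →ₗ[ℂ] ℂ, (∀ w ∈ dK K k, φ w = 0) ∧
        w = fun a => φ (dd K (l' a))} := by
  classical
  -- the normalised functional
  obtain ⟨l', a₀, hl'1, hl'p, hl'a, hl'L⟩ : ∃ (l' : V n) (a₀ : Mon n), l' ∈ L ⊔ span ℂ {l} ∧
      (∀ j, l' (p j) = 0) ∧ l' a₀ = 1 ∧ l' ∈ Nn K h k := by
    have hs : ∑ i, l (p i) • x i ∈ L := L.sum_mem fun i _ => L.smul_mem _ (hx i).1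
    have h1 : l - ∑ i, l (p i) • x i ∈ L ⊔ span ℂ {l} :=
      (L ⊔ span ℂ {l}).sub_mem (mem_sup_right (mem_span_singleton_self l)) (mem_sup_left hs)
    have h2 : ∀ j, (l - ∑ i, l (p i) • x i) (p j) = 0 := by
      intro j
      rw [Pi.sub_apply, Finset.sum_apply]
      have h3 : ∀ i, (l (p i) • x i) (p j) = if i = j then l (p j) else 0 := by
        intro i
        rw [Pi.smul_apply, hxp, smul_eq_mul]
        split_ifs with hij
        · rw [hij, mul_one]
        · rw [mul_zero]
      rw [Finset.sum_congr rfl fun i _ => h3 i, Finset.sum_ite_eq' Finset.univ j fun _ => l (p j),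
        if_pos (Finset.mem_univ j), sub_self]
    have h3 : l - ∑ i, l (p i) • x i ∉ L := fun h4 => hlL (by
      have h5 := L.add_mem h4 hs
      rwa [sub_add_cancel] at h5)
    obtain ⟨a₀, ha₀⟩ : ∃ a₀, (l - ∑ i, l (p i) • x i) a₀ ≠ 0 := by
      by_contra h4
      push Not at h4
      have h5 : l - ∑ i, l (p i) • x i = 0 := funext h4
      rw [h5] at h3
      exact h3 L.zero_mem
    have h4 : l - ∑ i, l (p i) • x i ∈ Nn K h k := (Nn K h k).sub_mem hl (pos_le_nn hp hs)
    refine ⟨((l - ∑ i, l (p i) • x i) a₀)⁻¹ • (l - ∑ i, l (p i) • x i), a₀,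
      (L ⊔ span ℂ {l}).smul_mem _ h1, fun j => ?_, ?_, (Nn K h k).smul_mem _ h4⟩
    · rw [Pi.smul_apply, h2, smul_zero]
    · rw [Pi.smul_apply, smul_eq_mul, inv_mul_cancel₀ ha₀]
  have hM : Fld K (acl k (Set.range l')) := acl_fld hp.fld (Set.finite_range l')
  have hkM : k ≤ acl k (Set.range l') := le_acl k _
  have hl'M : ∀ a, l' a ∈ acl k (Set.range l') := fun a => subset_acl k _ ⟨a, rfl⟩
  obtain ⟨t, htM, hti, hMt⟩ := exists_basis hp.fld hM hkM (A := (acl k (Set.range l') : Set ℂ))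
    (fun z hz => hz) le_sup_right
  have hsp : dK K (acl k (Set.range l')) ≤ dK K k ⊔ span ℂ (Set.range fun i => dd K (t i)) := by
    have h1 := dK_mono (K := K) hMt
    rw [dK_acl K k (Set.range t), ← Set.range_comp] at h1
    exact h1
  have hrc := fun z (hz : z ∈ acl k (Set.range l')) =>
    rat_coeff hp.fld hM hkM t (fun i => htM i) hsp hz
  choose c hcM hc using fun a => hrc (l' a) (hl'M a)
  have hddM : ∀ z ∈ acl k (Set.range l'), dd K z ∈ dK K (acl k (Set.range l')) := fun z hz => dd_mem hz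
  -- functionals
  have hφ : ∀ φ : Om K →ₗ[ℂ] ℂ, (∀ w ∈ dK K k, φ w = 0) → ∀ a,
      φ (dd K (l' a)) = ∑ j, c a j * φ (dd K (t j)) := by
    intro φ h0 a
    have h1 := h0 _ (hc a)
    rw [map_sub, map_sum, sub_eq_zero] at h1
    rw [h1]
    exact Finset.sum_congr rfl fun j _ => by rw [map_smul, smul_eq_mul]
  -- the value of the functional
  have hd0 : dd K (l' ⬝ᵥ h) - ∑ a, h a • dd K (l' a) ∈ dK K k := by
    have h1 : dd K (l' ⬝ᵥ h) - ∑ a, h a • dd K (l' a) = Th K h l' := by
      unfold dotProduct Th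
      rw [dd_sum, Fintype.linearCombination_apply, ← Finset.sum_sub_distrib]
      refine Finset.sum_congr rfl fun a _ => ?_
      rw [dd_mul, add_sub_cancel_right]
    rw [h1]
    exact hl'L
  have hν : l' ⬝ᵥ h ∈ acl k (Set.range l') := by
    refine mem_of_dd hM ?_
    have h1 : ∑ a, h a • dd K (l' a) ∈ dK K (acl k (Set.range l')) :=
      Submodule.sum_mem _ fun a _ => Submodule.smul_mem _ _ (hddM _ (hl'M a))
    have h2 := Submodule.add_mem _ (dK_mono hkM hd0) h1
    rwa [sub_add_cancel] at h2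
  obtain ⟨ν, hνM, hνc⟩ := hrc _ hν
  have hwh : ∀ j, (fun a => c a j) ⬝ᵥ h = ν j := by
    have h1 : ∑ j, ((fun a => c a j) ⬝ᵥ h - ν j) • dd K (t j) ∈ dK K k := by
      have h2 : ∑ a, h a • (dd K (l' a) - ∑ j, c a j • dd K (t j)) ∈ dK K k :=
        Submodule.sum_mem _ fun a _ => Submodule.smul_mem _ _ (hc a)
      have h3 := Submodule.sub_mem _ (Submodule.sub_mem _ hνc hd0) h2
      have h4 : dd K (l' ⬝ᵥ h) - ∑ i, ν i • dd K (t i) - (dd K (l' ⬝ᵥ h) - ∑ a, h a • dd K (l' a)) -
          ∑ a, h a • (dd K (l' a) - ∑ j, c a j • dd K (t j)) =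
          ∑ j, ((fun a => c a j) ⬝ᵥ h - ν j) • dd K (t j) := by
        have h5 : ∑ a, h a • (dd K (l' a) - ∑ j, c a j • dd K (t j)) =
            ∑ a, h a • dd K (l' a) - ∑ j, ((fun a => c a j) ⬝ᵥ h) • dd K (t j) := by
          have h6 : ∑ j, ((fun a => c a j) ⬝ᵥ h) • dd K (t j) = ∑ a, h a • ∑ j, c a j • dd K (t j) := by
            unfold dotProduct
            simp_rw [Finset.sum_smul, Finset.smul_sum]
            rw [Finset.sum_comm]
            refine Finset.sum_congr rfl fun a _ => Finset.sum_congr rfl fun j _ => ?_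
            rw [smul_smul, mul_comm]
          rw [h6, ← Finset.sum_sub_distrib]
          exact Finset.sum_congr rfl fun a _ => smul_sub _ _ _
        have h7 : ∑ j, ((fun a => c a j) ⬝ᵥ h - ν j) • dd K (t j) =
            ∑ j, ((fun a => c a j) ⬝ᵥ h) • dd K (t j) - ∑ j, ν j • dd K (t j) := by
          rw [← Finset.sum_sub_distrib]
          exact Finset.sum_congr rfl fun a _ => sub_smul _ _ _
        rw [h5, h7]
        abel
      rwa [h4] at h3
    intro j
    have h2 := congrFun (hti _ h1) j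
    exact sub_eq_zero.1 h2
  -- the prolongation
  have hX : ∀ y ∈ ({l'} ∪ Set.range fun j => (fun a => c a j : V n)),
      Rv (acl k (Set.range l')) y ∧ y ⬝ᵥ h ∈ acl k (Set.range l') := by
    rintro y (hy | ⟨j, rfl⟩)
    · rw [Set.mem_singleton_iff] at hy
      rw [hy]
      exact ⟨hl'M, hν⟩
    · refine ⟨fun a => hcM a j, ?_⟩
      rw [hwh]
      exact hνM j
  -- the vectors vanish at the pivots
  have hc0 : ∀ a, dd K (l' a) = 0 → ∀ j, c a j = 0 := by
    intro a ha j
    have h1 := hc a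
    rw [ha, zero_sub] at h1
    exact congrFun (hti _ ((Submodule.neg_mem_iff _).1 h1)) j
  have hdd0 : dd K (0 : ℂ) = 0 := dd_fix K.zero_mem
  have hdd1 : dd K (1 : ℂ) = 0 := dd_fix K.one_mem
  have hcp : ∀ i j, c (p i) j = 0 := fun i j => hc0 _ (by rw [hl'p i, hdd0]) j
  have hca : ∀ j, c a₀ j = 0 := fun j => hc0 _ (by rw [hl'a, hdd1]) j
  let y : (Fin (Module.finrank ℂ L) ⊕ (Unit ⊕ Fin (rk K (acl k (Set.range l')) - rk K k))) → V n :=
    Sum.elim x (Sum.elim (fun _ => l') fun j a => c a j)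
  have hy : LinearIndependent ℂ y := by
    rw [Fintype.linearIndependent_iff]
    intro g hg
    have hg' : ∀ a, (∑ i, g (Sum.inl i) * x i a) + (g (Sum.inr (Sum.inl ())) * l' a +
        ∑ j, g (Sum.inr (Sum.inr j)) * c a j) = 0 := by
      intro a
      have h1 := congrFun hg a
      rw [Finset.sum_apply, Fintype.sum_sum_type, Fintype.sum_sum_type, Finset.univ_unique (α := Unit),
        Finset.sum_singleton] at h1
      exact h1
    have h1 : ∀ i, g (Sum.inl i) = 0 := by
      intro i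
      have h2 := hg' (p i)
      have h3 : ∀ i', g (Sum.inl i') * x i' (p i) = if i' = i then g (Sum.inl i) else 0 := by
        intro i'
        rw [hxp]
        split_ifs with hij
        · rw [hij, mul_one]
        · rw [mul_zero]
      rw [Finset.sum_congr rfl fun i' _ => h3 i', Finset.sum_ite_eq' Finset.univ i fun _ => g (Sum.inl i),
        if_pos (Finset.mem_univ i), hl'p i, mul_zero, zero_add,
        Finset.sum_eq_zero fun j _ => by rw [hcp i j, mul_zero], add_zero] at h2
      exact h2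
    have h2 : g (Sum.inr (Sum.inl ())) = 0 := by
      have h3 := hg' a₀
      rw [Finset.sum_eq_zero fun i _ => by rw [h1 i, zero_mul], zero_add, hl'a, mul_one,
        Finset.sum_eq_zero fun j _ => by rw [hca j, mul_zero], add_zero] at h3
      exact h3
    have h3 : ∀ a, ∑ j, g (Sum.inr (Sum.inr j)) * c a j = 0 := by
      intro a
      have h4 := hg' a
      rw [Finset.sum_eq_zero fun i _ => by rw [h1 i, zero_mul], zero_add, h2, zero_mul, zero_add] at h4
      exact h4
    have h4 : ∀ j, g (Sum.inr (Sum.inr j)) = 0 := by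
      obtain ⟨φ, hφ0, hφt⟩ := tla_fun hti fun j => g (Sum.inr (Sum.inr j))
      have h5 : ∀ a, φ (dd K (l' a)) = 0 := by
        intro a
        rw [hφ φ hφ0 a, ← h3 a]
        exact Finset.sum_congr rfl fun j _ => by rw [hφt j, mul_comm]
      have h6 : dK K (acl k (Set.range l')) ≤ LinearMap.ker φ := by
        rw [dK_acl]
        refine sup_le (fun w hw => hφ0 w hw) ?_
        rw [span_le]
        rintro _ ⟨_, ⟨a, rfl⟩, rfl⟩
        exact h5 a
      intro j
      rw [← hφt j]
      exact h6 (hddM _ (htM j))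
    rintro (i | i | j)
    · exact h1 i
    · exact h2
    · exact h4 j
  have hLp : L ⊔ span ℂ ({l'} ∪ Set.range fun j => (fun a => c a j : V n)) = span ℂ (Set.range y) := by
    have h1 : Set.range y = Set.range x ∪ ({l'} ∪ Set.range fun j => (fun a => c a j : V n)) := by
      show Set.range (Sum.elim x (Sum.elim (fun _ => l') fun j a => c a j)) = _
      rw [Set.Sum.elim_range, Set.Sum.elim_range, Set.range_const]
    rw [h1, span_union (Set.range x), ← hxL]
  refine ⟨l', L ⊔ span ℂ ({l'} ∪ Set.range fun j => (fun a => c a j : V n)), hl'1, hl'p,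
    pos_sup (pos_mono hp hM hkM) hX, le_sup_left, ?_, ?_⟩
  · rw [hLp, finrank_span_eq_card hy, Fintype.card_sum, Fintype.card_sum, Fintype.card_fin,
      Fintype.card_fin, Fintype.card_unit]
    have h1 := rk_mono hM hkM
    omega
  · refine sup_le (le_sup_left.trans le_sup_left) ?_
    rw [span_le]
    rintro w (hw | ⟨j, rfl⟩)
    · rw [Set.mem_singleton_iff] at hw
      rw [hw]
      exact mem_sup_left (mem_sup_right (mem_span_singleton_self l'))
    · refine mem_sup_right (subset_span ?_)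
      obtain ⟨φ, hφ0, hφt⟩ := tla_fun hti fun i => if i = j then 1 else 0
      refine ⟨φ, hφ0, funext fun a => ?_⟩
      rw [hφ φ hφ0 a]
      have h1 : ∀ i, c a i * φ (dd K (t i)) = if i = j then c a j else 0 := by
        intro i
        rw [hφt i]
        split_ifs with hij
        · rw [hij, mul_one]
        · rw [mul_zero]
      rw [Finset.sum_congr rfl fun i _ => h1 i, Finset.sum_ite_eq' Finset.univ j fun _ => c a j,
        if_pos (Finset.mem_univ j)]

end Pool.Agent.PHB
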